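import Pool.Agent.Helper16.CD.Defs

/-!
# CD-TOP: plane topology

`fillIn A = {z | the component of z in Aᶜ is bounded}` (`A ⊆ fillIn A` because `connectedComponentIn F x = ∅` for `x ∉ F`).

`fillIn_ball`: sup metric; `z ∉ closedBall y R` means some coordinate differs by more than `R`, say
`z.1 > y.1 + R`; the ray `{(t, z.2) | t ≥ z.1}` is connected, unbounded, contains `z` and misses `closedBall y R ⊇ A`, so the
component of `z` in `Aᶜ` contains it (`IsPreconnected.subset_connectedComponentIn`).
`fillIn_conn`: `C` is a connected subset of `Aᶜ` containing `z, z'`: equal components.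
`mem_interior_fillIn`: the component of `z` in the open set `Aᶜ` is open (locally connected space), contains `z`, and all
its points are in `fillIn A`.
`fillIn_subset`: `A` bounded, `z ∈ fillIn A`, `y ∈ A` then `dist z y ≤ diam A` (`fillIn_ball` with the ball of radius `diam A` at `y`).
`fillIn_cthickening`: if `z ∉ A` and the component `U` of `z` in `Aᶜ` is unbounded: `U` is open and connected, so path connected
(`IsOpen.isConnected_iff_isPathConnected`); let `A ⊆ closedBall 0 R`, take `y ∈ U` with `‖y‖ > R + 1` and a path in `U` from `z` to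
`y`, its image is compact and at distance `ε₁ > 0` from `A` (if `A` is empty everything is trivial).  With
`ε = min (ε₁/2) (1/2)` the path and the coordinate ray from `y` away from `0` miss `cthickening ε A`; their union is connected and unbounded.
`fillIn_image`: a similarity `z ↦ c (z + a)`, `c > 0`, is a homeomorphism that preserves boundedness and maps complement to
complement, components to components (`Homeomorph.image_connectedComponentIn`).
`isConnected_un`: induction on the walk; `IsConnected.union` for meeting connected sets.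
-/

set_option autoImplicit false

namespace Pool.Agent.Helper16.CD

open MeasureTheory ProbabilityTheory Metric Set
open scoped ENNReal NNReal
open Pool.Agent.Helper3.CD

theorem subset_fillIn (A : Set Plane) : A ⊆ fillIn A := by
  intro z hz
  change Bornology.IsBounded (connectedComponentIn Aᶜ z)
  rw [connectedComponentIn_eq_empty (show z ∉ Aᶜ from fun h => h hz)]
  exact Bornology.isBounded_empty

/-- A point outside of a closed ball lies on an unbounded connected set outside of the ball. -/
private theorem top_ray {y z : Plane} {R : ℝ} (hz : z ∉ closedBall y R) :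
    ∃ C : Set Plane, z ∈ C ∧ IsPreconnected C ∧ Disjoint C (closedBall y R) ∧
      ¬ Bornology.IsBounded C := by
  have key : ∀ (f : ℝ → Plane) (hf : Continuous f) (h0 : f 0 = z)
      (hunb : ∀ t : ℝ, 0 ≤ t → t ≤ dist (f t) z) (hout : ∀ t : ℝ, 0 ≤ t → R < dist (f t) y),
      ∃ C : Set Plane, z ∈ C ∧ IsPreconnected C ∧ Disjoint C (closedBall y R) ∧
        ¬ Bornology.IsBounded C := by
    intro f hf h0 hunb hout
    refine ⟨f '' Ici 0, ⟨0, mem_Ici.2 le_rfl, h0⟩, isPreconnected_Ici.image f hf.continuousOn,
      ?_, ?_⟩
    · rw [Set.disjoint_left]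
      rintro _ ⟨t, ht, rfl⟩ h
      exact absurd (mem_closedBall.1 h) (not_le.2 (hout t ht))
    · intro hb
      obtain ⟨r, hr⟩ := hb.subset_closedBall z
      have h1 : f (max r 0 + 1) ∈ closedBall z r :=
        hr ⟨max r 0 + 1, mem_Ici.2 (by positivity), rfl⟩
      have h2 := hunb (max r 0 + 1) (by positivity)
      have h3 := mem_closedBall.1 h1
      have h4 := le_max_left r 0
      linarith
  rw [mem_closedBall, not_le, Prod.dist_eq, lt_max_iff, Real.dist_eq, Real.dist_eq, lt_abs,
    lt_abs] at hz
  rcases hz with (h | h) | (h | h)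
  · refine key (fun t => (z.1 + t, z.2)) (by fun_prop) (by simp) (fun t ht => ?_) (fun t ht => ?_)
    · rw [Prod.dist_eq]
      refine le_trans ?_ (le_max_left _ _)
      rw [Real.dist_eq]
      exact le_trans (by simp) (le_abs_self _)
    · rw [Prod.dist_eq]
      refine lt_of_lt_of_le ?_ (le_max_left _ _)
      rw [Real.dist_eq]
      exact lt_of_lt_of_le (by dsimp only; linarith) (le_abs_self _)
  · refine key (fun t => (z.1 - t, z.2)) (by fun_prop) (by simp) (fun t ht => ?_) (fun t ht => ?_)
    · rw [Prod.dist_eq]
      refine le_trans ?_ (le_max_left _ _)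
      rw [Real.dist_eq]
      exact le_trans (by simp) (neg_le_abs _)
    · rw [Prod.dist_eq]
      refine lt_of_lt_of_le ?_ (le_max_left _ _)
      rw [Real.dist_eq]
      exact lt_of_lt_of_le (by dsimp only; linarith) (neg_le_abs _)
  · refine key (fun t => (z.1, z.2 + t)) (by fun_prop) (by simp) (fun t ht => ?_) (fun t ht => ?_)
    · rw [Prod.dist_eq]
      refine le_trans ?_ (le_max_right _ _)
      rw [Real.dist_eq]
      exact le_trans (by simp) (le_abs_self _)
    · rw [Prod.dist_eq]
      refine lt_of_lt_of_le ?_ (le_max_right _ _)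
      rw [Real.dist_eq]
      exact lt_of_lt_of_le (by dsimp only; linarith) (le_abs_self _)
  · refine key (fun t => (z.1, z.2 - t)) (by fun_prop) (by simp) (fun t ht => ?_) (fun t ht => ?_)
    · rw [Prod.dist_eq]
      refine le_trans ?_ (le_max_right _ _)
      rw [Real.dist_eq]
      exact le_trans (by simp) (neg_le_abs _)
    · rw [Prod.dist_eq]
      refine lt_of_lt_of_le ?_ (le_max_right _ _)
      rw [Real.dist_eq]
      exact lt_of_lt_of_le (by dsimp only; linarith) (neg_le_abs _)

/-- An unbounded connected set off `A` shows that its points are not in `fillIn A`. -/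
private theorem top_out {A C : Set Plane} {z : Plane} (hz : z ∈ C) (hC : IsPreconnected C)
    (hd : Disjoint C A) (hb : ¬ Bornology.IsBounded C) : z ∉ fillIn A := by
  intro h
  exact hb (Bornology.IsBounded.subset h
    (hC.subset_connectedComponentIn hz (Set.subset_compl_iff_disjoint_right.2 hd)))

theorem fillIn_ball {A : Set Plane} {y z : Plane} {R : ℝ} (hA : A ⊆ closedBall y R)
    (hz : z ∉ closedBall y R) : z ∉ fillIn A := by
  obtain ⟨C, h1, h2, h3, h4⟩ := top_ray hz
  exact top_out h1 h2 (h3.mono_right hA) h4

theorem fillIn_subset {A : Set Plane} (hA : Bornology.IsBounded A) {y z : Plane} (hy : y ∈ A)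
    (hz : z ∈ fillIn A) : dist z y ≤ diam A := by
  by_contra hcon
  exact fillIn_ball (A := A) (y := y) (R := diam A)
    (fun w hw => mem_closedBall.2 (dist_le_diam_of_mem hA hw hy))
    (fun h => hcon (mem_closedBall.1 h)) hz

theorem fillIn_conn {A C : Set Plane} (hC : IsPreconnected C) (hd : Disjoint C A) {z z' : Plane}
    (hz : z ∈ C) (hz' : z' ∈ C) (h : z ∈ fillIn A) : z' ∈ fillIn A := by
  have h1 : z' ∈ connectedComponentIn Aᶜ z :=
    hC.subset_connectedComponentIn hz (Set.subset_compl_iff_disjoint_right.2 hd) hz'
  change Bornology.IsBounded (connectedComponentIn Aᶜ z')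
  rw [← connectedComponentIn_eq h1]
  exact h

theorem mem_interior_fillIn {A : Set Plane} (hA : IsClosed A) {z : Plane} (hz : z ∈ fillIn A)
    (hzA : z ∉ A) : z ∈ interior (fillIn A) := by
  rw [mem_interior]
  refine ⟨connectedComponentIn Aᶜ z, fun w hw => ?_, hA.isOpen_compl.connectedComponentIn,
    mem_connectedComponentIn hzA⟩
  change Bornology.IsBounded (connectedComponentIn Aᶜ w)
  rw [← connectedComponentIn_eq hw]
  exact hz

theorem fillIn_cthickening {A : Set Plane} (hA : IsCompact A) {z : Plane} (hz : z ∉ fillIn A) :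
    ∃ ε : ℝ, 0 < ε ∧ z ∉ fillIn (cthickening ε A) := by
  have hzA : z ∉ A := fun h => hz (subset_fillIn A h)
  set U : Set Plane := connectedComponentIn Aᶜ z with hU
  have hUo : IsOpen U := hA.isClosed.isOpen_compl.connectedComponentIn
  have hzU : z ∈ U := mem_connectedComponentIn hzA
  have hUc : IsConnected U := ⟨⟨z, hzU⟩, isPreconnected_connectedComponentIn⟩
  have hUA : U ⊆ Aᶜ := connectedComponentIn_subset _ _
  have hub : ¬ Bornology.IsBounded U := hz
  obtain ⟨R, hR⟩ := hA.isBounded.subset_closedBall (0 : Plane)
  obtain ⟨y, hyU, hy⟩ : ∃ y ∈ U, y ∉ closedBall (0 : Plane) (R + 1) := by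
    by_contra hcon
    push Not at hcon
    exact hub (isBounded_closedBall.subset hcon)
  have hpc : IsPathConnected U := hUo.isConnected_iff_isPathConnected.1 hUc
  obtain ⟨γ, hγ⟩ := hpc.joinedIn z hzU y hyU
  have hcomp : IsCompact (range γ) := isCompact_range γ.continuous
  have hdis : Disjoint (range γ) A := by
    rw [Set.disjoint_left]
    rintro _ ⟨t, rfl⟩ h
    exact hUA (hγ t) h
  obtain ⟨δ, hδ, hδd⟩ := hdis.exists_cthickenings hcomp hA.isClosed
  obtain ⟨C, hC1, hC2, hC3, hC4⟩ := top_ray hy
  refine ⟨min δ 1, lt_min hδ one_pos, ?_⟩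
  refine top_out (C := range γ ∪ C) (Or.inl ⟨0, γ.source⟩) ?_ ?_ ?_
  · refine IsPreconnected.union y ⟨1, γ.target⟩ hC1 ?_ hC2
    exact isPreconnected_range γ.continuous
  · rw [Set.disjoint_union_left]
    constructor
    · exact (hδd.mono (self_subset_cthickening _) (cthickening_mono (min_le_left _ _) _))
    · refine hC3.mono_right ?_
      refine (cthickening_mono (min_le_right δ 1) A).trans ?_
      refine (cthickening_subset_of_subset 1 hR).trans ?_
      rcases le_or_gt 0 R with h | h
      · rw [cthickening_closedBall zero_le_one h, add_comm]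
      · rw [closedBall_eq_empty.2 h, cthickening_empty]
        exact empty_subset _
  · intro hb
    exact hC4 (hb.subset Set.subset_union_right)

theorem fillIn_image (c : ℝ) (hc : 0 < c) (a : Plane) (A : Set Plane) :
    fillIn ((fun z : Plane => (c * (z.1 + a.1), c * (z.2 + a.2))) '' A) =
      (fun z : Plane => (c * (z.1 + a.1), c * (z.2 + a.2))) '' fillIn A := by
  let h : Plane ≃ₜ Plane :=
    { toFun := fun z => (c * (z.1 + a.1), c * (z.2 + a.2))
      invFun := fun z => (z.1 / c - a.1, z.2 / c - a.2)
      left_inv := fun z => by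
        ext
        · simp only
          field_simp
          ring
        · simp only
          field_simp
          ring
      right_inv := fun z => by
        ext
        · simp only
          field_simp
          ring
        · simp only
          field_simp
          ring
      continuous_toFun := by fun_prop
      continuous_invFun := by fun_prop }
  have hh : (fun z : Plane => (c * (z.1 + a.1), c * (z.2 + a.2))) = h := rfl
  have hdist : ∀ z w : Plane, dist (h z) (h w) = c * dist z w := by
    intro z w
    change dist ((c * (z.1 + a.1), c * (z.2 + a.2)) : Plane) (c * (w.1 + a.1), c * (w.2 + a.2)) = _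
    rw [Prod.dist_eq, Prod.dist_eq, mul_max_of_nonneg _ _ hc.le]
    simp only [Real.dist_eq]
    have e1 : c * (z.1 + a.1) - c * (w.1 + a.1) = c * (z.1 - w.1) := by ring
    have e2 : c * (z.2 + a.2) - c * (w.2 + a.2) = c * (z.2 - w.2) := by ring
    rw [e1, e2, abs_mul, abs_mul, abs_of_pos hc]
  have hbd : ∀ B : Set Plane, Bornology.IsBounded (h '' B) ↔ Bornology.IsBounded B := by
    intro B
    constructor
    · intro hb
      rw [isBounded_iff] at hb ⊢
      obtain ⟨r, hr⟩ := hb
      refine ⟨r / c, fun x hx y hy => ?_⟩
      have := hr (mem_image_of_mem h hx) (mem_image_of_mem h hy)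
      rw [hdist] at this
      rw [le_div_iff₀ hc]
      linarith
    · intro hb
      rw [isBounded_iff] at hb ⊢
      obtain ⟨r, hr⟩ := hb
      refine ⟨c * r, ?_⟩
      rintro _ ⟨x, hx, rfl⟩ _ ⟨y, hy, rfl⟩
      rw [hdist]
      exact mul_le_mul_of_nonneg_left (hr hx hy) hc.le
  rw [hh]
  have hcc : ∀ z : Plane, z ∉ A → connectedComponentIn (h '' A)ᶜ (h z) =
      h '' connectedComponentIn Aᶜ z := by
    intro z hz
    rw [h.image_connectedComponentIn (s := Aᶜ) (show z ∈ Aᶜ from hz),
      Set.image_compl_eq h.bijective]
  ext w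
  obtain ⟨z, rfl⟩ := h.surjective w
  rw [h.injective.mem_set_image]
  by_cases hz : z ∈ A
  · exact ⟨fun _ => subset_fillIn A hz, fun _ => subset_fillIn _ (mem_image_of_mem h hz)⟩
  · change Bornology.IsBounded (connectedComponentIn (h '' A)ᶜ (h z)) ↔
      Bornology.IsBounded (connectedComponentIn Aᶜ z)
    rw [hcc z hz, hbd]

section

variable {E : Type} [MeasurableSpace E] {ν : Measure E} {sh : E → Set Plane}

private theorem top_pos_cont (i : Idx) : Continuous (pos i) := by
  unfold pos
  fun_prop

private theorem top_lp_compact (hS : IsShape ν sh) (p : Idx × E) : IsCompact (lp sh p) :=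
  (hS.compact p.2).image (top_pos_cont p.1)

private theorem top_lp_conn (hS : IsShape ν sh) (p : Idx × E) : IsConnected (lp sh p) :=
  (hS.conn p.2).image _ (top_pos_cont p.1).continuousOn

omit [MeasurableSpace E] in
private theorem top_un_cons (p : Idx × E) (l : List (Idx × E)) :
    un sh (p :: l) = lp sh p ∪ un sh l := by
  ext z
  simp [un]

theorem isCompact_un (hS : IsShape ν sh) (l : List (Idx × E)) : IsCompact (un sh l) := by
  induction l with
  | nil => simp [un]
  | cons p l ih =>
    rw [top_un_cons]
    exact (top_lp_compact hS p).union ih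

theorem isConnected_un (hS : IsShape ν sh) {l : List (Idx × E)} (hl : l ≠ [])
    (hw : Walk sh l) : IsConnected (un sh l) := by
  induction l with
  | nil => exact absurd rfl hl
  | cons p l ih =>
    rcases l with _ | ⟨q, l⟩
    · rw [top_un_cons]
      have : un sh ([] : List (Idx × E)) = ∅ := by simp [un]
      rw [this, union_empty]
      exact top_lp_conn hS p
    · rw [top_un_cons]
      have hw' : (lp sh p ∩ lp sh q).Nonempty ∧ Walk sh (q :: l) := by
        unfold Walk at hw ⊢
        rwa [List.isChain_cons_cons] at hw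
      refine IsConnected.union ?_ (top_lp_conn hS p) (ih (by simp) hw'.2)
      obtain ⟨z, hz1, hz2⟩ := hw'.1
      refine ⟨z, hz1, ?_⟩
      rw [top_un_cons]
      exact Or.inl hz2

/-- a loop meets its cell -/
theorem lp_meets_cell (hS : IsShape ν sh) (p : Idx × E) : (lp sh p ∩ cell p.1).Nonempty := by
  obtain ⟨z, hz, h1, h2, h3, h4⟩ := hS.root p.2
  have hs : 0 < side p.1 := by unfold side; positivity
  refine ⟨pos p.1 z, ⟨z, hz, rfl⟩, ?_⟩
  unfold cell big ctr
  rw [mem_closedBall, Prod.dist_eq]
  have key : ∀ (v : ℤ) (t : ℝ), 0 ≤ t → t ≤ 1 →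
      dist (side p.1 * (v + t)) (side p.1 * (v + 1 / 2)) ≤ 1 * side p.1 / 2 := by
    intro v t ht ht'
    rw [Real.dist_eq]
    have e : side p.1 * (v + t) - side p.1 * (v + 1 / 2) = side p.1 * (t - 1 / 2) := by ring
    rw [e, abs_mul, abs_of_pos hs]
    have : |t - 1 / 2| ≤ 1 / 2 := by
      rw [abs_le]
      constructor <;> linarith
    nlinarith
  exact max_le (key _ _ h1 h2) (key _ _ h3 h4)

end

end Pool.Agent.Helper16.CD
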