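import Pool.Agent.Helper16.CD.C5

/-!
# CD-K3A: small chains alone do not surround, up to probability `C r` (with `C` independent of everything)

Let `l` satisfy `K3r sh τ V'.1 V V' l`, `0 < τ ≤ 1/8`, `s = side V' = 1/2^k`, `k = V'.1`, `A = cthickening (τ s) (un l)`, `d = diam (un l)` (`un l` is compact and
connected).  For `y ∈ un l`: `A ⊆ closedBall y (d + τ s)`, and `ctr V' ∈ fillIn A`, so by `fillIn_ball` `dist (ctr V') y ≤ d + τ s`.  On the other hand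
`un l` misses `big 7 V'`, so `dist (ctr V') y > 7/2 s`.  Hence `d ≥ 3 s`.  Let `i` be such that `2^i s ≤ d < 2^(i+1) s` (`i ≥ 1`).  Then
`dist (ctr V') y ≤ 2^(i+1) s + s/8 ≤ 4 * 2^i s`, so with `ρ = 2^i s = 2^i / 2^0 / 2^k`: `ChR sh k (ctr V') (4 ρ) ρ l`.
Therefore `(Ev univ (K3r ..))ᶜ ⊆ ⋃_i (Ev univ (ChR sh k (ctr V') (4 ρ_i) ρ_i))ᶜ`, and by `lemmaC` (`i₀ = 0`, `M = 4`) the probability is at most
`∑_i ofReal (C r / 2^i) = ofReal (2 C r)`.
-/

set_option autoImplicit false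

namespace Pool.Agent.Helper16.CD

open MeasureTheory ProbabilityTheory Metric Set
open scoped ENNReal NNReal
open Pool.Agent.Helper3.CD Pool.Agent.Helper22.CD

variable {E : Type} [MeasurableSpace E] {ν : Measure E} {sh : E → Set Plane}

/-- the deterministic step: a surrounding chain of small loops is long at some scale -/
private theorem K3A_det (hS : IsShape ν sh) {τ : ℝ} (hτ : 0 < τ) (hτ' : τ ≤ 1 / 8) {V V' : Idx}
    {l : List (Idx × E)} (h : K3r sh τ V'.1 V V' l) :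
    ∃ i : ℕ, ChR sh V'.1 (ctr V') (((4 : ℕ) : ℝ) * (2 ^ i / 2 ^ 0 / 2 ^ V'.1))
      (2 ^ i / 2 ^ 0 / 2 ^ V'.1) l := by
  obtain ⟨h1, h2, h3, -, h5, h6⟩ := h
  have hs : 0 < side V' := side_pos V'
  have hK := isCompact_un hS l
  have hconn := isConnected_un hS h1 h2
  obtain ⟨y, hy⟩ := hconn.nonempty
  set d : ℝ := diam (un sh l) with hd
  have hA : cthickening (τ * side V') (un sh l) ⊆ closedBall y (d + τ * side V') := by
    intro z hz
    rw [hK.cthickening_eq_biUnion_closedBall (by positivity)] at hz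
    obtain ⟨x, hx, hzx⟩ := Set.mem_iUnion₂.1 hz
    rw [mem_closedBall] at hzx ⊢
    have h7 : dist x y ≤ d := dist_le_diam_of_mem hK.isBounded hx hy
    calc dist z y ≤ dist z x + dist x y := dist_triangle _ _ _
      _ ≤ d + τ * side V' := by linarith
  have h8 : dist (ctr V') y ≤ d + τ * side V' := by
    by_contra hcon
    exact fillIn_ball hA (fun h => hcon (mem_closedBall.1 h)) h6
  have h9 : 7 * side V' / 2 < dist (ctr V') y := by
    by_contra hcon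
    rw [not_lt] at hcon
    refine Set.disjoint_left.1 h5 hy ?_
    unfold big
    rw [mem_closedBall, dist_comm]
    exact hcon
  have h10 : τ * side V' ≤ 1 / 8 * side V' := mul_le_mul_of_nonneg_right hτ' hs.le
  have h11 : side V' ≤ d := by linarith
  obtain ⟨i, hi1, hi2⟩ := exists_nat_pow_near (x := d / side V') (y := (2 : ℝ))
    ((one_le_div hs).2 h11) (by norm_num)
  rw [le_div_iff₀ hs] at hi1
  rw [div_lt_iff₀ hs] at hi2
  have hρ : (2 : ℝ) ^ i / 2 ^ 0 / 2 ^ V'.1 = 2 ^ i * side V' := by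
    unfold side
    rw [pow_zero, div_one, one_div, inv_pow]
    rfl
  refine ⟨i, h1, h2, h3, ⟨y, hy, ?_⟩, ?_⟩
  · rw [hρ, mem_closedBall, dist_comm]
    have h12 : (1 : ℝ) ≤ 2 ^ i := one_le_pow₀ (by norm_num)
    have h13 : side V' ≤ 2 ^ i * side V' := by
      calc side V' = 1 * side V' := (one_mul _).symm
        _ ≤ 2 ^ i * side V' := mul_le_mul_of_nonneg_right h12 hs.le
    have h14 : (2 : ℝ) ^ (i + 1) * side V' = 2 * (2 ^ i * side V') := by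
      rw [pow_succ]
      ring
    push_cast
    linarith
  · rw [hρ]
    exact hi1

theorem k3a_prob (hS : IsShape ν sh) : ∃ (C : ℝ) (r₀ : ℝ≥0), 0 < C ∧ 0 < r₀ ∧
    ∀ r : ℝ≥0, r < r₀ → ∀ (τ : ℝ), 0 < τ → τ ≤ 1 / 8 → ∀ V V' : Idx,
      law r ν (Ev univ (K3r sh τ V'.1 V V'))ᶜ ≤ ENNReal.ofReal (C * r) := by
  obtain ⟨C, r₀, hC, hr₀, h⟩ := lemmaC hS 0 4
  refine ⟨2 * C, r₀, by positivity, hr₀, ?_⟩
  intro r hr τ hτ hτ' V V'
  have hsub : (Ev univ (K3r sh τ V'.1 V V'))ᶜ ⊆ ⋃ i : ℕ, (Ev univ (ChR sh V'.1 (ctr V')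
      (((4 : ℕ) : ℝ) * (2 ^ i / 2 ^ 0 / 2 ^ V'.1)) (2 ^ i / 2 ^ 0 / 2 ^ V'.1)))ᶜ := by
    intro w hw
    have hw2 : ¬ ∀ l : List (Idx × E), (∀ p ∈ l, p ∈ Sp w ∧ p.1 ∈ (univ : Set Idx)) →
        ¬ K3r sh τ V'.1 V V' l := hw
    push Not at hw2
    obtain ⟨l, hl1, hl2⟩ := hw2
    obtain ⟨i, hi⟩ := K3A_det hS hτ hτ' hl2
    refine Set.mem_iUnion.2 ⟨i, ?_⟩
    intro hcon
    exact hcon l hl1 hi
  have hsum : HasSum (fun i : ℕ => C * r / 2 ^ i) (2 * C * r) := by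
    have h1 := hasSum_geometric_two' (2 * C * r)
    have h2 : (fun n : ℕ => 2 * C * (r : ℝ) / 2 / 2 ^ n) = fun i : ℕ => C * r / 2 ^ i := by
      funext n
      congr 1
      ring
    rwa [h2] at h1
  calc law r ν (Ev univ (K3r sh τ V'.1 V V'))ᶜ
      ≤ law r ν (⋃ i : ℕ, (Ev univ (ChR sh V'.1 (ctr V')
        (((4 : ℕ) : ℝ) * (2 ^ i / 2 ^ 0 / 2 ^ V'.1)) (2 ^ i / 2 ^ 0 / 2 ^ V'.1)))ᶜ) :=
        measure_mono hsub
    _ ≤ ∑' i : ℕ, law r ν (Ev univ (ChR sh V'.1 (ctr V')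
        (((4 : ℕ) : ℝ) * (2 ^ i / 2 ^ 0 / 2 ^ V'.1)) (2 ^ i / 2 ^ 0 / 2 ^ V'.1)))ᶜ :=
        measure_iUnion_le _
    _ ≤ ∑' i : ℕ, ENNReal.ofReal (C * r / 2 ^ i) :=
        ENNReal.tsum_le_tsum fun i => h r hr V'.1 i (ctr V')
    _ = ENNReal.ofReal (2 * C * r) := by
        rw [← ENNReal.ofReal_tsum_of_nonneg (fun i => by positivity) hsum.summable, hsum.tsum_eq]

end Pool.Agent.Helper16.CD
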