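import Pool.Agent.Helper16.CD.Defs

/-!
# CD-DESC: arithmetic of dyadic squares

`side i = (1/2)^i.1`, `ctr i = side i * (v + 1/2)`, `big t i = closedBall (ctr i) (t side i / 2)`.
`up^[n] (k, v) = (k - 3 n, v / 8^n)` (`Int.ediv_ediv_eq_ediv_mul`-like lemma, `Nat.sub_sub`).
`par_child`: `(8^n v + j) / 8^n = v` for `0 ≤ j < 8^n`.
Nesting: for `i.1 ≥ 3`, `v = 8 (v / 8) + v % 8`, so `|ctr i - ctr (up i)| ≤ (side (up i) - side i) / 2` in both coordinates and
`side (up i) = 8 side i`; hence `big t i ⊆ big t (up i)` for `t ≥ 1`; iterate.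
`sum_desc`: `desc n V (b+1)` is the disjoint union over `W ∈ desc n V b` of the images of `child n W`, which is injective.
`cell_dyadic`: if `k ≤ l` are the levels of `i` and `i'` and the open square of `i` meets `cell i'` ... see the statement: a
dyadic square `i'` of level at least that of `i` which meets the interior of `cell i` is inside `cell i`.
-/

set_option autoImplicit false

namespace Pool.Agent.Helper16.CD

open MeasureTheory ProbabilityTheory Metric Set
open scoped ENNReal NNReal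
open Pool.Agent.Helper3.CD

theorem side_pos (i : Idx) : 0 < side i := by
  unfold side; positivity

theorem par_eq (n : ℕ) (i : Idx) : par n i = (i.1 - 3 * n, i.2.1 / 8 ^ n, i.2.2 / 8 ^ n) := by
  induction n with
  | zero => simp [par]
  | succ n ih =>
    have h1 : par (n + 1) i = up (par n i) := by
      unfold par
      rw [Function.iterate_succ_apply']
    rw [h1, ih]
    unfold up
    have h8 : (0 : ℤ) ≤ 8 ^ n := by positivity
    ext1
    · change i.1 - 3 * n - 3 = i.1 - 3 * (n + 1)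
      omega
    · ext1
      · change i.2.1 / 8 ^ n / 8 = i.2.1 / 8 ^ (n + 1)
        rw [Int.ediv_ediv_of_nonneg h8, pow_succ]
      · change i.2.2 / 8 ^ n / 8 = i.2.2 / 8 ^ (n + 1)
        rw [Int.ediv_ediv_of_nonneg h8, pow_succ]

private theorem Desc_div (n : ℕ) (v : ℤ) (j : Fin (8 ^ n)) :
    (8 ^ n * v + (j.1 : ℤ)) / 8 ^ n = v := by
  have h8 : (0 : ℤ) < 8 ^ n := by positivity
  have hj : (j.1 : ℤ) < 8 ^ n := by
    have := j.2
    exact_mod_cast this
  rw [add_comm, Int.add_mul_ediv_left _ _ h8.ne', Int.ediv_eq_zero_of_lt (by positivity) hj,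
    zero_add]

theorem par_child (n : ℕ) (V : Idx) (j : J n) : par n (child n V j) = V := by
  rw [par_eq]
  unfold child
  ext1
  · change V.1 + 3 * n - 3 * n = V.1
    omega
  · ext1
    · exact Desc_div n _ j.1
    · exact Desc_div n _ j.2

theorem child_injective (n : ℕ) (V : Idx) : Function.Injective (child n V) := by
  intro j j' h
  have h1 := congrArg (fun x : Idx => x.2.1) h
  have h2 := congrArg (fun x : Idx => x.2.2) h
  simp only [child] at h1 h2
  ext
  · have h3 : (j.1.1 : ℤ) = (j'.1.1 : ℤ) := by linarith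
    exact_mod_cast h3
  · have h3 : (j.2.1 : ℤ) = (j'.2.1 : ℤ) := by linarith
    exact_mod_cast h3

theorem exists_child (n : ℕ) (V : Idx) (h : 3 * n ≤ V.1) : ∃ j, V = child n (par n V) j := by
  have h8 : (0 : ℤ) < 8 ^ n := by positivity
  have key : ∀ v : ℤ, ∃ j : Fin (8 ^ n), v = 8 ^ n * (v / 8 ^ n) + (j.1 : ℤ) := by
    intro v
    have h1 := Int.emod_nonneg v h8.ne'
    have h2 := Int.emod_lt_of_pos v h8
    obtain ⟨m, hm⟩ := Int.eq_ofNat_of_zero_le h1
    have h3 : m < 8 ^ n := by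
      rw [hm] at h2
      exact_mod_cast h2
    refine ⟨⟨m, h3⟩, ?_⟩
    change v = 8 ^ n * (v / 8 ^ n) + (m : ℤ)
    rw [← hm]
    exact (Int.mul_ediv_add_emod v (8 ^ n)).symm
  obtain ⟨j1, hj1⟩ := key V.2.1
  obtain ⟨j2, hj2⟩ := key V.2.2
  refine ⟨(j1, j2), ?_⟩
  rw [par_eq]
  unfold child
  ext1
  · change V.1 = V.1 - 3 * n + 3 * n
    omega
  · ext1
    · exact hj1
    · exact hj2

theorem side_child (n : ℕ) (V : Idx) (j : J n) : side (child n V j) = side V / 8 ^ n := by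
  unfold side child
  change (1 / 2 : ℝ) ^ (V.1 + 3 * n) = (1 / 2) ^ V.1 / 8 ^ n
  have h : ((1 : ℝ) / 2) ^ 3 = 1 / 8 := by norm_num
  rw [pow_add, pow_mul, h, one_div_pow (8 : ℝ) n, mul_one_div]

private theorem Desc_mem_big {t : ℝ} {i : Idx} {z : Plane} : z ∈ big t i ↔
    |z.1 - side i * (i.2.1 + 1 / 2)| ≤ t * side i / 2 ∧
      |z.2 - side i * (i.2.2 + 1 / 2)| ≤ t * side i / 2 := by
  unfold big
  rw [mem_closedBall, Prod.dist_eq, max_le_iff, Real.dist_eq, Real.dist_eq]
  rfl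

private theorem Desc_mem_cell {i : Idx} {z : Plane} : z ∈ cell i ↔
    (side i * i.2.1 ≤ z.1 ∧ z.1 ≤ side i * (i.2.1 + 1)) ∧
      side i * i.2.2 ≤ z.2 ∧ z.2 ≤ side i * (i.2.2 + 1) := by
  unfold cell
  rw [Desc_mem_big, abs_le, abs_le]
  constructor
  · rintro ⟨⟨h1, h2⟩, h3, h4⟩
    refine ⟨⟨by linarith, by linarith⟩, by linarith, by linarith⟩
  · rintro ⟨⟨h1, h2⟩, h3, h4⟩
    refine ⟨⟨by linarith, by linarith⟩, by linarith, by linarith⟩

private theorem Desc_dist (n : ℕ) (V : Idx) (j : J n) :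
    dist (ctr (child n V j)) (ctr V) ≤ (side V - side (child n V j)) / 2 := by
  have hs := side_pos (child n V j)
  have h8 : (0 : ℝ) < 8 ^ n := by positivity
  have hS : side V = 8 ^ n * side (child n V j) := by
    rw [side_child]
    field_simp
  have key : ∀ (v : ℤ) (i : Fin (8 ^ n)), |side (child n V j) * (((8 ^ n * v + (i.1 : ℤ) : ℤ) : ℝ)
      + 1 / 2) - side V * ((v : ℝ) + 1 / 2)| ≤ (side V - side (child n V j)) / 2 := by
    intro v i
    have hi : ((i.1 : ℕ) : ℝ) + 1 ≤ 8 ^ n := by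
      have := i.2
      exact_mod_cast this
    have hi0 : (0 : ℝ) ≤ ((i.1 : ℕ) : ℝ) := by positivity
    rw [hS]
    push_cast
    have e : side (child n V j) * ((8 : ℝ) ^ n * (v : ℝ) + ((i.1 : ℕ) : ℝ) + 1 / 2) -
        8 ^ n * side (child n V j) * ((v : ℝ) + 1 / 2) =
        side (child n V j) * (((i.1 : ℕ) : ℝ) + 1 / 2 - 8 ^ n / 2) := by ring
    rw [e, abs_mul, abs_of_pos hs]
    have h1 : |((i.1 : ℕ) : ℝ) + 1 / 2 - 8 ^ n / 2| ≤ (8 ^ n - 1) / 2 := by
      rw [abs_le]
      constructor <;> linarith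
    calc side (child n V j) * |((i.1 : ℕ) : ℝ) + 1 / 2 - 8 ^ n / 2|
        ≤ side (child n V j) * ((8 ^ n - 1) / 2) := mul_le_mul_of_nonneg_left h1 hs.le
      _ = (8 ^ n * side (child n V j) - side (child n V j)) / 2 := by ring
  rw [Prod.dist_eq, max_le_iff, Real.dist_eq, Real.dist_eq]
  exact ⟨key _ j.1, key _ j.2⟩

theorem big_par {n : ℕ} {V : Idx} (h : 3 * n ≤ V.1) {t : ℝ} (ht : 1 ≤ t) :
    big t V ⊆ big t (par n V) := by
  obtain ⟨j, hj⟩ := exists_child n V h
  have h1 := Desc_dist n (par n V) j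
  rw [← hj] at h1
  have h2 : side V ≤ side (par n V) := by
    have h3 : 0 ≤ dist (ctr V) (ctr (par n V)) := dist_nonneg
    linarith
  apply closedBall_subset_closedBall'
  nlinarith

theorem level_desc {n : ℕ} {V W : Idx} {b : ℕ} (h : W ∈ desc n V b) : W.1 = V.1 + 3 * n * b := by
  induction b generalizing W with
  | zero =>
    rw [desc, Finset.mem_singleton] at h
    rw [h]
    simp
  | succ b ih =>
    rw [desc, Finset.mem_biUnion] at h
    obtain ⟨U, hU, hW⟩ := h
    obtain ⟨j, -, rfl⟩ := Finset.mem_image.1 hW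
    change U.1 + 3 * n = _
    rw [ih hU]
    ring

theorem desc_succ {n : ℕ} {V W : Idx} {b : ℕ} :
    W ∈ desc n V (b + 1) ↔ ∃ U ∈ desc n V b, ∃ j, W = child n U j := by
  rw [desc, Finset.mem_biUnion]
  constructor
  · rintro ⟨U, hU, hW⟩
    obtain ⟨j, -, rfl⟩ := Finset.mem_image.1 hW
    exact ⟨U, hU, j, rfl⟩
  · rintro ⟨U, hU, j, rfl⟩
    exact ⟨U, hU, Finset.mem_image_of_mem _ (Finset.mem_univ j)⟩

theorem par_mem_desc {n : ℕ} {V W : Idx} {b : ℕ} (h : W ∈ desc n V (b + 1)) :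
    par n W ∈ desc n V b := by
  obtain ⟨U, hU, j, rfl⟩ := desc_succ.1 h
  rwa [par_child]

theorem par_iterate_desc {n : ℕ} {V W : Idx} {b : ℕ} (h : W ∈ desc n V b) {t : ℕ} (ht : t ≤ b) :
    (par n)^[t] W ∈ desc n V (b - t) := by
  induction t with
  | zero => exact h
  | succ t ih =>
    rw [Function.iterate_succ_apply']
    apply par_mem_desc
    have h1 := ih (by omega)
    have h2 : b - (t + 1) + 1 = b - t := by omega
    rwa [h2]

theorem sum_desc {M : Type*} [AddCommMonoid M] (n : ℕ) (V : Idx) (b : ℕ) (f : Idx → M) :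
    ∑ W ∈ desc n V (b + 1), f W = ∑ W ∈ desc n V b, ∑ j : J n, f (child n W j) := by
  rw [desc, Finset.sum_biUnion]
  · refine Finset.sum_congr rfl fun W _ => ?_
    rw [Finset.sum_image]
    intro j _ j' _ h
    exact child_injective n W h
  · intro W _ W' _ hne
    rw [Function.onFun, Finset.disjoint_left]
    intro x hx hx'
    obtain ⟨j, -, rfl⟩ := Finset.mem_image.1 hx
    obtain ⟨j', -, h⟩ := Finset.mem_image.1 hx'
    apply hne
    have h1 := congrArg (par n) h
    rw [par_child, par_child] at h1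
    exact h1.symm

theorem card_desc (n : ℕ) (V : Idx) (b : ℕ) : (desc n V b).card = (64 ^ n) ^ b := by
  induction b with
  | zero => simp [desc]
  | succ b ih =>
    have h1 := sum_desc n V b (fun _ => (1 : ℕ))
    rw [← Finset.card_eq_sum_ones] at h1
    rw [h1]
    simp only [Finset.sum_const, Finset.card_univ, Fintype.card_prod, Fintype.card_fin,
      smul_eq_mul, mul_one]
    rw [ih, pow_succ, ← mul_pow]
    norm_num

theorem cell_subset_of_meets {i i' : Idx} (hk : i.1 ≤ i'.1)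
    (h : (interior (cell i) ∩ cell i').Nonempty) : cell i' ⊆ cell i := by
  obtain ⟨z, hz, hz'⟩ := h
  have hs := side_pos i
  have hs' := side_pos i'
  have h1 : (1 : ℝ) * side i / 2 ≠ 0 := by positivity
  have hz2 : |z.1 - side i * (i.2.1 + 1 / 2)| < 1 * side i / 2 ∧
      |z.2 - side i * (i.2.2 + 1 / 2)| < 1 * side i / 2 := by
    unfold cell big at hz
    rw [interior_closedBall _ h1, mem_ball, Prod.dist_eq, max_lt_iff, Real.dist_eq,
      Real.dist_eq] at hz
    exact hz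
  rw [abs_lt, abs_lt] at hz2
  rw [Desc_mem_cell] at hz'
  obtain ⟨m, hm⟩ := Nat.exists_eq_add_of_le hk
  have hS : side i = 2 ^ m * side i' := by
    unfold side
    rw [hm, pow_add, mul_comm ((1 / 2 : ℝ) ^ i.1), ← mul_assoc, ← mul_pow]
    norm_num
  have key : ∀ (v v' : ℤ) (x : ℝ), -(1 * side i / 2) < x - side i * (v + 1 / 2) →
      x - side i * (v + 1 / 2) < 1 * side i / 2 → side i' * v' ≤ x → x ≤ side i' * (v' + 1) →
      side i * v ≤ side i' * v' ∧ side i' * (v' + 1) ≤ side i * (v + 1) := by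
    intro v v' x e1 e2 e3 e4
    have e5 : side i' * (2 ^ m * (v : ℝ)) < side i' * (v' + 1) := by
      have : side i' * (2 ^ m * (v : ℝ)) = side i * v := by rw [hS]; ring
      rw [this]
      linarith
    have e6 : side i' * (v' : ℝ) < side i' * (2 ^ m * (v + 1)) := by
      have : side i' * (2 ^ m * ((v : ℝ) + 1)) = side i * (v + 1) := by rw [hS]; ring
      rw [this]
      linarith
    have e7 := lt_of_mul_lt_mul_left e5 hs'.le
    have e8 := lt_of_mul_lt_mul_left e6 hs'.le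
    have e9 : 2 ^ m * v < v' + 1 := by exact_mod_cast e7
    have e10 : v' < 2 ^ m * (v + 1) := by exact_mod_cast e8
    have e11 : 2 ^ m * v ≤ v' := by omega
    have e12 : v' + 1 ≤ 2 ^ m * (v + 1) := by omega
    have e13 : (2 : ℝ) ^ m * v ≤ v' := by exact_mod_cast e11
    have e14 : (v' : ℝ) + 1 ≤ 2 ^ m * (v + 1) := by exact_mod_cast e12
    constructor
    · calc side i * v = side i' * (2 ^ m * (v : ℝ)) := by rw [hS]; ring
        _ ≤ side i' * v' := mul_le_mul_of_nonneg_left e13 hs'.le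
    · calc side i' * ((v' : ℝ) + 1) ≤ side i' * (2 ^ m * (v + 1)) :=
          mul_le_mul_of_nonneg_left e14 hs'.le
        _ = side i * (v + 1) := by rw [hS]; ring
  have k1 := key i.2.1 i'.2.1 z.1 hz2.1.1 hz2.1.2 hz'.1.1 hz'.1.2
  have k2 := key i.2.2 i'.2.2 z.2 hz2.2.1 hz2.2.2 hz'.2.1 hz'.2.2
  intro y hy
  rw [Desc_mem_cell] at hy ⊢
  exact ⟨⟨k1.1.trans hy.1.1, hy.1.2.trans k1.2⟩, k2.1.trans hy.2.1, hy.2.2.trans k2.2⟩

theorem cell_eq_image (i : Idx) :
    cell i = pos i '' {z : Plane | 0 ≤ z.1 ∧ z.1 ≤ 1 ∧ 0 ≤ z.2 ∧ z.2 ≤ 1} := by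
  have hs := side_pos i
  ext z
  rw [Desc_mem_cell]
  constructor
  · rintro ⟨⟨h1, h2⟩, h3, h4⟩
    refine ⟨(z.1 / side i - i.2.1, z.2 / side i - i.2.2), ⟨?_, ?_, ?_, ?_⟩, ?_⟩
    · change 0 ≤ z.1 / side i - i.2.1
      rw [sub_nonneg, le_div_iff₀ hs]
      linarith
    · change z.1 / side i - i.2.1 ≤ 1
      rw [sub_le_iff_le_add, div_le_iff₀ hs]
      linarith
    · change 0 ≤ z.2 / side i - i.2.2
      rw [sub_nonneg, le_div_iff₀ hs]
      linarith
    · change z.2 / side i - i.2.2 ≤ 1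
      rw [sub_le_iff_le_add, div_le_iff₀ hs]
      linarith
    · unfold pos
      ext
      · change side i * (i.2.1 + (z.1 / side i - i.2.1)) = z.1
        field_simp
        ring
      · change side i * (i.2.2 + (z.2 / side i - i.2.2)) = z.2
        field_simp
        ring
  · rintro ⟨y, ⟨h1, h2, h3, h4⟩, rfl⟩
    unfold pos
    refine ⟨⟨?_, ?_⟩, ?_, ?_⟩
    · exact mul_le_mul_of_nonneg_left (by linarith) hs.le
    · exact mul_le_mul_of_nonneg_left (by linarith) hs.le
    · exact mul_le_mul_of_nonneg_left (by linarith) hs.le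
    · exact mul_le_mul_of_nonneg_left (by linarith) hs.le

theorem mem_cell_qq (m : ℕ) (z : Plane) : z ∈ cell (qq m z) := by
  have h8 : (0 : ℝ) < 8 ^ m := by positivity
  have hS : side (qq m z) = (8 ^ m)⁻¹ := by
    unfold side qq
    change (1 / 2 : ℝ) ^ (3 * m) = (8 ^ m)⁻¹
    rw [pow_mul, ← inv_pow]
    norm_num
  have key : ∀ x : ℝ, (8 ^ m : ℝ)⁻¹ * ((⌊(8 : ℝ) ^ m * x⌋ : ℤ) : ℝ) ≤ x ∧
      x ≤ (8 ^ m : ℝ)⁻¹ * (((⌊(8 : ℝ) ^ m * x⌋ : ℤ) : ℝ) + 1) := by
    intro x
    have h1 := Int.floor_le ((8 : ℝ) ^ m * x)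
    have h2 := (Int.lt_floor_add_one ((8 : ℝ) ^ m * x)).le
    constructor
    · rw [inv_mul_le_iff₀ h8]
      exact h1
    · rw [le_inv_mul_iff₀ h8]
      exact h2
  rw [Desc_mem_cell, hS]
  exact ⟨key z.1, key z.2⟩

/-- `badP` as a disjunction over the ancestors -/
theorem badP_iff {E : Type} (sh : E → Set Plane) (n : ℕ) (τ : ℝ) (b : ℕ) (V : Idx)
    (l : List (Idx × E)) : badP sh n τ b V l ↔
      ∃ t < b, bad sh τ ((par n)^[t + 1] V) ((par n)^[t] V) l := by
  induction b generalizing V with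
  | zero => simp [badP]
  | succ b ih =>
    rw [badP, ih]
    constructor
    · rintro (⟨t, ht, h⟩ | h)
      · exact ⟨t + 1, by omega, h⟩
      · exact ⟨0, by omega, h⟩
    · rintro ⟨t, ht, h⟩
      rcases t with _ | t
      · exact Or.inr h
      · exact Or.inl ⟨t, by omega, h⟩

end Pool.Agent.Helper16.CD
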