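import Pool.Agent.Helper16.CD.CM
import Pool.Agent.Helper16.CD.Desc

/-!
# CD-KL: comparison of the masses of surrounding loops

`kt τ j = ∑' i, ν {e | i.1 < 3n, lp ⊆ big 9 V0, lp disjoint from big 7 V', ctr V' ∈ fillIn (cthickening (2 τ side V') lp)}`, `V' = child n V0 j`.
Only finitely many cells `i` have nonempty sets: level `< 3 n` and the cell meets `big 9 V0` (`lp_meets_cell`).
(1) For fixed `j` and `i` the sets decrease as `τ` decreases, with intersection over `τ = 1/m` contained in `{e | lp ⊆ big 9 V0, disjoint, ctr V' ∈ fillIn lp}`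
(`fillIn_cthickening`: `lp` compact).  Measurable (Helper22/CD: meas_subset, meas_fill, ...), finite measure: continuity from above; finitely many `i`
and `j`, so there is `τ₀ > 0` with `kt τ j ≤ k0 j + 1` for all `j` and `τ ≤ τ₀`, where `k0 j` is the sum for the limit sets.
(2) `k0 j ≤ kap j + C`: a loop with `lp ⊆ big 9 V0`, disjoint from `big 7 V'`, `ctr V' ∈ fillIn lp` is either inside `interior (big 3 V0)`, then `Singr sh V0 V' [(i, e)]`,
or it contains a point `y ∉ interior (big 3 V0)`, so `dist (ctr V') y ≥ 1` (`ctr V' ∈ cell V0`) and by `fillIn_subset` `diam lp ≥ dist (ctr V') y ≥ 1`, and it meets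
`closedBall (ctr V0) (9/2)`, `9/2 ≤ 64 diam lp`.  By `mass_big` with `ρ = 9/2` the mass at level `i` is `≤ C' / (2^i 9/2)²`; the sum over the levels is `≤ 2 C'`.
-/

set_option autoImplicit false

namespace Pool.Agent.Helper16.CD

open MeasureTheory ProbabilityTheory Metric Set
open scoped ENNReal NNReal
open Pool.Agent.Helper3.CD Pool.Agent.Helper22.CD

variable {E : Type} [MeasurableSpace E] {ν : Measure E} {sh : E → Set Plane}

/-- loops of block 0 inside `9 V0` whose thickening surrounds the child -/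
def surT (sh : E → Set Plane) (n : ℕ) (τ : ℝ) (j : J n) (i : Idx) : Set E :=
  {e | i.1 < 3 * n ∧ lp sh (i, e) ⊆ big 9 V0 ∧ Disjoint (lp sh (i, e)) (big 7 (child n V0 j)) ∧
    ctr (child n V0 j) ∈ fillIn (cthickening (2 * τ * side (child n V0 j)) (lp sh (i, e)))}

private theorem KL_side_V0 : side V0 = 1 := by
  unfold side V0
  norm_num

private theorem KL_ctr_V0 : ctr V0 = ((1 / 2, 1 / 2) : Plane) := by
  unfold ctr pos
  rw [KL_side_V0]
  unfold V0
  norm_num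

private theorem KL_big_V0 (t : ℝ) : big t V0 = closedBall (ctr V0) (t / 2) := by
  unfold big
  rw [KL_side_V0, mul_one]

omit [MeasurableSpace E] in
private theorem KL_fill_mono {A B : Set Plane} (h : A ⊆ B) {z : Plane} (hz : z ∈ fillIn A) :
    z ∈ fillIn B := by
  change Bornology.IsBounded (connectedComponentIn Bᶜ z)
  exact Bornology.IsBounded.subset (show Bornology.IsBounded (connectedComponentIn Aᶜ z) from hz)
    (connectedComponentIn_mono z (compl_subset_compl.2 h))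

private theorem KL_meas (hS : IsShape ν sh) (n : ℕ) (δ : ℝ) (hδ : 0 ≤ δ) (j : J n) (i : Idx) :
    MeasurableSet {e | i.1 < 3 * n ∧ lp sh (i, e) ⊆ big 9 V0 ∧
      Disjoint (lp sh (i, e)) (big 7 (child n V0 j)) ∧
      ctr (child n V0 j) ∈ fillIn (cthickening δ (lp sh (i, e)))} := by
  have hU := rk_lp hS i
  have h1 : MeasurableSet {e | lp sh (i, e) ⊆ big 9 V0} := by
    have h2 : big 9 V0 = cthickening (9 * side V0 / 2) {ctr V0} := by
      rw [big, cthickening_singleton]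
      have := side_pos V0
      positivity
    rw [h2]
    exact meas_subset hU (singleton_nonempty _) _
  have h3 : MeasurableSet {e | Disjoint (lp sh (i, e)) (big 7 (child n V0 j))} := by
    refine meas_disj_compact hU (isCompact_closedBall _ _) ?_
    refine nonempty_closedBall.2 ?_
    have := side_pos (child n V0 j)
    positivity
  have h4 : MeasurableSet {e | ctr (child n V0 j) ∈
      fillIn (cthickening δ (lp sh (i, e)))} := meas_fill (hU.cthickening hδ) _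
  have h5 : {e | i.1 < 3 * n ∧ lp sh (i, e) ⊆ big 9 V0 ∧
      Disjoint (lp sh (i, e)) (big 7 (child n V0 j)) ∧
      ctr (child n V0 j) ∈ fillIn (cthickening δ (lp sh (i, e)))} =
      {_e : E | i.1 < 3 * n} ∩ ({e | lp sh (i, e) ⊆ big 9 V0} ∩
        ({e | Disjoint (lp sh (i, e)) (big 7 (child n V0 j))} ∩
          {e | ctr (child n V0 j) ∈ fillIn (cthickening δ (lp sh (i, e)))})) := rfl
  rw [h5]
  exact (MeasurableSet.const _).inter (h1.inter (h3.inter h4))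

theorem measurableSet_surT (hS : IsShape ν sh) (n : ℕ) (τ : ℝ) (j : J n) (i : Idx) :
    MeasurableSet (surT sh n τ j i) := by
  have h := KL_meas hS n (max 0 (2 * τ * side (child n V0 j))) (le_max_left _ _) j i
  simp only [cthickening_max_zero] at h
  exact h

/-- the limit of the sets as `τ → 0` -/
private def KL_sur0 (sh : E → Set Plane) (n : ℕ) (j : J n) (i : Idx) : Set E :=
  {e | i.1 < 3 * n ∧ lp sh (i, e) ⊆ big 9 V0 ∧ Disjoint (lp sh (i, e)) (big 7 (child n V0 j)) ∧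
    ctr (child n V0 j) ∈ fillIn (lp sh (i, e))}

omit [MeasurableSpace E] in
private theorem KL_mono (sh : E → Set Plane) (n : ℕ) {τ τ' : ℝ} (h : τ ≤ τ')
    (j : J n) (i : Idx) : surT sh n τ j i ⊆ surT sh n τ' j i := by
  rintro e ⟨h1, h2, h3, h4⟩
  refine ⟨h1, h2, h3, KL_fill_mono (cthickening_mono ?_ _) h4⟩
  have := side_pos (child n V0 j)
  nlinarith

private theorem KL_iInter (hS : IsShape ν sh) (n : ℕ) (j : J n) (i : Idx) :
    ⋂ m : ℕ, surT sh n (1 / ((m : ℝ) + 1)) j i ⊆ KL_sur0 sh n j i := by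
  intro e he
  rw [mem_iInter] at he
  obtain ⟨h1, h2, h3, -⟩ := he 0
  refine ⟨h1, h2, h3, ?_⟩
  by_contra hcon
  obtain ⟨ε, hε, hz⟩ := fillIn_cthickening ((rk_lp hS i).compact e) hcon
  have hs := side_pos (child n V0 j)
  obtain ⟨m, hm⟩ := exists_nat_one_div_lt (show 0 < ε / (2 * side (child n V0 j)) by positivity)
  apply hz
  refine KL_fill_mono (cthickening_mono ?_ _) (he m).2.2.2
  rw [lt_div_iff₀ (by positivity)] at hm
  linarith

/-- the cells which matter -/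
private noncomputable def KL_F (n : ℕ) : Finset Idx :=
  Finset.range (3 * n) ×ˢ (Finset.Icc (-(7 * 2 ^ (3 * n) : ℤ)) (7 * 2 ^ (3 * n)) ×ˢ
    Finset.Icc (-(7 * 2 ^ (3 * n) : ℤ)) (7 * 2 ^ (3 * n)))

private theorem KL_int {k n : ℕ} (hk : k < 3 * n) {v : ℤ} (h : ∃ z : ℝ, |z - 1 / 2| ≤ 9 / 2 ∧
    |z - (1 / 2 : ℝ) ^ k * (v + 1 / 2)| ≤ (1 / 2) ^ k / 2) :
    v ∈ Finset.Icc (-(7 * 2 ^ (3 * n) : ℤ)) (7 * 2 ^ (3 * n)) := by
  obtain ⟨z, h1, h2⟩ := h
  rw [abs_le] at h1 h2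
  have h3 : (1 / 2 : ℝ) ^ k * 2 ^ k = 1 := by
    rw [← mul_pow]
    norm_num
  have h4 : (1 : ℝ) ≤ 2 ^ k := one_le_pow₀ one_le_two
  have h5 : (2 : ℝ) ^ k ≤ 2 ^ (3 * n) := pow_le_pow_right₀ one_le_two hk.le
  have h6 : ((v : ℝ) + 1 / 2) = 2 ^ k * ((1 / 2 : ℝ) ^ k * (v + 1 / 2)) := by
    calc ((v : ℝ) + 1 / 2) = ((1 / 2 : ℝ) ^ k * 2 ^ k) * (v + 1 / 2) := by rw [h3, one_mul]
      _ = _ := by ring
  have h7 : (1 / 2 : ℝ) ^ k ≤ 1 := pow_le_one₀ (by norm_num) (by norm_num)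
  have h8 : -(5 : ℝ) ≤ (1 / 2 : ℝ) ^ k * (v + 1 / 2) := by linarith
  have h9 : (1 / 2 : ℝ) ^ k * (v + 1 / 2) ≤ 6 := by linarith
  have h10 : -(5 : ℝ) * 2 ^ k ≤ (v : ℝ) + 1 / 2 := by
    rw [h6]
    nlinarith
  have h11 : (v : ℝ) + 1 / 2 ≤ 6 * 2 ^ k := by
    rw [h6]
    nlinarith
  rw [Finset.mem_Icc]
  constructor
  · have : (-(7 * 2 ^ (3 * n)) : ℝ) ≤ v := by linarith
    exact_mod_cast this
  · have : (v : ℝ) ≤ 7 * 2 ^ (3 * n) := by linarith
    exact_mod_cast this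

private theorem KL_mem_F (hS : IsShape ν sh) {n : ℕ} {i : Idx} {e : E} (h1 : i.1 < 3 * n)
    (h2 : lp sh (i, e) ⊆ big 9 V0) : i ∈ KL_F n := by
  obtain ⟨z, hz, hz'⟩ := lp_meets_cell hS (i, e)
  have h3 := h2 hz
  rw [KL_big_V0, KL_ctr_V0, mem_closedBall, Prod.dist_eq, max_le_iff, Real.dist_eq,
    Real.dist_eq] at h3
  unfold cell big ctr pos at hz'
  rw [mem_closedBall, Prod.dist_eq, max_le_iff, Real.dist_eq, Real.dist_eq, one_mul] at hz'
  refine Finset.mem_product.2 ⟨Finset.mem_range.2 h1, Finset.mem_product.2 ⟨?_, ?_⟩⟩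
  · exact KL_int h1 ⟨z.1, h3.1, hz'.1⟩
  · exact KL_int h1 ⟨z.2, h3.2, hz'.2⟩

private theorem KL_empty (hS : IsShape ν sh) {n : ℕ} {i : Idx} (hi : i ∉ KL_F n) {S : Set E}
    (h : ∀ e ∈ S, i.1 < 3 * n ∧ lp sh (i, e) ⊆ big 9 V0) : ν S = 0 := by
  have h1 : S = ∅ := by
    rw [Set.eq_empty_iff_forall_notMem]
    intro e he
    exact hi (KL_mem_F hS (h e he).1 (h e he).2)
  rw [h1, measure_empty]

/-- the loops that leave `3 V0` -/
private theorem KL_split (hS : IsShape ν sh) (n : ℕ) (j : J n) (i : Idx) :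
    KL_sur0 sh n j i ⊆ {e | Singr sh V0 (child n V0 j) [(i, e)]} ∪
      {e | i.1 < 3 * n ∧ ((lp sh (i, e) ∩ closedBall (ctr V0) (9 / 2)).Nonempty ∧
        9 / 2 ≤ 64 * diam (lp sh (i, e)))} := by
  rintro e ⟨h1, h2, h3, h4⟩
  by_cases h5 : lp sh (i, e) ⊆ interior (big 3 V0)
  · left
    refine ⟨(i, e), rfl, Nat.zero_le _, ?_, h5, h3, h4⟩
    change i.1 < 0 + 3 * n
    omega
  · right
    obtain ⟨y, hy, hy'⟩ := Set.not_subset.1 h5
    rw [KL_big_V0, interior_closedBall _ (by norm_num), mem_ball, not_lt] at hy'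
    have h6 : ctr (child n V0 j) ∈ closedBall (ctr V0) (1 / 2) := by
      rw [← KL_big_V0]
      have h7 := big_par (n := n) (V := child n V0 j) (by
        change 3 * n ≤ 0 + 3 * n
        omega) le_rfl
      rw [par_child] at h7
      refine h7 ?_
      unfold big
      refine mem_closedBall_self ?_
      have := side_pos (child n V0 j)
      positivity
    rw [mem_closedBall] at h6
    have h8 := fillIn_subset ((rk_lp hS i).compact e).isBounded hy h4
    have h9 := dist_triangle_left y (ctr V0) (ctr (child n V0 j))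
    refine ⟨h1, ?_, by linarith⟩
    obtain ⟨z, hz⟩ := (rk_lp hS i).ne e
    refine ⟨z, hz, ?_⟩
    have h10 := h2 hz
    rwa [KL_big_V0] at h10

private theorem KL_big_sum {C' : ℝ} (hC' : 0 < C')
    (hb : ∀ (j : ℕ) (x : Plane) (ρ : ℝ), 0 < ρ →
    ∑' v : ℤ × ℤ, ν {e | (lp sh ((j, v), e) ∩ closedBall x ρ).Nonempty ∧
      ρ ≤ 64 * diam (lp sh ((j, v), e))} ≤ ENNReal.ofReal (C' / (2 ^ j * ρ) ^ 2)) (n : ℕ) :
    ∑ i ∈ KL_F n, ν {e | i.1 < 3 * n ∧ ((lp sh (i, e) ∩ closedBall (ctr V0) (9 / 2)).Nonempty ∧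
        9 / 2 ≤ 64 * diam (lp sh (i, e)))} ≤ ENNReal.ofReal C' := by
  have h1 : ∑ i ∈ KL_F n, ν {e | i.1 < 3 * n ∧
      ((lp sh (i, e) ∩ closedBall (ctr V0) (9 / 2)).Nonempty ∧
        9 / 2 ≤ 64 * diam (lp sh (i, e)))} ≤
      ∑ k ∈ Finset.range (3 * n), ENNReal.ofReal (C' / (2 ^ k * (9 / 2)) ^ 2) := by
    unfold KL_F
    rw [Finset.sum_product]
    refine Finset.sum_le_sum fun k _ => ?_
    refine le_trans ?_ (hb k (ctr V0) (9 / 2) (by norm_num))
    refine le_trans (Finset.sum_le_sum fun v _ => ?_) (ENNReal.sum_le_tsum _)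
    exact measure_mono fun e he => he.2
  refine h1.trans ?_
  rw [← ENNReal.ofReal_sum_of_nonneg fun k _ => by positivity]
  refine ENNReal.ofReal_le_ofReal ?_
  have h2 : ∀ k : ℕ, C' / (2 ^ k * (9 / 2)) ^ 2 ≤ C' / 2 * (1 / 2) ^ k := by
    intro k
    have h3 : (1 : ℝ) ≤ 2 ^ k := one_le_pow₀ one_le_two
    have h4 : (1 / 2 : ℝ) ^ k * 2 ^ k = 1 := by
      rw [← mul_pow]
      norm_num
    rw [div_le_iff₀ (by positivity)]
    calc C' = C' * ((1 / 2 : ℝ) ^ k * 2 ^ k) := by rw [h4, mul_one]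
      _ ≤ C' * ((1 / 2 : ℝ) ^ k * 2 ^ k) * (2 ^ k * (81 / 8)) := by
        refine le_mul_of_one_le_right (by positivity) ?_
        nlinarith
      _ = C' / 2 * (1 / 2) ^ k * (2 ^ k * (9 / 2)) ^ 2 := by ring
  calc ∑ k ∈ Finset.range (3 * n), C' / (2 ^ k * (9 / 2)) ^ 2
      ≤ ∑ k ∈ Finset.range (3 * n), C' / 2 * (1 / 2) ^ k := Finset.sum_le_sum fun k _ => h2 k
    _ = C' / 2 * ∑ k ∈ Finset.range (3 * n), (1 / (2 : ℝ)) ^ k := by rw [Finset.mul_sum]
    _ ≤ C' / 2 * 2 := by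
      refine mul_le_mul_of_nonneg_left (sum_geometric_two_le _) (by positivity)
    _ = C' := by ring

private theorem KL_lim (hS : IsShape ν sh) (n : ℕ) (j : J n) : ∃ m : ℕ,
    ∑ i ∈ KL_F n, ν (surT sh n (1 / ((m : ℝ) + 1)) j i) ≤
      ∑ i ∈ KL_F n, ν (KL_sur0 sh n j i) + 1 := by
  have := hS.prob
  have h1 : Filter.Tendsto (fun m : ℕ => ∑ i ∈ KL_F n, ν (surT sh n (1 / ((m : ℝ) + 1)) j i))
      Filter.atTop (nhds (∑ i ∈ KL_F n, ν (⋂ m : ℕ, surT sh n (1 / ((m : ℝ) + 1)) j i))) := by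
    refine tendsto_finsetSum _ fun i _ => ?_
    refine tendsto_measure_iInter_atTop (fun m => (measurableSet_surT hS n _ j i).nullMeasurableSet)
      ?_ ⟨0, measure_ne_top _ _⟩
    intro m m' h
    exact KL_mono sh n (one_div_le_one_div_of_le (by positivity) (by
      have : (m : ℝ) ≤ m' := Nat.cast_le.2 h
      linarith)) j i
  have h2 : ∑ i ∈ KL_F n, ν (⋂ m : ℕ, surT sh n (1 / ((m : ℝ) + 1)) j i) <
      ∑ i ∈ KL_F n, ν (KL_sur0 sh n j i) + 1 := by
    have h3 : ∑ i ∈ KL_F n, ν (⋂ m : ℕ, surT sh n (1 / ((m : ℝ) + 1)) j i) ≤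
        ∑ i ∈ KL_F n, ν (KL_sur0 sh n j i) :=
      Finset.sum_le_sum fun i _ => measure_mono (KL_iInter hS n j i)
    have h4 : ∑ i ∈ KL_F n, ν (KL_sur0 sh n j i) ≠ ⊤ :=
      (ENNReal.sum_lt_top.2 fun i _ => measure_lt_top _ _).ne
    exact h3.trans_lt (ENNReal.lt_add_right h4 one_ne_zero)
  obtain ⟨m, hm⟩ := (h1.eventually (gt_mem_nhds h2)).exists
  exact ⟨m, hm.le⟩

theorem kap_lim (hS : IsShape ν sh) : ∃ C : ℝ, 0 < C ∧ ∀ n : ℕ, ∃ τ₀ : ℝ, 0 < τ₀ ∧
    ∀ τ : ℝ, 0 < τ → τ ≤ τ₀ → ∀ j : J n,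
      ∑' i : Idx, ν (surT sh n τ j i) ≤ ENNReal.ofReal (kap ν sh n j + C) := by
  have hprob := hS.prob
  obtain ⟨C', hC', hb⟩ := mass_big hS
  refine ⟨C' + 1, by positivity, fun n => ?_⟩
  choose m hm using fun j : J n => KL_lim hS n j
  obtain ⟨M, hM⟩ : ∃ M : ℕ, ∀ j, m j ≤ M :=
    ⟨Finset.univ.sup m, fun j => Finset.le_sup (Finset.mem_univ j)⟩
  refine ⟨1 / ((M : ℝ) + 1), by positivity, fun τ _ hτ j => ?_⟩
  have h1 : ∑' i : Idx, ν (surT sh n τ j i) = ∑ i ∈ KL_F n, ν (surT sh n τ j i) :=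
    tsum_eq_sum fun i hi => KL_empty hS hi fun e he => ⟨he.1, he.2.1⟩
  have h2 : ∑' i : Idx, ν {e | Singr sh V0 (child n V0 j) [(i, e)]} =
      ∑ i ∈ KL_F n, ν {e | Singr sh V0 (child n V0 j) [(i, e)]} := by
    refine tsum_eq_sum fun i hi => KL_empty hS hi fun e he => ?_
    obtain ⟨p, hp, -, h3, h4, -⟩ := he
    rw [List.singleton_inj] at hp
    subst hp
    refine ⟨?_, ?_⟩
    · change i.1 < 0 + 3 * n at h3
      omega
    · refine (h4.trans interior_subset).trans ?_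
      rw [KL_big_V0, KL_big_V0]
      exact closedBall_subset_closedBall (by norm_num)
  have h3 : ∑ i ∈ KL_F n, ν {e | Singr sh V0 (child n V0 j) [(i, e)]} ≠ ⊤ :=
    (ENNReal.sum_lt_top.2 fun i _ => measure_lt_top _ _).ne
  rw [h1]
  have hk : ENNReal.ofReal (kap ν sh n j) =
      ∑ i ∈ KL_F n, ν {e | Singr sh V0 (child n V0 j) [(i, e)]} := by
    unfold kap
    rw [h2, ENNReal.ofReal_toReal h3]
  have hk0 : 0 ≤ kap ν sh n j := ENNReal.toReal_nonneg
  have hτ' : τ ≤ 1 / ((m j : ℝ) + 1) := hτ.trans (one_div_le_one_div_of_le (by positivity) (by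
    have : (m j : ℝ) ≤ M := Nat.cast_le.2 (hM j)
    linarith))
  calc ∑ i ∈ KL_F n, ν (surT sh n τ j i)
      ≤ ∑ i ∈ KL_F n, ν (surT sh n (1 / ((m j : ℝ) + 1)) j i) :=
        Finset.sum_le_sum fun i _ => measure_mono (KL_mono sh n hτ' j i)
    _ ≤ ∑ i ∈ KL_F n, ν (KL_sur0 sh n j i) + 1 := hm j
    _ ≤ ∑ i ∈ KL_F n, (ν {e | Singr sh V0 (child n V0 j) [(i, e)]} +
        ν {e | i.1 < 3 * n ∧ ((lp sh (i, e) ∩ closedBall (ctr V0) (9 / 2)).Nonempty ∧
        9 / 2 ≤ 64 * diam (lp sh (i, e)))}) + 1 := by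
        gcongr with i _
        exact (measure_mono (KL_split hS n j i)).trans (measure_union_le _ _)
    _ ≤ ENNReal.ofReal (kap ν sh n j) + ENNReal.ofReal C' + 1 := by
        rw [Finset.sum_add_distrib, hk]
        gcongr
        exact KL_big_sum hC' hb n
    _ = ENNReal.ofReal (kap ν sh n j + (C' + 1)) := by
        rw [ENNReal.ofReal_add hk0 (by positivity), ENNReal.ofReal_add hC'.le zero_le_one,
          ENNReal.ofReal_one, add_assoc]

end Pool.Agent.Helper16.CD
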