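import Pool.Agent.Helper16.CD.K3D
import Pool.Agent.Helper16.CD.K3A
import Pool.Agent.Helper16.CD.KL
import Pool.Agent.Helper3.CD.First
import Pool.Agent.Helper3.CD.Second
import Pool.Agent.Helper3.CD.Indep
import Pool.Agent.Helper3.CD.EvShift
import Pool.Agent.Helper22.CD.MMain

/-!
# CD-BP: probability that one of the three conditions fails (Iface.BadProb)

`V' = child n V0 j`, level `3 n`, `side V' = 8^-n = 1/2^(3n)`, `V0.1 = 0`.  `1 - P(Ev univ bad) = P((Ev univ bad)ᶜ)`, and `(Ev univ (R ∨ R'))ᶜ ⊆ (Ev univ R)ᶜ ∪ (Ev univ R')ᶜ`.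
`k1_prob`: `prob_exists_le`: `P ≤ r ∑_{i < 3n} ∑'_v ν {lp sh ((i,v),e) meets closedBall (ctr V') (9/2 side V')} ≤ r ∑_{i<3n} hh (2^i 9/2 2^(-3n))` (`hit_scale`), and the exponents
`3n - i` run through `1..3n`: equal to `r ∑_{i<3n} hh (9/2 (1/2)^(i+1))` (reflect the sum).
`k2_prob`: `K2r sh V' = ChR sh (3n) (ctr V') (9/2 side V') (side V'/4)`: `lemmaC` with `i₀ = 2`, `i = 0`, `M = 18`.
`k3_prob`: `k3_cases` with `S = Sp w`:
 (A) `k3a_prob`: `≤ C r`;
 (B) two different points of block 0 meeting `big 9 V0`: `prob_two_le` (or its proof on indices if measurability of the diagonal is needed; `E` is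
     arbitrary, so bound the probability that two different pairs (cell, index) are present): `≤ (r M_n)²`,
     `M_n = ∑'_i ν {i.1 < 3n, lp meets big 9 V0} < ∞` (`mass_hit` for the `3n` levels);
 (C) the events `{∃ p ∈ Sp w, p.1.1 < 3n, lp meets big 9 V0}` and `(Ev univ (ChR sh (3n) (ctr V0) (9/2) (τ side V')))ᶜ` depend on the cells of level `< 3n` and
     `≥ 3n` respectively (`Ev univ R = Ev {i | 3n ≤ i.1} R` because `ChR` forces the levels): independent, `≤ r M_n * (C_n r)` (`chain_gen` with `A = 9/2 8^n`, `d = τ`);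
 (D) `prob_exists_le` with the sets `surT sh n τ j`: `≤ r (kap j + C)` (`kap_lim`), for `τ = min τ₀ (1/8)`.
Total: `r (kap j + C + hs) + C_n r²`.  (`hs` is a sum of `toReal`s of finite numbers, `hh_lt_top`.)
-/

set_option autoImplicit false

namespace Pool.Agent.Helper16.CD

open MeasureTheory ProbabilityTheory Metric Set
open scoped ENNReal NNReal
open Pool.Agent.Helper3.CD Pool.Agent.Helper22.CD

variable {E : Type} [MeasurableSpace E] {ν : Measure E} {sh : E → Set Plane}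

/-- loops of level in `[a, b)` hitting a ball -/
private def BP_T (sh : E → Set Plane) (a b : ℕ) (x : Plane) (ρ : ℝ) (i : Idx) : Set E :=
  {e | (a ≤ i.1 ∧ i.1 < b) ∧ (lp sh (i, e) ∩ closedBall x ρ).Nonempty}

private theorem BP_meas (hS : IsShape ν sh) (a b : ℕ) (x : Plane) (ρ : ℝ) (i : Idx) :
    MeasurableSet (BP_T sh a b x ρ i) := by
  have h1 : BP_T sh a b x ρ i =
      {_e : E | a ≤ i.1 ∧ i.1 < b} ∩ {e | (lp sh (i, e) ∩ closedBall x ρ).Nonempty} := rfl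
  rw [h1]
  exact (MeasurableSet.const _).inter (meas_hit (rk_lp hS i) x ρ)

private theorem BP_mass (ν : Measure E) (sh : E → Set Plane) (a b : ℕ) (x : Plane) (ρ : ℝ) :
    ∑' i : Idx, ν (BP_T sh a b x ρ i) ≤ ∑ k ∈ Finset.Ico a b, hh ν sh (2 ^ k * ρ) := by
  rw [ENNReal.tsum_prod', tsum_eq_sum (s := Finset.Ico a b)]
  · refine Finset.sum_le_sum fun k _ => ?_
    refine le_trans (ENNReal.tsum_le_tsum fun v => ?_) (hit_scale ν sh k x ρ)
    exact measure_mono fun e he => he.2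
  · intro k hk
    rw [ENNReal.tsum_eq_zero]
    intro v
    have h1 : BP_T sh a b x ρ (k, v) = ∅ := by
      ext e
      simp only [mem_empty_iff_false, iff_false]
      intro he
      exact hk (Finset.mem_Ico.2 he.1)
    rw [h1, measure_empty]

private theorem BP_mass_lt (hS : IsShape ν sh) (a b : ℕ) (x : Plane) (ρ : ℝ) :
    ∑' i : Idx, ν (BP_T sh a b x ρ i) < ⊤ :=
  lt_of_le_of_lt (BP_mass ν sh a b x ρ) (ENNReal.sum_lt_top.2 fun _ _ => hh_lt_top hS _)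

omit [MeasurableSpace E] in
private theorem BP_or (R R' : List (Idx × E) → Prop) :
    (Ev univ (fun l => R l ∨ R' l) : Set (Conf E))ᶜ ⊆ (Ev univ R)ᶜ ∪ (Ev univ R')ᶜ := by
  intro w hw
  rw [mem_union, mem_compl_iff, mem_compl_iff]
  by_contra h
  rw [not_or, not_not, not_not] at h
  refine hw fun l hl hR => ?_
  rcases hR with hR | hR
  · exact h.1 l hl hR
  · exact h.2 l hl hR

omit [MeasurableSpace E] in
private theorem BP_notMem {R : List (Idx × E) → Prop} {w : Conf E}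
    (h : w ∈ (Ev univ R : Set (Conf E))ᶜ) : ∃ l : List (Idx × E), (∀ p ∈ l, p ∈ Sp w) ∧ R l := by
  by_contra h1
  push Not at h1
  exact h fun l hl hR => h1 l (fun p hp => (hl p hp).1) hR

omit [MeasurableSpace E] in
private theorem BP_mem {R : List (Idx × E) → Prop} {w : Conf E} {l : List (Idx × E)}
    (hl : ∀ p ∈ l, p ∈ Sp w) (hR : R l) : w ∈ (Ev univ R : Set (Conf E))ᶜ :=
  fun h => h l (fun p hp => ⟨hl p hp, mem_univ _⟩) hR

private theorem BP_prob (hS : IsShape ν sh) (r : ℝ≥0) (T : Idx → Set E)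
    (hT : ∀ i, MeasurableSet (T i)) :
    law r ν {w | ∃ p ∈ Sp w, p.2 ∈ T p.1} ≤ (r : ℝ≥0∞) * ∑' i, ν (T i) := by
  have := hS.prob
  have h := prob_exists_le (fun _ : Idx => r) (fun _ => ν) T hT
  rw [ENNReal.tsum_mul_left] at h
  exact h

theorem k1_prob (hS : IsShape ν sh) (n : ℕ) (r : ℝ≥0) (j : J n) :
    law r ν (Ev univ (K1r sh V0 (child n V0 j)))ᶜ ≤ ENNReal.ofReal (r * hs ν sh n) := by
  have hside : side (child n V0 j) = (1 / 2) ^ (3 * n) := by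
    unfold side child
    simp [V0]
  have hlev : (child n V0 j).1 = 3 * n := by
    simp [child, V0]
  have h1 : (Ev univ (K1r sh V0 (child n V0 j)) : Set (Conf E))ᶜ ⊆
      {w | ∃ p ∈ Sp w, p.2 ∈ BP_T sh 0 (3 * n) (ctr (child n V0 j))
        (9 * side (child n V0 j) / 2) p.1} := by
    intro w hw
    obtain ⟨l, hl, p, rfl, ha, hb, hm⟩ := BP_notMem hw
    refine ⟨p, hl p (by simp), ⟨Nat.zero_le _, ?_⟩, hm⟩
    rw [← hlev]
    exact hb
  refine (measure_mono h1).trans ((BP_prob hS r _ fun i => BP_meas hS _ _ _ _ i).trans ?_)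
  rw [ENNReal.ofReal_mul (NNReal.coe_nonneg r), ENNReal.ofReal_coe_nnreal]
  refine mul_le_mul_right ((BP_mass _ _ _ _ _ _).trans ?_) _
  unfold hs
  rw [ENNReal.ofReal_sum_of_nonneg fun _ _ => ENNReal.toReal_nonneg, ← Finset.range_eq_Ico,
    ← Finset.sum_range_reflect]
  refine Finset.sum_le_sum fun i hi => ?_
  rw [Finset.mem_range] at hi
  rw [ENNReal.ofReal_toReal (hh_lt_top hS _).ne]
  refine hh_mono ν sh (le_of_eq ?_)
  rw [hside]
  obtain ⟨m, hm⟩ : ∃ m, 3 * n = i + 1 + m := ⟨3 * n - (i + 1), by omega⟩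
  have e1 : 3 * n - 1 - i = m := by omega
  rw [e1, hm, pow_add (1 / 2 : ℝ) (i + 1) m]
  have e2 : (2 : ℝ) ^ m * (1 / 2) ^ m = 1 := by
    rw [← mul_pow]
    norm_num
  calc (2 : ℝ) ^ m * (9 * ((1 / 2) ^ (i + 1) * (1 / 2) ^ m) / 2)
      = 9 / 2 * (1 / 2) ^ (i + 1) * ((2 : ℝ) ^ m * (1 / 2) ^ m) := by ring
    _ = 9 / 2 * (1 / 2) ^ (i + 1) := by rw [e2, mul_one]

theorem k2_prob (hS : IsShape ν sh) : ∃ (C : ℝ) (r₀ : ℝ≥0), 0 < C ∧ 0 < r₀ ∧
    ∀ r : ℝ≥0, r < r₀ → ∀ V' : Idx,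
      law r ν (Ev univ (K2r sh V'))ᶜ ≤ ENNReal.ofReal (C * r) := by
  obtain ⟨C, r₀, hC, hr₀, h⟩ := lemmaC hS 2 18
  refine ⟨C, r₀, hC, hr₀, fun r hr V' => ?_⟩
  have h1 := h r hr V'.1 0 (ctr V')
  have hs : side V' = 1 / 2 ^ V'.1 := by
    unfold side
    rw [one_div_pow]
  have e1 : (9 * side V' / 2) = ((18 : ℕ) : ℝ) * (2 ^ 0 / 2 ^ 2 / 2 ^ V'.1) := by
    rw [hs]
    push_cast
    ring
  have e2 : side V' / 4 = (2 ^ 0 / 2 ^ 2 / 2 ^ V'.1 : ℝ) := by
    rw [hs]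
    ring
  have e3 : K2r sh V' = ChR sh V'.1 (ctr V') (((18 : ℕ) : ℝ) * (2 ^ 0 / 2 ^ 2 / 2 ^ V'.1))
      (2 ^ 0 / 2 ^ 2 / 2 ^ V'.1) := by
    funext l
    unfold K2r
    rw [e1, e2]
  rw [e3]
  simpa using h1

private theorem BP_indep (hS : IsShape ν sh) (r : ℝ≥0) (m : ℕ) (x y : Plane) (ρ R d : ℝ) :
    law r ν ({w | ∃ p ∈ Sp w, p.2 ∈ BP_T sh 0 m x ρ p.1} ∩ (Ev univ (ChR sh m y R d))ᶜ) =
      law r ν {w | ∃ p ∈ Sp w, p.2 ∈ BP_T sh 0 m x ρ p.1} *
        law r ν (Ev univ (ChR sh m y R d))ᶜ := by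
  have := hS.prob
  have e1 : (Ev univ (ChR sh m y R d) : Set (Conf E)) = Ev {i | m ≤ i.1} (ChR sh m y R d) :=
    Ev_univ_eq {i : Idx | m ≤ i.1} (ChR sh m y R d) (fun l hl p hp => hl.2.2.1 p hp) univ
      (subset_univ _)
  have hd : Disjoint {i : Idx | i.1 < m} {i : Idx | m ≤ i.1} := by
    refine Set.disjoint_left.2 fun i (hi : i.1 < m) (hi' : m ≤ i.1) => ?_
    exact absurd hi (not_lt.2 hi')
  refine indep_sets (fun _ : Idx => r) (fun _ => ν) {i : Idx | i.1 < m} {i : Idx | m ≤ i.1} hd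
    _ _
    (measurableSet_exists _ fun i => BP_meas hS _ _ _ _ i)
    (measurableSet_Ev _ _ (measR_ChR hS _ _ _ _)).compl ?_ ?_
  · have key : ∀ w w' : Conf E, (∀ i ∈ {i : Idx | i.1 < m}, w i = w' i) →
        w ∈ {w | ∃ p ∈ Sp w, p.2 ∈ BP_T sh 0 m x ρ p.1} →
        w' ∈ {w | ∃ p ∈ Sp w, p.2 ∈ BP_T sh 0 m x ρ p.1} := by
      rintro w w' h ⟨p, hp, hT⟩
      refine ⟨p, ?_, hT⟩
      rw [mem_Sp] at hp ⊢
      rw [← h p.1 hT.1.2]
      exact hp
    exact fun w w' h => ⟨key w w' h, key w' w fun i hi => (h i hi).symm⟩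
  · rw [e1]
    exact (depOn_Ev _ _).compl

theorem k3_prob (hS : IsShape ν sh) : ∃ C : ℝ, 0 < C ∧ ∀ n : ℕ, 1 ≤ n → ∃ τ : ℝ, 0 < τ ∧
    τ ≤ 1 / 8 ∧ ∃ (Cn : ℝ) (r₀ : ℝ≥0), 0 < r₀ ∧ ∀ r : ℝ≥0, r < r₀ → ∀ j : J n,
      law r ν (Ev univ (K3r sh τ V0.1 V0 (child n V0 j)))ᶜ ≤
        ENNReal.ofReal (r * (kap ν sh n j + C) + Cn * r ^ 2) := by
  have := hS.prob
  obtain ⟨CA, rA, hCA, hrA, hA⟩ := k3a_prob hS
  obtain ⟨CL, hCL, hL⟩ := kap_lim hS
  refine ⟨CA + CL, by positivity, fun n hn => ?_⟩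
  obtain ⟨τ₀, hτ₀, hτL⟩ := hL n
  have hτ : 0 < min τ₀ (1 / 8) := lt_min hτ₀ (by norm_num)
  set τ := min τ₀ (1 / 8) with hτd
  obtain ⟨C2, r2, hC2, hr2, h2⟩ := chain_gen hS (9 / 2 * 8 ^ n) τ hτ
  set M : ℝ≥0∞ := ∑' i : Idx, ν (BP_T sh 0 (3 * n) (ctr V0) (9 * side V0 / 2) i) with hM
  have hMt : M < ⊤ := BP_mass_lt hS _ _ _ _
  refine ⟨τ, hτ, min_le_right _ _, M.toReal ^ 2 + M.toReal * C2, min rA r2, lt_min hrA hr2,
    fun r hr j => ?_⟩
  have hrA' : r < rA := hr.trans_le (min_le_left _ _)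
  have hr2' : r < r2 := hr.trans_le (min_le_right _ _)
  set V' := child n V0 j with hV'
  have hside0 : side V0 = 1 := by
    unfold side V0
    simp
  have hside : side V' = 1 / 2 ^ (3 * n) := by
    rw [hV']
    unfold side child
    simp [V0]
  have hlev : V'.1 = 3 * n := by
    simp [hV', child, V0]
  have h0 : V0.1 = 0 := rfl
  -- the four events
  set EA : Set (Conf E) := (Ev univ (K3r sh τ V'.1 V0 V'))ᶜ with hEA
  set EB : Set (Conf E) := {w | ∃ p ∈ Sp w, ∃ q ∈ Sp w, p ≠ q ∧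
    p.2 ∈ BP_T sh 0 (3 * n) (ctr V0) (9 * side V0 / 2) p.1 ∧
    q.2 ∈ BP_T sh 0 (3 * n) (ctr V0) (9 * side V0 / 2) q.1} with hEB
  set E1 : Set (Conf E) := {w | ∃ p ∈ Sp w,
    p.2 ∈ BP_T sh 0 (3 * n) (ctr V0) (9 * side V0 / 2) p.1} with hE1
  set E2 : Set (Conf E) := (Ev univ (ChR sh (3 * n) (ctr V0) (9 / 2 * 8 ^ n / 2 ^ (3 * n))
    (τ / 2 ^ (3 * n))))ᶜ with hE2
  set ED : Set (Conf E) := {w | ∃ p ∈ Sp w, p.2 ∈ surT sh n τ j p.1} with hED
  have e8 : (2 : ℝ) ^ (3 * n) = 8 ^ n := by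
    rw [pow_mul]
    norm_num
  have hsub : (Ev univ (K3r sh τ V0.1 V0 V') : Set (Conf E))ᶜ ⊆
      EA ∪ (EB ∪ ((E1 ∩ E2) ∪ ED)) := by
    intro w hw
    obtain ⟨l, hl, hR⟩ := BP_notMem hw
    rcases k3_cases hS hτ hl hR with h | ⟨p, hp, q, hq, hne, hp', hq'⟩ |
      ⟨p, hp, hp', l', hl', hR'⟩ | ⟨p, hp, ha, hb, hc, hd, he⟩
    · exact Or.inl (BP_mem hl h)
    · refine Or.inr (Or.inl ⟨p, hp, q, hq, hne, ⟨⟨Nat.zero_le _, ?_⟩, hp'.2.2⟩,
        ⟨Nat.zero_le _, ?_⟩, hq'.2.2⟩)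
      · rw [← hlev]
        exact hp'.2.1
      · rw [← hlev]
        exact hq'.2.1
    · refine Or.inr (Or.inr (Or.inl ⟨⟨p, hp, ⟨Nat.zero_le _, ?_⟩, hp'.2.2⟩, ?_⟩))
      · rw [← hlev]
        exact hp'.2.1
      · refine BP_mem hl' ?_
        have e1 : (9 * side V0 / 2 : ℝ) = 9 / 2 * 8 ^ n / 2 ^ (3 * n) := by
          rw [hside0, e8]
          field_simp
        have e2 : τ * side V' = τ / 2 ^ (3 * n) := by
          rw [hside, mul_one_div]
        rw [← e1, ← e2, ← hlev]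
        exact hR'
    · refine Or.inr (Or.inr (Or.inr ⟨p, hp, ?_, hc, hd, he⟩))
      rw [← hlev]
      exact hb
  have pA : law r ν EA ≤ ENNReal.ofReal (CA * r) :=
    hA r hrA' τ hτ (min_le_right _ _) V0 V'
  have p1 : law r ν E1 ≤ ENNReal.ofReal (r * M.toReal) := by
    refine (BP_prob hS r _ fun i => BP_meas hS _ _ _ _ i).trans (le_of_eq ?_)
    rw [ENNReal.ofReal_mul (NNReal.coe_nonneg r), ENNReal.ofReal_coe_nnreal, ENNReal.ofReal_toReal hMt.ne]
  have pB : law r ν EB ≤ ENNReal.ofReal ((r * M.toReal) ^ 2) := by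
    have h := prob_two_le (fun _ : Idx => r) (fun _ => ν)
      (BP_T sh 0 (3 * n) (ctr V0) (9 * side V0 / 2)) (fun i => BP_meas hS _ _ _ _ i)
    rw [ENNReal.tsum_mul_left] at h
    refine h.trans (le_of_eq ?_)
    rw [ENNReal.ofReal_pow (by positivity), ENNReal.ofReal_mul (NNReal.coe_nonneg r), ENNReal.ofReal_coe_nnreal,
      ENNReal.ofReal_toReal hMt.ne]
  have pC : law r ν (E1 ∩ E2) ≤ ENNReal.ofReal ((r * M.toReal) * (C2 * r)) := by
    rw [hE1, hE2, BP_indep hS, ENNReal.ofReal_mul (by positivity)]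
    exact mul_le_mul' p1 (h2 r hr2' (3 * n) (ctr V0))
  have pD : law r ν ED ≤ ENNReal.ofReal (r * (kap ν sh n j + CL)) := by
    refine (BP_prob hS r _ fun i => measurableSet_surT hS n τ j i).trans ?_
    rw [ENNReal.ofReal_mul (NNReal.coe_nonneg r), ENNReal.ofReal_coe_nnreal]
    exact mul_le_mul_right (hτL τ hτ (min_le_left _ _) j) _
  have hkap : 0 ≤ kap ν sh n j := ENNReal.toReal_nonneg
  have hr0 : (0 : ℝ) ≤ r := r.2
  have hM0 : (0 : ℝ) ≤ M.toReal := ENNReal.toReal_nonneg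
  calc law r ν (Ev univ (K3r sh τ V0.1 V0 V'))ᶜ
      ≤ law r ν (EA ∪ (EB ∪ ((E1 ∩ E2) ∪ ED))) := measure_mono hsub
    _ ≤ law r ν EA + (law r ν EB + (law r ν (E1 ∩ E2) + law r ν ED)) :=
        (measure_union_le _ _).trans (add_le_add le_rfl ((measure_union_le _ _).trans
          (add_le_add le_rfl (measure_union_le _ _))))
    _ ≤ ENNReal.ofReal (CA * r) + (ENNReal.ofReal ((r * M.toReal) ^ 2) +
        (ENNReal.ofReal ((r * M.toReal) * (C2 * r)) +
          ENNReal.ofReal (r * (kap ν sh n j + CL)))) :=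
        add_le_add pA (add_le_add pB (add_le_add pC pD))
    _ = ENNReal.ofReal (CA * r + ((r * M.toReal) ^ 2 + ((r * M.toReal) * (C2 * r) +
          r * (kap ν sh n j + CL)))) := by
        rw [ENNReal.ofReal_add (by positivity) (by positivity),
          ENNReal.ofReal_add (by positivity) (by positivity),
          ENNReal.ofReal_add (by positivity) (by positivity)]
    _ = ENNReal.ofReal (r * (kap ν sh n j + (CA + CL)) +
          (M.toReal ^ 2 + M.toReal * C2) * r ^ 2) := by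
        congr 1
        ring

theorem badProb : Iface.BadProb := by
  intro E _ ν sh hS
  have := hS.prob
  obtain ⟨C2, r2, hC2, hr2, h2⟩ := k2_prob hS
  obtain ⟨C3, hC3, h3⟩ := k3_prob hS
  refine ⟨C2 + C3, fun n hn => ?_⟩
  obtain ⟨τ, hτ, hτ8, Cn, r3, hr3, h3'⟩ := h3 n hn
  refine ⟨τ, hτ, hτ8, max Cn 0, min r2 r3, lt_min hr2 hr3, fun r hr j => ?_⟩
  have q2 := h2 r (hr.trans_le (min_le_left _ _)) (child n V0 j)
  have q3 := h3' r (hr.trans_le (min_le_right _ _)) j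
  have q1 := k1_prob hS n r j
  have hkap : 0 ≤ kap ν sh n j := ENNReal.toReal_nonneg
  have hr0 : (0 : ℝ) ≤ r := r.2
  have hhs : 0 ≤ hs ν sh n := Finset.sum_nonneg fun _ _ => ENNReal.toReal_nonneg
  have hCn : Cn ≤ max Cn 0 := le_max_left _ _
  have hCn0 : 0 ≤ max Cn 0 := le_max_right _ _
  have hm : MeasurableSet (Ev univ (bad sh τ V0 (child n V0 j)) : Set (Conf E)) :=
    measurableSet_Ev _ _ (measR_bad hS hτ _ _)
  have hsub : (Ev univ (bad sh τ V0 (child n V0 j)) : Set (Conf E))ᶜ ⊆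
      (Ev univ (K1r sh V0 (child n V0 j)))ᶜ ∪ ((Ev univ (K2r sh (child n V0 j)))ᶜ ∪
        (Ev univ (K3r sh τ V0.1 V0 (child n V0 j)))ᶜ) :=
    (BP_or (K1r sh V0 (child n V0 j))
      (fun l => K2r sh (child n V0 j) l ∨ K3r sh τ V0.1 V0 (child n V0 j) l)).trans
      (union_subset_union_right _ (BP_or _ _))
  have hle : law r ν (Ev univ (bad sh τ V0 (child n V0 j)))ᶜ ≤
      ENNReal.ofReal (r * (kap ν sh n j + (C2 + C3) + hs ν sh n) + max Cn 0 * r ^ 2) := by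
    calc law r ν (Ev univ (bad sh τ V0 (child n V0 j)))ᶜ
        ≤ law r ν (Ev univ (K1r sh V0 (child n V0 j)))ᶜ +
          (law r ν (Ev univ (K2r sh (child n V0 j)))ᶜ +
            law r ν (Ev univ (K3r sh τ V0.1 V0 (child n V0 j)))ᶜ) :=
          (measure_mono hsub).trans ((measure_union_le _ _).trans
            (add_le_add le_rfl (measure_union_le _ _)))
      _ ≤ ENNReal.ofReal (r * hs ν sh n) + (ENNReal.ofReal (C2 * r) +
            ENNReal.ofReal (r * (kap ν sh n j + C3) + max Cn 0 * r ^ 2)) := by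
          refine add_le_add q1 (add_le_add q2 (q3.trans (ENNReal.ofReal_le_ofReal ?_)))
          have := mul_le_mul_of_nonneg_right hCn (sq_nonneg (r : ℝ))
          linarith
      _ = ENNReal.ofReal (r * hs ν sh n + (C2 * r +
            (r * (kap ν sh n j + C3) + max Cn 0 * r ^ 2))) := by
          rw [← ENNReal.ofReal_add (by positivity) (by positivity),
            ← ENNReal.ofReal_add (by positivity) (by positivity)]
      _ = ENNReal.ofReal (r * (kap ν sh n j + (C2 + C3) + hs ν sh n) + max Cn 0 * r ^ 2) := by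
          congr 1
          ring
  have h4 : (law r ν).real (Ev univ (bad sh τ V0 (child n V0 j)))ᶜ =
      1 - (law r ν).real (Ev univ (bad sh τ V0 (child n V0 j))) := probReal_compl_eq_one_sub hm
  rw [← h4, Measure.real]
  refine ENNReal.toReal_le_of_le_ofReal (by positivity) hle

end Pool.Agent.Helper16.CD
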