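import Pool.Agent.Helper16.CD.CM

/-!
# CD-HS: the `o(n)` term (Iface.HsSmall)

`a i = (hh ν sh (9/2 (1/2)^(i+1))).toReal` is finite, decreasing in `i` (`hh_mono`, `hh_lt_top`) and tends to `0`: by `IsShape.hit` for every `ε > 0` there is
`t > 0` with `hh ν sh t ≤ ε`, and `9/2 (1/2)^(i+1) ≤ t` for large `i`.  Hence `(∑_{i < 3n} a i) / n → 0` (Cesàro:
`∑_{i<3n} a i ≤ ∑_{i<i₀} a i + 3 n δ`, with `δ = ε/6` and `n` large).
-/

set_option autoImplicit false

namespace Pool.Agent.Helper16.CD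

open MeasureTheory ProbabilityTheory Metric Set
open scoped ENNReal NNReal
open Pool.Agent.Helper3.CD Pool.Agent.Helper22.CD

private theorem CHs_tendsto {E : Type} [MeasurableSpace E] {ν : Measure E} {sh : E → Set Plane}
    (hS : IsShape ν sh) :
    Filter.Tendsto (fun i : ℕ => (hh ν sh (9 / 2 * (1 / 2) ^ (i + 1))).toReal) Filter.atTop
      (nhds 0) := by
  rw [Metric.tendsto_atTop]
  intro ε hε
  obtain ⟨t, ht, hh1⟩ := hS.hit (ENNReal.ofReal (ε / 2)) (ENNReal.ofReal_pos.2 (by positivity))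
  have h1 : hh ν sh t ≤ ENNReal.ofReal (ε / 2) := iSup_le hh1
  have h2 : Filter.Tendsto (fun i : ℕ => 9 / 2 * (1 / 2 : ℝ) ^ (i + 1)) Filter.atTop (nhds 0) := by
    have h3 : Filter.Tendsto (fun i : ℕ => (1 / 2 : ℝ) ^ (i + 1)) Filter.atTop (nhds 0) :=
      (tendsto_pow_atTop_nhds_zero_of_lt_one (by norm_num) (by norm_num)).comp
        (Filter.tendsto_add_atTop_nat 1)
    simpa using h3.const_mul (9 / 2 : ℝ)
  obtain ⟨i₀, hi₀⟩ := Filter.eventually_atTop.1 (h2.eventually (gt_mem_nhds ht))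
  refine ⟨i₀, fun i hi => ?_⟩
  have h4 : hh ν sh (9 / 2 * (1 / 2) ^ (i + 1)) ≤ ENNReal.ofReal (ε / 2) :=
    (hh_mono ν sh (hi₀ i hi).le).trans h1
  have h5 := ENNReal.toReal_le_of_le_ofReal (by positivity) h4
  rw [Real.dist_eq, sub_zero, abs_of_nonneg ENNReal.toReal_nonneg]
  linarith

theorem hsSmall : Iface.HsSmall := by
  intro E _ ν sh hS ε hε
  have h1 := (CHs_tendsto hS).cesaro
  rw [Metric.tendsto_atTop] at h1
  obtain ⟨N, hN⟩ := h1 (ε / 3) (by positivity)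
  refine ⟨N + 1, fun n hn => ?_⟩
  have h2 := hN (3 * n) (by omega)
  rw [Real.dist_eq, sub_zero] at h2
  have h3 := (le_abs_self _).trans h2.le
  have hn0 : (0 : ℝ) < n := by
    have : 0 < n := by omega
    exact_mod_cast this
  have h4 : (0 : ℝ) < ((3 * n : ℕ) : ℝ) := by
    push_cast
    positivity
  have h5 : ∑ i ∈ Finset.range (3 * n), (hh ν sh (9 / 2 * (1 / 2) ^ (i + 1))).toReal ≤
      ((3 * n : ℕ) : ℝ) * (ε / 3) := by
    rw [inv_mul_le_iff₀ h4] at h3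
    exact h3
  unfold hs
  refine h5.trans (le_of_eq ?_)
  push_cast
  ring

end Pool.Agent.Helper16.CD
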