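import Pool.Agent.Helper16.CD.C5
import Pool.Agent.Helper3.CD.First

/-!
# CD-GR: Iface.GProb and Iface.RootProb

`(Ev univ (R ∨ R'))ᶜ ⊆ (Ev univ R)ᶜ ∪ (Ev univ R')ᶜ`; it is enough to make both probabilities `≤ 1/4`.
`OneR sh a b x R`: `prob_exists_le` and `mass_hit`: `≤ r ∑_{j ∈ [a, b)} C (1 + 2^j R)²`.
`Gr`: `a = T.1 - 6n`, `b = T.1`, `R = 31/2 side T`: `2^j R ≤ 31/4` for `j < T.1`, at most `6 n` levels: `≤ 6 n C 9² r`, uniformly in `T`.  Second part:
`ChR sh T.1 (ctr T) (31/2 side T) (τ/2 side T)`, `side T = 1/2^T.1`: `chain_gen` with `A = 31/2`, `d = τ/2`: `≤ C' r`.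
`Rootr`: `OneR sh 0 (3n) 0 4`: `≤ r ∑_{j<3n} C (1 + 4 2^j)²`; `ChR sh 0 0 4 (side (rootV n) / 4)`: `chain_gen` with `A = 4`, `d = 8^-n/4`, `k = 0`.
-/

set_option autoImplicit false

namespace Pool.Agent.Helper16.CD

open MeasureTheory ProbabilityTheory Metric Set
open scoped ENNReal NNReal
open Pool.Agent.Helper3.CD Pool.Agent.Helper22.CD

private theorem GR_meas {E : Type} [MeasurableSpace E] {ν : Measure E} {sh : E → Set Plane}
    (hS : IsShape ν sh) (i : Idx) (x : Plane) (R : ℝ) :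
    MeasurableSet {e | (lp sh (i, e) ∩ closedBall x R).Nonempty} := by
  have h : RK sh := ⟨hS.compact, fun e => (hS.conn e).nonempty, hS.meas⟩
  exact meas_hit (h.pos i) x R

private theorem GR_one {E : Type} [MeasurableSpace E] {ν : Measure E} {sh : E → Set Plane}
    (hS : IsShape ν sh) : ∃ C : ℝ, 0 < C ∧ ∀ (r : ℝ≥0) (a b : ℕ) (x : Plane) (R M : ℝ), 0 ≤ R →
      (∀ j, a ≤ j → j < b → 2 ^ j * R ≤ M) →
      law r ν (Ev univ (OneR sh a b x R))ᶜ ≤
        ENNReal.ofReal (r * (((b - a : ℕ) : ℝ) * (C * (1 + M) ^ 2))) := by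
  classical
  haveI := hS.prob
  obtain ⟨C, hC, hmass⟩ := mass_hit hS
  refine ⟨C, hC, fun r a b x R M hR hM => ?_⟩
  let T : Idx → Set E := fun i =>
    if a ≤ i.1 ∧ i.1 < b then {e | (lp sh (i, e) ∩ closedBall x R).Nonempty} else ∅
  have hT : ∀ i, MeasurableSet (T i) := by
    intro i
    simp only [T]
    split_ifs
    · exact GR_meas hS i x R
    · exact MeasurableSet.empty
  have hsub : (Ev univ (OneR sh a b x R))ᶜ ⊆ {w : Conf E | ∃ p ∈ Sp w, p.2 ∈ T p.1} := by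
    intro w hw
    simp only [Ev, mem_compl_iff, mem_ofPred_eq, not_forall, not_not] at hw
    obtain ⟨l, hl, p, rfl, h1, h2, h3⟩ := hw
    refine ⟨p, (hl p (by simp)).1, ?_⟩
    simp only [T]
    rw [if_pos ⟨h1, h2⟩]
    exact h3
  have h1 := prob_exists_le (fun _ : Idx => r) (fun _ => ν) T hT
  refine (measure_mono hsub).trans (h1.trans ?_)
  have hprod : ∑' (i : Idx), ν (T i) = ∑' (j : ℕ), ∑' (v : ℤ × ℤ), ν (T (j, v)) :=
    ENNReal.tsum_prod (f := fun (j : ℕ) (v : ℤ × ℤ) => ν (T (j, v)))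
  rw [ENNReal.tsum_mul_left, hprod]
  have h2 : ∑' (j : ℕ), ∑' (v : ℤ × ℤ), ν (T (j, v)) =
      ∑ j ∈ Finset.Ico a b, ∑' (v : ℤ × ℤ), ν (T (j, v)) := by
    refine tsum_eq_sum fun j hj => ?_
    rw [Finset.mem_Ico] at hj
    have h3 : ∀ v : ℤ × ℤ, ν (T (j, v)) = 0 := by
      intro v
      simp only [T]
      rw [if_neg hj, measure_empty]
    simp only [h3, tsum_zero]
  rw [h2]
  have h4 : ∀ j ∈ Finset.Ico a b, ∑' (v : ℤ × ℤ), ν (T (j, v)) ≤
      ENNReal.ofReal (C * (1 + M) ^ 2) := by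
    intro j hj
    rw [Finset.mem_Ico] at hj
    have h5 : ∀ v : ℤ × ℤ, T (j, v) = {e | (lp sh ((j, v), e) ∩ closedBall x R).Nonempty} := by
      intro v
      simp only [T]
      rw [if_pos hj]
    simp only [h5]
    refine (hmass j x R hR).trans (ENNReal.ofReal_le_ofReal ?_)
    have h6 := hM j hj.1 hj.2
    have h7 : 0 ≤ (2 : ℝ) ^ j * R := by positivity
    gcongr
  have h5 := Finset.sum_le_card_nsmul _ _ _ h4
  rw [Nat.card_Ico, nsmul_eq_mul] at h5
  rw [ENNReal.ofReal_mul (NNReal.coe_nonneg r), ENNReal.ofReal_mul (Nat.cast_nonneg _),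
    ENNReal.ofReal_coe_nnreal, ENNReal.ofReal_natCast]
  gcongr

private theorem GR_fin {E : Type} [MeasurableSpace E] (μ : Measure (Conf E))
    [IsProbabilityMeasure μ] (R R' : List (Idx × E) → Prop)
    (h1 : μ (Ev univ R)ᶜ ≤ ENNReal.ofReal (1 / 4))
    (h2 : μ (Ev univ R')ᶜ ≤ ENNReal.ofReal (1 / 4)) :
    1 / 2 ≤ μ.real (Ev univ fun l => R l ∨ R' l) := by
  set S := Ev univ fun l : List (Idx × E) => R l ∨ R' l with hSd
  have hsub : Sᶜ ⊆ (Ev univ R)ᶜ ∪ (Ev univ R')ᶜ := by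
    intro w hw
    by_contra hcon
    simp only [mem_union, mem_compl_iff, not_or, not_not] at hcon
    apply hw
    intro l hl hR
    rcases hR with hR | hR
    · exact hcon.1 l hl hR
    · exact hcon.2 l hl hR
  have h3 : μ Sᶜ ≤ ENNReal.ofReal (1 / 2) := by
    refine (measure_mono hsub).trans ((measure_union_le _ _).trans ?_)
    refine (add_le_add h1 h2).trans ?_
    rw [← ENNReal.ofReal_add (by norm_num) (by norm_num)]
    norm_num
  have h4 : (1 : ℝ≥0∞) ≤ μ S + μ Sᶜ := by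
    rw [← measure_univ (μ := μ), ← union_compl_self S]
    exact measure_union_le _ _
  have h5 : (1 : ℝ≥0∞) ≤ ENNReal.ofReal (μ.real S + 1 / 2) := by
    rw [ENNReal.ofReal_add measureReal_nonneg (by norm_num)]
    have h6 : ENNReal.ofReal (μ.real S) = μ S := ENNReal.ofReal_toReal (measure_ne_top μ S)
    rw [h6]
    exact h4.trans (add_le_add le_rfl h3)
  rw [ENNReal.one_le_ofReal] at h5
  linarith

private theorem GR_small (K : ℝ) (hK : 0 ≤ K) : ∃ r₀ : ℝ≥0, 0 < r₀ ∧ ∀ r : ℝ≥0, r < r₀ →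
    (r : ℝ) * K ≤ 1 / 4 := by
  refine ⟨⟨1 / (4 * (K + 1)), by positivity⟩, ?_, fun r hr => ?_⟩
  · rw [← NNReal.coe_pos]
    change (0 : ℝ) < 1 / (4 * (K + 1))
    positivity
  · have h1 : (r : ℝ) < 1 / (4 * (K + 1)) := by exact_mod_cast hr
    have h2 : (r : ℝ) * (4 * (K + 1)) < 1 := by
      rw [lt_div_iff₀ (by positivity)] at h1
      exact h1
    nlinarith [NNReal.coe_nonneg r]

theorem gProb : Iface.GProb := by
  intro E _ ν sh hS n τ hτ
  haveI := hS.prob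
  obtain ⟨C, hC, h1⟩ := GR_one hS
  obtain ⟨C', r₁, hC', hr₁, h2⟩ := chain_gen hS (31 / 2) (τ / 2) (by positivity)
  obtain ⟨r₂, hr₂, h3⟩ := GR_small (6 * n * (C * (1 + 31 / 4) ^ 2)) (by positivity)
  obtain ⟨r₃, hr₃, h4⟩ := GR_small C' hC'.le
  refine ⟨min r₁ (min r₂ r₃), lt_min hr₁ (lt_min hr₂ hr₃), fun r hr T => ?_⟩
  have hr1 : r < r₁ := lt_of_lt_of_le hr (min_le_left _ _)
  have hr2 : r < r₂ := lt_of_lt_of_le hr ((min_le_right _ _).trans (min_le_left _ _))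
  have hr3 : r < r₃ := lt_of_lt_of_le hr ((min_le_right _ _).trans (min_le_right _ _))
  have hside : side T = 1 / 2 ^ T.1 := by
    unfold side
    rw [one_div_pow]
  refine GR_fin (law r ν) _ _ ?_ ?_
  · refine (h1 r (T.1 - 6 * n) T.1 (ctr T) (31 * side T / 2) (31 / 4) ?_ ?_).trans
      (ENNReal.ofReal_le_ofReal ?_)
    · rw [hside]
      positivity
    · intro j _ hj
      rw [hside]
      have h5 : (2 : ℝ) ^ j * 2 ≤ 2 ^ T.1 := by
        rw [← pow_succ]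
        exact pow_le_pow_right₀ (by norm_num) hj
      have h6 : (0 : ℝ) < 2 ^ T.1 := by positivity
      rw [mul_div_assoc', div_le_iff₀ (by norm_num : (0 : ℝ) < 2), ← mul_assoc, mul_one_div,
        div_le_iff₀ h6]
      linarith
    · have h5 : (((T.1 - (T.1 - 6 * n) : ℕ)) : ℝ) ≤ 6 * n := by
        have : T.1 - (T.1 - 6 * n) ≤ 6 * n := by omega
        exact_mod_cast this
      have h6 := h3 r hr2
      have h7 : (((T.1 - (T.1 - 6 * n) : ℕ)) : ℝ) * (C * (1 + 31 / 4) ^ 2) ≤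
          6 * n * (C * (1 + 31 / 4) ^ 2) := mul_le_mul_of_nonneg_right h5 (by positivity)
      exact (mul_le_mul_of_nonneg_left h7 (NNReal.coe_nonneg r)).trans h6
  · have h5 := h2 r hr1 T.1 (ctr T)
    have e1 : (31 / 2 : ℝ) / 2 ^ T.1 = 31 * side T / 2 := by
      rw [hside]
      ring
    have e2 : τ / 2 / 2 ^ T.1 = τ / 2 * side T := by
      rw [hside]
      ring
    rw [e1, e2] at h5
    refine h5.trans (ENNReal.ofReal_le_ofReal ?_)
    have h6 := h4 r hr3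
    linarith

theorem rootProb : Iface.RootProb := by
  intro E _ ν sh hS n
  haveI := hS.prob
  obtain ⟨C, hC, h1⟩ := GR_one hS
  have hs : 0 < side (rootV n) := by
    unfold side
    positivity
  obtain ⟨C', r₁, hC', hr₁, h2⟩ := chain_gen hS 4 (side (rootV n) / 4) (by positivity)
  obtain ⟨r₂, hr₂, h3⟩ := GR_small (((3 * n - 0 : ℕ) : ℝ) * (C * (1 + 2 ^ (3 * n) * 4) ^ 2))
    (by positivity)
  obtain ⟨r₃, hr₃, h4⟩ := GR_small C' hC'.le
  refine ⟨min r₁ (min r₂ r₃), lt_min hr₁ (lt_min hr₂ hr₃), fun r hr => ?_⟩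
  have hr1 : r < r₁ := lt_of_lt_of_le hr (min_le_left _ _)
  have hr2 : r < r₂ := lt_of_lt_of_le hr ((min_le_right _ _).trans (min_le_left _ _))
  have hr3 : r < r₃ := lt_of_lt_of_le hr ((min_le_right _ _).trans (min_le_right _ _))
  refine GR_fin (law r ν) _ _ ?_ ?_
  · refine (h1 r 0 (3 * n) 0 4 (2 ^ (3 * n) * 4) (by norm_num) ?_).trans
      (ENNReal.ofReal_le_ofReal (h3 r hr2))
    intro j _ hj
    have h5 : (2 : ℝ) ^ j ≤ 2 ^ (3 * n) := pow_le_pow_right₀ (by norm_num) hj.le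
    linarith
  · have h5 := h2 r hr1 0 0
    rw [pow_zero, div_one, div_one] at h5
    refine h5.trans (ENNReal.ofReal_le_ofReal ?_)
    have h6 := h4 r hr3
    linarith

end Pool.Agent.Helper16.CD
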