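import Pool.Agent.Helper16.CD.KDefs
import Pool.Agent.Helper16.CD.Desc

/-!
# CD-GS2: every position occurs equally often

`dig (up^[t] (child n V0 j)) = ((j.1 / 8^t) % 8, (j.2 / 8^t) % 8)` (as integers) because `V0 = (0,0,0)`.
For one coordinate and `a < 8`, `t < n`: `#{x < 8^n : (x / 8^t) % 8 = a} = 8^(n-1)`: bijection
`x ↔ (x % 8^t, x / 8^(t+1))` (`x = q 8^(t+1) + a 8^t + y`).  So for `f : ℤ × ℤ → ℝ`
`∑ j : J n, f (dig (up^[t] (child n V0 j))) = 64^(n-1) ∑_{a, b < 8} f (a, b)`.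
-/

set_option autoImplicit false

namespace Pool.Agent.Helper16.CD

open MeasureTheory ProbabilityTheory Metric Set
open scoped ENNReal NNReal
open Pool.Agent.Helper3.CD

private theorem GS2_range_mul (F : ℕ → ℝ) (a b : ℕ) :
    ∑ x ∈ Finset.range (a * b), F x =
      ∑ q ∈ Finset.range a, ∑ y ∈ Finset.range b, F (q * b + y) := by
  induction a with
  | zero => simp
  | succ a ih => rw [Nat.succ_mul, Finset.sum_range_add, ih, Finset.sum_range_succ]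

private theorem GS2_one {n t : ℕ} (ht : t < n) (g : ℕ → ℝ) :
    ∑ x ∈ Finset.range (8 ^ n), g (x / 8 ^ t % 8) =
      8 ^ (n - 1) * ∑ a ∈ Finset.range 8, g a := by
  obtain ⟨r, hr⟩ : ∃ r, n = r + 1 + t := ⟨n - t - 1, by omega⟩
  have h8 : 0 < 8 ^ t := by positivity
  rw [hr, pow_add, GS2_range_mul]
  have h1 : ∀ q ∈ Finset.range (8 ^ (r + 1)), ∑ y ∈ Finset.range (8 ^ t),
      g ((q * 8 ^ t + y) / 8 ^ t % 8) = 8 ^ t * g (q % 8) := by
    intro q _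
    have h2 : ∀ y ∈ Finset.range (8 ^ t), g ((q * 8 ^ t + y) / 8 ^ t % 8) = g (q % 8) := by
      intro y hy
      rw [Finset.mem_range] at hy
      rw [add_comm, Nat.add_mul_div_right _ _ h8, Nat.div_eq_of_lt hy, zero_add]
    rw [Finset.sum_congr rfl h2, Finset.sum_const, Finset.card_range, nsmul_eq_mul]
    push_cast
    rfl
  rw [Finset.sum_congr rfl h1, ← Finset.mul_sum, pow_succ, GS2_range_mul]
  have h3 : ∀ q ∈ Finset.range (8 ^ r), ∑ a ∈ Finset.range 8, g ((q * 8 + a) % 8) =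
      ∑ a ∈ Finset.range 8, g a := by
    intro q _
    refine Finset.sum_congr rfl fun a ha => ?_
    rw [Finset.mem_range] at ha
    congr 1
    omega
  rw [Finset.sum_congr rfl h3, Finset.sum_const, Finset.card_range, nsmul_eq_mul, ← mul_assoc]
  congr 1
  have h4 : r + 1 + t - 1 = t + r := by omega
  rw [h4, pow_add]
  push_cast
  rfl

private theorem GS2_dig (n t : ℕ) (j : J n) : dig (up^[t] (child n V0 j)) =
    (((j.1.1 / 8 ^ t % 8 : ℕ) : ℤ), ((j.2.1 / 8 ^ t % 8 : ℕ) : ℤ)) := by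
  have h1 : up^[t] (child n V0 j) = par t (child n V0 j) := rfl
  rw [h1, par_eq]
  unfold dig child V0
  ext1
  · push_cast
    change (8 ^ n * 0 + (j.1.1 : ℤ)) / 8 ^ t % 8 = _
    rw [mul_zero, zero_add]
  · push_cast
    change (8 ^ n * 0 + (j.2.1 : ℤ)) / 8 ^ t % 8 = _
    rw [mul_zero, zero_add]

theorem sum_dig {n : ℕ} {t : ℕ} (ht : t < n) (f : ℤ × ℤ → ℝ) :
    ∑ j : J n, f (dig (up^[t] (child n V0 j))) =
      64 ^ (n - 1) * ∑ a ∈ Finset.range 8, ∑ b ∈ Finset.range 8, f ((a : ℤ), (b : ℤ)) := by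
  simp_rw [GS2_dig]
  rw [Fintype.sum_prod_type]
  have h1 : ∀ x : Fin (8 ^ n), ∑ y : Fin (8 ^ n), f (((x.1 / 8 ^ t % 8 : ℕ) : ℤ),
      ((y.1 / 8 ^ t % 8 : ℕ) : ℤ)) = 8 ^ (n - 1) * ∑ b ∈ Finset.range 8,
        f (((x.1 / 8 ^ t % 8 : ℕ) : ℤ), (b : ℤ)) := by
    intro x
    rw [Fin.sum_univ_eq_sum_range (fun y => f (((x.1 / 8 ^ t % 8 : ℕ) : ℤ),
      ((y / 8 ^ t % 8 : ℕ) : ℤ))) (8 ^ n)]
    exact GS2_one ht (fun b => f (((x.1 / 8 ^ t % 8 : ℕ) : ℤ), (b : ℤ)))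
  rw [Finset.sum_congr rfl fun x _ => h1 x, ← Finset.mul_sum,
    Fin.sum_univ_eq_sum_range (fun x => ∑ b ∈ Finset.range 8,
      f (((x / 8 ^ t % 8 : ℕ) : ℤ), (b : ℤ))) (8 ^ n),
    GS2_one ht (fun a => ∑ b ∈ Finset.range 8, f ((a : ℤ), (b : ℤ))), ← mul_assoc, ← mul_pow]
  norm_num

end Pool.Agent.Helper16.CD
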