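import Pool.Agent.Helper16.CD.GS1
import Pool.Agent.Helper16.CD.GS2

/-!
# CD-GS: total gain (Iface.GainSum)

`3/2 ≤ s ≤ 2`, `L = (ν (Lset sh)).toReal`.  For each `t < n` and `j`, with `d = dig (up^[t] (child n V0 j))` (digits in `0..7`) the term of `gain` is
`≥ f d` where `f d = (95/100) L` for `d ∈ {3,4}²`, `f (1,3) = -3 L`, `f d = 0` otherwise:
 `d ∈ {3,4}²`: `isI d`, `wt = 1/8`, `1 - (1/8)^s ≥ 1 - (1/8)^(3/2) ≥ 0.95` (`(1/8)^(3/2) = 1/(16 √2) < 0.0442`; `(1/8)^(3/2) * (1/8)^(3/2) = 1/512`),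
   and the set is all of `Lset sh` (`not_singr`);
 `d = (1,3)`: `wt = 2`, `1 - 2^s ≥ -3`, measure of the set `≤ ν (Lset sh)`;
 other inner `d`: factor `1 - (1/8)^s ≥ 0`, measure `≥ 0`;  other `d`: `wt = 1`, factor `0`.
`∑_j f d = 64^(n-1) (4 * 0.95 - 3) L = 64^(n-1) * 0.8 L = 64^n L / 80` by `sum_dig`; sum over `t < n`.
-/

set_option autoImplicit false

namespace Pool.Agent.Helper16.CD

open MeasureTheory ProbabilityTheory Metric Set
open scoped ENNReal NNReal
open Pool.Agent.Helper3.CD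

private theorem pow_eighth {s : ℝ} (hs : 3 / 2 ≤ s) : (1 / 8 : ℝ) ^ s ≤ 5 / 100 := by
  have h1 : (1 / 8 : ℝ) ^ s ≤ (1 / 8 : ℝ) ^ (3 / 2 : ℝ) :=
    Real.rpow_le_rpow_of_exponent_ge (by norm_num) (by norm_num) hs
  have h2 : ((1 / 8 : ℝ) ^ (3 / 2 : ℝ)) ^ 2 = 1 / 512 := by
    rw [← Real.rpow_natCast, ← Real.rpow_mul (by norm_num)]
    have h3 : (3 / 2 : ℝ) * ((2 : ℕ) : ℝ) = ((3 : ℕ) : ℝ) := by norm_num
    rw [h3, Real.rpow_natCast]
    norm_num
  have h4 : 0 ≤ (1 / 8 : ℝ) ^ (3 / 2 : ℝ) := by positivity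
  nlinarith

private theorem pow_two_le {s : ℝ} (hs : s ≤ 2) : (2 : ℝ) ^ s ≤ 4 := by
  have h1 : (2 : ℝ) ^ s ≤ (2 : ℝ) ^ (2 : ℝ) :=
    Real.rpow_le_rpow_of_exponent_le (by norm_num) hs
  have h2 : (2 : ℝ) ^ (2 : ℝ) = 4 := by
    rw [Real.rpow_two]; norm_num
  linarith

open Classical in
/-- lower bound of the term with position `d` -/
private noncomputable def lowf (L : ℝ) (d : ℤ × ℤ) : ℝ :=
  if (d.1 = 3 ∨ d.1 = 4) ∧ (d.2 = 3 ∨ d.2 = 4) then 95 / 100 * L
  else if d.1 = 1 ∧ d.2 = 3 then -3 * L else 0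

private theorem sum_lowf (L : ℝ) :
    ∑ a ∈ Finset.range 8, ∑ b ∈ Finset.range 8, lowf L ((a : ℤ), (b : ℤ)) = 8 / 10 * L := by
  unfold lowf
  simp [Finset.sum_range_succ]
  ring

private theorem term_ge {E : Type} [MeasurableSpace E] {ν : Measure E} {sh : E → Set Plane}
    [IsProbabilityMeasure ν] {n : ℕ} (j : J n) {t : ℕ} (ht : t < n) {s : ℝ} (hs1 : 3 / 2 ≤ s)
    (hs2 : s ≤ 2) :
    lowf (ν (Lset sh)).toReal (dig (up^[t] (child n V0 j))) ≤
      (1 - wt (dig (up^[t] (child n V0 j))) ^ s) *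
        (ν {e | e ∈ Lset sh ∧
          ¬ Singr sh V0 (child n V0 j) [(up^[t + 1] (child n V0 j), e)]}).toReal := by
  classical
  set d := dig (up^[t] (child n V0 j)) with hd
  set L := (ν (Lset sh)).toReal with hL
  set A := (ν {e | e ∈ Lset sh ∧
    ¬ Singr sh V0 (child n V0 j) [(up^[t + 1] (child n V0 j), e)]}).toReal with hA
  have hA0 : 0 ≤ A := ENNReal.toReal_nonneg
  have hAL : A ≤ L := ENNReal.toReal_mono (measure_ne_top _ _) (measure_mono fun e he => he.1)
  have h8 := pow_eighth hs1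
  have h80 : 0 ≤ (1 / 8 : ℝ) ^ s := by positivity
  have h2 := pow_two_le hs2
  by_cases hc : (d.1 = 3 ∨ d.1 = 4) ∧ (d.2 = 3 ∨ d.2 = 4)
  · have h3 : lowf L d = 95 / 100 * L := if_pos hc
    have hI : isI d := by
      obtain ⟨h1 | h1, h2 | h2⟩ := hc <;> simp [isI, h1, h2]
    have hw : wt d = 1 / 8 := if_pos hI
    have hAeq : A = L := by
      rw [hA, hL]
      congr 2
      ext e
      constructor
      · exact fun he => he.1
      · intro he
        refine ⟨he, not_singr j ht ?_ he⟩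
        exact hc
    rw [h3, hw, hAeq]
    have hL0 : 0 ≤ L := hAeq ▸ hA0
    exact mul_le_mul_of_nonneg_right (by linarith) hL0
  · by_cases hch : d.1 = 1 ∧ d.2 = 3
    · have h3 : lowf L d = -3 * L := by
        unfold lowf
        rw [if_neg hc, if_pos hch]
      have hI : ¬ isI d := by
        rintro ⟨h1, _⟩
        omega
      have hd' : d = (1, 3) := Prod.ext hch.1 hch.2
      have hw : wt d = 2 := by
        unfold wt
        rw [if_neg hI, if_pos hd']
      rw [h3, hw]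
      have h4 : -3 * A ≤ (1 - 2 ^ s) * A := mul_le_mul_of_nonneg_right (by linarith) hA0
      linarith
    · have h3 : lowf L d = 0 := by
        unfold lowf
        rw [if_neg hc, if_neg hch]
      rw [h3]
      by_cases hI : isI d
      · have hw : wt d = 1 / 8 := if_pos hI
        rw [hw]
        exact mul_nonneg (by linarith) hA0
      · have hd' : ¬ d = (1, 3) := fun h => hch ⟨by rw [h], by rw [h]⟩
        have hw : wt d = 1 := by
          unfold wt
          rw [if_neg hI, if_neg hd']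
        rw [hw, Real.one_rpow, sub_self, zero_mul]

theorem gainSum : Iface.GainSum := by
  intro E _ ν sh h n hn s hs1 hs2
  have hp := h.prob
  have h1 : ∀ j : J n, ∑ t ∈ Finset.range n,
      lowf (ν (Lset sh)).toReal (dig (up^[t] (child n V0 j))) ≤ gain ν sh n s j := by
    intro j
    unfold gain
    exact Finset.sum_le_sum fun t ht => term_ge j (Finset.mem_range.1 ht) hs1 hs2
  refine le_trans (le_of_eq ?_) (Finset.sum_le_sum fun j _ => h1 j)
  rw [Finset.sum_comm]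
  have h2 : ∀ t ∈ Finset.range n, ∑ j : J n,
      lowf (ν (Lset sh)).toReal (dig (up^[t] (child n V0 j))) =
        64 ^ (n - 1) * (8 / 10 * (ν (Lset sh)).toReal) := by
    intro t ht
    rw [sum_dig (Finset.mem_range.1 ht), sum_lowf]
  rw [Finset.sum_congr rfl h2, Finset.sum_const, Finset.card_range, nsmul_eq_mul]
  obtain ⟨m, rfl⟩ : ∃ m, n = m + 1 := ⟨n - 1, by omega⟩
  rw [Nat.add_sub_cancel, pow_succ]
  ring

end Pool.Agent.Helper16.CD
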