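import Pool.Agent.Helper16.CD.QDefs

/-!
# CD-AV: good squares inside the disc are avoided by the carpet

Let `i ∈ GD sh w`: `(i, e) ∈ Sp w`, `e ∈ Lset sh`, `cell i ⊆ oD`.  `Hset ⊆ [1/8, 7/8]²`, so
`sh e ⊆ thickening (1/32) Hset ⊆ [0,1]²` and `K = lp sh (i, e) = pos i '' sh e ⊆ cell i ⊆ oD`, `K ∈ loopsIn sh w`.
`Hset` is connected: it is the union of the 19 closed squares `sq d`, `isR d`, and they are arranged in a path
`(1,2),(1,1),(2,1),...,(6,1),(6,2),...,(6,6),(5,6),...,(1,6),(1,5),(1,4)` with consecutive ones sharing an edge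
(`IsPreconnected` of a union of successive intersecting convex sets; or path-connectedness to `h0`).
`Hset` is disjoint from the compact set `sh e` and `h0 ∈ fillIn (sh e)`, so `Hset` is in the component of `h0` of
the complement, which is bounded and open: every `z ∈ Hset` is in `interior (fillIn (sh e))` (all points of the
component are in `fillIn`).  `pos i` is a similarity, a homeomorphism of the plane preserving boundedness:
`pos i z ∈ interior (fillIn K)`.  `K ⊆ closure (cluster (loopsIn sh w) K)` (`Linked` is reflexive) and `fillIn` is monotone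
(`connectedComponentIn_mono`), so `pos i z ∈ interior (fillIn (closure (cluster _ K)))`, hence `∉ Xs`.
-/

set_option autoImplicit false

namespace Pool.Agent.Helper16.CD

open MeasureTheory ProbabilityTheory Metric Set
open scoped ENNReal NNReal
open Pool.Agent.Helper3.CD

theorem fillIn_mono {Q : Type*} [PseudoMetricSpace Q] {A B : Set Q} (h : A ⊆ B) :
    fillIn A ⊆ fillIn B := by
  intro z hz
  exact Bornology.IsBounded.subset hz (connectedComponentIn_mono z (compl_subset_compl.2 h))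

private lemma AV_fl (a b : ℤ) (hab : a < b) (x : ℝ) (h1 : (a : ℝ) / 8 ≤ x)
    (h2 : x ≤ (b : ℝ) / 8) :
    ∃ n : ℤ, a ≤ n ∧ n < b ∧ (n : ℝ) / 8 ≤ x ∧ x ≤ ((n : ℝ) + 1) / 8 := by
  rcases h2.eq_or_lt with h | h
  · refine ⟨b - 1, by omega, by omega, ?_, ?_⟩
    · push_cast
      rw [h]
      linarith
    · push_cast
      rw [h]
      linarith
  · refine ⟨⌊8 * x⌋, ?_, ?_, ?_, ?_⟩
    · rw [Int.le_floor]
      linarith
    · rw [Int.floor_lt]
      linarith
    · have := Int.floor_le (8 * x)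
      linarith
    · have := Int.lt_floor_add_one (8 * x)
      linarith

private lemma AV_mem {x y : ℝ} {d : ℤ × ℤ} (hd : isR d) (h1 : (d.1 : ℝ) / 8 ≤ x)
    (h2 : x ≤ ((d.1 : ℝ) + 1) / 8) (h3 : (d.2 : ℝ) / 8 ≤ y) (h4 : y ≤ ((d.2 : ℝ) + 1) / 8) :
    ((x, y) : Plane) ∈ Hset := ⟨d, hd, h1, h2, h3, h4⟩

private lemma AV_rect {a b c e : ℤ} (hab : a < b) (hce : c < e)
    (hR : ∀ n m : ℤ, a ≤ n → n < b → c ≤ m → m < e → isR (n, m)) :
    (Icc ((a : ℝ) / 8) ((b : ℝ) / 8) ×ˢ Icc ((c : ℝ) / 8) ((e : ℝ) / 8) : Set Plane) ⊆ Hset := by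
  rintro ⟨x, y⟩ ⟨⟨hx1, hx2⟩, ⟨hy1, hy2⟩⟩
  obtain ⟨n, h1, h2, h3, h4⟩ := AV_fl a b hab x hx1 hx2
  obtain ⟨m, h5, h6, h7, h8⟩ := AV_fl c e hce y hy1 hy2
  exact AV_mem (hR n m h1 h2 h5 h6) h3 h4 h7 h8

private def AV_R (a b c e : ℤ) : Set Plane :=
  Icc ((a : ℝ) / 8) ((b : ℝ) / 8) ×ˢ Icc ((c : ℝ) / 8) ((e : ℝ) / 8)

private lemma AV_R_conn {a b c e : ℤ} (hab : a ≤ b) (hce : c ≤ e) : IsConnected (AV_R a b c e) := by
  have h1 : (a : ℝ) ≤ b := by exact_mod_cast hab
  have h2 : (c : ℝ) ≤ e := by exact_mod_cast hce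
  exact (isConnected_Icc (by linarith)).prod (isConnected_Icc (by linarith))

private lemma AV_mem_R {a b c e : ℤ} {z : Plane} (h1 : (a : ℝ) / 8 ≤ z.1) (h2 : z.1 ≤ (b : ℝ) / 8)
    (h3 : (c : ℝ) / 8 ≤ z.2) (h4 : z.2 ≤ (e : ℝ) / 8) : z ∈ AV_R a b c e :=
  ⟨⟨h1, h2⟩, ⟨h3, h4⟩⟩

private lemma AV_eq : Hset = AV_R 1 2 1 3 ∪ AV_R 1 7 1 2 ∪ AV_R 6 7 1 7 ∪ AV_R 1 7 6 7 ∪
    AV_R 1 2 4 7 := by
  apply Subset.antisymm
  · rintro z ⟨⟨n, m⟩, ⟨h1, h2, h3, h4, h5, h6⟩, h7, h8, h9, h10⟩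
    simp only at h1 h2 h3 h4 h5 h7 h8 h9 h10
    have e1 : (1 : ℝ) ≤ n := by exact_mod_cast h1
    have e2 : (n : ℝ) ≤ 6 := by exact_mod_cast h2
    have e3 : (1 : ℝ) ≤ m := by exact_mod_cast h3
    have e4 : (m : ℝ) ≤ 6 := by exact_mod_cast h4
    rcases h5 with h5 | h5 | h5 | h5
    · have h11 : m ≠ 3 := by
        rintro rfl
        exact h6 (by rw [h5])
      subst h5
      rcases le_or_gt m 2 with h12 | h12
      · left; left; left; left
        have e5 : (m : ℝ) ≤ 2 := by exact_mod_cast h12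
        apply AV_mem_R <;> push_cast at * <;> linarith
      · right
        have h13 : 4 ≤ m := by omega
        have e5 : (4 : ℝ) ≤ m := by exact_mod_cast h13
        apply AV_mem_R <;> push_cast at * <;> linarith
    · subst h5
      left; left; right
      apply AV_mem_R <;> push_cast at * <;> linarith
    · subst h5
      left; left; left; right
      apply AV_mem_R <;> push_cast at * <;> linarith
    · subst h5
      left; right
      apply AV_mem_R <;> push_cast at * <;> linarith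
  · refine union_subset (union_subset (union_subset (union_subset ?_ ?_) ?_) ?_) ?_
    all_goals
      apply AV_rect (by norm_num) (by norm_num)
      intro n m h1 h2 h3 h4
      refine ⟨?_, ?_, ?_, ?_, ?_, ?_⟩
      all_goals first
        | (simp only; omega)
        | (intro h; simp only [Prod.mk.injEq] at h; omega)

theorem isConnected_Hset : IsConnected Hset := by
  rw [AV_eq]
  have key : ∀ (S : Set Plane) (x y : ℝ) (a b c e : ℤ), a ≤ b → c ≤ e → IsConnected S →
      ((x, y) : Plane) ∈ S → ((x, y) : Plane) ∈ AV_R a b c e → IsConnected (S ∪ AV_R a b c e) :=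
    fun S x y a b c e h1 h2 hS h3 h4 => hS.union ⟨_, h3, h4⟩ (AV_R_conn h1 h2)
  refine key _ (1 / 8) (6 / 8) _ _ _ _ (by norm_num) (by norm_num) ?_ ?_ ?_
  · refine key _ (6 / 8) (6 / 8) _ _ _ _ (by norm_num) (by norm_num) ?_ ?_ ?_
    · refine key _ (6 / 8) (1 / 8) _ _ _ _ (by norm_num) (by norm_num) ?_ ?_ ?_
      · refine key _ (1 / 8) (1 / 8) _ _ _ _ (by norm_num) (by norm_num) ?_ ?_ ?_
        · exact AV_R_conn (by norm_num) (by norm_num)
        · apply AV_mem_R <;> norm_num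
        · apply AV_mem_R <;> norm_num
      · right
        apply AV_mem_R <;> norm_num
      · apply AV_mem_R <;> norm_num
    · right
      apply AV_mem_R <;> norm_num
    · apply AV_mem_R <;> norm_num
  · right
    apply AV_mem_R <;> norm_num
  · apply AV_mem_R <;> norm_num

private lemma AV_Hset_le {z : Plane} (hz : z ∈ Hset) :
    1 / 8 ≤ z.1 ∧ z.1 ≤ 7 / 8 ∧ 1 / 8 ≤ z.2 ∧ z.2 ≤ 7 / 8 := by
  obtain ⟨⟨n, m⟩, ⟨h1, h2, h3, h4, h5, h6⟩, h7, h8, h9, h10⟩ := hz
  simp only at h1 h2 h3 h4 h5 h7 h8 h9 h10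
  have e1 : (1 : ℝ) ≤ n := by exact_mod_cast h1
  have e2 : (n : ℝ) ≤ 6 := by exact_mod_cast h2
  have e3 : (1 : ℝ) ≤ m := by exact_mod_cast h3
  have e4 : (m : ℝ) ≤ 6 := by exact_mod_cast h4
  refine ⟨?_, ?_, ?_, ?_⟩ <;> linarith

private lemma AV_side_pos (i : Idx) : 0 < side i := by unfold side; positivity

private lemma AV_dist_pos (i : Idx) (z z' : Plane) :
    dist (pos i z) (pos i z') = side i * dist z z' := by
  have hs := AV_side_pos i
  rw [Prod.dist_eq, Prod.dist_eq, Real.dist_eq, Real.dist_eq, Real.dist_eq, Real.dist_eq,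
    mul_max_of_nonneg _ _ hs.le]
  have h1 : (pos i z).1 - (pos i z').1 = side i * (z.1 - z'.1) := by
    simp only [pos]; ring
  have h2 : (pos i z).2 - (pos i z').2 = side i * (z.2 - z'.2) := by
    simp only [pos]; ring
  rw [h1, h2, abs_mul, abs_mul, abs_of_pos hs]

private noncomputable def AV_homeo (i : Idx) : Plane ≃ₜ Plane where
  toFun := pos i
  invFun := fun z => (z.1 / side i - i.2.1, z.2 / side i - i.2.2)
  left_inv := by
    intro z
    have hs := (AV_side_pos i).ne'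
    ext
    · simp only [pos]; field_simp; ring
    · simp only [pos]; field_simp; ring
  right_inv := by
    intro z
    have hs := (AV_side_pos i).ne'
    ext
    · simp only [pos]; field_simp; ring
    · simp only [pos]; field_simp; ring
  continuous_toFun := by
    unfold pos
    fun_prop
  continuous_invFun := by
    fun_prop

private lemma AV_homeo_apply (i : Idx) (z : Plane) : AV_homeo i z = pos i z := rfl

theorem avoids_GD {E : Type} [MeasurableSpace E] {ν : Measure E} {sh : E → Set Plane}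
    (hS : IsShape ν sh) (w : Conf E) : Avoids (Xs sh w) (GD sh w) := by
  rintro i ⟨⟨e, he, hL1, hL2, hL3⟩, hcell⟩ z hz hX
  obtain ⟨K, hK⟩ : ∃ K, K = lp sh (i, e) := ⟨_, rfl⟩
  have hKi : K = AV_homeo i '' sh e := by rw [hK]; rfl
  -- the loop is inside the disc
  have hKD : K ⊆ oD := by
    rw [hK]
    rintro _ ⟨u, hu, rfl⟩
    apply hcell
    change dist (pos i u) (ctr i) ≤ 1 * side i / 2
    rw [ctr, AV_dist_pos]
    have hd : dist u ((1 / 2, 1 / 2) : Plane) ≤ 1 / 2 := by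
      obtain ⟨v, hv, huv⟩ := mem_thickening_iff.1 (hL1 hu)
      obtain ⟨h1, h2, h3, h4⟩ := AV_Hset_le hv
      rw [Prod.dist_eq, max_lt_iff, Real.dist_eq, Real.dist_eq, abs_lt, abs_lt] at huv
      rw [Prod.dist_eq, max_le_iff, Real.dist_eq, Real.dist_eq, abs_le, abs_le]
      obtain ⟨⟨h5, h6⟩, h7, h8⟩ := huv
      refine ⟨⟨?_, ?_⟩, ?_, ?_⟩ <;> simp only <;> linarith
    have hs := AV_side_pos i
    nlinarith
  have hKS : K ∈ loopsIn sh w := ⟨(i, e), he, hK, hKD⟩
  have hsub : K ⊆ closure (cluster (loopsIn sh w) K) := by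
    refine Subset.trans ?_ subset_closure
    intro u hu
    exact ⟨K, ⟨hKS, Relation.ReflTransGen.refl⟩, hu⟩
  -- the component of `h0`
  obtain ⟨C, hC⟩ : ∃ C, C = connectedComponentIn (sh e)ᶜ h0 := ⟨_, rfl⟩
  have hh0 : h0 ∈ Hset := AV_mem (d := (1, 1))
    ⟨by norm_num, by norm_num, by norm_num, by norm_num, by norm_num, by simp⟩
    (by norm_num) (by norm_num) (by norm_num) (by norm_num)
  have hHC : Hset ⊆ C := by
    rw [hC]
    exact isConnected_Hset.isPreconnected.subset_connectedComponentIn hh0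
      (disjoint_left.1 hL2.symm)
  have hopen : IsOpen (sh e)ᶜ := (hS.compact e).isClosed.isOpen_compl
  have hCo : IsOpen C := by rw [hC]; exact hopen.connectedComponentIn
  have hCb : Bornology.IsBounded C := by rw [hC]; exact hL3
  have hCs : C ⊆ (sh e)ᶜ := by rw [hC]; exact connectedComponentIn_subset _ _
  have himg : AV_homeo i '' (sh e)ᶜ = Kᶜ := by
    rw [hKi, image_compl_eq (AV_homeo i).bijective]
  have hin : pos i '' C ⊆ fillIn K := by
    rintro _ ⟨u, hu, rfl⟩
    have h1 : connectedComponentIn Kᶜ (pos i u) = AV_homeo i '' C := by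
      have h2 := (AV_homeo i).image_connectedComponentIn (hCs hu)
      rw [himg, AV_homeo_apply] at h2
      rw [← h2, hC]
      rw [hC] at hu
      rw [connectedComponentIn_eq hu]
    change Bornology.IsBounded (connectedComponentIn Kᶜ (pos i u))
    rw [h1]
    have hlip : LipschitzWith (Real.toNNReal (side i)) (AV_homeo i) := by
      apply LipschitzWith.of_dist_le_mul
      intro a b
      rw [AV_homeo_apply, AV_homeo_apply, AV_dist_pos, Real.coe_toNNReal _ (AV_side_pos i).le]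
    exact hlip.isBounded_image hCb
  have hint : pos i z ∈ interior (fillIn K) := by
    rw [mem_interior]
    refine ⟨pos i '' C, hin, ?_, ⟨z, hHC hz, rfl⟩⟩
    exact (AV_homeo i).isOpenMap C hCo
  exact hX.2 K hKS (interior_mono (fillIn_mono hsub) hint)

theorem Xs_dist {E : Type} (sh : E → Set Plane) (w : Conf E) :
    ∀ x ∈ Xs sh w, ∀ y ∈ Xs sh w, dist x y ≤ 2 := by
  intro x hx y hy
  have h1 : x.1 ^ 2 + x.2 ^ 2 ≤ 1 := hx.1
  have h2 : y.1 ^ 2 + y.2 ^ 2 ≤ 1 := hy.1
  have hb : ∀ a b : ℝ, a ^ 2 + b ^ 2 ≤ 1 → -1 ≤ a ∧ a ≤ 1 := by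
    intro a b h
    constructor <;> nlinarith [sq_nonneg b, sq_nonneg (a + 1), sq_nonneg (a - 1)]
  obtain ⟨a1, a2⟩ := hb x.1 x.2 h1
  obtain ⟨a3, a4⟩ := hb x.2 x.1 (by linarith)
  obtain ⟨a5, a6⟩ := hb y.1 y.2 h2
  obtain ⟨a7, a8⟩ := hb y.2 y.1 (by linarith)
  rw [Prod.dist_eq, max_le_iff, Real.dist_eq, Real.dist_eq, abs_le, abs_le]
  refine ⟨⟨?_, ?_⟩, ?_, ?_⟩ <;> linarith

end Pool.Agent.Helper16.CD
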