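import Pool.Agent.Helper16.CD.Defs

/-!
# CD: masses used in the first order comparison, and the interface between the frames

`Iface.*` are statements (`Prop`s); each frame proves its own.
-/

set_option autoImplicit false

namespace Pool.Agent.Helper16.CD

open MeasureTheory ProbabilityTheory Metric Set
open scoped ENNReal NNReal
open Pool.Agent.Helper3.CD

section

variable {E : Type} [MeasurableSpace E]

/-- mass of the single loops surrounding the child `j` of the unit square -/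
noncomputable def kap (ν : Measure E) (sh : E → Set Plane) (n : ℕ) (j : J n) : ℝ :=
  (∑' i : Idx, ν {e | Singr sh V0 (child n V0 j) [(i, e)]}).toReal

/-- expected number of level 0 loops meeting a small square -/
noncomputable def hh (ν : Measure E) (sh : E → Set Plane) (t : ℝ) : ℝ≥0∞ :=
  ⨆ x : Plane, ∑' v : ℤ × ℤ, ν {e | (lp sh ((0, v), e) ∩ closedBall x t).Nonempty}

/-- `o(n)` term -/
noncomputable def hs (ν : Measure E) (sh : E → Set Plane) (n : ℕ) : ℝ :=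
  ∑ i ∈ Finset.range (3 * n), (hh ν sh (9 / 2 * (1 / 2) ^ (i + 1))).toReal

/-- first order gain of the child `j` in the weighted count -/
noncomputable def gain (ν : Measure E) (sh : E → Set Plane) (n : ℕ) (s : ℝ) (j : J n) : ℝ :=
  ∑ t ∈ Finset.range n, (1 - wt (dig (up^[t] (child n V0 j))) ^ s) *
    (ν {e | e ∈ Lset sh ∧
      ¬ Singr sh V0 (child n V0 j) [(up^[t + 1] (child n V0 j), e)]}).toReal

namespace Iface

/-- frame C/E2: probability that one of the three conditions fails -/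
def BadProb : Prop :=
  ∀ (E : Type) [MeasurableSpace E] (ν : Measure E) (sh : E → Set Plane), IsShape ν sh →
    ∃ C : ℝ, ∀ n : ℕ, 1 ≤ n → ∃ τ : ℝ, 0 < τ ∧ τ ≤ 1 / 8 ∧ ∃ (Cn : ℝ) (r₀ : ℝ≥0), 0 < r₀ ∧
      ∀ r : ℝ≥0, r < r₀ → ∀ j : J n,
        1 - (law r ν).real (Ev univ (bad sh τ V0 (child n V0 j))) ≤
          r * (kap ν sh n j + C + hs ν sh n) + Cn * r ^ 2

/-- frame C/E2 -/
def HsSmall : Prop :=
  ∀ (E : Type) [MeasurableSpace E] (ν : Measure E) (sh : E → Set Plane), IsShape ν sh →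
    ∀ ε : ℝ, 0 < ε → ∃ n₀ : ℕ, ∀ n, n₀ ≤ n → hs ν sh n ≤ ε * n

/-- frame C/E2 -/
def GProb : Prop :=
  ∀ (E : Type) [MeasurableSpace E] (ν : Measure E) (sh : E → Set Plane), IsShape ν sh →
    ∀ (n : ℕ) (τ : ℝ), 0 < τ → ∃ r₀ : ℝ≥0, 0 < r₀ ∧ ∀ r : ℝ≥0, r < r₀ → ∀ T : Idx,
      1 / 2 ≤ (law r ν).real (Ev univ (Gr sh n τ T))

/-- frame C/E2 -/
def RootProb : Prop :=
  ∀ (E : Type) [MeasurableSpace E] (ν : Measure E) (sh : E → Set Plane), IsShape ν sh →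
    ∀ n : ℕ, ∃ r₀ : ℝ≥0, 0 < r₀ ∧ ∀ r : ℝ≥0, r < r₀ →
      1 / 2 ≤ (law r ν).real (Ev univ (Rootr sh n))

/-- frame D: expansion of the weighted block expectation -/
def PsiExpand : Prop :=
  ∀ (E : Type) [MeasurableSpace E] (ν : Measure E) (sh : E → Set Plane), IsShape ν sh →
    ∀ n : ℕ, 1 ≤ n → ∃ (Cn : ℝ) (r₀ : ℝ≥0), 0 < r₀ ∧ ∀ r : ℝ≥0, r < r₀ → ∀ j : J n,
      ∀ s : ℝ, 3 / 2 ≤ s → s ≤ 2 →
        ∫⁻ w, Psi sh n s (child n V0 j) w ∂(law r ν) ≤
          ENNReal.ofReal (1 - r * (kap ν sh n j + gain ν sh n s j) + Cn * r ^ 2)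

/-- frame D: total gain -/
def GainSum : Prop :=
  ∀ (E : Type) [MeasurableSpace E] (ν : Measure E) (sh : E → Set Plane), IsShape ν sh →
    ∀ n : ℕ, 1 ≤ n → ∀ s : ℝ, 3 / 2 ≤ s → s ≤ 2 →
      (n : ℝ) * 64 ^ n * (ν (Lset sh)).toReal / 80 ≤ ∑ j : J n, gain ν sh n s j

/-- frame D: the upper bound for the dimension in the new distance -/
def Upper : Prop :=
  ∀ (E : Type) [MeasurableSpace E] (ν : Measure E) (sh : E → Set Plane), IsShape ν sh →
    ∀ n : ℕ, 1 ≤ n → ∀ s : ℝ, 1 ≤ s → ∀ r : ℝ≥0,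
      ∑ j : J n, ∫⁻ w, Psi sh n s (child n V0 j) w ∂(law r ν) <
        ENNReal.ofReal ((8 : ℝ) ^ ((n : ℝ) * s)) →
      ∀ᵐ w ∂(law r ν), ∀ (Y : Type) [MetricSpace Y] (f : Xs sh w → Y),
        Function.Surjective f →
        (∀ (N : ℕ) (x y : Xs sh w), qq N x = qq N y →
          dist (f x) (f y) ≤ 16 * WN (GD sh w) N x * (1 / 8) ^ N) →
        (∀ x y : Xs sh w, (∀ m, qq m (x : Plane) ∉ GD sh w) →
          (∀ m, qq m (y : Plane) ∉ GD sh w) → dist (f x) (f y) ≤ dist x y) →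
        dimH (univ : Set Y) ≤ ENNReal.ofReal s

/-- frame E: kept squares contain no surrounded points -/
def KeptSubset : Prop :=
  ∀ (E : Type) [MeasurableSpace E] (ν : Measure E) (sh : E → Set Plane), IsShape ν sh →
    ∀ (n : ℕ), 1 ≤ n → ∀ (τ : ℝ), 0 < τ → τ ≤ 1 / 8 → ∀ (w : Conf E) (b : ℕ) (V : Idx),
      V ∈ desc n (rootV n) b → w ∈ kept sh n τ b V → ∀ x ∈ cell V,
        ∀ p ∈ Sp w, lp sh p ⊆ oD → p.1.1 < V.1 →
          x ∉ interior (fillIn (closure (cluster (loopsIn sh w) (lp sh p))))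

/-- frame E: the lower bound -/
def Lower : Prop :=
  ∀ (E : Type) [MeasurableSpace E] (ν : Measure E) (sh : E → Set Plane), IsShape ν sh →
    ∀ (n : ℕ), 2 ≤ n → ∀ (τ : ℝ), 0 < τ → τ ≤ 1 / 8 → ∀ (r : ℝ≥0) (s : ℝ), 0 < s →
      (8 : ℝ) ^ ((n : ℝ) * s) <
        ∑ j : J n, (law r ν).real (Ev univ (bad sh τ V0 (child n V0 j))) →
      (∀ T : Idx, 1 / 2 ≤ (law r ν).real (Ev univ (Gr sh n τ T))) →
      1 / 2 ≤ (law r ν).real (Ev univ (Rootr sh n)) →
      ∃ A : Set (Conf E), MeasurableSet A ∧ 0 < law r ν A ∧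
        ∀ w ∈ A, ENNReal.ofReal s ≤ dimH (Xs sh w)

end Iface

end

end Pool.Agent.Helper16.CD
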