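import Pool.Agent.Helper16.CD.Top

/-!
# CD-KSC: clusters and walks

`cluster (loopsIn sh w) (lp sh p)` for a soup point `p` with `lp sh p ⊆ oD`: a member of the cluster is a set `K' ∈ loopsIn sh w`, so
`K' = lp sh p'` with `p' ∈ Sp w`, and `Linked` gives a chain of sets; by induction on `ReflTransGen` there is a walk of soup points
with loops in `oD` from `p` to `p'` (consecutive loops meet).  The relation is symmetric, so walks can be reversed and joined at
`p`; walks may repeat points.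
`cluster_walk`: for finitely many points of the cluster (a list) there is one walk of soup points, with loops in `oD` and contained
in the cluster, whose union contains `lp sh p` and all of them: go from `p` to the loop of the first point and back, then to the second, ...
`cluster_dense`: the cluster is contained in the bounded set `oD`, so it is totally bounded: finitely many points `y_i` of the cluster with
`cluster ⊆ ⋃ closedBall y_i ε`; apply `cluster_walk`.
-/

set_option autoImplicit false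

namespace Pool.Agent.Helper16.CD

open MeasureTheory ProbabilityTheory Metric Set
open scoped ENNReal NNReal
open Pool.Agent.Helper3.CD

variable {E : Type} [MeasurableSpace E] {ν : Measure E} {sh : E → Set Plane}

private def KSC_W (sh : E → Set Plane) (w : Conf E) (p a b : Idx × E)
    (l : List (Idx × E)) : Prop :=
  l.head? = some a ∧ l.getLast? = some b ∧ Walk sh l ∧ (∀ q ∈ l, q ∈ Sp w ∧ lp sh q ⊆ oD) ∧
    un sh l ⊆ cluster (loopsIn sh w) (lp sh p)

omit [MeasurableSpace E] in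
private lemma KSC_mem_un {l : List (Idx × E)} {z : Plane} :
    z ∈ un sh l ↔ ∃ q ∈ l, z ∈ lp sh q := by
  simp [un]

private lemma KSC_ne (hS : IsShape ν sh) (q : Idx × E) : (lp sh q).Nonempty :=
  (hS.conn q.2).nonempty.image _

omit [MeasurableSpace E] in
private lemma KSC_app {w : Conf E} {p a b c d : Idx × E} {l m : List (Idx × E)}
    (hl : KSC_W sh w p a b l) (hm : KSC_W sh w p c d m) (h : (lp sh b ∩ lp sh c).Nonempty) :
    KSC_W sh w p a d (l ++ m) := by
  obtain ⟨h1, h2, h3, h4, h5⟩ := hl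
  obtain ⟨g1, g2, g3, g4, g5⟩ := hm
  refine ⟨?_, ?_, ?_, ?_, ?_⟩
  · rw [List.head?_append, h1]; rfl
  · rw [List.getLast?_append, g2]; rfl
  · unfold Walk at h3 g3 ⊢
    rw [List.isChain_append]
    refine ⟨h3, g3, ?_⟩
    intro x hx y hy
    rw [h2] at hx
    rw [g1] at hy
    obtain rfl : b = x := by simpa using hx
    obtain rfl : c = y := by simpa using hy
    exact h
  · intro q hq
    rcases List.mem_append.1 hq with hq | hq
    · exact h4 q hq
    · exact g4 q hq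
  · intro z hz
    obtain ⟨q, hq, hzq⟩ := KSC_mem_un.1 hz
    rcases List.mem_append.1 hq with hq | hq
    · exact h5 (KSC_mem_un.2 ⟨q, hq, hzq⟩)
    · exact g5 (KSC_mem_un.2 ⟨q, hq, hzq⟩)

omit [MeasurableSpace E] in
private lemma KSC_rev {w : Conf E} {p a b : Idx × E} {l : List (Idx × E)}
    (hl : KSC_W sh w p a b l) : KSC_W sh w p b a l.reverse := by
  obtain ⟨h1, h2, h3, h4, h5⟩ := hl
  refine ⟨?_, ?_, ?_, ?_, ?_⟩
  · rw [List.head?_reverse, h2]
  · rw [List.getLast?_reverse, h1]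
  · unfold Walk at h3 ⊢
    rw [List.isChain_reverse]
    refine h3.imp ?_
    intro x y hxy
    rwa [inter_comm] at hxy
  · intro q hq
    exact h4 q (List.mem_reverse.1 hq)
  · intro z hz
    obtain ⟨q, hq, hzq⟩ := KSC_mem_un.1 hz
    exact h5 (KSC_mem_un.2 ⟨q, List.mem_reverse.1 hq, hzq⟩)

omit [MeasurableSpace E] in
private lemma KSC_sing {w : Conf E} {p q : Idx × E} (hq : q ∈ Sp w) (hD : lp sh q ⊆ oD)
    (hc : lp sh q ⊆ cluster (loopsIn sh w) (lp sh p)) : KSC_W sh w p q q [q] := by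
  refine ⟨rfl, rfl, ?_, ?_, ?_⟩
  · unfold Walk
    exact List.isChain_singleton q
  · intro q' hq'
    obtain rfl := List.mem_singleton.1 hq'
    exact ⟨hq, hD⟩
  · intro z hz
    obtain ⟨q', hq', hzq⟩ := KSC_mem_un.1 hz
    obtain rfl := List.mem_singleton.1 hq'
    exact hc hzq

omit [MeasurableSpace E] in
private lemma KSC_self {w : Conf E} {p : Idx × E} (hp : p ∈ Sp w) (hD : lp sh p ⊆ oD) :
    KSC_W sh w p p p [p] := by
  refine KSC_sing hp hD fun z hz => ?_
  exact ⟨lp sh p, ⟨⟨p, hp, rfl, hD⟩, Relation.ReflTransGen.refl⟩, hz⟩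

omit [MeasurableSpace E] in
private lemma KSC_to {w : Conf E} {p : Idx × E} (hp : p ∈ Sp w) (hD : lp sh p ⊆ oD)
    {K : Set Plane} (hK : Linked (loopsIn sh w) (lp sh p) K) :
    ∃ (p' : Idx × E) (l : List (Idx × E)), lp sh p' = K ∧ KSC_W sh w p p p' l := by
  unfold Linked at hK
  induction hK with
  | refl => exact ⟨p, [p], rfl, KSC_self hp hD⟩
  | tail hAB hBC ih =>
    rename_i B C
    obtain ⟨pB, l, hpB, hl⟩ := ih
    obtain ⟨hB, hC, hBC'⟩ := hBC
    obtain ⟨pC, hpC, hCe, hCD⟩ := id hC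
    refine ⟨pC, l ++ [pC], hCe.symm, ?_⟩
    refine KSC_app hl (KSC_sing hpC (by rw [← hCe]; exact hCD) ?_) ?_
    · intro z hz
      refine ⟨C, ⟨hC, ?_⟩, by rw [hCe]; exact hz⟩
      exact Relation.ReflTransGen.tail hAB ⟨hB, hC, hBC'⟩
    · rw [hpB, ← hCe]
      exact hBC'

omit [MeasurableSpace E] in
private lemma KSC_pt {w : Conf E} {p : Idx × E} (hp : p ∈ Sp w) (hD : lp sh p ⊆ oD)
    {y : Plane} (hy : y ∈ cluster (loopsIn sh w) (lp sh p)) :
    ∃ (p' : Idx × E) (l : List (Idx × E)), y ∈ lp sh p' ∧ KSC_W sh w p p p' l := by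
  obtain ⟨K, ⟨hK1, hK2⟩, hyK⟩ := hy
  obtain ⟨p', l, h1, h2⟩ := KSC_to hp hD hK2
  exact ⟨p', l, by rw [h1]; exact hyK, h2⟩

private lemma KSC_closed (hS : IsShape ν sh) {w : Conf E} {p : Idx × E} (hp : p ∈ Sp w)
    (hD : lp sh p ⊆ oD) (F : List Plane)
    (hF : ∀ y ∈ F, y ∈ cluster (loopsIn sh w) (lp sh p)) :
    ∃ l : List (Idx × E), KSC_W sh w p p p l ∧ ∀ y ∈ F, y ∈ un sh l := by
  have hne : ∀ q, (lp sh q ∩ lp sh q).Nonempty := fun q => by
    rw [inter_self]
    exact KSC_ne hS q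
  induction F with
  | nil => exact ⟨[p], KSC_self hp hD, by simp⟩
  | cons y F ih =>
    obtain ⟨l, h1, h2⟩ := ih fun z hz => hF z (List.mem_cons_of_mem _ hz)
    obtain ⟨p', m, h3, h4⟩ := KSC_pt hp hD (hF y List.mem_cons_self)
    refine ⟨l ++ (m ++ m.reverse), ?_, ?_⟩
    · exact KSC_app h1 (KSC_app h4 (KSC_rev h4) (hne p')) (hne p)
    · intro z hz
      rcases List.mem_cons.1 hz with hz | hz
      · rw [hz, KSC_mem_un]
        refine ⟨p', ?_, h3⟩
        exact List.mem_append_right _ (List.mem_append_left _ (List.mem_of_getLast? h4.2.1))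
      · obtain ⟨q, hq, hzq⟩ := KSC_mem_un.1 (h2 z hz)
        exact KSC_mem_un.2 ⟨q, List.mem_append_left _ hq, hzq⟩

theorem cluster_walk (hS : IsShape ν sh) {w : Conf E} {p : Idx × E} (hp : p ∈ Sp w)
    (hD : lp sh p ⊆ oD) (F : List Plane) (hF : ∀ y ∈ F, y ∈ cluster (loopsIn sh w) (lp sh p)) :
    ∃ l : List (Idx × E), p ∈ l ∧ Walk sh l ∧ (∀ q ∈ l, q ∈ Sp w ∧ lp sh q ⊆ oD) ∧
      un sh l ⊆ cluster (loopsIn sh w) (lp sh p) ∧ ∀ y ∈ F, y ∈ un sh l := by
  obtain ⟨l, ⟨h1, h2, h3, h4, h5⟩, h6⟩ := KSC_closed hS hp hD F hF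
  exact ⟨l, List.mem_of_getLast? h2, h3, h4, h5, h6⟩

/-- a walk from a loop containing `y` to `p` -/
theorem cluster_walk_from (hS : IsShape ν sh) {w : Conf E} {p : Idx × E} (hp : p ∈ Sp w)
    (hD : lp sh p ⊆ oD) {y : Plane} (hy : y ∈ cluster (loopsIn sh w) (lp sh p)) :
    ∃ (q : Idx × E) (l : List (Idx × E)), y ∈ lp sh q ∧ p ∈ q :: l ∧ Walk sh (q :: l) ∧
      (∀ q' ∈ q :: l, q' ∈ Sp w ∧ lp sh q' ⊆ oD) := by
  obtain ⟨p', m, h1, h2⟩ := KSC_pt hp hD hy
  obtain ⟨g1, g2, g3, g4, g5⟩ := KSC_rev h2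
  obtain ⟨l, hl⟩ : ∃ l, m.reverse = p' :: l := by
    rcases h : m.reverse with _ | ⟨a, l⟩
    · rw [h] at g1
      simp at g1
    · rw [h] at g1
      obtain rfl : a = p' := by simpa using g1
      exact ⟨l, rfl⟩
  rw [hl] at g2 g3 g4
  exact ⟨p', l, h1, List.mem_of_getLast? g2, g3, g4⟩

theorem cluster_dense (hS : IsShape ν sh) {w : Conf E} {p : Idx × E} (hp : p ∈ Sp w)
    (hD : lp sh p ⊆ oD) {ε : ℝ} (hε : 0 < ε) :
    ∃ l : List (Idx × E), p ∈ l ∧ Walk sh l ∧ (∀ q ∈ l, q ∈ Sp w ∧ lp sh q ⊆ oD) ∧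
      un sh l ⊆ cluster (loopsIn sh w) (lp sh p) ∧
      cluster (loopsIn sh w) (lp sh p) ⊆ cthickening ε (un sh l) := by
  have hsub : cluster (loopsIn sh w) (lp sh p) ⊆ closedBall (0 : Plane) 1 := by
    rintro z ⟨K, ⟨⟨q, hq, hKq, hKD⟩, hK2⟩, hzK⟩
    have h1 : z.1 ^ 2 + z.2 ^ 2 < 1 := hKD hzK
    have hb : ∀ a b : ℝ, a ^ 2 + b ^ 2 < 1 → -1 ≤ a ∧ a ≤ 1 := by
      intro a b h
      constructor <;> nlinarith [sq_nonneg b, sq_nonneg (a + 1), sq_nonneg (a - 1)]
    obtain ⟨a1, a2⟩ := hb z.1 z.2 h1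
    obtain ⟨a3, a4⟩ := hb z.2 z.1 (by linarith)
    rw [mem_closedBall, Prod.dist_eq, max_le_iff, Real.dist_eq, Real.dist_eq, abs_le, abs_le]
    refine ⟨⟨?_, ?_⟩, ?_, ?_⟩ <;> simp only [Prod.fst_zero, Prod.snd_zero] <;> linarith
  have htb : TotallyBounded (cluster (loopsIn sh w) (lp sh p)) :=
    (isCompact_closedBall (0 : Plane) 1).totallyBounded.subset hsub
  obtain ⟨t, ht1, ht2, ht3⟩ := Metric.finite_approx_of_totallyBounded htb ε hε
  obtain ⟨l, h1, h2, h3, h4, h5⟩ := cluster_walk hS hp hD ht2.toFinset.toList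
    (fun y hy => ht1 (by simpa using hy))
  refine ⟨l, h1, h2, h3, h4, fun z hz => ?_⟩
  have h6 := ht3 hz
  simp only [mem_iUnion, exists_prop] at h6
  obtain ⟨y, hy, hzy⟩ := h6
  exact mem_cthickening_of_dist_le z y ε _ (h5 y (by simpa using hy)) (mem_ball.1 hzy).le

end Pool.Agent.Helper16.CD
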