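import Pool.Agent.Helper16.CD.KSW
import Pool.Agent.Helper16.CD.KSC
import Pool.Agent.Helper16.CD.KDefs
import Pool.Agent.Helper16.CD.Avoid

/-!
# CD-KS: kept squares contain no surrounded points (Iface.KeptSubset)

`C = cluster (loopsIn sh w) (lp sh p)`, `p ∈ Sp w`, `lp sh p ⊆ oD`, `p.1.1 < V.1`, `x ∈ cell V`, `V ∈ desc n (rootV n) b`, `V` kept.
Write `V_t = (par n)^[t] V`, `t ≤ b`, `V_b = rootV n`.  Every member of `C` is in `oD`, meets `closedBall 0 4`.

Fact 1 (`cluster_walk_from`, `walk_levels`): if `C` meets `big 8 V_t` then every loop in `C` has level `≥ lev V_t`; more precisely every soup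
point `q` that occurs in a walk as in `cluster_walk` (joined by a walk to the point of `C` in `big 8 V_t`) has level `≥ V_t.1`.
For `t = 0` this contradicts `p.1.1 < V.1`: so `C ∩ big 8 V = ∅`.
Let `t` be the LARGEST `t ≤ b` with `C ∩ big 8 V_t = ∅` and `C ∩ big 8 V_u = ∅` for all `u ≤ t`
(equivalently: the least `u` with `C` meeting `big 8 V_u` is `t + 1`, or no such `u ≤ b` exists and `t = b`).
Case A: `t = b`, `C ∩ big 8 (rootV n) = ∅`.  By Root every walk in `C` has diameter `< side (rootV n) / 4 =: d`, so by `cluster_walk`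
`C ⊆ closedBall y d` for any `y ∈ C`, closure too, and `x ∈ cell (rootV n)` has distance `≥ 3.5 side > d` from `y ∉ big 8 (rootV n)`.
`fillIn_ball`: `x ∉ fillIn (closure C)`.
Case B: `t < b`: `C` meets `big 8 V_{t+1}`.  By Fact 1 all levels are `≥ lev V_{t+1}`.  Every walk in `C` through the point in
`big 8 V_{t+1}` meets `big 9 V_{t+1}`, so has diameter `< side V_{t+1} / 4`: by K2 of the pair `(V_{t+2}, V_{t+1})` if `t + 1 < b`, by Root if
`t + 1 = b`.  So `C ⊆ big 8.5 V_{t+1} ⊆ big 9 V_{t+1}`, and `C ∩ big 8 V_t = ∅`.  Take `l` from `cluster_dense` with `ε = τ side V_t`.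
`l` is a walk of levels `≥ lev V_{t+1}` inside `big 9 V_{t+1}` avoiding `big 7 V_t`; by K3 of the pair `(V_{t+1}, V_t)`,
`ctr V_t ∉ fillIn (cthickening ε (un l)) ⊇ fillIn (closure C)` (`closure C ⊆ cthickening ε (un l)` as the latter is closed; `fillIn_mono`).
`cell V_t` is connected (convex), it is inside the interior of `big 8 V_t`, which misses `closure C`.  By `fillIn_conn`
`x ∉ fillIn (closure C)` (`x ∈ cell V ⊆ cell V_t`, `big_par`).
In both cases `x ∉ interior (fillIn (closure C))`.
-/

set_option autoImplicit false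

namespace Pool.Agent.Helper16.CD

open MeasureTheory ProbabilityTheory Metric Set
open scoped ENNReal NNReal
open Pool.Agent.Helper3.CD

section

variable {E : Type} [MeasurableSpace E] {ν : Measure E} {sh : E → Set Plane}

omit [MeasurableSpace E] in
private lemma walk_append {l m : List (Idx × E)} {p : Idx × E} (h1 : Walk sh (l ++ [p]))
    (h2 : Walk sh (p :: m)) : Walk sh (l ++ p :: m) := by
  unfold Walk at *
  rw [List.isChain_append] at h1 ⊢
  refine ⟨h1.1, h2, ?_⟩
  intro x hx y hy
  have := h1.2.2 x hx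
  simp only [List.head?_cons, Option.mem_def, Option.some.injEq] at this hy
  exact hy ▸ this p rfl

omit [MeasurableSpace E] in
private lemma walk_reverse {l : List (Idx × E)} (h : Walk sh l) : Walk sh l.reverse := by
  unfold Walk at *
  rw [List.isChain_reverse]
  refine h.imp ?_
  intro a b hab
  rw [inter_comm]
  exact hab

private lemma levels_aux (hS : IsShape ν sh) {n : ℕ} (hn : 1 ≤ n) {τ : ℝ} {w : Conf E} {b : ℕ}
    {V : Idx} (hV : V ∈ desc n (rootV n) b) (hw : w ∈ kept sh n τ b V) {t : ℕ} (ht : t ≤ b)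
    {p : Idx × E} (hp : p ∈ Sp w) (hD : lp sh p ⊆ oD) {y : Plane}
    (hy : y ∈ cluster (loopsIn sh w) (lp sh p)) (h8 : y ∈ big 8 ((par n)^[t] V))
    {l : List (Idx × E)} (hpl : p ∈ l) (hl : ∀ q ∈ l, q ∈ Sp w ∧ lp sh q ⊆ oD)
    (hwalk : Walk sh l) : ∀ q ∈ l, ((par n)^[t] V).1 ≤ q.1.1 := by
  obtain ⟨q, m, hyq, hpm, hm, hmS⟩ := cluster_walk_from hS hp hD hy
  obtain ⟨a, a', ha⟩ := List.append_of_mem hpm
  obtain ⟨c, d, hc⟩ := List.append_of_mem hpl
  have hq8 : (lp sh q ∩ big 8 ((par n)^[t] V)).Nonempty := ⟨y, hyq, h8⟩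
  -- the walk from `q` to `p`
  have ha1 : Walk sh (a ++ [p]) := by
    have h1 : Walk sh ((a ++ [p]) ++ a') := by
      rw [List.append_assoc, List.singleton_append, ← ha]; exact hm
    unfold Walk at *
    exact (List.isChain_append.1 h1).1
  have haS : ∀ q' ∈ a ++ [p], q' ∈ Sp w ∧ lp sh q' ⊆ oD := by
    intro q' hq'
    refine hmS q' ?_
    rw [ha]
    simp only [List.mem_append, List.mem_cons, List.not_mem_nil, or_false] at hq' ⊢
    tauto
  have key : ∀ e : List (Idx × E), Walk sh (p :: e) → (∀ q' ∈ e, q' ∈ Sp w ∧ lp sh q' ⊆ oD) →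
      ∀ q' ∈ p :: e, ((par n)^[t] V).1 ≤ q'.1.1 := by
    intro e he heS
    have h1 := walk_append ha1 he
    have h2 : ∀ q' ∈ a ++ p :: e, q' ∈ Sp w ∧ lp sh q' ⊆ oD := by
      intro q' hq'
      simp only [List.mem_append, List.mem_cons] at hq'
      rcases hq' with h | h | h
      · exact haS q' (by simp [h])
      · exact haS q' (by simp [h])
      · exact heS q' h
    -- the head of the list is `q`
    obtain ⟨m', hm'⟩ : ∃ m', a ++ p :: e = q :: m' := by
      cases a with
      | nil =>
        simp only [List.nil_append, List.cons.injEq] at ha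
        exact ⟨e, by simp [ha.1]⟩
      | cons x xs =>
        simp only [List.cons_append, List.cons.injEq] at ha
        exact ⟨xs ++ p :: e, by simp [ha.1]⟩
    rw [hm'] at h1 h2
    have h3 := walk_levels hS hn hV hw ht h2 h1 hq8
    intro q' hq'
    refine h3 q' ?_
    rw [← hm']
    exact List.mem_append.2 (Or.inr hq')
  have hcW : Walk sh (c ++ p :: d) := hc ▸ hwalk
  have hd : Walk sh (p :: d) := by
    unfold Walk at *
    exact (List.isChain_append.1 hcW).2.1
  have hc' : Walk sh (p :: c.reverse) := by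
    have h1 : Walk sh ((c ++ [p]) ++ d) := by
      rw [List.append_assoc, List.singleton_append]; exact hcW
    have h2 : Walk sh (c ++ [p]) := by
      unfold Walk at *
      exact (List.isChain_append.1 h1).1
    have h3 := walk_reverse h2
    rwa [List.reverse_append, List.reverse_singleton, List.singleton_append] at h3
  intro q' hq'
  rw [hc] at hq' hl
  rcases List.mem_append.1 hq' with h | h
  · exact key _ hc' (fun q'' hq'' => hl q'' (List.mem_append.2 (Or.inl (List.mem_reverse.1 hq''))))
      q' (List.mem_cons_of_mem _ (List.mem_reverse.2 h))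
  · exact key _ hd (fun q'' hq'' => hl q'' (List.mem_append.2 (Or.inr (List.mem_cons_of_mem _ hq''))))
      q' h

omit [MeasurableSpace E] in
private lemma un_bounded {l : List (Idx × E)} (hl : ∀ q ∈ l, lp sh q ⊆ oD) : un sh l ⊆ oD := by
  intro z hz
  simp only [un, mem_iUnion] at hz
  obtain ⟨q, hq, hz⟩ := hz
  exact hl q hq hz

private lemma oD_sub : oD ⊆ closedBall (0 : Plane) 4 := by
  intro z hz
  have h1 : z.1 ^ 2 + z.2 ^ 2 < 1 := hz
  rw [mem_closedBall, dist_zero_right, Prod.norm_def, max_le_iff, Real.norm_eq_abs,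
    Real.norm_eq_abs, abs_le, abs_le]
  refine ⟨⟨?_, ?_⟩, ?_, ?_⟩ <;> nlinarith [sq_nonneg z.1, sq_nonneg z.2]

private lemma root_eq {n b : ℕ} {V : Idx} (hV : V ∈ desc n (rootV n) b) :
    (par n)^[b] V = rootV n := by
  have := par_iterate_desc hV (le_refl b)
  simpa [desc] using this

private lemma lev_ge {n b : ℕ} {V : Idx} (hV : V ∈ desc n (rootV n) b) {t : ℕ} (ht : t ≤ b) :
    3 * n ≤ ((par n)^[t] V).1 := by
  have := level_desc (par_iterate_desc hV ht)
  rw [this]
  simp only [rootV]
  omega

private lemma cell_sub {n b : ℕ} {V : Idx} (hV : V ∈ desc n (rootV n) b) (t : ℕ) (ht : t ≤ b) :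
    cell V ⊆ cell ((par n)^[t] V) := by
  induction t with
  | zero => exact Subset.rfl
  | succ t ih =>
    rw [Function.iterate_succ_apply']
    exact (ih (by omega)).trans (big_par (lev_ge hV (by omega)) le_rfl)

/-- walks of high level close to an ancestor have small diameter -/
private lemma diam_aux (hS : IsShape ν sh) {n : ℕ} {τ : ℝ} {w : Conf E} {b : ℕ}
    {V : Idx} (hV : V ∈ desc n (rootV n) b) (hw : w ∈ kept sh n τ b V) {t : ℕ} (ht : t ≤ b)
    {l : List (Idx × E)} (hne : l ≠ []) (hl : ∀ q ∈ l, q ∈ Sp w ∧ lp sh q ⊆ oD)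
    (hwalk : Walk sh l) (hlev : t < b → ∀ q ∈ l, ((par n)^[t] V).1 ≤ q.1.1)
    (h9 : t < b → (un sh l ∩ big 9 ((par n)^[t] V)).Nonempty) :
    diam (un sh l) < side ((par n)^[t] V) / 4 := by
  have hnot := hw l (fun q hq => ⟨(hl q hq).1, mem_univ _⟩)
  by_contra hcon
  rw [not_lt] at hcon
  apply hnot
  rcases ht.eq_or_lt with h | h
  · left
    right
    refine ⟨hne, hwalk, fun q _ => Nat.zero_le _, ?_, ?_⟩
    · obtain ⟨z, hz⟩ := (isConnected_un hS hne hwalk).nonempty
      exact ⟨z, hz, oD_sub (un_bounded (fun q hq => (hl q hq).2) hz)⟩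
    · rw [h, root_eq hV] at hcon
      exact hcon
  · right
    rw [badP_iff]
    refine ⟨t, h, Or.inr (Or.inl ?_)⟩
    exact ⟨hne, hwalk, hlev h, h9 h, hcon⟩

private lemma dist_lt (hS : IsShape ν sh) {l : List (Idx × E)} {y z : Plane} (hy : y ∈ un sh l)
    (hz : z ∈ un sh l) {d : ℝ} (hd : diam (un sh l) < d) : dist z y < d :=
  lt_of_le_of_lt (dist_le_diam_of_mem (isCompact_un hS l).isBounded hz hy) hd

end

theorem keptSubset : Iface.KeptSubset := by
  intro E _ ν sh hS n hn τ hτ hτ8 w b V hV hw x hx p hp hD hlev hint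
  obtain ⟨C, hC⟩ : ∃ C, C = cluster (loopsIn sh w) (lp sh p) := ⟨_, rfl⟩
  rw [← hC] at hint
  have hfill : x ∈ fillIn (closure C) := interior_subset hint
  clear hint
  -- `C` does not meet `big 8 V`
  have h0 : ¬ (C ∩ big 8 V).Nonempty := by
    rintro ⟨y, hyC, hy8⟩
    rw [hC] at hyC
    obtain ⟨q, m, hyq, hpm, hm, hmS⟩ := cluster_walk_from hS hp hD hyC
    have h1 := walk_levels hS hn hV hw (Nat.zero_le b) hmS hm ⟨y, hyq, hy8⟩ p hpm
    simp only [Function.iterate_zero, id] at h1
    omega
  by_cases hex : ∃ u, u ≤ b ∧ (C ∩ big 8 ((par n)^[u] V)).Nonempty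
  · -- case B
    classical
    obtain ⟨hu, hu8⟩ := Nat.find_spec hex
    have hmin := fun m => @Nat.find_min _ _ hex m
    obtain ⟨u, hudef⟩ : ∃ u, u = Nat.find hex := ⟨_, rfl⟩
    rw [← hudef] at hu hu8 hmin
    clear hudef
    obtain ⟨t, rfl⟩ : ∃ t, u = t + 1 := by
      cases u with
      | zero => exact absurd hu8 h0
      | succ t => exact ⟨t, rfl⟩
    have ht8 : ¬ (C ∩ big 8 ((par n)^[t] V)).Nonempty := fun h =>
      hmin t (by omega) ⟨by omega, h⟩
    obtain ⟨y, hyC, hy8⟩ := hu8
    obtain ⟨U, hU⟩ : ∃ U, U = (par n)^[t] V := ⟨_, rfl⟩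
    obtain ⟨W, hW⟩ : ∃ W, W = (par n)^[t + 1] V := ⟨_, rfl⟩
    have hsU := side_pos U
    have hsW := side_pos W
    have hyC' : y ∈ cluster (loopsIn sh w) (lp sh p) := hC ▸ hyC
    -- `C` is inside `big 9 W`
    have hC9 : C ⊆ big 9 W := by
      intro z hz
      obtain ⟨l, hpl, hwalk, hlS, hun, hF⟩ := cluster_walk hS hp hD [y, z] (by
        intro z' hz'
        simp only [List.mem_cons, List.not_mem_nil, or_false] at hz'
        rcases hz' with rfl | rfl
        · exact hyC'
        · exact hC ▸ hz)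
      have hyl : y ∈ un sh l := hF y (by simp)
      have hzl : z ∈ un sh l := hF z (by simp)
      have hlevl := levels_aux hS hn hV hw hu hp hD hyC' hy8 hpl hlS hwalk
      have hd := diam_aux hS hV hw hu (List.ne_nil_of_mem hpl) hlS hwalk (fun _ => hlevl)
        (fun _ => ⟨y, hyl, closedBall_subset_closedBall (by
          have := side_pos ((par n)^[t + 1] V)
          linarith) hy8⟩)
      have h1 := dist_lt hS hyl hzl hd
      rw [← hW] at h1 hy8
      have h2 : dist y (ctr W) ≤ 8 * side W / 2 := hy8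
      change dist z (ctr W) ≤ 9 * side W / 2
      have h3 := dist_triangle z y (ctr W)
      linarith
    obtain ⟨l, hpl, hwalk, hlS, hun, hdense⟩ := cluster_dense hS hp hD
      (ε := τ * side U) (mul_pos hτ hsU)
    have hlevl := levels_aux hS hn hV hw hu hp hD hyC' hy8 hpl hlS hwalk
    have hnot := hw l (fun q hq => ⟨(hlS q hq).1, mem_univ _⟩)
    rw [← hC] at hun hdense
    have hCU : Disjoint C (big 8 U) := by
      rw [hU, disjoint_iff_inter_eq_empty, ← not_nonempty_iff_eq_empty]
      exact ht8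
    have hctr : ctr U ∉ fillIn (cthickening (τ * side U) (un sh l)) := by
      intro hc
      apply hnot
      right
      rw [badP_iff]
      refine ⟨t, by omega, Or.inr (Or.inr ?_)⟩
      rw [← hU, ← hW]
      refine ⟨List.ne_nil_of_mem hpl, hwalk, ?_, hun.trans hC9, ?_, hc⟩
      · rw [hW]; exact hlevl
      · refine (hCU.mono hun ?_)
        exact closedBall_subset_closedBall (by linarith)
    have hclos : closure C ⊆ cthickening (τ * side U) (un sh l) :=
      closure_minimal hdense isClosed_cthickening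
    have hctr' : ctr U ∉ fillIn (closure C) := fun h => hctr (fillIn_mono hclos h)
    have hxU : x ∈ cell U := by
      rw [hU]; exact cell_sub hV t (by omega) hx
    have hdis : Disjoint (cell U) (closure C) := by
      have h1 : Disjoint (closure C) (ball (ctr U) (8 * side U / 2)) :=
        (hCU.mono_right ball_subset_closedBall).closure_left isOpen_ball
      refine (h1.mono_right ?_).symm
      intro z hz
      have h2 : dist z (ctr U) ≤ 1 * side U / 2 := hz
      rw [mem_ball]
      linarith
    have hconv : IsPreconnected (cell U) := by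
      rw [cell, big]
      exact (convex_closedBall _ _).isPreconnected
    refine hctr' (fillIn_conn hconv hdis hxU ?_ hfill)
    exact mem_closedBall_self (by linarith)
  · -- case A
    obtain ⟨y, hy⟩ : (lp sh p).Nonempty := (lp_meets_cell hS p).mono inter_subset_left
    have hyC : y ∈ C := by
      rw [hC]
      exact ⟨lp sh p, ⟨⟨p, hp, rfl, hD⟩, Relation.ReflTransGen.refl⟩, hy⟩
    have hR : (par n)^[b] V = rootV n := root_eq hV
    have hCb : C ⊆ closedBall y (side (rootV n) / 4) := by
      intro z hz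
      obtain ⟨l, hpl, hwalk, hlS, hun, hF⟩ := cluster_walk hS hp hD [y, z] (by
        intro z' hz'
        simp only [List.mem_cons, List.not_mem_nil, or_false] at hz'
        rcases hz' with rfl | rfl
        · exact hC ▸ hyC
        · exact hC ▸ hz)
      have hyl : y ∈ un sh l := hF y (by simp)
      have hzl : z ∈ un sh l := hF z (by simp)
      have hd := diam_aux hS hV hw le_rfl (List.ne_nil_of_mem hpl) hlS hwalk
        (fun h => absurd h (lt_irrefl _)) (fun h => absurd h (lt_irrefl _))
      rw [hR] at hd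
      exact (dist_lt hS hyl hzl hd).le
    have hclos : closure C ⊆ closedBall y (side (rootV n) / 4) :=
      closure_minimal hCb isClosed_closedBall
    refine fillIn_ball hclos ?_ hfill
    intro hxy
    have h1 : dist x y ≤ side (rootV n) / 4 := hxy
    have h2 : dist x (ctr (rootV n)) ≤ 1 * side (rootV n) / 2 := by
      have := cell_sub hV b le_rfl hx
      rw [hR] at this
      exact this
    have h3 : ¬ dist y (ctr (rootV n)) ≤ 8 * side (rootV n) / 2 := by
      intro h
      exact hex ⟨b, le_rfl, y, hyC, by rw [hR]; exact h⟩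
    have hs := side_pos (rootV n)
    apply h3
    have h4 := dist_triangle y x (ctr (rootV n))
    rw [dist_comm y x] at h4
    linarith

end Pool.Agent.Helper16.CD
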