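import Pool.Agent.Helper16.CD.KDefs
import Pool.Agent.Helper16.CD.Top
import Pool.Agent.Helper16.CD.Desc
import Pool.Agent.Helper3.CD.Expand
import Pool.Agent.Helper22.CD.MMain

/-!
# CD-PE: expansion of the weighted block expectation (Iface.PsiExpand)

`V' = child n V0 j`, `par n V' = V0`.  For a set `S` of points put (classical)
`F S = (if ∃ p ∈ S, Singr sh V0 V' [p] then 0 else 1) * ∏ t ∈ range n, (wgt {i | ∃ e, (i, e) ∈ S ∧ e ∈ Lset sh} (up^[t] V')) ^ s`.
Let `A : Finset Idx` be the cells of level `< 3 n` contained in `big 3 V0` (a finite set: coordinates `-2^k ≤ v < 2^(k+1)`).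
(1) `Psi sh n s V' w = ENNReal.ofReal (F (Sp w ∩ {p | p.1 ∈ A}))`: a point `p` with `Singr sh V0 V' [p]` has level `< 3 n` (the level of `V'`)
and its loop is inside `interior (big 3 V0)`; the loop meets its cell (`lp_meets_cell`), so the cell meets the interior of
`big 3 V0`, the union of the 9 unit squares `(0, v)`, `|v| ≤ 1`; dyadic squares of level `≥ 0` meeting the interior of the square
`[-1,2]²` are inside it.  The squares `up^[t+1] V'`, `t < n`, have levels `3 (n - t - 1) < 3 n` and are inside `cell V0`; they are in `A`.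
(2) `F ∅ = 1`, `0 ≤ F ≤ 4 ^ n` (`wgt ≤ 2`, `wgt > 0`, `s ≤ 2`).  Measurability of `w ↦ F (Sp w ∩ ..)`: from (1) and `measurable_Psi`
(`F = (Psi ..).toReal`).
(3) `F {(i, e)}`: if `Singr sh V0 V' [(i, e)]` it is `0`; otherwise it is `wt (dig (up^[t] V')) ^ s` if `e ∈ Lset sh` and `i = up^[t+1] V'` for some `t < n`
(the levels of `up^[t+1] V'`, `t < n`, are different, so `t` is unique), and `1` otherwise.  Hence
`∑ i ∈ A, ∫ (1 - F {(i, e)}) dν = ∑ i ∈ A, ν {Singr ..} + ∑ t < n, (1 - wt ..^s) ν {e ∈ Lset, ¬ Singr ..} = kap + gain`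
(the sets `{e | Singr sh V0 V' [(i, e)]}` are empty for `i ∉ A`; they are measurable by `measR_Singr` with one point, `Lset` by
`measurableSet_Lset`).
(4) `expansion` with `r i = r`: `∫ F ≤ 1 - r (kap + gain) + (1 + 4^n) (card A)² r²`; `∫⁻ ofReal F = ofReal ∫ F` (bounded measurable).
`Cn = (1 + 4^n) (card A)²` does not depend on `j, s`; `r₀ = 1`.
-/

set_option autoImplicit false

namespace Pool.Agent.Helper16.CD

open MeasureTheory ProbabilityTheory Metric Set
open scoped ENNReal NNReal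
open Pool.Agent.Helper3.CD

/-- a finite set which contains all cells that matter -/
private noncomputable def PE_A (n : ℕ) : Finset Idx :=
  Finset.range (3 * n) ×ˢ (Finset.Icc (-(2 ^ (3 * n)) : ℤ) (2 ^ (3 * n + 1)) ×ˢ
    Finset.Icc (-(2 ^ (3 * n)) : ℤ) (2 ^ (3 * n + 1)))

private theorem PE_mem_A {n : ℕ} {i : Idx} : i ∈ PE_A n ↔ i.1 < 3 * n ∧
    (-(2 ^ (3 * n)) ≤ i.2.1 ∧ i.2.1 ≤ 2 ^ (3 * n + 1)) ∧
      (-(2 ^ (3 * n)) ≤ i.2.2 ∧ i.2.2 ≤ 2 ^ (3 * n + 1)) := by
  unfold PE_A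
  rw [Finset.mem_product, Finset.mem_product, Finset.mem_range, Finset.mem_Icc, Finset.mem_Icc]

section

variable {E : Type} (sh : E → Set Plane)

open Classical in
/-- the function of the set of points -/
private noncomputable def PE_F (n : ℕ) (s : ℝ) (V' : Idx) (S : Set (Idx × E)) : ℝ :=
  (if ∃ p ∈ S, Singr sh V0 V' [p] then 0 else 1) *
    ∏ t ∈ Finset.range n, wgt {i | ∃ e, (i, e) ∈ S ∧ e ∈ Lset sh} (up^[t] V') ^ s

private theorem PE_singr {V V' : Idx} {p : Idx × E} (h : Singr sh V V' [p]) :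
    p.1.1 < V'.1 ∧ lp sh p ⊆ interior (big 3 V) := by
  obtain ⟨q, hq, -, h2, h3, -⟩ := h
  have hpq : p = q := by simpa using hq
  subst hpq
  exact ⟨h2, h3⟩

private theorem PE_ev {V V' : Idx} {w : Conf E} :
    w ∈ Ev univ (Singr sh V V') ↔ ∀ p ∈ Sp w, ¬ Singr sh V V' [p] := by
  constructor
  · intro h p hp
    refine h [p] ?_
    intro q hq
    rw [List.mem_singleton] at hq
    subst hq
    exact ⟨hp, mem_univ _⟩
  · intro h l hl hs
    obtain ⟨q, rfl, hq⟩ := hs
    exact h q (hl q (List.mem_singleton.2 rfl)).1 ⟨q, rfl, hq⟩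

private theorem PE_wt_pos (d : ℤ × ℤ) : 0 < wt d := by
  unfold wt
  split_ifs <;> norm_num

private theorem PE_wt_le (d : ℤ × ℤ) : wt d ≤ 2 := by
  unfold wt
  split_ifs <;> norm_num

private theorem PE_wgt_pos (G : Set Idx) (i : Idx) : 0 < wgt G i := by
  unfold wgt
  split_ifs
  · exact PE_wt_pos _
  · exact one_pos

private theorem PE_wgt_le (G : Set Idx) (i : Idx) : wgt G i ≤ 2 := by
  unfold wgt
  split_ifs
  · exact PE_wt_le _
  · norm_num

private theorem PE_F_empty (n : ℕ) (s : ℝ) (V' : Idx) : PE_F sh n s V' ∅ = 1 := by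
  classical
  unfold PE_F
  have h1 : ¬ ∃ p ∈ (∅ : Set (Idx × E)), Singr sh V0 V' [p] := by
    rintro ⟨p, hp, -⟩
    exact hp
  have h2 : {i : Idx | ∃ e, (i, e) ∈ (∅ : Set (Idx × E)) ∧ e ∈ Lset sh} = ∅ := by
    ext i
    simp
  rw [if_neg h1, h2, one_mul]
  refine Finset.prod_eq_one fun t _ => ?_
  unfold wgt
  rw [if_neg (notMem_empty _), Real.one_rpow]

private theorem PE_F_nonneg (n : ℕ) (s : ℝ) (V' : Idx) (S : Set (Idx × E)) :
    0 ≤ PE_F sh n s V' S := by
  classical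
  unfold PE_F
  refine mul_nonneg (by split_ifs <;> norm_num) (Finset.prod_nonneg fun t _ => ?_)
  exact Real.rpow_nonneg (PE_wgt_pos _ _).le _

private theorem PE_F_le (n : ℕ) {s : ℝ} (hs0 : 0 ≤ s) (hs : s ≤ 2) (V' : Idx)
    (S : Set (Idx × E)) : PE_F sh n s V' S ≤ 4 ^ n := by
  classical
  unfold PE_F
  have h1 : ∏ t ∈ Finset.range n,
      wgt {i | ∃ e, (i, e) ∈ S ∧ e ∈ Lset sh} (up^[t] V') ^ s ≤ 4 ^ n := by
    calc ∏ t ∈ Finset.range n, wgt {i | ∃ e, (i, e) ∈ S ∧ e ∈ Lset sh} (up^[t] V') ^ s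
        ≤ ∏ _t ∈ Finset.range n, (4 : ℝ) := by
          refine Finset.prod_le_prod (fun t _ => Real.rpow_nonneg (PE_wgt_pos _ _).le _) ?_
          intro t _
          calc wgt {i | ∃ e, (i, e) ∈ S ∧ e ∈ Lset sh} (up^[t] V') ^ s
              ≤ 2 ^ s := Real.rpow_le_rpow (PE_wgt_pos _ _).le (PE_wgt_le _ _) hs0
            _ ≤ 2 ^ (2 : ℝ) := Real.rpow_le_rpow_of_exponent_le (by norm_num) hs
            _ = 4 := by norm_num
      _ = 4 ^ n := by rw [Finset.prod_const, Finset.card_range]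
  have h0 : 0 ≤ ∏ t ∈ Finset.range n,
      wgt {i | ∃ e, (i, e) ∈ S ∧ e ∈ Lset sh} (up^[t] V') ^ s :=
    Finset.prod_nonneg fun t _ => Real.rpow_nonneg (PE_wgt_pos _ _).le _
  split_ifs
  · rw [zero_mul]
    positivity
  · rw [one_mul]
    exact h1

private theorem PE_par (n : ℕ) (j : J n) (m : ℕ) : up^[m] (child n V0 j) =
    (3 * n - 3 * m, (j.1.1 : ℤ) / 8 ^ m, (j.2.1 : ℤ) / 8 ^ m) := by
  have h := par_eq m (child n V0 j)
  unfold par at h
  rw [h]
  unfold child V0
  simp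

private theorem PE_par_mem {n : ℕ} (hn : 1 ≤ n) (j : J n) {m : ℕ} (hm : 1 ≤ m) :
    up^[m] (child n V0 j) ∈ PE_A n := by
  rw [PE_par, PE_mem_A]
  have key : ∀ v : Fin (8 ^ n), -(2 ^ (3 * n)) ≤ ((v.1 : ℤ) / 8 ^ m) ∧
      ((v.1 : ℤ) / 8 ^ m) ≤ 2 ^ (3 * n + 1) := by
    intro v
    have h0 : (0 : ℤ) ≤ (v.1 : ℤ) := Int.natCast_nonneg _
    have h1 : (0 : ℤ) ≤ (v.1 : ℤ) / 8 ^ m := Int.ediv_nonneg h0 (by positivity)
    have h2 : (v.1 : ℤ) / 8 ^ m ≤ (v.1 : ℤ) := Int.ediv_le_self _ h0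
    have h3 : (v.1 : ℤ) < 8 ^ n := by
      have := v.2
      exact_mod_cast this
    have h4 : (8 : ℤ) ^ n = 2 ^ (3 * n) := by
      rw [pow_mul]
      norm_num
    have h5 : (2 : ℤ) ^ (3 * n + 1) = 2 * 2 ^ (3 * n) := by rw [pow_succ]; ring
    have h6 : (0 : ℤ) < 2 ^ (3 * n) := by positivity
    constructor
    · linarith
    · linarith
  exact ⟨by omega, key j.1, key j.2⟩

private theorem PE_par_inj {n : ℕ} (j : J n) {t t' : ℕ} (ht : t < n) (ht' : t' < n)
    (h : up^[t + 1] (child n V0 j) = up^[t' + 1] (child n V0 j)) : t = t' := by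
  rw [PE_par, PE_par] at h
  have h1 := congrArg (fun x : Idx => x.1) h
  simp only at h1
  omega

variable {sh} [MeasurableSpace E] {ν : Measure E}

private theorem PE_singr_mem (hS : IsShape ν sh) {n : ℕ} (j : J n) {p : Idx × E}
    (h : Singr sh V0 (child n V0 j) [p]) : p.1 ∈ PE_A n := by
  obtain ⟨h1, h2⟩ := PE_singr sh h
  have h3 : (child n V0 j).1 = 3 * n := by
    unfold child V0
    simp
  rw [h3] at h1
  obtain ⟨z, hz1, hz2⟩ := lp_meets_cell hS p
  have hz3 := interior_subset (h2 hz1)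
  rw [cell_eq_image] at hz2
  obtain ⟨y, ⟨y1, y2, y3, y4⟩, rfl⟩ := hz2
  unfold big at hz3
  rw [mem_closedBall, Prod.dist_eq, max_le_iff, Real.dist_eq, Real.dist_eq, abs_le, abs_le] at hz3
  have hc : ctr V0 = ((1 / 2 : ℝ), (1 / 2 : ℝ)) := by
    unfold ctr pos side V0
    simp
  have hs0 : side V0 = 1 := by
    unfold side V0
    simp
  rw [hc, hs0] at hz3
  obtain ⟨⟨a1, a2⟩, a3, a4⟩ := hz3
  unfold pos at a1 a2 a3 a4
  simp only at a1 a2 a3 a4
  have hk : side p.1 * 2 ^ p.1.1 = 1 := by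
    unfold side
    rw [← mul_pow]
    norm_num
  have hk0 : (0 : ℝ) < 2 ^ p.1.1 := by positivity
  have hpow : (2 : ℤ) ^ p.1.1 * 2 ≤ 2 ^ (3 * n) := by
    rw [← pow_succ]
    exact pow_le_pow_right₀ (by norm_num) (by omega)
  have hpow1 : (1 : ℤ) ≤ 2 ^ p.1.1 := one_le_pow₀ (by norm_num)
  have key : ∀ (v : ℤ) (x : ℝ), 0 ≤ x → x ≤ 1 → -(3 * 1 / 2) ≤ side p.1 * (v + x) - 1 / 2 →
      side p.1 * (v + x) - 1 / 2 ≤ 3 * 1 / 2 → -(2 ^ (3 * n)) ≤ v ∧ v ≤ 2 ^ (3 * n + 1) := by
    intro v x hx0 hx1 b1 b2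
    have c1 : -(2 ^ p.1.1 : ℝ) ≤ v + x := by
      have h5 : (-1 : ℝ) ≤ side p.1 * (v + x) := by linarith
      have h6 := mul_le_mul_of_nonneg_right h5 hk0.le
      calc -(2 ^ p.1.1 : ℝ) = -1 * 2 ^ p.1.1 := by ring
        _ ≤ side p.1 * (v + x) * 2 ^ p.1.1 := h6
        _ = (side p.1 * 2 ^ p.1.1) * (v + x) := by ring
        _ = v + x := by rw [hk, one_mul]
    have c2 : (v : ℝ) + x ≤ 2 * 2 ^ p.1.1 := by
      have h5 : side p.1 * (v + x) ≤ 2 := by linarith
      have h6 := mul_le_mul_of_nonneg_right h5 hk0.le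
      calc (v : ℝ) + x = (side p.1 * 2 ^ p.1.1) * (v + x) := by rw [hk, one_mul]
        _ = side p.1 * (v + x) * 2 ^ p.1.1 := by ring
        _ ≤ 2 * 2 ^ p.1.1 := h6
    have c3 : -(2 ^ p.1.1 : ℤ) - 1 ≤ v := by
      have h7 : -(2 ^ p.1.1 : ℝ) - 1 ≤ (v : ℝ) := by linarith
      exact_mod_cast h7
    have c4 : v ≤ 2 * 2 ^ p.1.1 := by
      have h7 : (v : ℝ) ≤ 2 * 2 ^ p.1.1 := by linarith
      exact_mod_cast h7
    have h5 : (2 : ℤ) ^ (3 * n + 1) = 2 * 2 ^ (3 * n) := by rw [pow_succ]; ring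
    constructor
    · linarith
    · linarith
  rw [PE_mem_A]
  exact ⟨h1, key _ _ y1 y2 a1 a2, key _ _ y3 y4 a3 a4⟩

private theorem PE_psi (hS : IsShape ν sh) {n : ℕ} (hn : 1 ≤ n) (s : ℝ) (j : J n)
    (w : Conf E) : Psi sh n s (child n V0 j) w =
      ENNReal.ofReal (PE_F sh n s (child n V0 j) (Sp w ∩ {p | p.1 ∈ PE_A n})) := by
  classical
  unfold Psi PE_F
  rw [par_child]
  have h1 : w ∈ Ev univ (Singr sh V0 (child n V0 j)) ↔
      ¬ ∃ p ∈ Sp w ∩ {p | p.1 ∈ PE_A n}, Singr sh V0 (child n V0 j) [p] := by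
    rw [PE_ev]
    constructor
    · rintro h ⟨p, hp, hp'⟩
      exact h p hp.1 hp'
    · intro h p hp hp'
      exact h ⟨p, ⟨hp, PE_singr_mem hS j hp'⟩, hp'⟩
  have h2 : ∀ t ∈ Finset.range n, wgt (Gd sh w) (up^[t] (child n V0 j)) =
      wgt {i | ∃ e, (i, e) ∈ Sp w ∩ {p | p.1 ∈ PE_A n} ∧ e ∈ Lset sh}
        (up^[t] (child n V0 j)) := by
    intro t _
    unfold wgt
    have h3 : up (up^[t] (child n V0 j)) ∈ Gd sh w ↔ up (up^[t] (child n V0 j)) ∈
        {i | ∃ e, (i, e) ∈ Sp w ∩ {p | p.1 ∈ PE_A n} ∧ e ∈ Lset sh} := by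
      have h4 : up (up^[t] (child n V0 j)) ∈ PE_A n := by
        rw [← Function.iterate_succ_apply' up t (child n V0 j)]
        exact PE_par_mem hn j (by omega)
      constructor
      · rintro ⟨e, he, he'⟩
        exact ⟨e, ⟨he, h4⟩, he'⟩
      · rintro ⟨e, he, he'⟩
        exact ⟨e, he.1, he'⟩
    simp only [h3]
  rw [ENNReal.ofReal_mul (by split_ifs <;> norm_num),
    ENNReal.ofReal_prod_of_nonneg fun t _ => Real.rpow_nonneg (PE_wgt_pos _ _).le _]
  congr 1
  · by_cases h3 : w ∈ Ev univ (Singr sh V0 (child n V0 j))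
    · rw [if_pos h3, if_neg (h1.1 h3), ENNReal.ofReal_one]
    · rw [if_neg h3, if_pos (by by_contra h4; exact h3 (h1.2 h4)), ENNReal.ofReal_zero]
  · refine Finset.prod_congr rfl fun t ht => ?_
    rw [h2 t ht]

/-- the shapes which give a single surrounding loop -/
private def PE_S (sh : E → Set Plane) (V' i : Idx) : Set E := {e | Singr sh V0 V' [(i, e)]}

/-- the shapes which make the square good and give no surrounding loop -/
private def PE_L (sh : E → Set Plane) (V' i : Idx) : Set E :=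
  {e | e ∈ Lset sh ∧ ¬ Singr sh V0 V' [(i, e)]}

private theorem PE_S_meas (hS : IsShape ν sh) (V' i : Idx) : MeasurableSet (PE_S sh V' i) := by
  have h := Pool.Agent.Helper22.CD.measR_Singr hS V0 V' 1 (fun _ => i)
  have h2 : Measurable (fun e : E => (fun _ : Fin 1 => e)) :=
    measurable_pi_lambda _ fun _ => measurable_id
  have h3 := h2 h
  have h4 : PE_S sh V' i = (fun e : E => (fun _ : Fin 1 => e)) ⁻¹'
      {e : Fin 1 → E | Singr sh V0 V' (List.ofFn fun t => ((fun _ => i) t, e t))} := by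
    ext e
    simp [PE_S]
  rw [h4]
  exact h3

private theorem PE_L_meas (hS : IsShape ν sh) (V' i : Idx) : MeasurableSet (PE_L sh V' i) :=
  (Pool.Agent.Helper22.CD.measurableSet_Lset hS).inter (PE_S_meas hS V' i).compl

omit [MeasurableSpace E] in
open Classical in
private theorem PE_point (n : ℕ) (s : ℝ) (j : J n) (i : Idx) (e : E) :
    1 - PE_F sh n s (child n V0 j) {(i, e)} =
      (PE_S sh (child n V0 j) i).indicator (fun _ => (1 : ℝ)) e +
        ∑ t ∈ Finset.range n, (if i = up^[t + 1] (child n V0 j) then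
          (PE_L sh (child n V0 j) i).indicator
            (fun _ => 1 - wt (dig (up^[t] (child n V0 j))) ^ s) e else 0) := by
  set V' := child n V0 j with hV'
  have hex : (∃ p ∈ ({(i, e)} : Set (Idx × E)), Singr sh V0 V' [p]) ↔
      Singr sh V0 V' [(i, e)] := by
    constructor
    · rintro ⟨p, hp, h⟩
      rw [mem_singleton_iff] at hp
      rw [hp] at h
      exact h
    · intro h
      exact ⟨_, mem_singleton _, h⟩
  have hG : ∀ i' : Idx, i' ∈ {i' : Idx | ∃ e', (i', e') ∈ ({(i, e)} : Set (Idx × E)) ∧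
      e' ∈ Lset sh} ↔ i' = i ∧ e ∈ Lset sh := by
    intro i'
    constructor
    · rintro ⟨e', h1, h2⟩
      rw [mem_singleton_iff, Prod.mk.injEq] at h1
      obtain ⟨h3, rfl⟩ := h1
      exact ⟨h3, h2⟩
    · rintro ⟨rfl, h⟩
      exact ⟨e, mem_singleton _, h⟩
  unfold PE_F
  by_cases hs : Singr sh V0 V' [(i, e)]
  · rw [if_pos (hex.2 hs), zero_mul, sub_zero, indicator_of_mem (show e ∈ PE_S sh V' i from hs)]
    have h1 : ∑ t ∈ Finset.range n, (if i = up^[t + 1] V' then
          (PE_L sh V' i).indicator (fun _ => 1 - wt (dig (up^[t] V')) ^ s) e else 0) = 0 := by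
      refine Finset.sum_eq_zero fun t _ => ?_
      split_ifs
      · exact indicator_of_notMem (fun h : e ∈ PE_L sh V' i => h.2 hs) _
      · rfl
    rw [h1, add_zero]
  · rw [if_neg (fun h => hs (hex.1 h)), one_mul,
      indicator_of_notMem (show e ∉ PE_S sh V' i from hs), zero_add]
    have hw : ∀ t, wgt {i' : Idx | ∃ e', (i', e') ∈ ({(i, e)} : Set (Idx × E)) ∧
        e' ∈ Lset sh} (up^[t] V') =
        if up^[t + 1] V' = i ∧ e ∈ Lset sh then wt (dig (up^[t] V')) else 1 := by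
      intro t
      unfold wgt
      rw [← Function.iterate_succ_apply' up t V']
      simp only [hG]
    simp only [hw]
    by_cases hL : e ∈ Lset sh
    · by_cases ht : ∃ t ∈ Finset.range n, i = up^[t + 1] V'
      · obtain ⟨t0, ht0, hi⟩ := ht
        rw [Finset.prod_eq_single_of_mem t0 ht0, Finset.sum_eq_single_of_mem t0 ht0]
        · rw [if_pos ⟨hi.symm, hL⟩, if_pos hi,
            indicator_of_mem (show e ∈ PE_L sh V' i from ⟨hL, hs⟩)]
        · intro t ht hne
          rw [if_neg]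
          intro h
          apply hne
          rw [hi] at h
          exact (PE_par_inj j (Finset.mem_range.1 ht0) (Finset.mem_range.1 ht) h).symm
        · intro t ht hne
          rw [if_neg, Real.one_rpow]
          rintro ⟨h, -⟩
          apply hne
          rw [hi] at h
          exact PE_par_inj j (Finset.mem_range.1 ht) (Finset.mem_range.1 ht0) h
      · push Not at ht
        rw [Finset.prod_eq_one, Finset.sum_eq_zero, sub_self]
        · intro t ht'
          rw [if_neg (ht t ht')]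
        · intro t ht'
          rw [if_neg (fun h => ht t ht' h.1.symm), Real.one_rpow]
    · rw [Finset.prod_eq_one, Finset.sum_eq_zero, sub_self]
      · intro t _
        split_ifs
        · exact indicator_of_notMem (fun h : e ∈ PE_L sh V' i => hL h.1) _
        · rfl
      · intro t _
        rw [if_neg (fun h => hL h.2), Real.one_rpow]

open Classical in
private theorem PE_int [IsProbabilityMeasure ν] (hS : IsShape ν sh) (n : ℕ) (s : ℝ) (j : J n)
    (i : Idx) : ∫ e, (1 - PE_F sh n s (child n V0 j) {(i, e)}) ∂ν =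
      ν.real (PE_S sh (child n V0 j) i) +
        ∑ t ∈ Finset.range n, (if i = up^[t + 1] (child n V0 j) then
          (1 - wt (dig (up^[t] (child n V0 j))) ^ s) *
            ν.real (PE_L sh (child n V0 j) i) else 0) := by
  have hSm := PE_S_meas hS (child n V0 j) i
  have hLm := PE_L_meas hS (child n V0 j) i
  have h1 : ∀ e, 1 - PE_F sh n s (child n V0 j) {(i, e)} = _ := fun e => PE_point n s j i e
  simp only [h1]
  have hi1 : Integrable ((PE_S sh (child n V0 j) i).indicator (fun _ => (1 : ℝ))) ν :=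
    (integrable_const _).indicator hSm
  have hi2 : ∀ t ∈ Finset.range n, Integrable (fun e =>
      (if i = up^[t + 1] (child n V0 j) then (PE_L sh (child n V0 j) i).indicator
        (fun _ => 1 - wt (dig (up^[t] (child n V0 j))) ^ s) e else 0)) ν := by
    intro t _
    split_ifs
    · exact (integrable_const _).indicator hLm
    · exact integrable_const _
  rw [integral_add hi1 (integrable_finsetSum _ hi2), integral_indicator_const _ hSm,
    integral_finsetSum _ hi2, smul_eq_mul, mul_one]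
  congr 1
  refine Finset.sum_congr rfl fun t _ => ?_
  split_ifs
  · rw [integral_indicator_const _ hLm, smul_eq_mul, mul_comm]
  · simp

private theorem PE_sum [IsProbabilityMeasure ν] (hS : IsShape ν sh) {n : ℕ} (hn : 1 ≤ n)
    (s : ℝ) (j : J n) :
    ∑ i ∈ PE_A n, ∫ e, (1 - PE_F sh n s (child n V0 j) {(i, e)}) ∂ν =
      kap ν sh n j + gain ν sh n s j := by
  classical
  simp only [PE_int hS]
  rw [Finset.sum_add_distrib]
  congr 1
  · unfold kap
    have h0 : ∀ i ∉ PE_A n, ν {e | Singr sh V0 (child n V0 j) [(i, e)]} = 0 := by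
      intro i hi
      have h1 : {e | Singr sh V0 (child n V0 j) [(i, e)]} = ∅ := by
        rw [Set.eq_empty_iff_forall_notMem]
        intro e he
        exact hi (PE_singr_mem hS j he)
      rw [h1, measure_empty]
    rw [tsum_eq_sum h0, ENNReal.toReal_sum fun i _ => measure_ne_top ν _]
    rfl
  · unfold gain
    rw [Finset.sum_comm]
    refine Finset.sum_congr rfl fun t _ => ?_
    rw [Finset.sum_ite_eq' (PE_A n) (up^[t + 1] (child n V0 j)) fun i =>
      (1 - wt (dig (up^[t] (child n V0 j))) ^ s) * ν.real (PE_L sh (child n V0 j) i),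
      if_pos (PE_par_mem hn j (by omega))]
    rfl

end

theorem psiExpand : Iface.PsiExpand := by
  intro E _ ν sh hS n hn
  have := hS.prob
  refine ⟨(1 + 4 ^ n) * ((PE_A n).card : ℝ) ^ 2, 1, one_pos, fun r _ j s hs1 hs2 => ?_⟩
  have hFm : Measurable fun w : Conf E =>
      PE_F sh n s (child n V0 j) (Sp w ∩ {p | p.1 ∈ PE_A n}) := by
    have h1 := (Pool.Agent.Helper22.CD.measurable_Psi hS n s (child n V0 j)).ennreal_toReal
    have h2 : (fun w : Conf E => PE_F sh n s (child n V0 j) (Sp w ∩ {p | p.1 ∈ PE_A n})) =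
        fun w => (Psi sh n s (child n V0 j) w).toReal := by
      funext w
      rw [PE_psi hS hn, ENNReal.toReal_ofReal (PE_F_nonneg sh _ _ _ _)]
    rw [h2]
    exact h1
  have hle := PE_F_le (E := E) sh n (s := s) (by linarith) hs2 (child n V0 j)
  have hexp := expansion (PE_A n) (fun _ : Idx => r) (fun _ : Idx => ν) (4 ^ n)
    (PE_F sh n s (child n V0 j)) hFm (PE_F_empty sh _ _ _) (PE_F_nonneg sh _ _ _) hle
  have hint : Integrable (fun w : Conf E =>
      PE_F sh n s (child n V0 j) (Sp w ∩ {p | p.1 ∈ PE_A n})) (law r ν) := by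
    refine Integrable.of_bound hFm.aestronglyMeasurable (4 ^ n) (ae_of_all _ fun w => ?_)
    rw [Real.norm_eq_abs, abs_of_nonneg (PE_F_nonneg sh _ _ _ _)]
    exact hle _
  have h1 : ∫⁻ w, Psi sh n s (child n V0 j) w ∂(law r ν) = ENNReal.ofReal
      (∫ w, PE_F sh n s (child n V0 j) (Sp w ∩ {p | p.1 ∈ PE_A n}) ∂(law r ν)) := by
    rw [ofReal_integral_eq_lintegral_ofReal hint
      (ae_of_all _ fun w => PE_F_nonneg sh _ _ _ _)]
    exact lintegral_congr fun w => PE_psi hS hn s j w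
  rw [h1]
  apply ENNReal.ofReal_le_ofReal
  refine hexp.trans (le_of_eq ?_)
  rw [← Finset.mul_sum, PE_sum hS hn, Finset.sum_const, nsmul_eq_mul]
  ring

end Pool.Agent.Helper16.CD
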