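import Pool.Agent.Helper16.CD.Defs

/-!
# CD: the final statement

`IsPlanarBM P B₁ B₂`: planar Brownian motion on `(Ω, P)`.  The Brownian loop measure of Lawler and Werner,
rooted form: root `z` (Lebesgue measure), duration `t` with density `1 / (2 π t²)`, and
`z + √t β`, `β` the standard planar Brownian bridge.  A rooted loop is a point `(z, t, ω)` of `ℂ × ℝ × Ω`, the
intensity is `lam P`.  The soup of intensity `c` is the Poisson point process with intensity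
`c • lam P`, constructed on the countable partition of `ℂ × (0, ∞)` into the sets
`2^-k (v + [0,1)²) × [4^-k, 4^(1-k))` (`k ≥ 0`) and `(v + [0,1)²) × [4, ∞)`: independent Poisson numbers
of independent points with the normalised intensity.
-/

set_option autoImplicit false

namespace Pool.Agent.Helper16.CD

open MeasureTheory ProbabilityTheory Metric Set
open scoped ENNReal NNReal unitInterval
open Pool.Agent.Helper3.CD

section

variable {Ω : Type} [MeasurableSpace Ω]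

/-- planar Brownian motion: two independent real Brownian motions with continuous paths -/
structure IsPlanarBM (P : Measure Ω) (B₁ B₂ : ℝ≥0 → Ω → ℝ) : Prop where
  bm₁ : IsPreBrownianReal B₁ P
  bm₂ : IsPreBrownianReal B₂ P
  indep : IndepFun (fun ω t => B₁ t ω) (fun ω t => B₂ t ω) P
  meas₁ : ∀ t, Measurable (B₁ t)
  meas₂ : ∀ t, Measurable (B₂ t)
  cont₁ : ∀ ω, Continuous fun t => B₁ t ω
  cont₂ : ∀ ω, Continuous fun t => B₂ t ω

/-- the bridge of `B` at time `t ∈ [0, 1]` -/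
noncomputable def bridge {Ω : Type} (B : ℝ≥0 → Ω → ℝ) (ω : Ω) (t : I) : ℝ :=
  B (Real.toNNReal t) ω - B 0 ω - t * (B 1 ω - B 0 ω)

/-- the loop with root `z`, duration `t` and sample point `ω` -/
noncomputable def brownLoop {Ω : Type} (B₁ B₂ : ℝ≥0 → Ω → ℝ) (q : ℂ × ℝ × Ω) : Set ℂ :=
  range fun s : I => q.1 + √q.2.1 * (⟨bridge B₁ q.2.2 s, bridge B₂ q.2.2 s⟩ : ℂ)

/-- the intensity of the rooted Brownian loop measure -/
noncomputable def lam (P : Measure Ω) : Measure (ℂ × ℝ × Ω) :=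
  volume.prod (((volume.restrict (Ioi (0 : ℝ))).withDensity
    fun t => ENNReal.ofReal (1 / (2 * Real.pi * t ^ 2))).prod P)

/-- the half open square `2^-k (v + [0,1)²)` -/
def sqC (i : Idx) : Set ℂ :=
  {z | side i * i.2.1 ≤ z.re ∧ z.re < side i * (i.2.1 + 1) ∧
    side i * i.2.2 ≤ z.im ∧ z.im < side i * (i.2.2 + 1)}

/-- the parts of the partition: `Sum.inl (k, v)` and `Sum.inr v` -/
def part (Ω : Type) : Idx ⊕ (ℤ × ℤ) → Set (ℂ × ℝ × Ω)
  | Sum.inl i => sqC i ×ˢ (Ico ((1 / 4 : ℝ) ^ i.1) (4 * (1 / 4 : ℝ) ^ i.1) ×ˢ univ)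
  | Sum.inr v => sqC (0, v) ×ˢ (Ici (4 : ℝ) ×ˢ univ)

/-- law of the Brownian loop soup of intensity `c` (as a Poisson collection of rooted loops) -/
noncomputable def loopSoup (c : ℝ≥0) (P : Measure Ω) :
    Measure (Cfg (Idx ⊕ (ℤ × ℤ)) (ℂ × ℝ × Ω)) :=
  soup (fun i => c * (lam P (part Ω i)).toNNReal) (fun i => (lam P)[|part Ω i])

/-- the loops of a configuration which are inside the open unit disc -/
def loopsC {Ω : Type} (B₁ B₂ : ℝ≥0 → Ω → ℝ) (w : Cfg (Idx ⊕ (ℤ × ℤ)) (ℂ × ℝ × Ω)) :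
    Set (Set ℂ) :=
  {K | ∃ p ∈ Sp w, K = brownLoop B₁ B₂ p.2 ∧ K ⊆ ball 0 1}

/-- the carpet: points of the closed disc surrounded by no cluster of loops -/
def carpetC {Ω : Type} (B₁ B₂ : ℝ≥0 → Ω → ℝ) (w : Cfg (Idx ⊕ (ℤ × ℤ)) (ℂ × ℝ × Ω)) : Set ℂ :=
  carpet (closedBall 0 1) (loopsC B₁ B₂ w)

/-- the final statement -/
def Final : Prop :=
  ∀ (Ω : Type) [MeasurableSpace Ω] (P : Measure Ω) [IsProbabilityMeasure P]
    (B₁ B₂ : ℝ≥0 → Ω → ℝ), IsPlanarBM P B₁ B₂ →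
    ∃ c₀ : ℝ≥0, 0 < c₀ ∧ ∀ c : ℝ≥0, 0 < c → c < c₀ →
      ∃ A : Set (Cfg (Idx ⊕ (ℤ × ℤ)) (ℂ × ℝ × Ω)), MeasurableSet A ∧ 0 < loopSoup c P A ∧
        ∀ w ∈ A, ∃ (Y : Type) (_ : MetricSpace Y) (f : carpetC B₁ B₂ w → Y),
          IsQS f ∧ dimH (univ : Set Y) < dimH (carpetC B₁ B₂ w)

/-! ### standard marks -/

/-- standard marks: root in the unit square, duration variable, sample point -/
abbrev Mark (Ω : Type) : Type := (I × I × I) × Ω

/-- duration `1 / (1 - 3x/4) ∈ [1, 4]`; if `x` is uniform it has density `4 / (3 τ²)` -/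
noncomputable def dur (x : I) : ℝ := 1 / (1 - 3 / 4 * (x : ℝ))

/-- the standard shape: root `u ∈ [0,1]²`, duration `dur x` -/
noncomputable def shapeB {Ω : Type} (B₁ B₂ : ℝ≥0 → Ω → ℝ) (e : Mark Ω) : Set Plane :=
  range fun s : I => ((e.1.1 : ℝ) + √(dur e.1.2.2) * bridge B₁ e.2 s,
    (e.1.2.1 : ℝ) + √(dur e.1.2.2) * bridge B₂ e.2 s)

end

end Pool.Agent.Helper16.CD
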