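import Pool.Agent.Helper16.CD.Main
import Pool.Agent.Helper16.CD.BP
import Pool.Agent.Helper16.CD.CHs
import Pool.Agent.Helper16.CD.GR
import Pool.Agent.Helper16.CD.PE
import Pool.Agent.Helper16.CD.GS
import Pool.Agent.Helper16.CD.KS
import Pool.Agent.Helper22.CD.DMain
import Pool.Agent.H94.CD.Lower
import Pool.Agent.Helper3.CD.T6
import Pool.Agent.Helper83.CD.Final

/-!
# CD: assembly
-/

set_option autoImplicit false

namespace Pool.Agent.Helper16.CD

theorem mainAbs_proved : MainAbs :=
  mainAbs badProb hsSmall gProb rootProb psiExpand gainSum Pool.Agent.Helper22.CD.upper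
    (Pool.Agent.H94.CD.lower_of keptSubset)

theorem final_proved : Final :=
  Pool.Agent.Helper3.CD.final_of_law mainAbs_proved
    fun _ _ _ _ _ _ h => Pool.Agent.Helper83.CD.isShape_brown h

end Pool.Agent.Helper16.CD
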