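import Pool.Agent.Helper16.CD.KDefs
import Pool.Agent.Helper16.CD.Top
import Pool.Agent.Helper22.CD.MMain
import Pool.Agent.Helper22.CD.Inv2

/-!
# CD-CM: first moments of loops near a square

`D e = diam (sh e)`, a root `z₀ ∈ sh e ∩ [0,1]²`.  `lp sh ((j, v), e) = 2^-j (v + sh e)`, `R = 2^j ρ`, `X = 2^j x`.  If it meets `closedBall x ρ` then
`|v - X| ≤ R + D + 1` (sup norm), which holds for at most `(2 (R + D + 1) + 1)² = (2R + 2D + 3)²` points `v ∈ ℤ²`.  So, with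
`∑' v, ν {..} = ∫ ∑' v, indicator` (`lintegral_tsum`, measurable sets by `meas_hit`, `meas_diam` of Helper22/CD):
`mass_hit`: `∑ ≤ ∫ (2R + 2D + 3)² ≤ C (1 + R)²` because `D² ≤ 1 + D⁴` and `∫ D⁴ < ∞` (`IsShape.moment`).
`mass_big`: on `R ≤ 64 D` (that is `ρ ≤ 64 diam (lp ..)`, `diam (lp ..) = 2^-j D`).  If `R ≥ 1`: `(2R + 2D + 3)² ≤ (322 D)²` and
`1 ≤ (64 D / R)²`, so the integrand is `≤ (322 * 64)² D⁴ / R²`.  If `R < 1`: `(2R+2D+3)² ≤ (5 + 2D)² ≤ 50 + 8 D² ≤ 58 + 8 D⁴ ≤ (58 + 8 D⁴) / R²`.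
`hh_lt_top`, `hh_mono`: from `mass_hit` with `j = 0` and monotonicity of the sets.  `hit_scale`: `x ↦ 2^j x` (multiply by `2^j`).
-/

set_option autoImplicit false

namespace Pool.Agent.Helper16.CD

open MeasureTheory ProbabilityTheory Metric Set
open scoped ENNReal NNReal
open Pool.Agent.Helper3.CD Pool.Agent.Helper22.CD

variable {E : Type} [MeasurableSpace E] {ν : Measure E} {sh : E → Set Plane}

private theorem CM_two (j : ℕ) : (1 / 2 : ℝ) ^ j * 2 ^ j = 1 := by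
  rw [← mul_pow]
  norm_num

private theorem CM_coord {j : ℕ} {v a x ρ : ℝ} (h : |(1 / 2 : ℝ) ^ j * (v + a) - x| ≤ ρ) :
    |v + a - 2 ^ j * x| ≤ 2 ^ j * ρ := by
  have h2 : (0 : ℝ) < 2 ^ j := by positivity
  have h1 : v + a - 2 ^ j * x = 2 ^ j * ((1 / 2 : ℝ) ^ j * (v + a) - x) := by
    linear_combination -(v + a) * CM_two j
  rw [h1, abs_mul, abs_of_pos h2]
  exact mul_le_mul_of_nonneg_left h h2.le

private theorem CM_hit (hS : IsShape ν sh) {j : ℕ} {v : ℤ × ℤ} {x : Plane} {ρ : ℝ} {e : E}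
    (h : (lp sh ((j, v), e) ∩ closedBall x ρ).Nonempty) :
    |(v.1 : ℝ) - 2 ^ j * x.1| ≤ 2 ^ j * ρ + diam (sh e) + 1 ∧
      |(v.2 : ℝ) - 2 ^ j * x.2| ≤ 2 ^ j * ρ + diam (sh e) + 1 := by
  obtain ⟨_, ⟨a, ha, rfl⟩, hb⟩ := h
  obtain ⟨z, hz, h1, h2, h3, h4⟩ := hS.root e
  have hD : dist a z ≤ diam (sh e) := dist_le_diam_of_mem (hS.compact e).isBounded ha hz
  rw [Prod.dist_eq, max_le_iff, Real.dist_eq, Real.dist_eq, abs_le, abs_le] at hD
  rw [mem_closedBall, Prod.dist_eq, max_le_iff, Real.dist_eq, Real.dist_eq] at hb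
  have k1 : |(v.1 : ℝ) + a.1 - 2 ^ j * x.1| ≤ 2 ^ j * ρ := CM_coord hb.1
  have k2 : |(v.2 : ℝ) + a.2 - 2 ^ j * x.2| ≤ 2 ^ j * ρ := CM_coord hb.2
  rw [abs_le] at k1 k2
  obtain ⟨⟨d1, d2⟩, d3, d4⟩ := hD
  constructor
  · rw [abs_le]
    constructor <;> linarith [k1.1, k1.2]
  · rw [abs_le]
    constructor <;> linarith [k2.1, k2.2]

private theorem CM_card (x : ℝ) {M : ℝ} (hM : 0 ≤ M) :
    ((Finset.Icc ⌈x - M⌉ ⌊x + M⌋).card : ℝ) ≤ 2 * M + 1 := by
  rw [Int.card_Icc]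
  have h1 : (⌊x + M⌋ : ℝ) ≤ x + M := Int.floor_le _
  have h2 : x - M ≤ (⌈x - M⌉ : ℝ) := Int.le_ceil _
  rcases le_total 0 (⌊x + M⌋ + 1 - ⌈x - M⌉) with h | h
  · have h3 : (((⌊x + M⌋ + 1 - ⌈x - M⌉).toNat : ℤ) : ℝ) = ((⌊x + M⌋ + 1 - ⌈x - M⌉ : ℤ) : ℝ) := by
      rw [Int.toNat_of_nonneg h]
    rw [Int.cast_natCast] at h3
    rw [h3]
    push_cast
    linarith
  · rw [Int.toNat_of_nonpos h, Nat.cast_zero]
    linarith

private theorem CM_box (X Y : ℝ) {M : ℝ} (hM : 0 ≤ M) : ∃ F : Finset (ℤ × ℤ),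
    (∀ v : ℤ × ℤ, |(v.1 : ℝ) - X| ≤ M → |(v.2 : ℝ) - Y| ≤ M → v ∈ F) ∧
      (F.card : ℝ) ≤ (2 * M + 1) ^ 2 := by
  refine ⟨Finset.Icc ⌈X - M⌉ ⌊X + M⌋ ×ˢ Finset.Icc ⌈Y - M⌉ ⌊Y + M⌋, ?_, ?_⟩
  · intro v h1 h2
    rw [abs_le] at h1 h2
    rw [Finset.mem_product, Finset.mem_Icc, Finset.mem_Icc]
    refine ⟨⟨?_, ?_⟩, ?_, ?_⟩
    · rw [Int.ceil_le]; linarith [h1.1]
    · rw [Int.le_floor]; linarith [h1.2]
    · rw [Int.ceil_le]; linarith [h2.1]
    · rw [Int.le_floor]; linarith [h2.2]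
  · rw [Finset.card_product, Nat.cast_mul, pow_two]
    exact mul_le_mul (CM_card X hM) (CM_card Y hM) (Nat.cast_nonneg _) (by linarith)

private theorem CM_main (hS : IsShape ν sh) {P : ℤ × ℤ → E → Prop}
    (hP : ∀ v, MeasurableSet {e | P v e}) {K : ℝ} (hK : 0 ≤ K)
    (h : ∀ e, ∃ F : Finset (ℤ × ℤ), (∀ v, P v e → v ∈ F) ∧
      (F.card : ℝ) ≤ K * (1 + diam (sh e) ^ 4)) :
    ∑' v, ν {e | P v e} ≤ ENNReal.ofReal
      (K * (1 + (∫⁻ e, ENNReal.ofReal (diam (sh e) ^ 4) ∂ν).toReal)) := by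
  classical
  have := hS.prob
  calc ∑' v, ν {e | P v e} = ∑' v, ∫⁻ e, {e | P v e}.indicator (fun _ => (1 : ℝ≥0∞)) e ∂ν := by
        refine tsum_congr fun v => ?_
        rw [lintegral_indicator_const (hP v), one_mul]
    _ = ∫⁻ e, ∑' v, {e | P v e}.indicator (fun _ => (1 : ℝ≥0∞)) e ∂ν :=
        (lintegral_tsum fun v => (measurable_const.indicator (hP v)).aemeasurable).symm
    _ ≤ ∫⁻ e, ENNReal.ofReal K * (1 + ENNReal.ofReal (diam (sh e) ^ 4)) ∂ν := by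
        refine lintegral_mono fun e => ?_
        obtain ⟨F, hF, hc⟩ := h e
        have h1 : ∑' v, {e | P v e}.indicator (fun _ => (1 : ℝ≥0∞)) e ≤ (F.card : ℝ≥0∞) := by
          rw [tsum_eq_sum (s := F)]
          · refine (Finset.sum_le_card_nsmul F _ 1 fun v _ => ?_).trans ?_
            · exact indicator_le_self' (fun _ _ => zero_le_one) e
            · rw [nsmul_eq_mul, mul_one]
          · intro v hv
            apply indicator_of_notMem
            intro h2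
            exact hv (hF v h2)
        refine h1.trans ?_
        have h4 : (0 : ℝ) ≤ diam (sh e) ^ 4 := by positivity
        have h2 : ENNReal.ofReal K * (1 + ENNReal.ofReal (diam (sh e) ^ 4)) =
            ENNReal.ofReal (K * (1 + diam (sh e) ^ 4)) := by
          rw [ENNReal.ofReal_mul hK, ENNReal.ofReal_add zero_le_one h4, ENNReal.ofReal_one]
        rw [h2, ← ENNReal.ofReal_natCast]
        exact ENNReal.ofReal_le_ofReal hc
    _ = ENNReal.ofReal K * (1 + ∫⁻ e, ENNReal.ofReal (diam (sh e) ^ 4) ∂ν) := by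
        rw [lintegral_const_mul' _ _ ENNReal.ofReal_ne_top, lintegral_add_left measurable_const,
          lintegral_const, measure_univ, mul_one]
    _ = _ := by
        rw [ENNReal.ofReal_mul hK, ENNReal.ofReal_add zero_le_one ENNReal.toReal_nonneg,
          ENNReal.ofReal_one, ENNReal.ofReal_toReal hS.moment.ne]

theorem mass_hit (hS : IsShape ν sh) : ∃ C : ℝ, 0 < C ∧ ∀ (j : ℕ) (x : Plane) (ρ : ℝ), 0 ≤ ρ →
    ∑' v : ℤ × ℤ, ν {e | (lp sh ((j, v), e) ∩ closedBall x ρ).Nonempty} ≤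
      ENNReal.ofReal (C * (1 + 2 ^ j * ρ) ^ 2) := by
  obtain ⟨m, hm⟩ : ∃ m : ℝ, m = (∫⁻ e, ENNReal.ofReal (diam (sh e) ^ 4) ∂ν).toReal := ⟨_, rfl⟩
  have hm0 : 0 ≤ m := by
    rw [hm]
    exact ENNReal.toReal_nonneg
  refine ⟨26 * (1 + m), by positivity, ?_⟩
  intro j x ρ hρ
  have hR : 0 ≤ 2 ^ j * ρ := by positivity
  obtain ⟨R, hRd⟩ : ∃ R : ℝ, R = 2 ^ j * ρ := ⟨_, rfl⟩
  rw [← hRd] at hR
  have h1 := CM_main hS (P := fun v e => (lp sh ((j, v), e) ∩ closedBall x ρ).Nonempty)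
    (fun v => meas_hit (rk_lp hS (j, v)) x ρ) (K := 26 * (1 + R) ^ 2) (by positivity)
    (fun e => by
      have hD : 0 ≤ diam (sh e) := diam_nonneg
      obtain ⟨F, hF, hc⟩ := CM_box (2 ^ j * x.1) (2 ^ j * x.2) (M := R + diam (sh e) + 1)
        (by positivity)
      refine ⟨F, fun v hv => ?_, hc.trans ?_⟩
      · have h2 := CM_hit hS hv
        rw [← hRd] at h2
        exact hF v h2.1 h2.2
      · obtain ⟨D, hDd⟩ : ∃ D : ℝ, D = diam (sh e) := ⟨_, rfl⟩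
        rw [← hDd] at hD ⊢
        have e1 : 2 * (R + D + 1) + 1 ≤ (1 + R) * (3 + 2 * D) := by nlinarith [mul_nonneg hR hD]
        have e2 : (2 * (R + D + 1) + 1) ^ 2 ≤ ((1 + R) * (3 + 2 * D)) ^ 2 :=
          pow_le_pow_left₀ (by positivity) e1 2
        have e3 : (3 + 2 * D) ^ 2 ≤ 26 * (1 + D ^ 4) := by
          nlinarith [sq_nonneg (D - 1), sq_nonneg (D ^ 2 - 1), sq_nonneg D]
        calc (2 * (R + D + 1) + 1) ^ 2 ≤ ((1 + R) * (3 + 2 * D)) ^ 2 := e2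
          _ = (1 + R) ^ 2 * (3 + 2 * D) ^ 2 := by ring
          _ ≤ (1 + R) ^ 2 * (26 * (1 + D ^ 4)) := mul_le_mul_of_nonneg_left e3 (by positivity)
          _ = 26 * (1 + R) ^ 2 * (1 + D ^ 4) := by ring)
  rw [← hm] at h1
  refine h1.trans (ENNReal.ofReal_le_ofReal ?_)
  rw [← hRd]
  apply le_of_eq
  ring

omit [MeasurableSpace E] in
private theorem CM_diam (sh : E → Set Plane) (j : ℕ) (v : ℤ × ℤ) (e : E) :
    diam (lp sh ((j, v), e)) ≤ (1 / 2) ^ j * diam (sh e) ∨ ¬ Bornology.IsBounded (sh e) := by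
  by_cases hb : Bornology.IsBounded (sh e)
  · left
    apply diam_le_of_forall_dist_le (by positivity)
    rintro _ ⟨a, ha, rfl⟩ _ ⟨b, hb', rfl⟩
    rw [dist_pos]
    exact mul_le_mul_of_nonneg_left (dist_le_diam_of_mem hb ha hb') (side_pos (j, v)).le
  · exact Or.inr hb

theorem mass_big (hS : IsShape ν sh) : ∃ C : ℝ, 0 < C ∧ ∀ (j : ℕ) (x : Plane) (ρ : ℝ), 0 < ρ →
    ∑' v : ℤ × ℤ, ν {e | (lp sh ((j, v), e) ∩ closedBall x ρ).Nonempty ∧
      ρ ≤ 64 * diam (lp sh ((j, v), e))} ≤ ENNReal.ofReal (C / (2 ^ j * ρ) ^ 2) := by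
  obtain ⟨m, hm⟩ : ∃ m : ℝ, m = (∫⁻ e, ENNReal.ofReal (diam (sh e) ^ 4) ∂ν).toReal := ⟨_, rfl⟩
  have hm0 : 0 ≤ m := by
    rw [hm]
    exact ENNReal.toReal_nonneg
  refine ⟨((322 * 64) ^ 2 + 58) * (1 + m), by positivity, ?_⟩
  intro j x ρ hρ
  have hR : 0 < 2 ^ j * ρ := by positivity
  obtain ⟨R, hRd⟩ : ∃ R : ℝ, R = 2 ^ j * ρ := ⟨_, rfl⟩
  rw [← hRd] at hR ⊢
  have h1 := CM_main hS (P := fun v e => (lp sh ((j, v), e) ∩ closedBall x ρ).Nonempty ∧
      ρ ≤ 64 * diam (lp sh ((j, v), e)))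
    (fun v => by
      have h2 := meas_diam (rk_lp hS (j, v)) (ρ / 64)
      have h3 : {ω | ρ / 64 ≤ diam (lp sh ((j, v), ω))} =
          {e | ρ ≤ 64 * diam (lp sh ((j, v), e))} := by
        ext e
        constructor
        · intro (h4 : ρ / 64 ≤ diam (lp sh ((j, v), e)))
          change ρ ≤ 64 * diam (lp sh ((j, v), e))
          linarith
        · intro (h4 : ρ ≤ 64 * diam (lp sh ((j, v), e)))
          change ρ / 64 ≤ diam (lp sh ((j, v), e))
          linarith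
      rw [h3] at h2
      exact (meas_hit (rk_lp hS (j, v)) x ρ).inter h2)
    (K := ((322 * 64) ^ 2 + 58) / R ^ 2) (by positivity)
    (fun e => by
      have hD : 0 ≤ diam (sh e) := diam_nonneg
      by_cases hRD : R ≤ 64 * diam (sh e)
      · obtain ⟨F, hF, hc⟩ := CM_box (2 ^ j * x.1) (2 ^ j * x.2) (M := R + diam (sh e) + 1)
          (by positivity)
        refine ⟨F, fun v hv => ?_, hc.trans ?_⟩
        · have h2 := CM_hit hS hv.1
          rw [← hRd] at h2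
          exact hF v h2.1 h2.2
        · obtain ⟨D, hDd⟩ : ∃ D : ℝ, D = diam (sh e) := ⟨_, rfl⟩
          rw [← hDd] at hD hRD ⊢
          rw [div_mul_eq_mul_div, le_div_iff₀ (by positivity)]
          rcases le_total 1 R with h3 | h3
          · have e1 : 2 * (R + D + 1) + 1 ≤ 322 * D := by linarith
            have e2 : (2 * (R + D + 1) + 1) ^ 2 ≤ (322 * D) ^ 2 :=
              pow_le_pow_left₀ (by positivity) e1 2
            have e3 : R ^ 2 ≤ (64 * D) ^ 2 := pow_le_pow_left₀ hR.le hRD 2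
            calc (2 * (R + D + 1) + 1) ^ 2 * R ^ 2 ≤ (322 * D) ^ 2 * (64 * D) ^ 2 :=
                  mul_le_mul e2 e3 (by positivity) (by positivity)
              _ = (322 * 64) ^ 2 * D ^ 4 := by ring
              _ ≤ ((322 * 64) ^ 2 + 58) * (1 + D ^ 4) := by nlinarith [sq_nonneg (D ^ 2)]
          · have e1 : 2 * (R + D + 1) + 1 ≤ 5 + 2 * D := by linarith
            have e2 : (2 * (R + D + 1) + 1) ^ 2 ≤ (5 + 2 * D) ^ 2 :=
              pow_le_pow_left₀ (by positivity) e1 2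
            have e3 : R ^ 2 ≤ 1 := by nlinarith
            have e4 : (5 + 2 * D) ^ 2 ≤ 58 + 8 * D ^ 4 := by
              nlinarith [sq_nonneg (2 * D - 5), sq_nonneg (D ^ 2 - 1), sq_nonneg D]
            calc (2 * (R + D + 1) + 1) ^ 2 * R ^ 2 ≤ (5 + 2 * D) ^ 2 * 1 :=
                  mul_le_mul e2 e3 (by positivity) (by positivity)
              _ ≤ 58 + 8 * D ^ 4 := by linarith
              _ ≤ ((322 * 64) ^ 2 + 58) * (1 + D ^ 4) := by nlinarith [sq_nonneg (D ^ 2)]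
      · refine ⟨∅, fun v hv => ?_, ?_⟩
        · exfalso
          apply hRD
          rcases CM_diam sh j v e with h3 | h3
          · have h4 := hv.2
            have h5 : (2 : ℝ) ^ j * ρ ≤ 2 ^ j * (64 * ((1 / 2) ^ j * diam (sh e))) :=
              mul_le_mul_of_nonneg_left (h4.trans (by linarith)) (by positivity)
            rw [hRd]
            have h6 : (2 : ℝ) ^ j * (64 * ((1 / 2) ^ j * diam (sh e))) =
                64 * diam (sh e) := by
              linear_combination 64 * diam (sh e) * CM_two j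
            linarith
          · exact absurd (hS.compact e).isBounded h3
        · rw [Finset.card_empty, Nat.cast_zero]
          positivity)
  rw [← hm] at h1
  refine h1.trans (ENNReal.ofReal_le_ofReal ?_)
  apply le_of_eq
  ring

theorem hh_mono (ν : Measure E) (sh : E → Set Plane) {s t : ℝ} (h : s ≤ t) :
    hh ν sh s ≤ hh ν sh t := by
  unfold hh
  refine iSup_mono fun x => ENNReal.tsum_le_tsum fun v => measure_mono ?_
  intro e he
  exact he.mono (inter_subset_inter_right _ (closedBall_subset_closedBall h))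

theorem hh_lt_top (hS : IsShape ν sh) (t : ℝ) : hh ν sh t < ⊤ := by
  obtain ⟨C, -, hC⟩ := mass_hit hS
  refine (hh_mono ν sh (le_max_left t 0)).trans_lt ?_
  have h1 : hh ν sh (max t 0) ≤ ENNReal.ofReal (C * (1 + 2 ^ 0 * max t 0) ^ 2) := by
    unfold hh
    exact iSup_le fun x => hC 0 x (max t 0) (le_max_right _ _)
  exact h1.trans_lt ENNReal.ofReal_lt_top

theorem hit_scale (ν : Measure E) (sh : E → Set Plane) (j : ℕ) (x : Plane) (ρ : ℝ) :
    ∑' v : ℤ × ℤ, ν {e | (lp sh ((j, v), e) ∩ closedBall x ρ).Nonempty} ≤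
      hh ν sh (2 ^ j * ρ) := by
  unfold hh
  refine le_trans (ENNReal.tsum_le_tsum fun v => measure_mono ?_)
    (le_iSup (fun y : Plane => ∑' v : ℤ × ℤ,
      ν {e | (lp sh ((0, v), e) ∩ closedBall y (2 ^ j * ρ)).Nonempty})
      (2 ^ j * x.1, 2 ^ j * x.2))
  rintro e ⟨_, ⟨a, ha, rfl⟩, hb⟩
  rw [mem_closedBall, Prod.dist_eq, max_le_iff, Real.dist_eq, Real.dist_eq] at hb
  have k1 : |(v.1 : ℝ) + a.1 - 2 ^ j * x.1| ≤ 2 ^ j * ρ := CM_coord hb.1
  have k2 : |(v.2 : ℝ) + a.2 - 2 ^ j * x.2| ≤ 2 ^ j * ρ := CM_coord hb.2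
  refine ⟨Pool.Agent.Helper16.CD.pos (0, v) a, ⟨a, ha, rfl⟩, ?_⟩
  rw [mem_closedBall, Prod.dist_eq, max_le_iff, Real.dist_eq, Real.dist_eq]
  have e0 : side (0, v) = 1 := by simp [side]
  have e1 : (Pool.Agent.Helper16.CD.pos (0, v) a).1 = (v.1 : ℝ) + a.1 := by
    unfold pos
    simp only [e0, one_mul]
  have e2 : (Pool.Agent.Helper16.CD.pos (0, v) a).2 = (v.2 : ℝ) + a.2 := by
    unfold pos
    simp only [e0, one_mul]
  rw [e1, e2]
  exact ⟨k1, k2⟩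

end Pool.Agent.Helper16.CD
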