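import Pool.Agent.Helper16.CD.CDefs
import Pool.Agent.Helper16.CD.CM
import Pool.Agent.Helper3.CD.First

/-!
# CD-C1: scaling of crossings and removal of the coarsest level

`measR_CrR`: as for `ChR` (Helper22/CD/M3, MMain: measurability of walk, `meas_hit`, `meas_subset_open`).
`cp_scale`: `Helper22/CD/Inv2`: `prob_sft` with `V = (k, 0, 0)`, `pos V z = side V • z`, `side V = 2^-k`:
`CrR sh k K x ρ (l.map (sp V)) ↔ CrR sh 0 K (2^k x) (2^k ρ) l`.
`crossing_head` (deterministic): a walk with `CrR sh k K x ρ l` contains a walk `l'` (a segment of `l`, possibly reversed, or the segment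
between an element meeting `closedBall x ρ` and an element with a point outside `ball x (2ρ)`) with `CrR sh k K x ρ l'` such that every loop of
`l'` meets `closedBall x (2ρ)`, and all loops of `l'` except possibly the last one are inside `ball x (2ρ)`, the first one meets `closedBall x ρ`.
Proof: choose indices `a, b` with the loop at `a` meeting `closedBall x ρ` and the loop at `b` not inside `ball x (2ρ)`, with `|a - b|` minimal
and then orient the segment from `a` to `b`; by minimality the loops strictly before `b` are inside `ball x (2ρ)`; the last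
one meets the previous one, or is the first and meets `closedBall x ρ`.
`cp_step1`: if no loop of level `0` meets `closedBall x (2ρ)` then the walk `l'` has levels `≥ 1`.
`P(some loop of level 0 meets closedBall x (2ρ)) ≤ r C (1 + 2ρ)²` (`prob_exists_le`, `mass_hit` with `j = 0`).
-/

set_option autoImplicit false

namespace Pool.Agent.Helper16.CD

open MeasureTheory ProbabilityTheory Metric Set
open scoped ENNReal NNReal
open Pool.Agent.Helper3.CD Pool.Agent.Helper22.CD

variable {E : Type} [MeasurableSpace E] {ν : Measure E} {sh : E → Set Plane}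

private theorem C1_nil {n : ℕ} {R : List (Idx × E) → Prop} (hR : ∀ l, R l → l ≠ [])
    (c : Fin n → Idx) (hn : n = 0) :
    MeasurableSet {e : Fin n → E | R (List.ofFn fun t => (c t, e t))} := by
  subst hn
  have : {e : Fin 0 → E | R (List.ofFn fun t => (c t, e t))} = ∅ := by
    ext e
    simp only [mem_ofPred_eq, mem_empty_iff_false, iff_false]
    intro hR'
    exact hR _ hR' (by simp)
  rw [this]
  exact MeasurableSet.empty

theorem measR_CrR (hS : IsShape ν sh) (k K : ℕ) (x : Plane) (ρ : ℝ) :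
    MeasR (CrR sh k K x ρ) := by
  intro n c
  rcases Nat.eq_zero_or_pos n with hn | hn
  · exact C1_nil (fun l hl => hl.1) c hn
  · have hU := rk_un hS hn c
    have hne : ∀ e : Fin n → E, (List.ofFn fun t => (c t, e t)) ≠ [] := by
      intro e he
      have := congrArg List.length he
      simp at this
      omega
    have h2 : {e : Fin n → E | CrR sh k K x ρ (List.ofFn fun t => (c t, e t))} =
        ({e : Fin n → E | Walk sh (List.ofFn fun t => (c t, e t))} ∩
          {_e : Fin n → E | ∀ t, k ≤ (c t).1 ∧ (c t).1 < k + K}) ∩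
        ({e : Fin n → E | (un sh (List.ofFn fun t => (c t, e t)) ∩ closedBall x ρ).Nonempty} ∩
          {e : Fin n → E | un sh (List.ofFn fun t => (c t, e t)) ⊆
            thickening (2 * ρ) {x}}ᶜ) := by
      ext e
      simp only [CrR, mem_ofPred_eq, mem_inter_iff, List.mem_ofFn, forall_exists_index,
        forall_apply_eq_imp_iff, mem_compl_iff, thickening_singleton]
      constructor
      · rintro ⟨-, a1, a2, a3, a4⟩
        exact ⟨⟨a1, a2⟩, a3, a4⟩
      · rintro ⟨⟨a1, a2⟩, a3, a4⟩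
        exact ⟨hne e, a1, a2, a3, a4⟩
    rw [h2]
    exact ((meas_walk hS c).inter (MeasurableSet.const _)).inter
      ((meas_hit hU x ρ).inter (meas_subset_open hU (singleton_nonempty _) _).compl)

private theorem C1_ball (V : Idx) (x : Plane) (R : ℝ) :
    Pool.Agent.Helper16.CD.pos V '' ball x R =
      ball (Pool.Agent.Helper16.CD.pos V x) (side V * R) := by
  ext z
  obtain ⟨y, rfl⟩ := pos_surj V z
  rw [(pos_inj V).mem_set_image, mem_ball, mem_ball, Helper22.CD.dist_pos,
    mul_lt_mul_iff_right₀ (Helper22.CD.side_pos V)]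

omit [MeasurableSpace E] in
private theorem C1_sp (sh : E → Set Plane) (k K : ℕ) (x : Plane) (ρ : ℝ)
    (l : List (Idx × E)) :
    CrR sh k K x ρ (l.map (sp (k, 0, 0))) ↔ CrR sh 0 K ((2 : ℝ) ^ k • x) (2 ^ k * ρ) l := by
  have hs : side ((k, 0, 0) : Idx) * 2 ^ k = 1 := by
    unfold side
    rw [← mul_pow]
    norm_num
  have hx : x = Pool.Agent.Helper16.CD.pos ((k, 0, 0) : Idx) ((2 : ℝ) ^ k • x) := by
    unfold Pool.Agent.Helper16.CD.pos
    ext
    · simp only [Prod.smul_fst, smul_eq_mul, Int.cast_zero, zero_add]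
      rw [← mul_assoc, hs, one_mul]
    · simp only [Prod.smul_snd, smul_eq_mul, Int.cast_zero, zero_add]
      rw [← mul_assoc, hs, one_mul]
  have hc : closedBall x ρ = Pool.Agent.Helper16.CD.pos ((k, 0, 0) : Idx) ''
      closedBall ((2 : ℝ) ^ k • x) (2 ^ k * ρ) := by
    rw [image_closedBall, ← hx, ← mul_assoc, hs, one_mul]
  have hb : ball x (2 * ρ) = Pool.Agent.Helper16.CD.pos ((k, 0, 0) : Idx) ''
      ball ((2 : ℝ) ^ k • x) (2 * (2 ^ k * ρ)) := by
    rw [C1_ball, ← hx]
    congr 1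
    linear_combination (-(2 * ρ)) * hs
  have hl : (∀ p ∈ l.map (sp ((k, 0, 0) : Idx)), k ≤ p.1.1 ∧ p.1.1 < k + K) ↔
      ∀ p ∈ l, 0 ≤ p.1.1 ∧ p.1.1 < 0 + K := by
    rw [List.forall_mem_map]
    refine forall_congr' fun p => forall_congr' fun _ => ?_
    have : (sp ((k, 0, 0) : Idx) p).1.1 = k + p.1.1 := rfl
    rw [this]
    omega
  unfold CrR
  rw [walk_sp, hl, un_sp, hc, hb, ← image_inter (pos_inj _), image_nonempty,
    image_subset_image_iff (pos_inj _)]
  simp only [ne_eq, List.map_eq_nil_iff]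

theorem cp_scale (hS : IsShape ν sh) (r : ℝ≥0) (k K : ℕ) (x : Plane) (ρ : ℝ) :
    cp r ν sh k K x ρ = cp r ν sh 0 K ((2 : ℝ) ^ k • x) (2 ^ k * ρ) := by
  have := hS.prob
  unfold cp
  rw [prob_compl_eq_one_sub (measurableSet_Ev _ _ (measR_CrR hS k K x ρ)),
    prob_compl_eq_one_sub (measurableSet_Ev _ _ (measR_CrR hS 0 K _ _)),
    prob_sft r ν (V := ((k, 0, 0) : Idx)) (R := CrR sh 0 K ((2 : ℝ) ^ k • x) (2 ^ k * ρ))
      (R' := CrR sh k K x ρ) (fun l hl p hp => (hl.2.2.1 p hp).1) (C1_sp sh k K x ρ)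
      (measR_CrR hS 0 K _ _)]

omit [MeasurableSpace E] in
private theorem C1_succ {R : Idx × E → Idx × E → Prop} (l : List (Idx × E)) (q : Idx × E)
    (h : List.IsChain R (l ++ [q])) : ∀ p ∈ l, ∃ p', R p p' := by
  induction l with
  | nil => intro p hp; simp at hp
  | cons a l ih =>
    intro p hp
    rcases List.mem_cons.1 hp with rfl | hp
    · rcases l with _ | ⟨b, l⟩
      · rw [List.cons_append, List.nil_append, List.isChain_cons_cons] at h
        exact ⟨_, h.1⟩
      · rw [List.cons_append, List.cons_append, List.isChain_cons_cons] at h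
        exact ⟨_, h.1⟩
    · refine ih ?_ p hp
      have := h.tail
      simpa using this

omit [MeasurableSpace E] in
private theorem C1_last {R : Idx × E → Idx × E → Prop} {l : List (Idx × E)} {q : Idx × E}
    (hl : l ≠ []) (h : List.IsChain R (l ++ [q])) : ∃ p ∈ l, R p q := by
  rw [List.isChain_append] at h
  refine ⟨l.getLast hl, List.getLast_mem hl, ?_⟩
  exact h.2.2 _ (by rw [List.getLast?_eq_getLast_of_ne_nil hl]; rfl) _ (by simp)

/-- the property for which a shortest list is taken -/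
private def C1_Q (sh : E → Set Plane) (x : Plane) (ρ : ℝ) (l m : List (Idx × E)) : Prop :=
  (∀ p ∈ m, p ∈ l) ∧ Walk sh m ∧ (∃ p ∈ m, (lp sh p ∩ closedBall x ρ).Nonempty) ∧
    ∃ p ∈ m, ¬ lp sh p ⊆ ball x (2 * ρ)

theorem crossing_head {k K : ℕ} {x : Plane} {ρ : ℝ} (hρ : 0 < ρ) {l : List (Idx × E)}
    (hl : CrR sh k K x ρ l) : ∃ (l' : List (Idx × E)) (q : Idx × E), (∀ p ∈ l' ++ [q], p ∈ l) ∧
      CrR sh k K x ρ (l' ++ [q]) ∧ (∀ p ∈ l', lp sh p ⊆ ball x (2 * ρ)) ∧
      ¬ lp sh q ⊆ ball x (2 * ρ) ∧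
      (∀ p, (l' ++ [q]).head? = some p → (lp sh p ∩ closedBall x ρ).Nonempty) ∧
      (∀ p ∈ l' ++ [q], (lp sh p ∩ closedBall x (2 * ρ)).Nonempty) := by
  classical
  obtain ⟨hne, hw, hlev, hA, hB⟩ := hl
  have hsub2 : closedBall x ρ ⊆ closedBall x (2 * ρ) := closedBall_subset_closedBall (by linarith)
  have hQl : C1_Q sh x ρ l l := by
    refine ⟨fun p hp => hp, hw, ?_, ?_⟩
    · obtain ⟨z, hz, hzx⟩ := hA
      obtain ⟨p, hp, hzp⟩ := mem_iUnion₂.1 hz
      exact ⟨p, hp, z, hzp, hzx⟩
    · by_contra hc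
      push Not at hc
      exact hB (iUnion₂_subset hc)
  -- it suffices to find a suitable list
  suffices h : ∃ (l' : List (Idx × E)) (q : Idx × E), (∀ p ∈ l' ++ [q], p ∈ l) ∧
      Walk sh (l' ++ [q]) ∧ (∀ p ∈ l', lp sh p ⊆ ball x (2 * ρ)) ∧
      ¬ lp sh q ⊆ ball x (2 * ρ) ∧
      (∀ p, (l' ++ [q]).head? = some p → (lp sh p ∩ closedBall x ρ).Nonempty) by
    obtain ⟨l', q, h1, h2, h3, h4, h5⟩ := h
    refine ⟨l', q, h1, ⟨by simp, h2, fun p hp => hlev p (h1 p hp), ?_, ?_⟩, h3, h4, h5, ?_⟩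
    · rcases hh : (l' ++ [q]).head? with _ | p
      · simp at hh
      · obtain ⟨z, hz, hzx⟩ := h5 p hh
        have hp : p ∈ l' ++ [q] := List.mem_of_mem_head? hh
        exact ⟨z, mem_iUnion₂.2 ⟨p, hp, hz⟩, hzx⟩
    · intro hc
      exact h4 (fun z hz => hc (mem_iUnion₂.2 ⟨q, by simp, hz⟩))
    · intro p hp
      rcases List.mem_append.1 hp with hp | hp
      · obtain ⟨p', z, hz, -⟩ := C1_succ l' q h2 p hp
        exact ⟨z, hz, ball_subset_closedBall (h3 p hp hz)⟩
      · rw [List.mem_singleton] at hp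
        subst hp
        by_cases hl' : l' = []
        · subst hl'
          obtain ⟨z, hz, hzx⟩ := h5 p (by simp)
          exact ⟨z, hz, hsub2 hzx⟩
        · obtain ⟨p', hp', z, hz', hz⟩ := C1_last hl' h2
          exact ⟨z, hz, ball_subset_closedBall (h3 p' hp' hz')⟩
  -- a shortest list
  have hex : ∃ n, ∃ m : List (Idx × E), m.length = n ∧ C1_Q sh x ρ l m := ⟨_, l, rfl, hQl⟩
  obtain ⟨m, hmlen, hm⟩ := Nat.find_spec hex
  have hmin : ∀ m' : List (Idx × E), C1_Q sh x ρ l m' → m.length ≤ m'.length := by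
    intro m' hm'
    rw [hmlen]
    exact Nat.find_min' hex ⟨m', rfl, hm'⟩
  obtain ⟨hm1, hm2, ⟨pa, hpa, hpa'⟩, ⟨pb, hpb, hpb'⟩⟩ := hm
  rcases List.eq_nil_or_concat m with rfl | ⟨m0, z, rfl⟩
  · simp at hpa
  rcases m0 with _ | ⟨h, mid⟩
  · -- one element
    simp only [List.concat_eq_append, List.nil_append, List.mem_singleton] at hpa hpb hm1
    subst hpa
    subst hpb
    refine ⟨[], pb, ?_, ?_, ?_, hpb', ?_⟩
    · intro p hp
      simp only [List.nil_append, List.mem_singleton] at hp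
      exact hm1 p hp
    · simp [Walk]
    · intro p hp
      simp at hp
    · intro p hp
      simp only [List.nil_append, List.head?_cons, Option.some.injEq] at hp
      rw [← hp]
      exact hpa'
  · -- two or more elements
    simp only [List.concat_eq_append] at *
    have htail : Walk sh (mid ++ [z]) := by
      have h9 := hm2.tail
      rw [List.cons_append, List.tail_cons] at h9
      exact h9
    have hinit : Walk sh (h :: mid) := hm2.left_of_append
    have hT : ¬ C1_Q sh x ρ l (mid ++ [z]) := by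
      intro hc
      have := hmin _ hc
      simp at this
    have hI : ¬ C1_Q sh x ρ l (h :: mid) := by
      intro hc
      have := hmin _ hc
      simp at this
    have hT' : (∀ p ∈ mid ++ [z], ¬ (lp sh p ∩ closedBall x ρ).Nonempty) ∨
        ∀ p ∈ mid ++ [z], lp sh p ⊆ ball x (2 * ρ) := by
      by_contra hc
      push Not at hc
      obtain ⟨⟨p, hp, hp'⟩, ⟨p2, hp2, hp2'⟩⟩ := hc
      refine hT ⟨fun p hp => hm1 p ?_, htail, ⟨p, hp, hp'⟩, ⟨p2, hp2, hp2'⟩⟩
      rw [List.cons_append]
      exact List.mem_cons_of_mem _ hp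
    have hI' : (∀ p ∈ h :: mid, ¬ (lp sh p ∩ closedBall x ρ).Nonempty) ∨
        ∀ p ∈ h :: mid, lp sh p ⊆ ball x (2 * ρ) := by
      by_contra hc
      push Not at hc
      obtain ⟨⟨p, hp, hp'⟩, ⟨p2, hp2, hp2'⟩⟩ := hc
      exact hI ⟨fun p hp => hm1 p (List.mem_append_left _ hp), hinit, ⟨p, hp, hp'⟩,
        ⟨p2, hp2, hp2'⟩⟩
    -- head or last
    have hhead : ∀ P : Idx × E → Prop, (∃ p ∈ h :: mid ++ [z], P p) →
        (∀ p ∈ mid ++ [z], ¬ P p) → P h := by
      rintro P ⟨p, hp, hP⟩ hn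
      rw [List.cons_append] at hp
      rcases List.mem_cons.1 hp with rfl | hp
      · exact hP
      · exact absurd hP (hn p hp)
    have hlast : ∀ P : Idx × E → Prop, (∃ p ∈ h :: mid ++ [z], P p) →
        (∀ p ∈ h :: mid, ¬ P p) → P z := by
      rintro P ⟨p, hp, hP⟩ hn
      rcases List.mem_append.1 hp with hp | hp
      · exact absurd hP (hn p hp)
      · rw [List.mem_singleton] at hp
        rw [← hp]
        exact hP
    rcases hT' with hT' | hT'
    · -- the head meets the small ball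
      have hhA := hhead (fun p => (lp sh p ∩ closedBall x ρ).Nonempty) ⟨pa, hpa, hpa'⟩ hT'
      rcases hI' with hI' | hI'
      · exact absurd hhA (hI' h (List.mem_cons_self ..))
      · have hzB := hlast (fun p => ¬ lp sh p ⊆ ball x (2 * ρ)) ⟨pb, hpb, hpb'⟩
          (fun p hp hc => hc (hI' p hp))
        refine ⟨h :: mid, z, hm1, hm2, hI', hzB, ?_⟩
        intro p hp
        simp only [List.cons_append, List.head?_cons, Option.some.injEq] at hp
        rw [← hp]
        exact hhA
    · -- the head leaves the large ball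
      have hhB := hhead (fun p => ¬ lp sh p ⊆ ball x (2 * ρ)) ⟨pb, hpb, hpb'⟩
        (fun p hp hc => hc (hT' p hp))
      rcases hI' with hI' | hI'
      · have hzA := hlast (fun p => (lp sh p ∩ closedBall x ρ).Nonempty) ⟨pa, hpa, hpa'⟩ hI'
        have hrev : (h :: mid ++ [z]).reverse = z :: mid.reverse ++ [h] := by simp
        refine ⟨z :: mid.reverse, h, ?_, ?_, ?_, hhB, ?_⟩
        · intro p hp
          rw [← hrev] at hp
          exact hm1 p (List.mem_reverse.1 hp)
        · rw [← hrev]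
          unfold Walk
          rw [List.isChain_reverse]
          have h6 : (fun p q : Idx × E => (lp sh q ∩ lp sh p).Nonempty) =
              fun p q => (lp sh p ∩ lp sh q).Nonempty := by
            funext p q
            rw [inter_comm]
          change List.IsChain (fun p q : Idx × E => (lp sh q ∩ lp sh p).Nonempty) _
          rw [h6]
          exact hm2
        · intro p hp
          refine hT' p ?_
          rcases List.mem_cons.1 hp with rfl | hp
          · simp
          · exact List.mem_append_left _ (List.mem_reverse.1 hp)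
        · intro p hp
          simp only [List.cons_append, List.head?_cons, Option.some.injEq] at hp
          rw [← hp]
          exact hzA
      · exact absurd (hI' h (List.mem_cons_self ..)) hhB

theorem cp_step1 (hS : IsShape ν sh) : ∃ C : ℝ, 0 < C ∧ ∀ (r : ℝ≥0) (K : ℕ) (x : Plane) (ρ : ℝ),
    0 < ρ → cp r ν sh 0 (K + 1) x ρ ≤
      ENNReal.ofReal (C * r * (1 + ρ) ^ 2) + cp r ν sh 1 K x ρ := by
  classical
  have := hS.prob
  obtain ⟨C, hC, hmass⟩ := mass_hit hS
  refine ⟨4 * C, by positivity, fun r K x ρ hρ => ?_⟩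
  set T : Idx → Set E := fun i => if i.1 = 0 then
    {e | (lp sh (i, e) ∩ closedBall x (2 * ρ)).Nonempty} else ∅ with hT
  have hTm : ∀ i, MeasurableSet (T i) := by
    intro i
    simp only [hT]
    split_ifs
    · exact meas_hit (rk_lp hS i) x (2 * ρ)
    · exact MeasurableSet.empty
  have hsub : (Ev univ (CrR sh 0 (K + 1) x ρ))ᶜ ⊆
      {w : Conf E | ∃ p ∈ Sp w, p.2 ∈ T p.1} ∪ (Ev univ (CrR sh 1 K x ρ))ᶜ := by
    intro w hw
    have hw' : ∃ l : List (Idx × E), (∀ p ∈ l, p ∈ Sp w ∧ p.1 ∈ (univ : Set Idx)) ∧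
        CrR sh 0 (K + 1) x ρ l := by
      by_contra hc
      push Not at hc
      exact hw hc
    obtain ⟨l, hl, hR⟩ := hw'
    obtain ⟨l', q, h1, h2, h3, h4, h5, h6⟩ := crossing_head hρ hR
    by_cases h0 : ∃ p ∈ l' ++ [q], p.1.1 = 0
    · obtain ⟨p, hp, hp0⟩ := h0
      refine Or.inl ⟨p, (hl p (h1 p hp)).1, ?_⟩
      simp only [hT]
      rw [if_pos hp0]
      exact h6 p hp
    · push Not at h0
      refine Or.inr fun hc => hc (l' ++ [q]) (fun p hp => hl p (h1 p hp)) ?_
      obtain ⟨a1, a2, a3, a4, a5⟩ := h2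
      refine ⟨a1, a2, fun p hp => ?_, a4, a5⟩
      have h7 := a3 p hp
      have h8 := h0 p hp
      omega
  unfold cp
  refine (measure_mono hsub).trans ((measure_union_le _ _).trans ?_)
  refine add_le_add ?_ le_rfl
  have h7 : law r ν {w : Conf E | ∃ p ∈ Sp w, p.2 ∈ T p.1} ≤
      ∑' i : Idx, (r : ℝ≥0∞) * ν (T i) := by
    unfold law
    exact prob_exists_le (fun _ : Idx => r) (fun _ => ν) T hTm
  refine h7.trans ?_
  have hprod : ∑' i : Idx, ν (T i) = ∑' (k : ℕ) (v : ℤ × ℤ), ν (T (k, v)) :=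
    ENNReal.tsum_prod (f := fun k v => ν (T (k, v)))
  rw [ENNReal.tsum_mul_left, hprod, tsum_eq_single 0]
  · have h8 : ∑' v : ℤ × ℤ, ν (T (0, v)) =
        ∑' v : ℤ × ℤ, ν {e | (lp sh ((0, v), e) ∩ closedBall x (2 * ρ)).Nonempty} := by
      refine tsum_congr fun v => ?_
      simp only [hT, if_true]
    rw [h8]
    have h9 := hmass 0 x (2 * ρ) (by positivity)
    rw [pow_zero, one_mul] at h9
    calc (r : ℝ≥0∞) * ∑' v : ℤ × ℤ,
          ν {e | (lp sh ((0, v), e) ∩ closedBall x (2 * ρ)).Nonempty}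
        ≤ (r : ℝ≥0∞) * ENNReal.ofReal (C * (1 + 2 * ρ) ^ 2) := by gcongr
      _ = ENNReal.ofReal (r * (C * (1 + 2 * ρ) ^ 2)) := by
          rw [ENNReal.ofReal_mul (NNReal.coe_nonneg r), ENNReal.ofReal_coe_nnreal]
      _ ≤ ENNReal.ofReal (4 * C * r * (1 + ρ) ^ 2) := by
          refine ENNReal.ofReal_le_ofReal ?_
          have hr : (0 : ℝ) ≤ r := NNReal.coe_nonneg r
          have h10 : (1 + 2 * ρ) ^ 2 ≤ 4 * (1 + ρ) ^ 2 := by nlinarith
          calc (r : ℝ) * (C * (1 + 2 * ρ) ^ 2) ≤ r * (C * (4 * (1 + ρ) ^ 2)) := by gcongr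
            _ = _ := by ring
  · intro k hk
    refine ENNReal.tsum_eq_zero.2 fun v => ?_
    simp only [hT]
    rw [if_neg hk, measure_empty]

end Pool.Agent.Helper16.CD
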