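import Pool.Agent.Helper16.CD.C1

/-!
# CD-C2: splitting a crossing into two crossings of smaller squares (deterministic)

`ρ ≥ 64`, levels `≥ 0`, so the cells have side `≤ 1 ≤ ρ/64`.  Suppose no loop of the walk that meets `closedBall x (2ρ)` has diameter `≥ ρ/32`.
Take `l' ++ [q]` from `crossing_head` and write it `p_0, ..., p_m` (`p_m = q`): every loop has diameter `< ρ/32`, `p_0` meets
`closedBall x ρ`, `p_m` is not inside `ball x (2ρ)`, the others are.
Inner part: let `i₁` be the first index such that the loop `p_{i₁}` is not inside `ball x (9ρ/8)`; `l₁ = p_0, ..., p_{i₁}`.  All its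
loops are inside `ball x (9ρ/8 + ρ/32)`, their cells (side `≤ ρ/64`, the loop meets its cell, `lp_meets_cell`) are inside `ball x (3ρ/2)`.  Let
`y₀ ∈ p_0 ∩ closedBall x ρ`; some point of `un l₁` has distance `≥ 9ρ/8` from `x`, so `≥ ρ/8` from `y₀`.  Choose `a`, `|a_i| ≤ 33`, with
`|y₀ - netp x (ρ/32) a| ≤ ρ/32` (rounding).  Then `l₁` is a crossing for `netp x (ρ/32) a`, `ρ/32`: the far point has distance `≥ ρ/8 - ρ/32 ≥ 2 ρ/32`.
Outer part: let `i₃` be the last index `≤ m` such that `p_{i₃}` meets `closedBall x (15ρ/8)` (exists: `p_0`), `l₂ = p_{i₃}, ..., p_m`.  The loops after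
`i₃` miss `closedBall x (15ρ/8)`; `p_{i₃}` meets the next loop (if `i₃ < m`; if `i₃ = m` then `p_m` has a point at distance `≥ 2ρ` and diameter `< ρ/32`, so it
would miss `closedBall x (15ρ/8)`, impossible), so `p_{i₃}` is outside `ball x (15ρ/8 - ρ/32)`; all cells of `l₂` are outside `closedBall x (3ρ/2)`, in particular not
inside `ball x (3ρ/2)`.  Let `y₀' ∈ p_{i₃} ∩ closedBall x (15ρ/8)`; `p_m` has a point at distance `≥ 2ρ` from `x`, so `≥ ρ/8` from `y₀'`.  Choose `a'`,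
`|a'_i| ≤ 65`, with `|y₀' - netp x (ρ/32) a'| ≤ ρ/32`.
-/

set_option autoImplicit false

namespace Pool.Agent.Helper16.CD

open MeasureTheory ProbabilityTheory Metric Set
open scoped ENNReal NNReal
open Pool.Agent.Helper3.CD Pool.Agent.Helper22.CD

variable {E : Type} [MeasurableSpace E] {ν : Measure E} {sh : E → Set Plane}

@[irreducible] private noncomputable def C2_S : Finset (ℤ × ℤ) := (Finset.Icc (-65 : ℤ) 65) ×ˢ (Finset.Icc (-65 : ℤ) 65)

private theorem C2_eqS : (Finset.Icc (-65 : ℤ) 65) ×ˢ (Finset.Icc (-65 : ℤ) 65) = C2_S := by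
  unfold C2_S
  rfl

private theorem C2_memS {a b : ℤ} (h1 : -65 ≤ a) (h2 : a ≤ 65) (h3 : -65 ≤ b) (h4 : b ≤ 65) :
    (a, b) ∈ C2_S := by
  unfold C2_S
  rw [Finset.mem_product, Finset.mem_Icc, Finset.mem_Icc]
  exact ⟨⟨h1, h2⟩, h3, h4⟩

private theorem C2_first {α : Type*} (P : α → Prop) (L : List α) (h : ∃ p ∈ L, P p) :
    ∃ A p B, L = A ++ p :: B ∧ P p ∧ ∀ a ∈ A, ¬ P a := by
  induction L with
  | nil => obtain ⟨p, hp, _⟩ := h; simp at hp
  | cons b L ih =>
    by_cases hb : P b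
    · exact ⟨[], b, L, rfl, hb, by simp⟩
    · have : ∃ p ∈ L, P p := by
        obtain ⟨p, hp, hP⟩ := h
        rcases List.mem_cons.1 hp with rfl | hp
        · exact absurd hP hb
        · exact ⟨p, hp, hP⟩
      obtain ⟨A, p, B, h1, h2, h3⟩ := ih this
      refine ⟨b :: A, p, B, by rw [h1]; rfl, h2, ?_⟩
      intro a ha
      rcases List.mem_cons.1 ha with rfl | ha
      · exact hb
      · exact h3 a ha

private theorem C2_last {α : Type*} (P : α → Prop) (L : List α) (h : ∃ p ∈ L, P p) :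
    ∃ A p B, L = A ++ p :: B ∧ P p ∧ ∀ b ∈ B, ¬ P b := by
  induction L with
  | nil => obtain ⟨p, hp, _⟩ := h; simp at hp
  | cons b L ih =>
    by_cases hL : ∃ p ∈ L, P p
    · obtain ⟨A, p, B, h1, h2, h3⟩ := ih hL
      exact ⟨b :: A, p, B, by rw [h1]; rfl, h2, h3⟩
    · have hb : P b := by
        obtain ⟨p, hp, hP⟩ := h
        rcases List.mem_cons.1 hp with rfl | hp
        · exact hP
        · exact absurd ⟨p, hp, hP⟩ hL
      refine ⟨[], b, L, rfl, hb, ?_⟩
      intro a ha hPa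
      exact hL ⟨a, ha, hPa⟩

private theorem C2_round {x y : Plane} {ρ c : ℝ} (hρ : 0 < ρ) (hc : c ≤ 60 * (ρ / 32))
    (h : dist y x ≤ c) :
    ∃ a ∈ C2_S,
      dist y (netp x (ρ / 32) a) ≤ ρ / 32 := by
  have hδ : 0 < ρ / 32 := by positivity
  rw [Prod.dist_eq, max_le_iff, Real.dist_eq, Real.dist_eq] at h
  have key : ∀ t : ℝ, |t| ≤ c → (-65 : ℤ) ≤ ⌊t / (ρ / 32)⌋ ∧ ⌊t / (ρ / 32)⌋ ≤ (65 : ℤ) ∧
      |t - ρ / 32 * (⌊t / (ρ / 32)⌋ : ℝ)| ≤ ρ / 32 := by
    intro t ht
    rw [abs_le] at ht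
    have h1 : t / (ρ / 32) ≤ 60 := by
      rw [div_le_iff₀ hδ]; linarith
    have h2 : -60 ≤ t / (ρ / 32) := by
      rw [le_div_iff₀ hδ]; linarith
    have hf1 := Int.floor_le (t / (ρ / 32))
    have hf2 := Int.lt_floor_add_one (t / (ρ / 32))
    refine ⟨?_, ?_, ?_⟩
    · have : ((-65 : ℤ) : ℝ) ≤ (⌊t / (ρ / 32)⌋ : ℝ) := by push_cast; linarith
      exact_mod_cast this
    · have : (⌊t / (ρ / 32)⌋ : ℝ) ≤ ((65 : ℤ) : ℝ) := by push_cast; linarith
      exact_mod_cast this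
    · have e : t = ρ / 32 * (t / (ρ / 32)) := by field_simp
      have e2 : t - ρ / 32 * (⌊t / (ρ / 32)⌋ : ℝ) =
          ρ / 32 * (t / (ρ / 32) - (⌊t / (ρ / 32)⌋ : ℝ)) := by
        rw [mul_sub, ← e]
      rw [e2, abs_le]
      constructor <;> nlinarith
  obtain ⟨a1, a2, a3⟩ := key (y.1 - x.1) h.1
  obtain ⟨b1, b2, b3⟩ := key (y.2 - x.2) h.2
  refine ⟨(⌊(y.1 - x.1) / (ρ / 32)⌋, ⌊(y.2 - x.2) / (ρ / 32)⌋), ?_, ?_⟩
  · exact C2_memS a1 a2 b1 b2
  · rw [Prod.dist_eq, max_le_iff, Real.dist_eq, Real.dist_eq]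
    unfold netp
    constructor
    · have : y.1 - (x.1 + ρ / 32 * (⌊(y.1 - x.1) / (ρ / 32)⌋ : ℝ)) =
        y.1 - x.1 - ρ / 32 * (⌊(y.1 - x.1) / (ρ / 32)⌋ : ℝ) := by ring
      simp only [this]
      exact a3
    · have : y.2 - (x.2 + ρ / 32 * (⌊(y.2 - x.2) / (ρ / 32)⌋ : ℝ)) =
        y.2 - x.2 - ρ / 32 * (⌊(y.2 - x.2) / (ρ / 32)⌋ : ℝ) := by ring
      simp only [this]
      exact b3

private theorem C2_cell {i : Idx} {y z : Plane} (hy : y ∈ cell i) (hz : z ∈ cell i) :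
    dist y z ≤ 1 := by
  have hs : side i ≤ 1 := by
    unfold side
    exact pow_le_one₀ (by norm_num) (by norm_num)
  unfold cell big at hy hz
  rw [mem_closedBall] at hy hz
  have := dist_triangle_right y z (ctr i)
  linarith

private theorem C2_bdd (hS : IsShape ν sh) (p : Idx × E) : Bornology.IsBounded (lp sh p) := by
  have hc : Continuous (pos p.1) := by
    unfold pos
    fun_prop
  exact ((hS.compact p.2).image hc).isBounded

private theorem C2_dist (hS : IsShape ν sh) {p : Idx × E} {d : ℝ} (h : diam (lp sh p) < d)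
    {y z : Plane} (hy : y ∈ lp sh p) (hz : z ∈ lp sh p) : dist y z < d :=
  lt_of_le_of_lt (dist_le_diam_of_mem (C2_bdd hS p) hy hz) h

private theorem C2_mem_un {l : List (Idx × E)} {p : Idx × E} (hp : p ∈ l) {y : Plane}
    (hy : y ∈ lp sh p) : y ∈ un sh l := by
  unfold un
  exact mem_biUnion (show p ∈ {q | q ∈ l} from hp) hy

private theorem C2_cross {K : ℕ} {x y w : Plane} {ρ c : ℝ} (hρ : 0 < ρ)
    (hc : c ≤ 60 * (ρ / 32)) {l : List (Idx × E)} (h1 : l ≠ []) (h2 : Walk sh l)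
    (h3 : ∀ p ∈ l, 0 ≤ p.1.1 ∧ p.1.1 < 0 + K) (hy : y ∈ un sh l) (hyx : dist y x ≤ c)
    (hw : w ∈ un sh l) (hwx : c + 3 * (ρ / 32) ≤ dist w x) :
    ∃ a ∈ C2_S,
      CrR sh 0 K (netp x (ρ / 32) a) (ρ / 32) l := by
  obtain ⟨a, ha, had⟩ := C2_round hρ hc hyx
  refine ⟨a, ha, h1, h2, h3, ⟨y, hy, mem_closedBall.2 had⟩, ?_⟩
  intro hsub
  have h := mem_ball.1 (hsub hw)
  have t1 := dist_triangle w (netp x (ρ / 32) a) x
  have t2 := dist_triangle_left (netp x (ρ / 32) a) x y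
  linarith

theorem crossing_split (hS : IsShape ν sh) {K : ℕ} {x : Plane} {ρ : ℝ} (hρ : 64 ≤ ρ)
    {l : List (Idx × E)} (hl : CrR sh 0 K x ρ l)
    (hd : ∀ p ∈ l, (lp sh p ∩ closedBall x (2 * ρ)).Nonempty → diam (lp sh p) < ρ / 32) :
    ∃ a ∈ (Finset.Icc (-65 : ℤ) 65) ×ˢ (Finset.Icc (-65 : ℤ) 65),
      ∃ a' ∈ (Finset.Icc (-65 : ℤ) 65) ×ˢ (Finset.Icc (-65 : ℤ) 65),
        ∃ l₁ l₂ : List (Idx × E),
          (∀ p ∈ l₁, p ∈ l ∧ cell p.1 ⊆ ball x (3 / 2 * ρ)) ∧
          (∀ p ∈ l₂, p ∈ l ∧ ¬ cell p.1 ⊆ ball x (3 / 2 * ρ)) ∧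
          CrR sh 0 K (netp x (ρ / 32) a) (ρ / 32) l₁ ∧
          CrR sh 0 K (netp x (ρ / 32) a') (ρ / 32) l₂ := by
  rw [C2_eqS]
  have hρ0 : 0 < ρ := by linarith
  obtain ⟨l', q, hL1, hL2, hL3, hL4, hL5, hL6⟩ := crossing_head hρ0 hl
  obtain ⟨-, hwalk, hlev, -, -⟩ := hL2
  have hdL : ∀ p ∈ l' ++ [q], diam (lp sh p) < ρ / 32 := fun p hp => hd p (hL1 p hp) (hL6 p hp)
  obtain ⟨w, hwq, hwx⟩ := not_subset.1 hL4
  rw [mem_ball, not_lt] at hwx
  have hqm : q ∈ l' ++ [q] := by simp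
  -- the first element
  obtain ⟨p0, hp0⟩ : ∃ p0, (l' ++ [q]).head? = some p0 := by
    cases l' with
    | nil => exact ⟨q, rfl⟩
    | cons b l' => exact ⟨b, rfl⟩
  obtain ⟨y0, hy0, hy0x⟩ := hL5 p0 hp0
  rw [mem_closedBall] at hy0x
  have hp0m : p0 ∈ l' ++ [q] := List.mem_of_mem_head? hp0
  -- inner part
  have hinner : ∃ a ∈ C2_S,
      ∃ l₁ : List (Idx × E), (∀ p ∈ l₁, p ∈ l ∧ cell p.1 ⊆ ball x (3 / 2 * ρ)) ∧
        CrR sh 0 K (netp x (ρ / 32) a) (ρ / 32) l₁ := by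
    obtain ⟨A, p, B, hAB, hp, hA⟩ := C2_first (fun p => ¬ lp sh p ⊆ ball x (9 / 8 * ρ))
      (l' ++ [q]) ⟨q, hqm, fun hsub => hL4 (hsub.trans (ball_subset_ball (by linarith)))⟩
    have hAB' : l' ++ [q] = (A ++ [p]) ++ B := by rw [hAB]; simp
    have hsub : ∀ r ∈ A ++ [p], r ∈ l' ++ [q] := by
      intro r hr
      rw [hAB']
      exact List.mem_append_left _ hr
    have hpL : p ∈ l' ++ [q] := hsub p (by simp)
    have hwk : Walk sh (A ++ [p]) := by
      have : Walk sh ((A ++ [p]) ++ B) := by rw [← hAB']; exact hwalk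
      exact List.IsChain.left_of_append this
    have hA' : ∀ a ∈ A, lp sh a ⊆ ball x (9 / 8 * ρ) := fun a ha => not_not.1 (hA a ha)
    -- `p` contains a point close to `x`
    have hpp : ∃ z ∈ lp sh p, dist z x < 9 / 8 * ρ := by
      rcases List.eq_nil_or_concat A with hA0 | ⟨A', a, hAa⟩
      · have : (l' ++ [q]).head? = some p := by rw [hAB, hA0]; rfl
        obtain ⟨z, hz, hzx⟩ := hL5 p this
        rw [mem_closedBall] at hzx
        exact ⟨z, hz, by linarith⟩
      · have hc : List.IsChain (fun p q => (lp sh p ∩ lp sh q).Nonempty) (A' ++ (a :: [p])) := by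
          have h := hwk
          unfold Walk at h
          rw [hAa] at h
          simpa using h
        have hc2 := List.IsChain.right_of_append hc
        rw [List.isChain_cons_cons] at hc2
        obtain ⟨z, hz1, hz2⟩ := hc2.1
        have ha : a ∈ A := by rw [hAa]; simp
        exact ⟨z, hz2, mem_ball.1 (hA' a ha hz1)⟩
    have hall : ∀ r ∈ A ++ [p], ∀ z ∈ lp sh r, dist z x < 37 / 32 * ρ := by
      intro r hr z hz
      rcases List.mem_append.1 hr with hr | hr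
      · have := mem_ball.1 (hA' r hr hz)
        linarith
      · rw [List.mem_singleton] at hr
        subst hr
        obtain ⟨z', hz', hz'x⟩ := hpp
        have h1 := C2_dist hS (hdL r hpL) hz hz'
        have h2 := dist_triangle z z' x
        linarith
    obtain ⟨v, hvp, hvx⟩ := not_subset.1 hp
    rw [mem_ball, not_lt] at hvx
    have hp0A : p0 ∈ A ++ [p] := by
      cases A with
      | nil =>
        rw [hAB] at hp0
        simp only [List.nil_append, List.head?_cons, Option.some.injEq] at hp0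
        simp [hp0]
      | cons b A =>
        rw [hAB] at hp0
        simp only [List.cons_append, List.head?_cons, Option.some.injEq] at hp0
        simp [hp0]
    obtain ⟨a, ha, hcr⟩ := C2_cross (x := x) (c := ρ) hρ0 (by linarith) (l := A ++ [p])
      (by simp) hwk (fun r hr => hlev r (hsub r hr)) (C2_mem_un hp0A hy0) hy0x
      (C2_mem_un (show p ∈ A ++ [p] by simp) hvp) (by linarith)
    refine ⟨a, ha, A ++ [p], ?_, hcr⟩
    intro r hr
    refine ⟨hL1 r (hsub r hr), ?_⟩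
    obtain ⟨c0, hc1, hc2⟩ := lp_meets_cell hS r
    intro z hz
    rw [mem_ball]
    have h1 := C2_cell hz hc2
    have h2 := hall r hr c0 hc1
    have h3 := dist_triangle z c0 x
    linarith
  -- outer part
  have houter : ∃ a ∈ C2_S,
      ∃ l₂ : List (Idx × E), (∀ p ∈ l₂, p ∈ l ∧ ¬ cell p.1 ⊆ ball x (3 / 2 * ρ)) ∧
        CrR sh 0 K (netp x (ρ / 32) a) (ρ / 32) l₂ := by
    obtain ⟨A, p, B, hAB, hp, hB⟩ := C2_last
      (fun p => (lp sh p ∩ closedBall x (15 / 8 * ρ)).Nonempty)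
      (l' ++ [q]) ⟨p0, hp0m, y0, hy0, mem_closedBall.2 (by linarith)⟩
    have hsub : ∀ r ∈ p :: B, r ∈ l' ++ [q] := by
      intro r hr
      rw [hAB]
      exact List.mem_append_right _ hr
    have hpL : p ∈ l' ++ [q] := hsub p (by simp)
    have hwk : Walk sh (p :: B) := by
      have : Walk sh (A ++ p :: B) := by rw [← hAB]; exact hwalk
      exact List.IsChain.right_of_append this
    have hqB : q ∈ p :: B := by
      have h1 : (l' ++ [q]).getLast? = some q := by simp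
      rw [hAB, List.getLast?_append_of_ne_nil _ (by simp)] at h1
      exact List.mem_of_getLast? h1
    obtain ⟨y1, hy1, hy1x⟩ := hp
    rw [mem_closedBall] at hy1x
    have hfar : ∀ b ∈ B, ∀ z ∈ lp sh b, 15 / 8 * ρ < dist z x := by
      intro b hb z hz
      by_contra hcon
      exact hB b hb ⟨z, hz, mem_closedBall.2 (not_lt.1 hcon)⟩
    have hBne : B ≠ [] := by
      intro hB0
      rw [hB0, List.mem_singleton] at hqB
      have h1 := C2_dist hS (hdL p hpL) (hqB ▸ hwq) hy1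
      have h2 := dist_triangle w y1 x
      linarith
    have hall : ∀ r ∈ p :: B, ∀ z ∈ lp sh r, 59 / 32 * ρ ≤ dist z x := by
      intro r hr z hz
      rcases List.mem_cons.1 hr with hr | hr
      · subst hr
        obtain ⟨b, B', hB'⟩ := List.exists_cons_of_ne_nil hBne
        have h := hwk
        unfold Walk at h
        rw [hB', List.isChain_cons_cons] at h
        obtain ⟨u, hu1, hu2⟩ := h.1
        have h1 := hfar b (by rw [hB']; simp) u hu2
        have h2 := C2_dist hS (hdL r hpL) hu1 hz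
        have h3 := dist_triangle u z x
        linarith
      · have := hfar r hr z hz
        linarith
    obtain ⟨a, ha, hcr⟩ := C2_cross (x := x) (c := 15 / 8 * ρ) hρ0 (by linarith) (l := p :: B)
      (by simp) hwk (fun r hr => hlev r (hsub r hr)) (C2_mem_un (show p ∈ p :: B by simp) hy1)
      hy1x (C2_mem_un hqB hwq) (by linarith)
    refine ⟨a, ha, p :: B, ?_, hcr⟩
    intro r hr
    refine ⟨hL1 r (hsub r hr), ?_⟩
    obtain ⟨c0, hc1, hc2⟩ := lp_meets_cell hS r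
    intro hcell
    have h1 := mem_ball.1 (hcell hc2)
    have h2 := hall r hr c0 hc1
    linarith
  obtain ⟨a, ha, l₁, h1, h2⟩ := hinner
  obtain ⟨a', ha', l₂, h3, h4⟩ := houter
  exact ⟨a, ha, a', ha', l₁, l₂, h1, h3, h2, h4⟩

end Pool.Agent.Helper16.CD
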