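import Pool.Agent.Helper16.CD.C2
import Pool.Agent.Helper3.CD.Indep

/-!
# CD-C3: the quadratic recursion

`ρ ≥ 64`.  `(Ev univ (CrR sh 0 K x ρ))ᶜ` is contained in the union of
(a) `{∃ p ∈ Sp w, lp sh p meets closedBall x (2ρ), diam ≥ ρ/32}`, of probability `≤ r ∑_j C / (2^j 2ρ)² ≤ C' r / ρ²` (`prob_exists_le`, `mass_big` with
`2ρ`, as `2ρ ≤ 64 diam`; the sum over the index `Idx = ℕ × (ℤ × ℤ)` is the sum over `j` of the sums over `v`), and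
(b) the union over the pairs `a, a'` of `(Ev A (CrR .. l₁))ᶜ ∩ (Ev Aᶜ (CrR .. l₂))ᶜ`, `A = {i | cell i ⊆ ball x (3ρ/2)}` (`crossing_split`).
The two events depend on disjoint sets of cells (`depOn_Ev`, `indep_sets`), each has probability at most
`b = ⨆ y, cp r ν sh 0 K y (ρ/32)` (`Ev univ R ⊆ Ev A R`).  The number of pairs is `131^4`.
-/

set_option autoImplicit false

namespace Pool.Agent.Helper16.CD

open MeasureTheory ProbabilityTheory Metric Set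
open scoped ENNReal NNReal
open Pool.Agent.Helper3.CD Pool.Agent.Helper22.CD

variable {E : Type} [MeasurableSpace E] {ν : Measure E} {sh : E → Set Plane}

/-- configurations with a large loop near the square -/
private def C3_big (sh : E → Set Plane) (x : Plane) (ρ : ℝ) (i : Idx) : Set E :=
  {e | (lp sh (i, e) ∩ closedBall x (2 * ρ)).Nonempty ∧ 2 * ρ ≤ 64 * diam (lp sh (i, e))}

private lemma C3_big_meas (hS : IsShape ν sh) (x : Plane) (ρ : ℝ) (i : Idx) :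
    MeasurableSet (C3_big sh x ρ i) := by
  have h1 := meas_hit (rk_lp hS i) x (2 * ρ)
  have h2 := meas_diam (rk_lp hS i) (ρ / 32)
  have h3 : C3_big sh x ρ i = {e | (lp sh (i, e) ∩ closedBall x (2 * ρ)).Nonempty} ∩
      {e | ρ / 32 ≤ diam (lp sh (i, e))} := by
    ext e
    simp only [C3_big, mem_ofPred_eq, mem_inter_iff]
    refine and_congr_right fun _ => ?_
    constructor
    · intro h
      linarith
    · intro h
      linarith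
  rw [h3]
  exact h1.inter h2

private lemma C3_geom {a : ℝ} (ha : 0 ≤ a) :
    ∑' j : ℕ, ENNReal.ofReal (a * (1 / 4) ^ j) = ENNReal.ofReal (a * (4 / 3)) := by
  have h1 : HasSum (fun j : ℕ => (1 / 4 : ℝ) ^ j) (1 - 1 / 4)⁻¹ :=
    hasSum_geometric_of_lt_one (by norm_num) (by norm_num)
  have h2 := h1.mul_left a
  rw [← ENNReal.ofReal_tsum_of_nonneg (fun j => by positivity) h2.summable, h2.tsum_eq]
  norm_num

private lemma C3_mass {C : ℝ} (hC : 0 < C) {x : Plane} {ρ : ℝ} (hρ : 0 < ρ)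
    (hbig : ∀ (j : ℕ), ∑' v : ℤ × ℤ, ν {e | (lp sh ((j, v), e) ∩ closedBall x (2 * ρ)).Nonempty ∧
      2 * ρ ≤ 64 * diam (lp sh ((j, v), e))} ≤ ENNReal.ofReal (C / (2 ^ j * (2 * ρ)) ^ 2))
    (r : ℝ≥0) : ∑' i : Idx, (r : ℝ≥0∞) * ν (C3_big sh x ρ i) ≤
      ENNReal.ofReal (C * r / ρ ^ 2) := by
  have h1 : ∑' i : Idx, (r : ℝ≥0∞) * ν (C3_big sh x ρ i) =
      (r : ℝ≥0∞) * ∑' (j : ℕ), ∑' (v : ℤ × ℤ), ν (C3_big sh x ρ (j, v)) := by
    rw [ENNReal.tsum_mul_left]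
    congr 1
    exact ENNReal.tsum_prod (f := fun (j : ℕ) (v : ℤ × ℤ) => ν (C3_big sh x ρ (j, v)))
  rw [h1]
  have h2 : ∑' (j : ℕ), ∑' (v : ℤ × ℤ), ν (C3_big sh x ρ (j, v)) ≤
      ∑' j : ℕ, ENNReal.ofReal (C / (2 * ρ) ^ 2 * (1 / 4) ^ j) := by
    refine ENNReal.tsum_le_tsum fun j => ?_
    refine (hbig j).trans (le_of_eq ?_)
    congr 1
    have h4 : (2 : ℝ) ^ j ≠ 0 := by positivity
    have h5 : (4 : ℝ) ^ j = (2 ^ j) ^ 2 := by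
      rw [← pow_mul, mul_comm, pow_mul]
      norm_num
    rw [one_div, inv_pow, h5]
    field_simp
  rw [C3_geom (by positivity)] at h2
  calc (r : ℝ≥0∞) * ∑' (j : ℕ), ∑' (v : ℤ × ℤ), ν (C3_big sh x ρ (j, v))
      ≤ (r : ℝ≥0∞) * ENNReal.ofReal (C / (2 * ρ) ^ 2 * (4 / 3)) := by gcongr
    _ = ENNReal.ofReal (r * (C / (2 * ρ) ^ 2 * (4 / 3))) := by
      rw [ENNReal.ofReal_mul (NNReal.coe_nonneg r), ENNReal.ofReal_coe_nnreal]
    _ ≤ ENNReal.ofReal (C * r / ρ ^ 2) := by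
      apply ENNReal.ofReal_le_ofReal
      have h6 : (r : ℝ) * (C / (2 * ρ) ^ 2 * (4 / 3)) = C * r / ρ ^ 2 * (1 / 3) := by
        field_simp
        norm_num
      rw [h6]
      have h7 : 0 ≤ C * r / ρ ^ 2 := by positivity
      linarith

omit [MeasurableSpace E] in
private lemma C3_cover {K : ℕ} {x : Plane} {ρ : ℝ} (S : Finset (ℤ × ℤ))
    (hsplit : ∀ l : List (Idx × E), CrR sh 0 K x ρ l →
      (∀ p ∈ l, (lp sh p ∩ closedBall x (2 * ρ)).Nonempty → diam (lp sh p) < ρ / 32) →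
      ∃ a ∈ S, ∃ a' ∈ S, ∃ l₁ l₂ : List (Idx × E),
          (∀ p ∈ l₁, p ∈ l ∧ cell p.1 ⊆ ball x (3 / 2 * ρ)) ∧
          (∀ p ∈ l₂, p ∈ l ∧ ¬ cell p.1 ⊆ ball x (3 / 2 * ρ)) ∧
          CrR sh 0 K (netp x (ρ / 32) a) (ρ / 32) l₁ ∧
          CrR sh 0 K (netp x (ρ / 32) a') (ρ / 32) l₂) :
    (Ev univ (CrR sh 0 K x ρ))ᶜ ⊆ {w | ∃ p ∈ Sp w, p.2 ∈ C3_big sh x ρ p.1} ∪
      ⋃ a ∈ S, ⋃ a' ∈ S,
          ((Ev {i | cell i ⊆ ball x (3 / 2 * ρ)}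
            (CrR sh 0 K (netp x (ρ / 32) a) (ρ / 32)))ᶜ ∩
          (Ev {i | cell i ⊆ ball x (3 / 2 * ρ)}ᶜ
            (CrR sh 0 K (netp x (ρ / 32) a') (ρ / 32)))ᶜ) := by
  intro w hw
  have hw' : ∃ l : List (Idx × E), (∀ p ∈ l, p ∈ Sp w ∧ p.1 ∈ (univ : Set Idx)) ∧
      CrR sh 0 K x ρ l := by
    by_contra hcon
    push Not at hcon
    exact hw hcon
  obtain ⟨l, hl, hR⟩ := hw'
  by_cases hb : ∃ p ∈ l, p.2 ∈ C3_big sh x ρ p.1
  · obtain ⟨p, hp, hpb⟩ := hb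
    exact Or.inl ⟨p, (hl p hp).1, hpb⟩
  · right
    push Not at hb
    obtain ⟨a, ha, a', ha', l₁, l₂, h1, h2, h3, h4⟩ := hsplit l hR (by
      intro p hp hne
      by_contra hcon
      push Not at hcon
      exact hb p hp ⟨hne, by linarith⟩)
    refine mem_iUnion.2 ⟨a, mem_iUnion.2 ⟨ha, mem_iUnion.2 ⟨a', mem_iUnion.2 ⟨ha',
      And.intro ?_ ?_⟩⟩⟩⟩
    · intro hcon
      exact hcon l₁ (fun p hp => ⟨(hl p (h1 p hp).1).1, (h1 p hp).2⟩) h3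
    · intro hcon
      exact hcon l₂ (fun p hp => ⟨(hl p (h2 p hp).1).1, (h2 p hp).2⟩) h4

theorem cp_step2 (hS : IsShape ν sh) : ∃ C : ℝ, 0 < C ∧ ∀ (r : ℝ≥0) (K : ℕ) (x : Plane) (ρ : ℝ),
    64 ≤ ρ → cp r ν sh 0 K x ρ ≤
      ENNReal.ofReal (C * r / ρ ^ 2) + 131 ^ 4 * (⨆ y, cp r ν sh 0 K y (ρ / 32)) ^ 2 := by
  classical
  have _ := hS.prob
  obtain ⟨C, hC, hbig⟩ := mass_big hS
  refine ⟨C, hC, fun r K x ρ hρ => ?_⟩
  have hρ0 : 0 < ρ := by linarith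
  set b : ℝ≥0∞ := ⨆ y, cp r ν sh 0 K y (ρ / 32) with hb
  set A : Set Idx := {i | cell i ⊆ ball x (3 / 2 * ρ)} with hA
  have hle : ∀ (B : Set Idx) (a : ℤ × ℤ),
      law r ν (Ev B (CrR sh 0 K (netp x (ρ / 32) a) (ρ / 32)))ᶜ ≤ b := by
    intro B a
    have h1 : law r ν (Ev B (CrR sh 0 K (netp x (ρ / 32) a) (ρ / 32)))ᶜ ≤
        cp r ν sh 0 K (netp x (ρ / 32) a) (ρ / 32) := by
      apply measure_mono
      rw [compl_subset_compl]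
      intro w hw l hl
      exact hw l fun p hp => ⟨(hl p hp).1, mem_univ _⟩
    exact h1.trans (le_iSup (fun y => cp r ν sh 0 K y (ρ / 32)) (netp x (ρ / 32) a))
  have hind : ∀ a a' : ℤ × ℤ, law r ν
      ((Ev A (CrR sh 0 K (netp x (ρ / 32) a) (ρ / 32)))ᶜ ∩
        (Ev Aᶜ (CrR sh 0 K (netp x (ρ / 32) a') (ρ / 32)))ᶜ) ≤ b ^ 2 := by
    intro a a'
    have h1 : law r ν
      ((Ev A (CrR sh 0 K (netp x (ρ / 32) a) (ρ / 32)))ᶜ ∩
        (Ev Aᶜ (CrR sh 0 K (netp x (ρ / 32) a') (ρ / 32)))ᶜ) =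
        law r ν (Ev A (CrR sh 0 K (netp x (ρ / 32) a) (ρ / 32)))ᶜ *
          law r ν (Ev Aᶜ (CrR sh 0 K (netp x (ρ / 32) a') (ρ / 32)))ᶜ := by
      unfold law
      exact indep_sets _ _ A Aᶜ disjoint_compl_right _ _
        (measurableSet_Ev _ _ (measR_CrR hS _ _ _ _)).compl
        (measurableSet_Ev _ _ (measR_CrR hS _ _ _ _)).compl
        (depOn_Ev _ _).compl (depOn_Ev _ _).compl
    rw [h1, pow_two]
    exact mul_le_mul' (hle _ _) (hle _ _)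
  have hfirst : law r ν {w | ∃ p ∈ Sp w, p.2 ∈ C3_big sh x ρ p.1} ≤
      ENNReal.ofReal (C * r / ρ ^ 2) := by
    unfold law
    exact (prob_exists_le _ _ _ (C3_big_meas hS x ρ)).trans
      (C3_mass hC hρ0 (fun j => hbig j x (2 * ρ) (by linarith)) r)
  calc cp r ν sh 0 K x ρ = law r ν (Ev univ (CrR sh 0 K x ρ))ᶜ := rfl
    _ ≤ law r ν ({w | ∃ p ∈ Sp w, p.2 ∈ C3_big sh x ρ p.1} ∪
      ⋃ a ∈ (Finset.Icc (-65 : ℤ) 65) ×ˢ (Finset.Icc (-65 : ℤ) 65),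
        ⋃ a' ∈ (Finset.Icc (-65 : ℤ) 65) ×ˢ (Finset.Icc (-65 : ℤ) 65),
          ((Ev A (CrR sh 0 K (netp x (ρ / 32) a) (ρ / 32)))ᶜ ∩
          (Ev Aᶜ (CrR sh 0 K (netp x (ρ / 32) a') (ρ / 32)))ᶜ)) :=
        measure_mono (C3_cover _ fun l h1 h2 => crossing_split hS hρ h1 h2)
    _ ≤ law r ν {w | ∃ p ∈ Sp w, p.2 ∈ C3_big sh x ρ p.1} + law r ν
      (⋃ a ∈ (Finset.Icc (-65 : ℤ) 65) ×ˢ (Finset.Icc (-65 : ℤ) 65),
        ⋃ a' ∈ (Finset.Icc (-65 : ℤ) 65) ×ˢ (Finset.Icc (-65 : ℤ) 65),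
          ((Ev A (CrR sh 0 K (netp x (ρ / 32) a) (ρ / 32)))ᶜ ∩
          (Ev Aᶜ (CrR sh 0 K (netp x (ρ / 32) a') (ρ / 32)))ᶜ)) := measure_union_le _ _
    _ ≤ ENNReal.ofReal (C * r / ρ ^ 2) +
        ∑ a ∈ (Finset.Icc (-65 : ℤ) 65) ×ˢ (Finset.Icc (-65 : ℤ) 65),
          ∑ a' ∈ (Finset.Icc (-65 : ℤ) 65) ×ˢ (Finset.Icc (-65 : ℤ) 65), b ^ 2 := by
      refine add_le_add hfirst ?_
      refine (measure_biUnion_finset_le _ _).trans (Finset.sum_le_sum fun a _ => ?_)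
      exact (measure_biUnion_finset_le _ _).trans (Finset.sum_le_sum fun a' _ => hind a a')
    _ = ENNReal.ofReal (C * r / ρ ^ 2) + 131 ^ 4 * b ^ 2 := by
      have hcard : ((Finset.Icc (-65 : ℤ) 65) ×ˢ (Finset.Icc (-65 : ℤ) 65)).card = 17161 := by
        rw [Finset.card_product, Int.card_Icc]
        rfl
      have hnum : ((17161 : ℕ) : ℝ≥0∞) * ((17161 : ℕ) : ℝ≥0∞) = 131 ^ 4 := by norm_num
      rw [Finset.sum_const, Finset.sum_const, hcard, nsmul_eq_mul, nsmul_eq_mul, ← mul_assoc,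
        hnum]

end Pool.Agent.Helper16.CD
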