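import Pool.Agent.Helper16.CD.C3

/-!
# CD-C4: decay of the crossing probabilities

Claim: for every `i₀` there are `C₁`, `r₀ > 0` with `cp r ν sh 0 K x (2^i / 2^i₀) ≤ ofReal (C₁ r / 2^i)` for all `r < r₀`, `K`, `i`, `x`.
Constants `C'` from `cp_step1`, `C''` from `cp_step2`.  Induction on `K`; for fixed `K` strong induction on `i`.
`K = 0`: no loops allowed, `l ≠ []`: probability `0`.
`K + 1`, `i ≤ i₀ + 6`: `ρ = 2^i/2^i₀ ≤ 64`, `cp_step1`: `≤ C' r 65² + cp 1 K x ρ`, and `cp_scale`: `cp 1 K x ρ = cp 0 K (2x) (2ρ) ≤ C₁ r / 2^(i+1)`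
(induction hypothesis for `K`).  Total `≤ C₁ r / 2^i` if `C₁ ≥ 65² C' 2^(i₀+7)`.
`K + 1`, `i > i₀ + 6`: `ρ ≥ 64`, `ρ/32 = 2^(i-5)/2^i₀`, `cp_step2` and the induction hypothesis for `i - 5`:
`≤ C'' r 4^i₀ / 4^i + 131^4 (C₁ r 2^5 / 2^i)² ≤ C₁ r / 2^i` if `C₁ ≥ 2 C'' 4^i₀` and `131^4 * 2^10 * C₁ r ≤ 1/2`.
-/

set_option autoImplicit false

namespace Pool.Agent.Helper16.CD

open MeasureTheory ProbabilityTheory Metric Set
open scoped ENNReal NNReal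
open Pool.Agent.Helper3.CD Pool.Agent.Helper22.CD

variable {E : Type} [MeasurableSpace E] {ν : Measure E} {sh : E → Set Plane}

private theorem C4_zero (r : ℝ≥0) (x : Plane) (ρ : ℝ) : cp r ν sh 0 0 x ρ = 0 := by
  have h : (Ev univ (CrR sh 0 0 x ρ) : Set (Conf E)) = univ := by
    rw [Set.eq_univ_iff_forall]
    intro w l _ hR
    obtain ⟨hne, _, hlev, _⟩ := hR
    obtain ⟨p, hp⟩ := List.exists_mem_of_ne_nil l hne
    have := (hlev p hp).2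
    omega
  rw [cp, h, compl_univ, measure_empty]

private theorem C4_small {C c1 : ℝ} (r : ℝ≥0) {i i₀ : ℕ} (h1 : 0 < c1)
    (hC : 33 ^ 2 * c1 * 2 ^ (i₀ + 6) ≤ C) (hi : i < i₀ + 6) :
    c1 * r * (1 + 2 ^ i / 2 ^ i₀) ^ 2 + C * r / 2 ^ (i + 1) ≤ C * r / 2 ^ i := by
  have hr : (0 : ℝ) ≤ r := r.2
  have h2 : (2 : ℝ) ^ i / 2 ^ i₀ ≤ 32 := by
    rw [div_le_iff₀ (by positivity)]
    calc (2 : ℝ) ^ i ≤ 2 ^ (i₀ + 5) := pow_le_pow_right₀ (by norm_num) (by omega)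
      _ = 32 * 2 ^ i₀ := by rw [pow_add]; ring
  have h3 : (1 + (2 : ℝ) ^ i / 2 ^ i₀) ^ 2 ≤ 33 ^ 2 :=
    pow_le_pow_left₀ (by positivity) (by linarith) 2
  have h4 : (2 : ℝ) ^ (i + 1) ≤ 2 ^ (i₀ + 6) := pow_le_pow_right₀ (by norm_num) (by omega)
  have h5 : 33 ^ 2 * c1 ≤ C / 2 ^ (i + 1) := by
    rw [le_div_iff₀ (by positivity)]
    refine le_trans ?_ hC
    exact mul_le_mul_of_nonneg_left h4 (by positivity)
  have h6 : C * r / 2 ^ i = C / 2 ^ (i + 1) * r + C * r / 2 ^ (i + 1) := by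
    rw [pow_succ]
    field_simp
    ring
  rw [h6]
  have h7 : c1 * r * (1 + 2 ^ i / 2 ^ i₀) ^ 2 ≤ C / 2 ^ (i + 1) * r := by
    calc c1 * r * (1 + 2 ^ i / 2 ^ i₀) ^ 2 ≤ c1 * r * 33 ^ 2 :=
          mul_le_mul_of_nonneg_left h3 (by positivity)
      _ = 33 ^ 2 * c1 * r := by ring
      _ ≤ C / 2 ^ (i + 1) * r := mul_le_mul_of_nonneg_right h5 hr
  linarith

private theorem C4_large {C c2 : ℝ} (r : ℝ≥0) {j i₀ : ℕ} (h2 : 0 < c2) (hC0 : 0 < C)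
    (hC : 2 * c2 * 4 ^ i₀ ≤ C) (hr : (r : ℝ) ≤ 1 / (2 * 131 ^ 4 * 1024 * C)) :
    c2 * r / (2 ^ (j + 5) / 2 ^ i₀) ^ 2 + 131 ^ 4 * (C * r / 2 ^ j) ^ 2 ≤ C * r / 2 ^ (j + 5) := by
  have hr0 : (0 : ℝ) ≤ r := r.2
  have e1 : (1 : ℝ) ≤ 2 ^ (j + 5) := one_le_pow₀ (by norm_num)
  obtain ⟨t, ht⟩ : ∃ t : ℝ, t = 2 ^ (j + 5) := ⟨_, rfl⟩
  have e2 : (2 : ℝ) ^ j = t / 32 := by
    rw [ht, pow_add]
    ring
  have e3 : ((2 : ℝ) ^ i₀) ^ 2 = 4 ^ i₀ := by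
    rw [← pow_mul, mul_comm, pow_mul]
    norm_num
  rw [e2, ← ht]
  rw [← ht] at e1
  have ht0 : 0 < t := by linarith
  have a1 : c2 * r / (t / 2 ^ i₀) ^ 2 ≤ C * r / t / 2 := by
    have a2 : c2 * r / (t / 2 ^ i₀) ^ 2 = (2 * c2 * 4 ^ i₀) * r / t ^ 2 / 2 := by
      rw [div_pow, e3]
      field_simp
    rw [a2]
    have a3 : (2 * c2 * 4 ^ i₀) * r / t ^ 2 ≤ C * r / t := by
      calc (2 * c2 * 4 ^ i₀) * r / t ^ 2 ≤ C * r / t ^ 2 := by gcongr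
        _ ≤ C * r / t := by
          refine div_le_div_of_nonneg_left (by positivity) ht0 ?_
          nlinarith
    linarith
  have a4 : 131 ^ 4 * (C * r / (t / 32)) ^ 2 ≤ C * r / t / 2 := by
    rw [le_div_iff₀ (by positivity)] at hr
    have a5 : 131 ^ 4 * (C * r / (t / 32)) ^ 2 =
        (r * (2 * 131 ^ 4 * 1024 * C)) * (C * r / t ^ 2 / 2) := by
      field_simp
      ring
    rw [a5]
    calc (r * (2 * 131 ^ 4 * 1024 * C)) * (C * r / t ^ 2 / 2) ≤ 1 * (C * r / t ^ 2 / 2) :=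
          mul_le_mul_of_nonneg_right hr (by positivity)
      _ = C * r / t ^ 2 / 2 := one_mul _
      _ ≤ C * r / t / 2 := by
          have : C * r / t ^ 2 ≤ C * r / t := by
            refine div_le_div_of_nonneg_left (by positivity) ht0 ?_
            nlinarith
          linarith
  linarith

private theorem C4_key {C c1 c2 : ℝ} (hS : IsShape ν sh) (i₀ : ℕ) (r : ℝ≥0) (h1 : 0 < c1) (h2 : 0 < c2)
    (hC0 : 0 < C)
    (s1 : ∀ (K : ℕ) (x : Plane) (ρ : ℝ), 0 < ρ → cp r ν sh 0 (K + 1) x ρ ≤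
      ENNReal.ofReal (c1 * r * (1 + ρ) ^ 2) + cp r ν sh 1 K x ρ)
    (s2 : ∀ (K : ℕ) (x : Plane) (ρ : ℝ), 64 ≤ ρ → cp r ν sh 0 K x ρ ≤
      ENNReal.ofReal (c2 * r / ρ ^ 2) + 131 ^ 4 * (⨆ y, cp r ν sh 0 K y (ρ / 32)) ^ 2)
    (hC1 : 33 ^ 2 * c1 * 2 ^ (i₀ + 6) ≤ C) (hC2 : 2 * c2 * 4 ^ i₀ ≤ C)
    (hr : (r : ℝ) ≤ 1 / (2 * 131 ^ 4 * 1024 * C)) (K : ℕ) :
    ∀ (i : ℕ) (x : Plane), cp r ν sh 0 K x (2 ^ i / 2 ^ i₀) ≤ ENNReal.ofReal (C * r / 2 ^ i) := by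
  have hr0 : (0 : ℝ) ≤ r := r.2
  induction K with
  | zero =>
    intro i x
    rw [C4_zero]
    exact zero_le
  | succ K ihK =>
    intro i
    induction i using Nat.strong_induction_on with
    | _ i ih =>
      intro x
      rcases lt_or_ge i (i₀ + 6) with hi | hi
      · refine (s1 K x _ (by positivity)).trans ?_
        have e1 : cp r ν sh 1 K x (2 ^ i / 2 ^ i₀) =
            cp r ν sh 0 K ((2 : ℝ) ^ 1 • x) (2 ^ (i + 1) / 2 ^ i₀) := by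
          rw [cp_scale hS]
          congr 1
          rw [pow_succ]
          ring
        rw [e1]
        refine (add_le_add_right (ihK (i + 1) _) _).trans ?_
        rw [← ENNReal.ofReal_add (by positivity) (by positivity)]
        exact ENNReal.ofReal_le_ofReal (C4_small r h1 hC1 hi)
      · obtain ⟨j, rfl⟩ : ∃ j, i = j + 5 := ⟨i - 5, by omega⟩
        have e0 : (64 : ℝ) ≤ 2 ^ (j + 5) / 2 ^ i₀ := by
          rw [le_div_iff₀ (by positivity)]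
          calc (64 : ℝ) * 2 ^ i₀ = 2 ^ (i₀ + 6) := by rw [pow_add]; ring
            _ ≤ 2 ^ (j + 5) := pow_le_pow_right₀ (by norm_num) hi
        refine (s2 (K + 1) x _ e0).trans ?_
        have e1 : (2 : ℝ) ^ (j + 5) / 2 ^ i₀ / 32 = 2 ^ j / 2 ^ i₀ := by
          rw [pow_add]
          field_simp
          norm_num
        rw [e1]
        have e2 : (⨆ y, cp r ν sh 0 (K + 1) y (2 ^ j / 2 ^ i₀)) ≤ ENNReal.ofReal (C * r / 2 ^ j) :=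
          iSup_le fun y => ih j (by omega) y
        have e3 : (131 : ℝ≥0∞) ^ 4 * (⨆ y, cp r ν sh 0 (K + 1) y (2 ^ j / 2 ^ i₀)) ^ 2 ≤
            ENNReal.ofReal (131 ^ 4 * (C * r / 2 ^ j) ^ 2) := by
          rw [ENNReal.ofReal_mul (by positivity), ENNReal.ofReal_pow (by positivity),
            ENNReal.ofReal_pow (by positivity)]
          have e4 : ENNReal.ofReal 131 = 131 := by norm_num
          rw [e4]
          gcongr
        refine (add_le_add_right e3 _).trans ?_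
        rw [← ENNReal.ofReal_add (by positivity) (by positivity)]
        exact ENNReal.ofReal_le_ofReal (C4_large r h2 hC0 hC2 hr)

theorem cp_decay (hS : IsShape ν sh) (i₀ : ℕ) : ∃ (C : ℝ) (r₀ : ℝ≥0), 0 < C ∧ 0 < r₀ ∧
    ∀ r : ℝ≥0, r < r₀ → ∀ (k K i : ℕ) (x : Plane),
      cp r ν sh k K x (2 ^ i / 2 ^ i₀ / 2 ^ k) ≤ ENNReal.ofReal (C * r / 2 ^ i) := by
  obtain ⟨c1, h1, s1⟩ := cp_step1 hS
  obtain ⟨c2, h2, s2⟩ := cp_step2 hS
  obtain ⟨C, hC⟩ : ∃ C : ℝ, C = 33 ^ 2 * c1 * 2 ^ (i₀ + 6) + 2 * c2 * 4 ^ i₀ := ⟨_, rfl⟩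
  have hC0 : 0 < C := by
    rw [hC]
    positivity
  have hC1 : 33 ^ 2 * c1 * 2 ^ (i₀ + 6) ≤ C := by
    rw [hC]
    exact le_add_of_nonneg_right (by positivity)
  have hC2 : 2 * c2 * 4 ^ i₀ ≤ C := by
    rw [hC]
    exact le_add_of_nonneg_left (by positivity)
  have hpos : (0 : ℝ) < 1 / (2 * 131 ^ 4 * 1024 * C) := by positivity
  refine ⟨C, Real.toNNReal (1 / (2 * 131 ^ 4 * 1024 * C)), hC0, Real.toNNReal_pos.2 hpos, ?_⟩
  intro r hr k K i x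
  have hr' : (r : ℝ) ≤ 1 / (2 * 131 ^ 4 * 1024 * C) := by
    have h := NNReal.coe_lt_coe.2 hr
    rw [Real.coe_toNNReal _ hpos.le] at h
    exact h.le
  rw [cp_scale hS]
  have e : (2 : ℝ) ^ k * (2 ^ i / 2 ^ i₀ / 2 ^ k) = 2 ^ i / 2 ^ i₀ := by
    field_simp
  rw [e]
  exact C4_key hS i₀ r h1 h2 hC0 (s1 r) (s2 r) hC1 hC2 hr' K i _

end Pool.Agent.Helper16.CD
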