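import Pool.Agent.Helper16.CD.C4

/-!
# CD-C5: small chains (Lemma C)

`ρ = 2^i / 2^i₀ / 2^k`.  Let `l` satisfy `ChR sh k x (M ρ) ρ`: levels `≥ k`, `un l` meets `closedBall x (M ρ)` at `y₀`, diameter `≥ ρ`, so some point of
`un l` has distance `≥ ρ/2` from `y₀` (compactness of `un l` or: otherwise the diameter would be `< ρ`; use `diam ≤ 2 sup dist`; to avoid the
supremum take a point at distance `≥ 3ρ/8`).  `l` is finite, so its levels are `< k + K` for some `K`.  Choose `a`, `|a_i| ≤ 8 M + 1`, with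
`|y₀ - netp x (ρ/8) a| ≤ ρ/8`: `l` satisfies `CrR sh k K (netp x (ρ/8) a) (ρ/8)` as the far point has distance `≥ 3ρ/8 - ρ/8 = 2 (ρ/8)`.
`(Ev univ (ChR ..))ᶜ ⊆ ⋃_a ⋃_K (Ev univ (CrR sh k K (netp ..) (ρ/8)))ᶜ`; for fixed `a` the union over `K` is increasing, so its probability is the
supremum of `cp` (`measure_iUnion_eq_iSup` for monotone families), bounded by `cp_decay` with `i₀ + 3`.  Sum over the `(16 M + 3)²` values of `a`.
`chain_gen`: for fixed `A ≥ 0`, `d > 0`: `closedBall x (A/2^k)`, diameter `≥ d/2^k`: take `i₀` with `2^-i₀ ≤ d`, `i = 0`, `M ≥ A 2^i₀`.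
-/

set_option autoImplicit false

namespace Pool.Agent.Helper16.CD

open MeasureTheory ProbabilityTheory Metric Set
open scoped ENNReal NNReal
open Pool.Agent.Helper3.CD Pool.Agent.Helper22.CD

variable {E : Type} [MeasurableSpace E] {ν : Measure E} {sh : E → Set Plane}

/-- rounding to the net -/
private lemma C5_round {a b ρ : ℝ} (hρ : 0 < ρ) {M : ℕ} (h : |b - a| ≤ M * ρ) :
    ∃ z ∈ Finset.Icc (-(8 * M + 1 : ℤ)) (8 * M + 1), |b - (a + ρ / 8 * z)| ≤ ρ / 8 := by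
  refine ⟨round ((b - a) / (ρ / 8)), ?_, ?_⟩
  · have h1 := abs_sub_round ((b - a) / (ρ / 8))
    have h2 : |(b - a) / (ρ / 8)| ≤ 8 * M := by
      rw [abs_div, abs_of_pos (show (0 : ℝ) < ρ / 8 by positivity), div_le_iff₀ (by positivity)]
      linarith
    have h3 : |(round ((b - a) / (ρ / 8)) : ℝ)| ≤ 8 * M + 1 := by
      have := abs_sub_abs_le_abs_sub (round ((b - a) / (ρ / 8)) : ℝ) ((b - a) / (ρ / 8))
      rw [abs_sub_comm] at this
      linarith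
    rw [abs_le] at h3
    rw [Finset.mem_Icc]
    constructor
    · have : (-(8 * M + 1 : ℤ) : ℝ) ≤ (round ((b - a) / (ρ / 8)) : ℝ) := by
        push_cast
        linarith [h3.1]
      exact_mod_cast this
    · have : (round ((b - a) / (ρ / 8)) : ℝ) ≤ ((8 * M + 1 : ℤ) : ℝ) := by
        push_cast
        linarith [h3.2]
      exact_mod_cast this
  · have h1 := abs_sub_round ((b - a) / (ρ / 8))
    have h2 : b - (a + ρ / 8 * (round ((b - a) / (ρ / 8)) : ℝ)) =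
        ρ / 8 * ((b - a) / (ρ / 8) - round ((b - a) / (ρ / 8))) := by
      field_simp
      ring
    rw [h2, abs_mul, abs_of_pos (show (0 : ℝ) < ρ / 8 by positivity)]
    have h3 : |(b - a) / (ρ / 8) - round ((b - a) / (ρ / 8))| ≤ 1 := h1.trans (by norm_num)
    calc ρ / 8 * |(b - a) / (ρ / 8) - round ((b - a) / (ρ / 8))| ≤ ρ / 8 * 1 :=
          mul_le_mul_of_nonneg_left h3 (by positivity)
      _ = ρ / 8 := mul_one _

/-- the box of the values of `a` -/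
private noncomputable def C5_box (M : ℕ) : Finset (ℤ × ℤ) :=
  Finset.Icc (-(8 * M + 1 : ℤ)) (8 * M + 1) ×ˢ Finset.Icc (-(8 * M + 1 : ℤ)) (8 * M + 1)

omit [MeasurableSpace E] in
/-- a walk of large diameter is a crossing -/
private lemma C5_det {k M : ℕ} {x : Plane} {ρ : ℝ} (hρ : 0 < ρ) {l : List (Idx × E)}
    (h : ChR sh k x (M * ρ) ρ l) :
    ∃ a ∈ C5_box M, ∃ K, CrR sh k K (netp x (ρ / 8) a) (ρ / 8) l := by
  obtain ⟨h1, h2, h3, ⟨y, hy, hyx⟩, h5⟩ := h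
  rw [mem_closedBall, Prod.dist_eq, max_le_iff, Real.dist_eq, Real.dist_eq] at hyx
  obtain ⟨z₁, hz₁, e₁⟩ := C5_round hρ hyx.1
  obtain ⟨z₂, hz₂, e₂⟩ := C5_round hρ hyx.2
  obtain ⟨K, hK⟩ : ∃ K : ℕ, ∀ p ∈ l, p.1.1 < K := by
    clear h1 h2 h3 hy h5
    induction l with
    | nil => exact ⟨0, fun p hp => absurd hp List.not_mem_nil⟩
    | cons q l ih =>
      obtain ⟨K, hK⟩ := ih
      refine ⟨max K (q.1.1 + 1), fun p hp => ?_⟩
      rcases List.mem_cons.1 hp with rfl | hp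
      · exact lt_of_lt_of_le (Nat.lt_succ_self _) (le_max_right _ _)
      · exact (hK p hp).trans_le (le_max_left _ _)
  refine ⟨(z₁, z₂), Finset.mem_product.2 ⟨hz₁, hz₂⟩, K, h1, h2, fun p hp => ⟨h3 p hp, ?_⟩, ?_, ?_⟩
  · have := hK p hp
    omega
  · refine ⟨y, hy, ?_⟩
    rw [mem_closedBall, Prod.dist_eq, max_le_iff, Real.dist_eq, Real.dist_eq]
    exact ⟨e₁, e₂⟩
  · intro hsub
    have h6 : diam (un sh l) ≤ diam (ball (netp x (ρ / 8) (z₁, z₂)) (2 * (ρ / 8))) :=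
      diam_mono hsub isBounded_ball
    have h7 : diam (ball (netp x (ρ / 8) (z₁, z₂)) (2 * (ρ / 8))) ≤ 2 * (2 * (ρ / 8)) :=
      diam_ball (by positivity)
    linarith

omit [MeasurableSpace E] in
private lemma C5_sub {k M : ℕ} {x : Plane} {ρ : ℝ} (hρ : 0 < ρ) :
    (Ev univ (ChR sh k x (M * ρ) ρ) : Set (Conf E))ᶜ ⊆
      ⋃ a ∈ C5_box M, ⋃ K, (Ev univ (CrR sh k K (netp x (ρ / 8) a) (ρ / 8)) : Set (Conf E))ᶜ := by
  intro w hw
  have h1 : ¬ ∀ l : List (Idx × E), (∀ p ∈ l, p ∈ Sp w ∧ p.1 ∈ (univ : Set Idx)) →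
      ¬ ChR sh k x (M * ρ) ρ l := hw
  push Not at h1
  obtain ⟨l, hl, hR⟩ := h1
  obtain ⟨a, ha, K, hK⟩ := C5_det hρ hR
  refine mem_biUnion ha (mem_iUnion.2 ⟨K, ?_⟩)
  intro hE
  exact hE l hl hK

omit [MeasurableSpace E] in
private lemma C5_mono (k : ℕ) (x : Plane) (ρ : ℝ) :
    Monotone fun K => (Ev univ (CrR sh k K x ρ) : Set (Conf E))ᶜ := by
  intro K K' hKK w hw hE
  apply hw
  intro l hl hR
  obtain ⟨h1, h2, h3, h4, h5⟩ := hR
  refine hE l hl ⟨h1, h2, fun p hp => ⟨(h3 p hp).1, ?_⟩, h4, h5⟩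
  have := (h3 p hp).2
  have hKK' : K ≤ K' := hKK
  omega

theorem lemmaC (hS : IsShape ν sh) (i₀ M : ℕ) : ∃ (C : ℝ) (r₀ : ℝ≥0), 0 < C ∧ 0 < r₀ ∧
    ∀ r : ℝ≥0, r < r₀ → ∀ (k i : ℕ) (x : Plane),
      law r ν (Ev univ (ChR sh k x (M * (2 ^ i / 2 ^ i₀ / 2 ^ k)) (2 ^ i / 2 ^ i₀ / 2 ^ k)))ᶜ ≤
        ENNReal.ofReal (C * r / 2 ^ i) := by
  obtain ⟨C, r₀, hC, hr₀, hcp⟩ := cp_decay hS (i₀ + 3)
  refine ⟨(C5_box M).card * C, r₀, ?_, hr₀, fun r hr k i x => ?_⟩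
  · have : 0 < (C5_box M).card := by
      rw [Finset.card_pos]
      refine ⟨(0, 0), ?_⟩
      rw [C5_box, Finset.mem_product, Finset.mem_Icc]
      have : (0 : ℤ) ≤ M := Int.natCast_nonneg M
      constructor <;> constructor <;> simp only <;> omega
    positivity
  set ρ : ℝ := 2 ^ i / 2 ^ i₀ / 2 ^ k with hρ
  have hρ0 : 0 < ρ := by positivity
  have hρ8 : ρ / 8 = 2 ^ i / 2 ^ (i₀ + 3) / 2 ^ k := by
    rw [hρ, pow_add]
    field_simp
    norm_num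
  calc law r ν (Ev univ (ChR sh k x (M * ρ) ρ))ᶜ
      ≤ law r ν (⋃ a ∈ C5_box M, ⋃ K, (Ev univ (CrR sh k K (netp x (ρ / 8) a) (ρ / 8)))ᶜ) :=
        measure_mono (C5_sub hρ0)
    _ ≤ ∑ a ∈ C5_box M, law r ν (⋃ K, (Ev univ (CrR sh k K (netp x (ρ / 8) a) (ρ / 8)))ᶜ) :=
        measure_biUnion_finset_le _ _
    _ ≤ ∑ a ∈ C5_box M, ENNReal.ofReal (C * r / 2 ^ i) := by
        refine Finset.sum_le_sum fun a _ => ?_
        rw [(C5_mono k (netp x (ρ / 8) a) (ρ / 8)).measure_iUnion]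
        refine iSup_le fun K => ?_
        have := hcp r hr k K i (netp x (ρ / 8) a)
        rw [← hρ8] at this
        exact this
    _ = ENNReal.ofReal ((C5_box M).card * C * r / 2 ^ i) := by
        rw [Finset.sum_const, nsmul_eq_mul, ← ENNReal.ofReal_natCast,
          ← ENNReal.ofReal_mul (Nat.cast_nonneg _)]
        congr 1
        ring

theorem chain_gen (hS : IsShape ν sh) (A d : ℝ) (hd : 0 < d) :
    ∃ (C : ℝ) (r₀ : ℝ≥0), 0 < C ∧ 0 < r₀ ∧ ∀ r : ℝ≥0, r < r₀ → ∀ (k : ℕ) (x : Plane),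
      law r ν (Ev univ (ChR sh k x (A / 2 ^ k) (d / 2 ^ k)))ᶜ ≤ ENNReal.ofReal (C * r) := by
  obtain ⟨i₀, hi₀⟩ := exists_pow_lt_of_lt_one hd (show (1 / 2 : ℝ) < 1 by norm_num)
  obtain ⟨M, hM⟩ := exists_nat_ge (A * 2 ^ i₀)
  obtain ⟨C, r₀, hC, hr₀, h⟩ := lemmaC hS i₀ M
  refine ⟨C, r₀, hC, hr₀, fun r hr k x => ?_⟩
  have h1 := h r hr k 0 x
  rw [pow_zero, div_one] at h1
  refine le_trans (measure_mono ?_) h1
  apply compl_subset_compl.2
  intro w hw l hl hR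
  obtain ⟨g1, g2, g3, g4, g5⟩ := hR
  refine hw l hl ⟨g1, g2, g3, ?_, ?_⟩
  · refine g4.mono (inter_subset_inter_right _ (closedBall_subset_closedBall ?_))
    have : A / 2 ^ k = A * 2 ^ i₀ * (1 / 2 ^ i₀ / 2 ^ k) := by
      field_simp
    rw [this]
    exact mul_le_mul_of_nonneg_right hM (by positivity)
  · refine le_trans ?_ g5
    rw [one_div, inv_pow, ← one_div] at hi₀
    exact div_le_div_of_nonneg_right hi₀.le (by positivity)

end Pool.Agent.Helper16.CD
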