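import Pool.Agent.Helper16.CD.KDefs
import Pool.Agent.Helper22.CD.Inv2

/-!
# CD-C: crossings (definitions for the small chain lemma)
-/

set_option autoImplicit false

namespace Pool.Agent.Helper16.CD

open MeasureTheory ProbabilityTheory Metric Set
open scoped ENNReal NNReal
open Pool.Agent.Helper3.CD Pool.Agent.Helper22.CD

variable {E : Type}

/-- walk of levels in `[k, k + K)` meeting `closedBall x ρ`, not inside `ball x (2ρ)` -/
def CrR (sh : E → Set Plane) (k K : ℕ) (x : Plane) (ρ : ℝ) (l : List (Idx × E)) : Prop :=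
  l ≠ [] ∧ Walk sh l ∧ (∀ p ∈ l, k ≤ p.1.1 ∧ p.1.1 < k + K) ∧
    (un sh l ∩ closedBall x ρ).Nonempty ∧ ¬ un sh l ⊆ ball x (2 * ρ)

/-- crossing probability -/
noncomputable def cp [MeasurableSpace E] (r : ℝ≥0) (ν : Measure E) (sh : E → Set Plane)
    (k K : ℕ) (x : Plane) (ρ : ℝ) : ℝ≥0∞ :=
  law r ν (Ev univ (CrR sh k K x ρ))ᶜ

/-- points of the net of mesh `ρ` around `x` -/
noncomputable def netp (x : Plane) (ρ : ℝ) (a : ℤ × ℤ) : Plane := (x.1 + ρ * a.1, x.2 + ρ * a.2)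

end Pool.Agent.Helper16.CD
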