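import Pool.Agent.Helper3.CD.Base

/-!
# CD: definitions (abstract loop soup in the plane with the sup metric)

`Plane = ℝ × ℝ` (sup metric).  `Idx`: dyadic squares `(k, v)` = `2^-k (v + [0,1]²)`.
A shape space is `(E, ν)` with `sh : E → Set Plane`; the loop of the soup point `(i, e)` is
`lp sh (i, e) = pos i '' sh e`.
-/

set_option autoImplicit false

namespace Pool.Agent.Helper16.CD

open MeasureTheory ProbabilityTheory Metric Set
open scoped ENNReal NNReal
open Pool.Agent.Helper3.CD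

/-- the plane with the sup metric -/
abbrev Plane := ℝ × ℝ

/-- a set together with the bounded components of its complement -/
def fillIn {Q : Type*} [PseudoMetricSpace Q] (A : Set Q) : Set Q :=
  {z | Bornology.IsBounded (connectedComponentIn Aᶜ z)}

/-- two sets of a family are linked if they are joined by a chain of pairwise meeting members -/
def Linked {Q : Type*} (S : Set (Set Q)) (K K' : Set Q) : Prop :=
  Relation.ReflTransGen (fun A B => A ∈ S ∧ B ∈ S ∧ (A ∩ B).Nonempty) K K'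

/-- the cluster of `K` in the family `S` -/
def cluster {Q : Type*} (S : Set (Set Q)) (K : Set Q) : Set Q :=
  ⋃₀ {K' | K' ∈ S ∧ Linked S K K'}

/-- points of `D` surrounded by no cluster of `S` -/
def carpet {Q : Type*} [PseudoMetricSpace Q] (D : Set Q) (S : Set (Set Q)) : Set Q :=
  {z | z ∈ D ∧ ∀ K ∈ S, z ∉ interior (fillIn (closure (cluster S K)))}

/-- quasisymmetric homeomorphisms -/
def IsQS {X Y : Type*} [MetricSpace X] [MetricSpace Y] (f : X → Y) : Prop :=
  IsHomeomorph f ∧ ∃ η : ℝ≥0 ≃ₜ ℝ≥0, ∀ x a b : X, ∀ t : ℝ≥0,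
    nndist x a ≤ t * nndist x b → nndist (f x) (f a) ≤ η t * nndist (f x) (f b)

/-! ### dyadic squares -/

/-- `(k, v)`: the square `2^-k (v + [0,1]²)` -/
abbrev Idx := ℕ × ℤ × ℤ

/-- side length -/
noncomputable def side (i : Idx) : ℝ := (1 / 2) ^ i.1

/-- the affine map of the unit square onto the square `i` -/
noncomputable def pos (i : Idx) (z : Plane) : Plane :=
  (side i * (i.2.1 + z.1), side i * (i.2.2 + z.2))

/-- centre -/
noncomputable def ctr (i : Idx) : Plane := pos i (1 / 2, 1 / 2)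

/-- concentric square of `t` times the side (closed) -/
noncomputable def big (t : ℝ) (i : Idx) : Set Plane := closedBall (ctr i) (t * side i / 2)

/-- the closed square -/
noncomputable def cell (i : Idx) : Set Plane := big 1 i

/-- the 8-adic parent -/
def up (i : Idx) : Idx := (i.1 - 3, i.2.1 / 8, i.2.2 / 8)

/-- position in the 8-adic parent -/
def dig (i : Idx) : ℤ × ℤ := (i.2.1 % 8, i.2.2 % 8)

/-- the block parent -/
def par (n : ℕ) (i : Idx) : Idx := up^[n] i

/-- positions of the children of a block square -/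
abbrev J (n : ℕ) := Fin (8 ^ n) × Fin (8 ^ n)

/-- block children -/
def child (n : ℕ) (i : Idx) (j : J n) : Idx :=
  (i.1 + 3 * n, 8 ^ n * i.2.1 + (j.1.1 : ℤ), 8 ^ n * i.2.2 + (j.2.1 : ℤ))

/-- descendants of depth `b` -/
def desc (n : ℕ) (V : Idx) : ℕ → Finset Idx
  | 0 => {V}
  | b + 1 => (desc n V b).biUnion fun W => Finset.univ.image (child n W)

/-- the unit square -/
def V0 : Idx := (0, 0, 0)

/-- the root square `[0, 8^-n]²` -/
def rootV (n : ℕ) : Idx := (3 * n, 0, 0)

/-! ### soups -/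

section Soup

variable {E : Type}

/-- the loop of a soup point -/
noncomputable def lp (sh : E → Set Plane) (p : Idx × E) : Set Plane := pos p.1 '' sh p.2

/-- union of the loops of a list -/
noncomputable def un (sh : E → Set Plane) (l : List (Idx × E)) : Set Plane :=
  ⋃ p ∈ l, lp sh p

/-- consecutive loops meet -/
def Walk (sh : E → Set Plane) (l : List (Idx × E)) : Prop :=
  List.IsChain (fun p q => (lp sh p ∩ lp sh q).Nonempty) l

/-- configurations on the dyadic squares (`Cfg`, `Sp`, `Ev`, `MeasR`, ... are in `Helper3/CD/Base`) -/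
abbrev Conf (E : Type) := Cfg Idx E

/-- law of the soup: in each dyadic square a Poisson number with mean `r` of points with independent
marks of law `ν` -/
noncomputable def law {E : Type} [MeasurableSpace E] (r : ℝ≥0) (ν : Measure E) :
    Measure (Conf E) :=
  soup (fun _ : Idx => r) (fun _ => ν)

instance {E : Type} [MeasurableSpace E] (r : ℝ≥0) (ν : Measure E) [IsProbabilityMeasure ν] :
    IsProbabilityMeasure (law r ν) := by
  unfold law; infer_instance

end Soup

/-! ### the pattern -/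

/-- removed positions of the 8 x 8 pattern -/
def isR (d : ℤ × ℤ) : Prop :=
  1 ≤ d.1 ∧ d.1 ≤ 6 ∧ 1 ≤ d.2 ∧ d.2 ≤ 6 ∧ (d.1 = 1 ∨ d.1 = 6 ∨ d.2 = 1 ∨ d.2 = 6) ∧ d ≠ (1, 3)

/-- inner positions -/
def isI (d : ℤ × ℤ) : Prop := 2 ≤ d.1 ∧ d.1 ≤ 5 ∧ 2 ≤ d.2 ∧ d.2 ≤ 5

open Classical in
/-- weights: `1/8` inside, `2` in the channel `(1, 3)`, `1` otherwise -/
noncomputable def wt (d : ℤ × ℤ) : ℝ := if isI d then 1 / 8 else if d = (1, 3) then 2 else 1

/-- the removed part of the unit square -/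
def Hset : Set Plane :=
  {z | ∃ d : ℤ × ℤ, isR d ∧ (d.1 : ℝ) / 8 ≤ z.1 ∧ z.1 ≤ (d.1 + 1) / 8 ∧
    (d.2 : ℝ) / 8 ≤ z.2 ∧ z.2 ≤ (d.2 + 1) / 8}

/-- a point of `Hset` -/
noncomputable def h0 : Plane := (3 / 16, 3 / 16)

open Classical in
/-- the factor of the step from the 8-adic parent to `i`, for a set `G` of good squares -/
noncomputable def wgt (G : Set Idx) (i : Idx) : ℝ := if up i ∈ G then wt (dig i) else 1

/-- the 8-adic square of level `m` (dyadic level `3 m`) containing `z` -/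
noncomputable def qq (m : ℕ) (z : Plane) : Idx := (3 * m, ⌊8 ^ m * z.1⌋, ⌊8 ^ m * z.2⌋)

/-- product of the factors down to level `N` -/
noncomputable def WN (G : Set Idx) (N : ℕ) (z : Plane) : ℝ :=
  ∏ m ∈ Finset.range N, wgt G (qq (m + 1) z)

/-! ### shapes -/

section Shape

variable {E : Type} [MeasurableSpace E]

/-- shapes that make a square good -/
def Lset (sh : E → Set Plane) : Set E :=
  {e | sh e ⊆ thickening (1 / 32) Hset ∧ Disjoint (sh e) Hset ∧ h0 ∈ fillIn (sh e)}

/-- the assumptions on the shapes -/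
structure IsShape (ν : Measure E) (sh : E → Set Plane) : Prop where
  prob : IsProbabilityMeasure ν
  compact : ∀ e, IsCompact (sh e)
  conn : ∀ e, IsConnected (sh e)
  root : ∀ e, ∃ z ∈ sh e, 0 ≤ z.1 ∧ z.1 ≤ 1 ∧ 0 ≤ z.2 ∧ z.2 ≤ 1
  meas : ∀ z : Plane, Measurable fun e => infDist z (sh e)
  moment : ∫⁻ e, ENNReal.ofReal (diam (sh e) ^ 4) ∂ν < ⊤
  hit : ∀ ε : ℝ≥0∞, 0 < ε → ∃ t : ℝ, 0 < t ∧ ∀ x : Plane,
    ∑' v : ℤ × ℤ, ν {e | (lp sh ((0, v), e) ∩ closedBall x t).Nonempty} ≤ ε
  good : 0 < ν (Lset sh)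

end Shape

/-! ### relations -/

section Rel

variable {E : Type}

/-- walk of levels at least `k`, meeting `closedBall x R`, of diameter at least `d` -/
def ChR (sh : E → Set Plane) (k : ℕ) (x : Plane) (R d : ℝ) (l : List (Idx × E)) : Prop :=
  l ≠ [] ∧ Walk sh l ∧ (∀ p ∈ l, k ≤ p.1.1) ∧ (un sh l ∩ closedBall x R).Nonempty ∧
    d ≤ diam (un sh l)

/-- a loop of level in `[a, b)` meeting `closedBall x R` -/
def OneR (sh : E → Set Plane) (a b : ℕ) (x : Plane) (R : ℝ) (l : List (Idx × E)) : Prop :=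
  ∃ p, l = [p] ∧ a ≤ p.1.1 ∧ p.1.1 < b ∧ (lp sh p ∩ closedBall x R).Nonempty

/-- `K1` fails -/
def K1r (sh : E → Set Plane) (V V' : Idx) (l : List (Idx × E)) : Prop :=
  OneR sh V.1 V'.1 (ctr V') (9 * side V' / 2) l

/-- `K2` fails -/
def K2r (sh : E → Set Plane) (V' : Idx) (l : List (Idx × E)) : Prop :=
  ChR sh V'.1 (ctr V') (9 * side V' / 2) (side V' / 4) l

/-- a walk of levels at least `k` inside `9V`, avoiding `7V'`, whose closed neighbourhood of
width `τ side V'` surrounds the centre of `V'` -/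
def K3r (sh : E → Set Plane) (τ : ℝ) (k : ℕ) (V V' : Idx) (l : List (Idx × E)) : Prop :=
  l ≠ [] ∧ Walk sh l ∧ (∀ p ∈ l, k ≤ p.1.1) ∧ un sh l ⊆ big 9 V ∧
    Disjoint (un sh l) (big 7 V') ∧ ctr V' ∈ fillIn (cthickening (τ * side V') (un sh l))

/-- one of the three conditions for the pair `V, V'` fails -/
def bad (sh : E → Set Plane) (τ : ℝ) (V V' : Idx) (l : List (Idx × E)) : Prop :=
  K1r sh V V' l ∨ K2r sh V' l ∨ K3r sh τ V.1 V V' l

/-- one of the conditions fails for the last `b` pairs of block ancestors of `V` -/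
def badP (sh : E → Set Plane) (n : ℕ) (τ : ℝ) : ℕ → Idx → List (Idx × E) → Prop
  | 0, _, _ => False
  | b + 1, V, l => badP sh n τ b (par n V) l ∨ bad sh τ (par n V) V l

/-- the root condition fails -/
def Rootr (sh : E → Set Plane) (n : ℕ) (l : List (Idx × E)) : Prop :=
  OneR sh 0 (3 * n) 0 4 l ∨ ChR sh 0 0 4 (side (rootV n) / 4) l

/-- the separation condition around `T` fails -/
def Gr (sh : E → Set Plane) (n : ℕ) (τ : ℝ) (T : Idx) (l : List (Idx × E)) : Prop :=
  OneR sh (T.1 - 6 * n) T.1 (ctr T) (31 * side T / 2) l ∨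
    ChR sh T.1 (ctr T) (31 * side T / 2) (τ / 2 * side T) l

/-- cells of level at least that of `V` inside `19V` -/
def inC (V : Idx) : Set Idx := {i | V.1 ≤ i.1 ∧ cell i ⊆ big 19 V}

/-- the square `V` of depth `b` below the root is kept -/
def kept (sh : E → Set Plane) (n : ℕ) (τ : ℝ) (b : ℕ) (V : Idx) : Set (Conf E) :=
  Ev univ fun l => Rootr sh n l ∨ badP sh n τ b V l

/-- a single loop of level in `[lev V, lev V')` surrounding `V'` -/
def Singr (sh : E → Set Plane) (V V' : Idx) (l : List (Idx × E)) : Prop :=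
  ∃ p, l = [p] ∧ V.1 ≤ p.1.1 ∧ p.1.1 < V'.1 ∧ lp sh p ⊆ interior (big 3 V) ∧
    Disjoint (lp sh p) (big 7 V') ∧ ctr V' ∈ fillIn (lp sh p)

/-- good squares -/
def Gd (sh : E → Set Plane) (w : Conf E) : Set Idx := {i | ∃ e, (i, e) ∈ Sp w ∧ e ∈ Lset sh}

open Classical in
/-- weighted indicator of a block step -/
noncomputable def Psi (sh : E → Set Plane) (n : ℕ) (s : ℝ) (V' : Idx) (w : Conf E) : ℝ≥0∞ :=
  (if w ∈ Ev univ (Singr sh (par n V') V') then 1 else 0) *
    ∏ t ∈ Finset.range n, ENNReal.ofReal (wgt (Gd sh w) (up^[t] V') ^ s)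

/-- open unit disc -/
def oD : Set Plane := {z | z.1 ^ 2 + z.2 ^ 2 < 1}

/-- closed unit disc -/
def cD : Set Plane := {z | z.1 ^ 2 + z.2 ^ 2 ≤ 1}

/-- loops of the soup inside the disc -/
def loopsIn (sh : E → Set Plane) (w : Conf E) : Set (Set Plane) :=
  {K | ∃ p ∈ Sp w, K = lp sh p ∧ K ⊆ oD}

/-- the carpet -/
def Xs (sh : E → Set Plane) (w : Conf E) : Set Plane := carpet cD (loopsIn sh w)

/-- good squares inside the disc -/
def GD (sh : E → Set Plane) (w : Conf E) : Set Idx := {i | i ∈ Gd sh w ∧ cell i ⊆ oD}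

end Rel

end Pool.Agent.Helper16.CD
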