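import Pool.Agent.Helper16.CD.Defs

/-!
# CD, part A (deterministic): definitions of the new distance

`X ⊆ Plane`, `G` a set of 8-adic squares whose removed part `pos i '' Hset` misses `X`.
-/

set_option autoImplicit false

namespace Pool.Agent.Helper16.CD

open MeasureTheory ProbabilityTheory Metric Set
open scoped ENNReal NNReal

/-- the removed parts of the good squares miss `X` -/
def Avoids (X : Set Plane) (G : Set Idx) : Prop :=
  ∀ i ∈ G, ∀ z ∈ Hset, pos i z ∉ X

/-- scale of a pair of points: `8^-(N+1) ≤ dist < 8^-N`, and `0` if `dist ≥ 1` -/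
noncomputable def NN (x y : Plane) : ℕ := ⌈Real.logb 8 (1 / dist x y)⌉₊ - 1

/-- weighted distance -/
noncomputable def dlt (G : Set Idx) (x y : Plane) : ℝ := WN G (NN x y) x * dist x y

/-- symmetric weighted distance -/
noncomputable def dls (G : Set Idx) (x y : Plane) : ℝ := max (dlt G x y) (dlt G y x)

/-- chain distance in `X` -/
noncomputable def DD (G : Set Idx) (X : Set Plane) (x y : Plane) : ℝ :=
  sInf {s : ℝ | ∃ (n : ℕ) (c : ℕ → Plane), (∀ i, c i ∈ X) ∧ c 0 = x ∧ c n = y ∧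
    s = ∑ i ∈ Finset.range n, dls G (c i) (c (i + 1))}

/-- entrance point of the channel -/
noncomputable def e0 : Plane := (1 / 8, 7 / 16)

open Classical in
/-- collapse map of the unit square for the position `d`: constant `e0` inside; in the channel
`z ↦ e0 + (2 - 8 z.1) (z - e0)`; identity elsewhere -/
noncomputable def col (d : ℤ × ℤ) (z : Plane) : Plane :=
  if isI d then e0 else if d = (1, 3) then
    (1 / 8 + (2 - 8 * z.1) * (z.1 - 1 / 8), 7 / 16 + (2 - 8 * z.1) * (z.2 - 7 / 16)) else z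

/-- closed subsquare at position `d` of the unit square -/
def sq (d : ℤ × ℤ) : Set Plane :=
  {z | (d.1 : ℝ) / 8 ≤ z.1 ∧ z.1 ≤ (d.1 + 1) / 8 ∧ (d.2 : ℝ) / 8 ≤ z.2 ∧ z.2 ≤ (d.2 + 1) / 8}

/-- positions -/
def isD (d : ℤ × ℤ) : Prop := 0 ≤ d.1 ∧ d.1 ≤ 7 ∧ 0 ≤ d.2 ∧ d.2 ≤ 7

/-- outer positions -/
def isOut (d : ℤ × ℤ) : Prop := d.1 = 0 ∨ d.1 = 7 ∨ d.2 = 0 ∨ d.2 = 7

end Pool.Agent.Helper16.CD
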