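import Pool.Agent.Helper16.CD.KDefs
import Pool.Agent.Helper16.CD.Top
import Pool.Agent.Helper16.CD.Desc
import Pool.Agent.Helper16.CD.QDefs

/-!
# CD-GS1: shapes of `Lset` do not surround the centre

`Hset ⊆ [1/8, 7/8]²`.  `e ∈ Lset sh`: `sh e ⊆ thickening (1/32) Hset`.
`not_fill_centre`: `z` with `3/8 ≤ z.1 ≤ 5/8`, `3/8 ≤ z.2 ≤ 5/8` is not in `fillIn (sh e)`.  The path: the vertical segment from `z` to
`(z.1, 7/16)`, then the horizontal ray `{(t, 7/16) | t ≤ z.1}`.  Its union is connected and unbounded; it is at sup distance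
`≥ 1/16 > 1/32` from `Hset`: points of `Hset` lie in a closed square `sq d` with `isR d`.  Vertical segment: it is inside `[3/8,5/8]²`, while
each `sq d`, `isR d`, has `z.1 ≤ 2/8` or `z.1 ≥ 6/8` or `z.2 ≤ 2/8` or `z.2 ≥ 6/8`: distance `≥ 1/8`.  Ray, point `(t, 7/16)`: for
`sq d` with `d.2 ≤ 2`: `z.2 ≤ 3/8`, difference `≥ 1/16`; `d.2 ≥ 4`: `z.2 ≥ 4/8`, difference `≥ 1/16`; `d.2 = 3` and `isR d`: `d.1 = 6`
(`d.1 = 1` is the channel, which is excluded), `z.1 ≥ 6/8` and `t ≤ 5/8`.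
`not_singr`: `V' = child n V0 j`, `t < n`, `Q = up^[t+1] V'`, `dig (up^[t] V') ∈ {3, 4}²`, `e ∈ Lset sh`: then
`¬ Singr sh V0 V' [(Q, e)]`, because `ctr V' ∈ cell (up^[t] V') = pos Q '' sq (dig ..)`, `sq d ⊆ [3/8, 5/8]²` for `d ∈ {3,4}²`,
`lp sh (Q, e) = pos Q '' sh e`, and `fillIn_image` (`pos Q z = (side Q * (z.1 + v.1), ...)`).
-/

set_option autoImplicit false

namespace Pool.Agent.Helper16.CD

open MeasureTheory ProbabilityTheory Metric Set
open scoped ENNReal NNReal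
open Pool.Agent.Helper3.CD

variable {E : Type} [MeasurableSpace E] {ν : Measure E} {sh : E → Set Plane}

/-- points close to `Hset` -/
private theorem gs1_near {c : Plane} (hc : c ∈ thickening (1 / 32) Hset) :
    (c.1 < 1 / 4 + 1 / 32 ∨ 3 / 4 - 1 / 32 < c.1 ∨ c.2 < 1 / 4 + 1 / 32 ∨ 3 / 4 - 1 / 32 < c.2) ∧
      (c.2 = 7 / 16 → 3 / 4 - 1 / 32 < c.1) := by
  rw [mem_thickening_iff] at hc
  obtain ⟨h, ⟨d, hd, h1, h2, h3, h4⟩, hdist⟩ := hc
  rw [Prod.dist_eq, max_lt_iff, Real.dist_eq, Real.dist_eq, abs_lt, abs_lt] at hdist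
  obtain ⟨⟨e1, e2⟩, e3, e4⟩ := hdist
  obtain ⟨g1, g2, g3, g4, g5, g6⟩ := hd
  constructor
  · rcases g5 with g | g | g | g
    · rw [g] at h2
      push_cast at h2
      exact Or.inl (by linarith)
    · rw [g] at h1
      push_cast at h1
      exact Or.inr (Or.inl (by linarith))
    · rw [g] at h4
      push_cast at h4
      exact Or.inr (Or.inr (Or.inl (by linarith)))
    · rw [g] at h3
      push_cast at h3
      exact Or.inr (Or.inr (Or.inr (by linarith)))
  · intro hc2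
    rw [hc2] at e3 e4
    have f1 : (d.2 : ℝ) < 4 := by linarith
    have f2 : (2 : ℝ) < d.2 := by linarith
    have f3 : d.2 < 4 := by exact_mod_cast f1
    have f4 : 2 < d.2 := by exact_mod_cast f2
    have f5 : d.2 = 3 := by omega
    have f6 : d.1 = 6 := by
      rcases g5 with g | g | g | g
      · exact absurd (Prod.ext g f5) g6
      · exact g
      · omega
      · omega
    rw [f6] at h1
    push_cast at h1
    linarith

theorem not_fill_centre {e : E} (he : e ∈ Lset sh) {z : Plane} (h1 : 3 / 8 ≤ z.1)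
    (h2 : z.1 ≤ 5 / 8) (h3 : 3 / 8 ≤ z.2) (h4 : z.2 ≤ 5 / 8) : z ∉ fillIn (sh e) := by
  intro hz
  have hsub : sh e ⊆ thickening (1 / 32) Hset := he.1
  have hc1 : IsPreconnected ((fun s : ℝ => ((z.1, s) : Plane)) '' uIcc z.2 (7 / 16)) :=
    isPreconnected_uIcc.image _ (by fun_prop)
  have hc2 : IsPreconnected ((fun t : ℝ => ((t, 7 / 16) : Plane)) '' Iic z.1) :=
    isPreconnected_Iic.image _ (by fun_prop)
  have hc : IsPreconnected ((fun s : ℝ => ((z.1, s) : Plane)) '' uIcc z.2 (7 / 16) ∪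
      (fun t : ℝ => ((t, 7 / 16) : Plane)) '' Iic z.1) := by
    refine IsPreconnected.union ((z.1, 7 / 16) : Plane) ⟨7 / 16, right_mem_uIcc, rfl⟩
      ⟨z.1, mem_Iic.2 le_rfl, rfl⟩ hc1 hc2
  have hzc : z ∈ (fun s : ℝ => ((z.1, s) : Plane)) '' uIcc z.2 (7 / 16) ∪
      (fun t : ℝ => ((t, 7 / 16) : Plane)) '' Iic z.1 :=
    Or.inl ⟨z.2, left_mem_uIcc, rfl⟩
  have hdis : (fun s : ℝ => ((z.1, s) : Plane)) '' uIcc z.2 (7 / 16) ∪
      (fun t : ℝ => ((t, 7 / 16) : Plane)) '' Iic z.1 ⊆ (sh e)ᶜ := by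
    rintro c (⟨s, hs, rfl⟩ | ⟨t, ht, rfl⟩) hce
    · have h5 := (gs1_near (hsub hce)).1
      have h6 : 3 / 8 ≤ s ∧ s ≤ 5 / 8 := by
        rw [mem_uIcc] at hs
        rcases hs with hs | hs <;> constructor <;> linarith [hs.1, hs.2]
      simp only at h5
      rcases h5 with h5 | h5 | h5 | h5 <;> linarith [h6.1, h6.2]
    · have h5 := (gs1_near (hsub hce)).2 rfl
      simp only at h5
      linarith [mem_Iic.1 ht]
  have hb : Bornology.IsBounded (connectedComponentIn (sh e)ᶜ z) := hz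
  have hb2 := hb.subset (hc.subset_connectedComponentIn hzc hdis)
  obtain ⟨r, hr⟩ := hb2.subset_closedBall (0 : Plane)
  have h5 : ((min z.1 (-r - 1), 7 / 16) : Plane) ∈ closedBall (0 : Plane) r :=
    hr (Or.inr ⟨min z.1 (-r - 1), mem_Iic.2 (min_le_left _ _), rfl⟩)
  rw [mem_closedBall, Prod.dist_eq, max_le_iff, Real.dist_eq] at h5
  have h6 := (abs_le.1 h5.1).1
  simp only [Prod.fst_zero, sub_zero] at h6
  have h7 := min_le_right z.1 (-r - 1)
  linarith

private theorem gs1_side (i : Idx) (h : 3 ≤ i.1) : side (up i) = 8 * side i := by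
  obtain ⟨m, hm⟩ := Nat.exists_eq_add_of_le h
  unfold side up
  simp only [hm, Nat.add_sub_cancel_left, pow_add]
  ring

private theorem gs1_pos_inj (i : Idx) {z z' : Plane} (h : pos i z = pos i z') : z = z' := by
  have hs := side_pos i
  unfold pos at h
  rw [Prod.mk.injEq] at h
  ext
  · have := mul_left_cancel₀ hs.ne' h.1
    linarith
  · have := mul_left_cancel₀ hs.ne' h.2
    linarith

theorem not_singr {n : ℕ} (j : J n) {t : ℕ} (ht : t < n)
    (hd : (dig (up^[t] (child n V0 j))).1 ∈ ({3, 4} : Set ℤ) ∧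
      (dig (up^[t] (child n V0 j))).2 ∈ ({3, 4} : Set ℤ)) {e : E} (he : e ∈ Lset sh) :
    ¬ Singr sh V0 (child n V0 j) [(up^[t + 1] (child n V0 j), e)] := by
  rintro ⟨p, hp, -, -, -, -, hfill⟩
  have hp' : p = (up^[t + 1] (child n V0 j), e) := (List.singleton_injective hp).symm
  rw [hp'] at hfill
  set V' := child n V0 j with hV'
  set U := up^[t] V' with hU
  have hQ : up^[t + 1] V' = up U := by rw [Function.iterate_succ_apply']
  rw [hQ] at hfill
  have hV1 : V'.1 = 3 * n := by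
    rw [hV']
    unfold child V0
    simp
  have hU1 : U.1 = 3 * n - 3 * t := by
    have := par_eq t V'
    unfold par at this
    rw [hU, this, hV1]
  have hU3 : 3 ≤ U.1 := by omega
  -- the centre is in the cell of `U`
  have hmem : ctr V' ∈ cell U := by
    have h1 : ctr V' ∈ big 1 V' := by
      unfold big
      have := side_pos V'
      exact mem_closedBall_self (by positivity)
    exact big_par (n := t) (V := V') (by omega) le_rfl h1
  rw [cell_eq_image] at hmem
  obtain ⟨y, ⟨hy1, hy2, hy3, hy4⟩, hy⟩ := hmem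
  have hs := gs1_side U hU3
  have e1 : U.2.1 = 8 * (up U).2.1 + (dig U).1 := (Int.mul_ediv_add_emod U.2.1 8).symm
  have e2 : U.2.2 = 8 * (up U).2.2 + (dig U).2 := (Int.mul_ediv_add_emod U.2.2 8).symm
  have hctr : ctr V' = pos (up U) ((((dig U).1 : ℝ) + y.1) / 8, (((dig U).2 : ℝ) + y.2) / 8) := by
    rw [← hy]
    unfold pos
    rw [hs]
    have f1 : (U.2.1 : ℝ) = 8 * ((up U).2.1 : ℝ) + ((dig U).1 : ℝ) := by exact_mod_cast e1
    have f2 : (U.2.2 : ℝ) = 8 * ((up U).2.2 : ℝ) + ((dig U).2 : ℝ) := by exact_mod_cast e2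
    rw [f1, f2]
    ext
    · simp only
      ring
    · simp only
      ring
  have hfi : fillIn (lp sh (up U, e)) = pos (up U) '' fillIn (sh e) := by
    have h1 := fillIn_image (side (up U)) (side_pos _)
      (((up U).2.1 : ℝ), ((up U).2.2 : ℝ)) (sh e)
    have h2 : (fun z : Plane => (side (up U) * (z.1 + ((up U).2.1 : ℝ)),
        side (up U) * (z.2 + ((up U).2.2 : ℝ)))) = pos (up U) := by
      funext z
      unfold pos
      rw [add_comm z.1, add_comm z.2]
    simp only [h2] at h1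
    exact h1
  rw [hfi, hctr] at hfill
  obtain ⟨z, hz, hz'⟩ := hfill
  have hz2 := gs1_pos_inj _ hz'
  rw [hz2] at hz
  have g1 : (3 : ℝ) ≤ ((dig U).1 : ℝ) ∧ ((dig U).1 : ℝ) ≤ 4 := by
    rcases hd.1 with h | h
    · rw [h]; norm_num
    · rw [Set.mem_singleton_iff.1 h]; norm_num
  have g2 : (3 : ℝ) ≤ ((dig U).2 : ℝ) ∧ ((dig U).2 : ℝ) ≤ 4 := by
    rcases hd.2 with h | h
    · rw [h]; norm_num
    · rw [Set.mem_singleton_iff.1 h]; norm_num
  refine not_fill_centre he ?_ ?_ ?_ ?_ hz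
  · simp only; linarith [g1.1]
  · simp only; linarith [g1.2]
  · simp only; linarith [g2.1]
  · simp only; linarith [g2.2]

end Pool.Agent.Helper16.CD
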