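import Pool.Agent.Helper16.CD.KDefs
import Pool.Agent.Helper16.CD.Top

/-!
# CD-K3D: case distinction for a bad walk (deterministic)

`l` is a walk of points of `S` with `K3r sh τ V.1 V V' l`; call a point `p` of level in `[lev V, lev V')` a block point.  All loops of `l` are inside
`big 9 V`, so they meet `big 9 V`.
(A) no block point in `l`: all levels are `≥ lev V'`: `K3r sh τ V'.1 V V' l`.
(B) two different block points in `l`.
Otherwise there is exactly one block point `p` (as an element of `Idx × E`; it may occur several times in the list).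
(C) some maximal segment `l'` of `l` of points different from `p` has `diam (un l') ≥ τ side V'`: it is a nonempty walk of levels `≥ lev V'` inside
`big 9 V`, `ChR sh V'.1 (ctr V) (9 side V / 2) (τ side V') l'`.
(D) all these segments have diameter `< τ side V'`: each segment is adjacent in the list to an occurrence of `p`, so its union meets `lp sh p`
and is contained in `cthickening (τ side V') (lp sh p)`.  Hence `un l ⊆ cthickening (τ side V') (lp sh p)` and
`cthickening (τ side V') (un l) ⊆ cthickening (2 τ side V') (lp sh p)` (`cthickening_cthickening_subset`), and `fillIn_mono` (in Avoid.lean, or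
`connectedComponentIn_mono`) gives `ctr V' ∈ fillIn (cthickening (2 τ side V') (lp sh p))`.
Suggestion for (C)/(D): prove by induction on the list a statement like: if `l` is a walk containing `p`, every point `x ∈ un l` is in `lp sh p` or in `un l'` for a
contiguous sublist `l'` (`l' <:+: l`) not containing `p` such that `un l'` meets `lp sh p`.
-/

set_option autoImplicit false

namespace Pool.Agent.Helper16.CD

open MeasureTheory ProbabilityTheory Metric Set
open scoped ENNReal NNReal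
open Pool.Agent.Helper3.CD

variable {E : Type} [MeasurableSpace E] {ν : Measure E} {sh : E → Set Plane}

omit [MeasurableSpace E] in
private theorem K3D_mem_un {l : List (Idx × E)} {x : Plane} :
    x ∈ un sh l ↔ ∃ p ∈ l, x ∈ lp sh p := by
  simp [un]

omit [MeasurableSpace E] in
private theorem K3D_lp_sub {l : List (Idx × E)} {p : Idx × E} (hp : p ∈ l) :
    lp sh p ⊆ un sh l := fun _ hx => K3D_mem_un.2 ⟨p, hp, hx⟩

omit [MeasurableSpace E] in
private theorem K3D_un_mono {l l' : List (Idx × E)} (h : l' <:+: l) : un sh l' ⊆ un sh l := by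
  intro x hx
  obtain ⟨p, hp, hx⟩ := K3D_mem_un.1 hx
  exact K3D_mem_un.2 ⟨p, h.subset hp, hx⟩

private theorem K3D_fill {A B : Set Plane} (h : A ⊆ B) : fillIn A ⊆ fillIn B := by
  intro z hz
  have hz' : Bornology.IsBounded (connectedComponentIn Aᶜ z) := hz
  exact hz'.subset (connectedComponentIn_mono z (Set.compl_subset_compl.2 h))

/-- the first occurrence after a point, segments to the right -/
private theorem K3D_right {α : Type*} {R : α → α → Prop} {q p : α} {l1 l2 : List α}
    (hw : List.IsChain R (l1 ++ q :: l2)) (hp : p ∈ l2) (hqp : q ≠ p) :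
    ∃ l' : List α, l' ≠ [] ∧ l' <:+: (l1 ++ q :: l2) ∧ p ∉ l' ∧ q ∈ l' ∧ ∃ x ∈ l', R x p := by
  obtain ⟨m, n, rfl, hm⟩ := List.eq_append_cons_of_mem hp
  have e : l1 ++ q :: (m ++ p :: n) = l1 ++ ((q :: m) ++ (p :: n)) := by simp
  rw [e] at hw ⊢
  refine ⟨q :: m, by simp, ⟨l1, p :: n, by simp⟩, ?_, List.mem_cons_self .., ?_⟩
  · intro h
    rcases List.mem_cons.1 h with h | h
    · exact hqp h.symm
    · exact hm h
  · have h1 := (List.isChain_append.1 (List.isChain_append.1 hw).2.1).2.2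
    refine ⟨(q :: m).getLast (by simp), List.getLast_mem _, ?_⟩
    exact h1 _ (by rw [List.getLast?_eq_getLast_of_ne_nil (by simp)]; rfl) _ (by simp)

omit [MeasurableSpace E] in
private theorem K3D_seg {l : List (Idx × E)} (hw : Walk sh l) {p : Idx × E} (hp : p ∈ l)
    {x : Plane} (hx : x ∈ un sh l) :
    x ∈ lp sh p ∨ ∃ l' : List (Idx × E), l' ≠ [] ∧ l' <:+: l ∧ p ∉ l' ∧ x ∈ un sh l' ∧
      (un sh l' ∩ lp sh p).Nonempty := by
  obtain ⟨q, hq, hxq⟩ := K3D_mem_un.1 hx
  by_cases hqp : q = p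
  · left
    rwa [hqp] at hxq
  · right
    obtain ⟨l1, l2, rfl⟩ := List.append_of_mem hq
    have hp' : p ∈ l2 ∨ p ∈ l1.reverse := by
      rcases List.mem_append.1 hp with h | h
      · exact Or.inr (List.mem_reverse.2 h)
      · rcases List.mem_cons.1 h with h | h
        · exact absurd h.symm hqp
        · exact Or.inl h
    rcases hp' with hp' | hp'
    · obtain ⟨l', h1, h2, h3, h4, y, hy, z, hz, hz'⟩ := K3D_right hw hp' hqp
      exact ⟨l', h1, h2, h3, K3D_mem_un.2 ⟨q, h4, hxq⟩, z, K3D_mem_un.2 ⟨y, hy, hz⟩, hz'⟩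
    · -- the same for the reversed list
      have hw' : List.IsChain (fun a b : Idx × E => (lp sh a ∩ lp sh b).Nonempty)
          (l2.reverse ++ q :: l1.reverse) := by
        have e : l2.reverse ++ q :: l1.reverse = (l1 ++ q :: l2).reverse := by simp
        rw [e, List.isChain_reverse]
        refine List.IsChain.imp ?_ hw
        intro a b h
        rwa [inter_comm]
      obtain ⟨l', h1, h2, h3, h4, y, hy, z, hz, hz'⟩ := K3D_right hw' hp' hqp
      refine ⟨l'.reverse, by simpa using h1, ?_, by simpa using h3,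
        K3D_mem_un.2 ⟨q, List.mem_reverse.2 h4, hxq⟩, z,
        K3D_mem_un.2 ⟨y, List.mem_reverse.2 hy, hz⟩, hz'⟩
      have e : l1 ++ q :: l2 = (l2.reverse ++ q :: l1.reverse).reverse := by simp
      obtain ⟨a, b, h2⟩ := h2
      refine ⟨b.reverse, a.reverse, ?_⟩
      rw [e, ← h2]
      simp

theorem k3_cases (hS : IsShape ν sh) {τ : ℝ} (hτ : 0 < τ) {V V' : Idx} {S : Set (Idx × E)}
    {l : List (Idx × E)} (hl : ∀ p ∈ l, p ∈ S) (h : K3r sh τ V.1 V V' l) :
    K3r sh τ V'.1 V V' l ∨
    (∃ p ∈ S, ∃ q ∈ S, p ≠ q ∧ (V.1 ≤ p.1.1 ∧ p.1.1 < V'.1 ∧ (lp sh p ∩ big 9 V).Nonempty) ∧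
      (V.1 ≤ q.1.1 ∧ q.1.1 < V'.1 ∧ (lp sh q ∩ big 9 V).Nonempty)) ∨
    (∃ p ∈ S, (V.1 ≤ p.1.1 ∧ p.1.1 < V'.1 ∧ (lp sh p ∩ big 9 V).Nonempty) ∧
      ∃ l' : List (Idx × E), (∀ q ∈ l', q ∈ S) ∧
        ChR sh V'.1 (ctr V) (9 * side V / 2) (τ * side V') l') ∨
    (∃ p ∈ S, V.1 ≤ p.1.1 ∧ p.1.1 < V'.1 ∧ lp sh p ⊆ big 9 V ∧ Disjoint (lp sh p) (big 7 V') ∧
      ctr V' ∈ fillIn (cthickening (2 * τ * side V') (lp sh p))) := by
  obtain ⟨h1, h2, h3, h4, h5, h6⟩ := h
  have hs : 0 < side V' := by unfold side; positivity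
  have hlp : ∀ p : Idx × E, (lp sh p).Nonempty := fun p =>
    ((hS.conn p.2).nonempty.image _)
  have hmeet : ∀ p ∈ l, (lp sh p ∩ big 9 V).Nonempty := by
    intro p hp
    obtain ⟨x, hx⟩ := hlp p
    exact ⟨x, hx, h4 (K3D_lp_sub hp hx)⟩
  by_cases hA : ∀ p ∈ l, V'.1 ≤ p.1.1
  · exact Or.inl ⟨h1, h2, hA, h4, h5, h6⟩
  right
  push Not at hA
  obtain ⟨p, hp, hpV⟩ := hA
  by_cases hB : ∃ q ∈ l, q ≠ p ∧ q.1.1 < V'.1
  · obtain ⟨q, hq, hqp, hqV⟩ := hB
    exact Or.inl ⟨p, hl p hp, q, hl q hq, Ne.symm hqp, ⟨h3 p hp, hpV, hmeet p hp⟩,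
      ⟨h3 q hq, hqV, hmeet q hq⟩⟩
  right
  push Not at hB
  by_cases hC : ∃ l' : List (Idx × E), l' ≠ [] ∧ l' <:+: l ∧ p ∉ l' ∧
      τ * side V' ≤ diam (un sh l')
  · left
    obtain ⟨l', e1, e2, e3, e4⟩ := hC
    refine ⟨p, hl p hp, ⟨h3 p hp, hpV, hmeet p hp⟩, l', fun q hq => hl q (e2.subset hq), e1,
      ?_, ?_, ?_, e4⟩
    · obtain ⟨a, b, rfl⟩ := e2
      exact (List.IsChain.left_of_append h2).right_of_append
    · intro q hq
      refine hB q (e2.subset hq) ?_
      rintro rfl
      exact e3 hq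
    · obtain ⟨q, hq⟩ := List.exists_mem_of_ne_nil l' e1
      obtain ⟨x, hx⟩ := hlp q
      have hx' : x ∈ un sh l' := K3D_lp_sub hq hx
      exact ⟨x, hx', h4 (K3D_un_mono e2 hx')⟩
  · right
    push Not at hC
    have hbd : Bornology.IsBounded (un sh l) := (isCompact_un hS l).isBounded
    refine ⟨p, hl p hp, h3 p hp, hpV, (K3D_lp_sub hp).trans h4,
      h5.mono_left (K3D_lp_sub hp), ?_⟩
    have hsub : un sh l ⊆ cthickening (τ * side V') (lp sh p) := by
      intro x hx
      rcases K3D_seg h2 hp hx with hx | ⟨l', e1, e2, e3, e4, y, hy, hy'⟩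
      · exact self_subset_cthickening _ hx
      · refine mem_cthickening_of_dist_le x y _ _ hy' ?_
        have h7 := hC l' e1 e2 e3
        have h8 := dist_le_diam_of_mem (hbd.subset (K3D_un_mono e2)) e4 hy
        linarith
    refine K3D_fill ?_ h6
    refine (cthickening_subset_of_subset _ hsub).trans ?_
    refine (cthickening_cthickening_subset (by positivity) (by positivity) _).trans ?_
    refine cthickening_mono (le_of_eq ?_) _
    ring

end Pool.Agent.Helper16.CD
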