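import Pool.Agent.Helper16.CD.Top
import Pool.Agent.Helper16.CD.Desc

/-!
# CD-KSW: walks that come close to a kept square have high levels

Setting: `V ∈ desc n (rootV n) b`, `w ∈ kept sh n τ b V`, `W = (par n)^[t] V` with `t ≤ b` (an ancestor of `V` or `V`), `l` a walk of
soup points whose loops are inside `oD` (so they meet `closedBall 0 4`), and the first loop meets `big 8 W`.
Claim: all levels in `l` are at least `W.1`.

Conditions used (all from `w ∈ Ev univ ..`, `badP_iff`):
 Root: no soup point of level `< 3 n` has a loop meeting `closedBall 0 4` (`OneR`), every walk of soup points meeting `closedBall 0 4`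
   has diameter `< side (rootV n) / 4` (`ChR`).
 K1 for the pair (`(par n)^[u+1] V`, `(par n)^[u] V`), `u < b`: no soup point of level in `[lev (par^[u+1] V), lev (par^[u] V))` meets
   `big 9 ((par n)^[u] V)`.
 K2 for the same pair: walks of levels `≥ lev (par^[u] V)` meeting `big 9 (par^[u] V)` have diameter `< side / 4`.
Step 1: a soup point `q` with loop in `oD` and level `< W.1` does not meet `big 9 W`.  Its level is `≥ 3 n` by Root, so it lies in
`[lev (par^[u+1] V), lev (par^[u] V))` for some `u` with `t ≤ u < b` (levels of the ancestors: `lev (par^[u] V) = 3 n (b + 1 - u)`),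
and `big 9 W ⊆ big 9 (par^[u] V)` by `big_par` iterated; contradiction with K1.
Step 2: suppose some point of `l` has level `< W.1`; take the first one, `q`.  It is not the first element of `l` by Step 1
(`big 8 W ⊆ big 9 W`).  The part `l'` of `l` before `q` is a nonempty walk of levels `≥ W.1` meeting `big 8 W`; its diameter is
`< side W / 4`, by K2 if `t < b`, by Root if `t = b` (`W = rootV n`).  So `un l' ⊆ big (8.5) W` and the loop of `q` meets `un l'`, hence
`big 9 W`: contradiction with Step 1.
-/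

set_option autoImplicit false

namespace Pool.Agent.Helper16.CD

open MeasureTheory ProbabilityTheory Metric Set
open scoped ENNReal NNReal
open Pool.Agent.Helper3.CD

variable {E : Type} [MeasurableSpace E] {ν : Measure E} {sh : E → Set Plane}

private theorem lev_anc {n b : ℕ} {V : Idx} (hV : V ∈ desc n (rootV n) b) {u : ℕ} (hu : u ≤ b) :
    ((par n)^[u] V).1 = 3 * n + 3 * n * (b - u) := by
  have h := level_desc (par_iterate_desc hV hu)
  rw [h]
  rfl

private theorem big_anc {n b : ℕ} {V : Idx} (hV : V ∈ desc n (rootV n) b) {t : ℕ} :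
    ∀ {u : ℕ}, t ≤ u → u ≤ b → big 9 ((par n)^[t] V) ⊆ big 9 ((par n)^[u] V) := by
  intro u htu
  induction u, htu using Nat.le_induction with
  | base => intro _; exact subset_rfl
  | succ u _ ih =>
    intro hub
    refine (ih (by omega)).trans ?_
    rw [Function.iterate_succ_apply']
    refine big_par ?_ (by norm_num)
    rw [lev_anc hV (by omega)]
    exact Nat.le_add_right _ _

private theorem oD_sub : oD ⊆ closedBall (0 : Plane) 4 := by
  intro z hz
  have hz' : z.1 ^ 2 + z.2 ^ 2 < 1 := hz
  rw [mem_closedBall, dist_zero_right, Prod.norm_def, max_le_iff, Real.norm_eq_abs,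
    Real.norm_eq_abs]
  constructor
  · rw [abs_le]; constructor <;> nlinarith [sq_nonneg z.1, sq_nonneg z.2]
  · rw [abs_le]; constructor <;> nlinarith [sq_nonneg z.1, sq_nonneg z.2]

private theorem lp_ne (hS : IsShape ν sh) (p : Idx × E) : (lp sh p).Nonempty :=
  (hS.conn p.2).nonempty.image _

omit [MeasurableSpace E] in
private theorem kept_iff {n : ℕ} {τ : ℝ} {w : Conf E} {b : ℕ} {V : Idx}
    (hw : w ∈ kept sh n τ b V) {l : List (Idx × E)} (hl : ∀ p ∈ l, p ∈ Sp w) :
    ¬ Rootr sh n l ∧ ∀ t < b, ¬ bad sh τ ((par n)^[t + 1] V) ((par n)^[t] V) l := by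
  have h : ¬ (Rootr sh n l ∨ badP sh n τ b V l) := hw l fun p hp => ⟨hl p hp, mem_univ _⟩
  rw [badP_iff] at h
  push Not at h
  exact ⟨h.1, h.2⟩

private theorem low_far (hS : IsShape ν sh) {n : ℕ} (hn : 1 ≤ n) {τ : ℝ} {w : Conf E} {b : ℕ}
    {V : Idx} (hV : V ∈ desc n (rootV n) b) (hw : w ∈ kept sh n τ b V) {t : ℕ} (ht : t ≤ b)
    {q : Idx × E} (hq : q ∈ Sp w) (hqD : lp sh q ⊆ oD) (hlow : q.1.1 < ((par n)^[t] V).1) :
    ¬ (lp sh q ∩ big 9 ((par n)^[t] V)).Nonempty := by
  intro hmeet
  have hk := kept_iff hw (l := [q]) (by simpa using hq)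
  have h3n : 3 * n ≤ q.1.1 := by
    by_contra hcon
    push Not at hcon
    refine hk.1 (Or.inl ⟨q, rfl, Nat.zero_le _, hcon, ?_⟩)
    obtain ⟨z, hz⟩ := lp_ne hS q
    exact ⟨z, hz, oD_sub (hqD hz)⟩
  rw [lev_anc hV ht] at hlow
  have hpos : 0 < 3 * n := by omega
  set m := q.1.1 / (3 * n) with hm
  have hm1 : 1 ≤ m := (Nat.le_div_iff_mul_le hpos).2 (by omega)
  have hm2 : m ≤ b - t := by
    have : m < b - t + 1 := by
      rw [hm, Nat.div_lt_iff_lt_mul hpos]
      calc q.1.1 < 3 * n + 3 * n * (b - t) := hlow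
        _ = (b - t + 1) * (3 * n) := by ring
    omega
  have hm3 : 3 * n * m ≤ q.1.1 := Nat.mul_div_le _ _
  have hm4 : q.1.1 < 3 * n * (m + 1) := by
    have := Nat.lt_mul_div_succ q.1.1 hpos
    exact this
  have hu1 : t ≤ b - m := by omega
  have hu2 : b - m < b := by omega
  refine hk.2 (b - m) hu2 (Or.inl ⟨q, rfl, ?_, ?_, ?_⟩)
  · rw [lev_anc hV (by omega : b - m + 1 ≤ b)]
    have e : b - (b - m + 1) = m - 1 := by omega
    rw [e]
    calc 3 * n + 3 * n * (m - 1) = 3 * n * (m - 1 + 1) := by ring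
      _ = 3 * n * m := by rw [Nat.sub_add_cancel hm1]
      _ ≤ q.1.1 := hm3
  · rw [lev_anc hV (by omega : b - m ≤ b)]
    have e : b - (b - m) = m := by omega
    rw [e]
    calc q.1.1 < 3 * n * (m + 1) := hm4
      _ = 3 * n + 3 * n * m := by ring
  · obtain ⟨z, hz1, hz2⟩ := hmeet
    exact ⟨z, hz1, big_anc hV hu1 hu2.le hz2⟩

theorem walk_levels (hS : IsShape ν sh) {n : ℕ} (hn : 1 ≤ n) {τ : ℝ} {w : Conf E} {b : ℕ}
    {V : Idx} (hV : V ∈ desc n (rootV n) b) (hw : w ∈ kept sh n τ b V) {t : ℕ} (ht : t ≤ b)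
    {q : Idx × E} {l : List (Idx × E)} (hl : ∀ p ∈ q :: l, p ∈ Sp w ∧ lp sh p ⊆ oD)
    (hwalk : Walk sh (q :: l)) (h8 : (lp sh q ∩ big 8 ((par n)^[t] V)).Nonempty) :
    ∀ p ∈ q :: l, ((par n)^[t] V).1 ≤ p.1.1 := by
  have hside := side_pos ((par n)^[t] V)
  have h89 : big 8 ((par n)^[t] V) ⊆ big 9 ((par n)^[t] V) := by
    unfold big
    exact closedBall_subset_closedBall (by linarith)
  induction l using List.reverseRecOn with
  | nil =>
    intro p hp
    rw [List.mem_singleton] at hp
    subst hp
    by_contra hcon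
    push Not at hcon
    obtain ⟨h1, h2⟩ := hl p (by simp)
    exact low_far hS hn hV hw ht h1 h2 hcon (h8.mono (inter_subset_inter_right _ h89))
  | append_singleton l' p' ih =>
    have hwalk' : List.IsChain (fun p q => (lp sh p ∩ lp sh q).Nonempty) ((q :: l') ++ [p']) :=
      hwalk
    rw [List.isChain_append] at hwalk'
    obtain ⟨hw1, -, hw2⟩ := hwalk'
    have hl' : ∀ p ∈ q :: l', p ∈ Sp w ∧ lp sh p ⊆ oD := by
      intro p hp
      refine hl p ?_
      rw [← List.cons_append, List.mem_append]
      exact Or.inl hp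
    have ih' := ih hl' hw1
    have hdiam : diam (un sh (q :: l')) < side ((par n)^[t] V) / 4 := by
      have hk := kept_iff hw (l := q :: l') fun p hp => (hl' p hp).1
      rcases ht.lt_or_eq with htb | htb
      · by_contra hcon
        push Not at hcon
        refine hk.2 t htb (Or.inr (Or.inl ⟨by simp, hw1, ih', ?_, hcon⟩))
        obtain ⟨z, hz1, hz2⟩ := h8
        refine ⟨z, ?_, h89 hz2⟩
        simp only [un, mem_iUnion]
        exact ⟨q, by simp, hz1⟩
      · have hroot : (par n)^[t] V = rootV n := by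
          have := par_iterate_desc hV ht
          rw [htb, Nat.sub_self] at this
          rw [htb]
          simpa [desc] using this
        by_contra hcon
        push Not at hcon
        rw [hroot] at hcon
        refine hk.1 (Or.inr ⟨by simp, hw1, fun p _ => Nat.zero_le _, ?_, hcon⟩)
        obtain ⟨z, hz⟩ := lp_ne hS q
        refine ⟨z, ?_, oD_sub ((hl' q (by simp)).2 hz)⟩
        simp only [un, mem_iUnion]
        exact ⟨q, by simp, hz⟩
    have hsub : un sh (q :: l') ⊆ big 9 ((par n)^[t] V) := by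
      intro z hz
      obtain ⟨z0, hz1, hz2⟩ := h8
      have hz0 : z0 ∈ un sh (q :: l') := by
        simp only [un, mem_iUnion]
        exact ⟨q, by simp, hz1⟩
      have h1 := dist_le_diam_of_mem (isCompact_un hS (q :: l')).isBounded hz hz0
      have h2 : dist z0 (ctr ((par n)^[t] V)) ≤ 8 * side ((par n)^[t] V) / 2 := hz2
      have h3 := dist_triangle z z0 (ctr ((par n)^[t] V))
      show dist z (ctr ((par n)^[t] V)) ≤ 9 * side ((par n)^[t] V) / 2
      linarith
    intro p hp
    rw [← List.cons_append, List.mem_append] at hp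
    rcases hp with hp | hp
    · exact ih' p hp
    · rw [List.mem_singleton] at hp
      subst hp
      by_contra hcon
      push Not at hcon
      obtain ⟨h1, h2⟩ := hl p (by simp)
      refine low_far hS hn hV hw ht h1 h2 hcon ?_
      obtain ⟨x, hx⟩ : ∃ x, (q :: l').getLast? = some x := by
        rw [← Option.isSome_iff_exists]
        simp
      obtain ⟨z, hz1, hz2⟩ := hw2 x hx p (by simp)
      refine ⟨z, hz2, hsub ?_⟩
      simp only [un, mem_iUnion]
      exact ⟨x, List.mem_of_getLast? hx, hz1⟩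

end Pool.Agent.Helper16.CD
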