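import Pool.Agent.Helper16.CD.QA5

/-!
# CD-QA6: the identity `(X, |.|) → (X, DD)` is quasisymmetric

`Y` = a type synonym of `X` with the metric `DD G X` (`DD = 0` implies `dlt = 0`, `WN > 0`, so equality of points).
Homeomorphism: for `0 < d = |x-y| < 1`, `N = NN x y`: `dlt ≤ 2^N d` and `2^N = (8^N)^(1/3) ≤ d^(-1/3)`, so `DD ≤ 16 d^(2/3)`;
`dlt ≥ 8^-N d ≥ d²`, so `DD ≥ 10^-6 d²` (for `d ≥ 1`: `dlt = d`).  So the identity is continuous in both directions.
(Simpler: `DD ≤ 16 * 2^N d ≤ 16 * (1/4)^N` with `d < 8^-N`.)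
Quasisymmetry: `η t = 10^9 (t^(2/3) + t²)`, a homeomorphism of `[0,∞)` (strictly increasing, continuous, `0` at `0`, tends to infinity:
`OrderIso` / `StrictMono.orderIsoOfSurjective`, then `.toHomeomorph`).  Let `|x-a| ≤ t |x-b|`; if `x = b` then `x = a`; if `x = a` trivial.
`p = NN x a`, `q = NN x b`, `r = |x-a|/|x-b| ≤ t`.
`p = q`: `dlt x a = r dlt x b`.
`p < q`: `q ≥ 1` so `|x-b| < 8^-q`, `|x-a| ≥ 8^-(p+1)`: `8^(q-p) ≤ 8 r`; `WN p x ≤ 8^(q-p) WN q x` (factors `≥ 1/8`), so
`dlt x a ≤ 8^(q-p) r dlt x b ≤ 8 r² dlt x b`.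
`p > q`: `p ≥ 1`, `|x-a| < 8^-p`, `|x-b| ≥ 8^-(q+1)`: `8^(p-q) ≤ 8/r`; `WN p x ≤ 2^(p-q) WN q x`, `2^(p-q) = (8^(p-q))^(1/3) ≤ 2 r^(-1/3)`,
so `dlt x a ≤ 2 r^(2/3) dlt x b`.
In all cases `dlt x a ≤ 8 (t^(2/3) + t²) dlt x b` (for `r ≤ 1`, `r ≤ r^(2/3)`; for `r ≥ 1`, `r ≤ r²`), and `DD x a ≤ 16 dlt x a`, `dlt x b ≤ 10^6 DD x b`.
-/

set_option autoImplicit false

namespace Pool.Agent.Helper16.CD

open MeasureTheory ProbabilityTheory Metric Set
open scoped ENNReal NNReal

private theorem WN_succ (G : Set Idx) (N : ℕ) (x : Plane) :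
    WN G (N + 1) x = WN G N x * wgt G (qq (N + 1) x) := by
  unfold WN; rw [Finset.prod_range_succ]

private theorem WN_up (G : Set Idx) (N k : ℕ) (x : Plane) :
    WN G (N + k) x ≤ 2 ^ k * WN G N x := by
  induction k with
  | zero => simp
  | succ k ih =>
    have h1 := (wgt_bounds G (qq (N + k + 1) x)).2
    have h2 := WN_pos G (N + k) x
    have : WN G (N + (k + 1)) x = WN G (N + k) x * wgt G (qq (N + k + 1) x) := WN_succ G (N + k) x
    rw [this, pow_succ]
    nlinarith

private theorem WN_low (G : Set Idx) (N k : ℕ) (x : Plane) :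
    WN G N x ≤ 8 ^ k * WN G (N + k) x := by
  induction k with
  | zero => simp
  | succ k ih =>
    have h1 := (wgt_bounds G (qq (N + k + 1) x)).1
    have h2 := WN_pos G (N + k) x
    have : WN G (N + (k + 1)) x = WN G (N + k) x * wgt G (qq (N + k + 1) x) := WN_succ G (N + k) x
    rw [this, pow_succ]
    have h8 : (0 : ℝ) < 8 ^ k := by positivity
    have h3 : WN G (N + k) x ≤ 8 * (WN G (N + k) x * wgt G (qq (N + k + 1) x)) := by nlinarith
    calc WN G N x ≤ 8 ^ k * WN G (N + k) x := ih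
      _ ≤ 8 ^ k * (8 * (WN G (N + k) x * wgt G (qq (N + k + 1) x))) :=
          mul_le_mul_of_nonneg_left h3 h8.le
      _ = _ := by ring

private theorem WN_zero' (G : Set Idx) (x : Plane) : WN G 0 x = 1 := by simp [WN]

private theorem key {G : Set Idx} {x a b : Plane} (ha : 0 < dist x a) (hb : 0 < dist x b) {r : ℝ}
    (hr : dist x a = r * dist x b) (hr0 : 0 < r) :
    dlt G x a ≤ 8 * (r ^ (2 / 3 : ℝ) + r ^ 2) * dlt G x b := by
  have hxa : x ≠ a := dist_pos.1 ha
  have hxb : x ≠ b := dist_pos.1 hb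
  have hr2 : 0 < r ^ (2 / 3 : ℝ) := Real.rpow_pos_of_pos hr0 _
  have hW : ∀ N, 0 < WN G N x := fun N => WN_pos G N x
  unfold dlt
  rw [hr]
  rcases lt_trichotomy (NN x a) (NN x b) with h | h | h
  · obtain ⟨k, hk⟩ := Nat.exists_eq_add_of_lt h
    have hq : dist x b < 1 := by
      by_contra hc
      have := NN_zero (not_lt.1 hc)
      omega
    have h1 := NN_lt hq
    have h2 := NN_le hxa
    set p := NN x a with hp
    have hk' : NN x b = p + (k + 1) := by omega
    rw [hk'] at h1 ⊢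
    have hp8 : (0 : ℝ) < (1 / 8) ^ p := by positivity
    have hk8 : (0 : ℝ) < (1 / 8) ^ (k + 1) := by positivity
    have h88 : (8 : ℝ) ^ (k + 1) * (1 / 8) ^ (k + 1) = 1 := by
      rw [← mul_pow]; norm_num
    have h3 : (1 / 8 : ℝ) ≤ r * (1 / 8) ^ (k + 1) := by
      rw [hr] at h2
      rw [pow_add] at h1
      rw [pow_succ] at h2
      have : (1 / 8 : ℝ) ^ p * (1 / 8) ≤ (1 / 8) ^ p * (r * (1 / 8) ^ (k + 1)) := by
        calc (1 / 8 : ℝ) ^ p * (1 / 8) ≤ r * dist x b := h2
          _ ≤ r * ((1 / 8) ^ p * (1 / 8) ^ (k + 1)) := mul_le_mul_of_nonneg_left h1.le hr0.le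
          _ = _ := by ring
      exact le_of_mul_le_mul_left this hp8
    have h4 : (8 : ℝ) ^ (k + 1) ≤ 8 * r := by
      have h8 : (0 : ℝ) < 8 ^ (k + 1) := by positivity
      have := mul_le_mul_of_nonneg_left h3 h8.le
      have h5 : (8 : ℝ) ^ (k + 1) * (r * (1 / 8) ^ (k + 1)) = r := by
        calc (8 : ℝ) ^ (k + 1) * (r * (1 / 8) ^ (k + 1))
            = r * (8 ^ (k + 1) * (1 / 8) ^ (k + 1)) := by ring
          _ = r := by rw [h88, mul_one]
      rw [h5] at this
      linarith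
    have h6 := WN_low G p (k + 1) x
    have hWq := hW (p + (k + 1))
    calc WN G p x * (r * dist x b)
        ≤ (8 ^ (k + 1) * WN G (p + (k + 1)) x) * (r * dist x b) :=
          mul_le_mul_of_nonneg_right h6 (by positivity)
      _ = 8 ^ (k + 1) * (WN G (p + (k + 1)) x * (r * dist x b)) := by ring
      _ ≤ (8 * r) * (WN G (p + (k + 1)) x * (r * dist x b)) :=
          mul_le_mul_of_nonneg_right h4 (by positivity)
      _ = 8 * r ^ 2 * (WN G (p + (k + 1)) x * dist x b) := by ring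
      _ ≤ 8 * (r ^ (2 / 3 : ℝ) + r ^ 2) * (WN G (p + (k + 1)) x * dist x b) :=
          mul_le_mul_of_nonneg_right (by linarith) (by positivity)
  · rw [h]
    have h1 : r ≤ 8 * (r ^ (2 / 3 : ℝ) + r ^ 2) := by
      rcases le_total r 1 with h1 | h1
      · have : r ^ (1 : ℝ) ≤ r ^ (2 / 3 : ℝ) :=
          Real.rpow_le_rpow_of_exponent_ge hr0 h1 (by norm_num)
        rw [Real.rpow_one] at this
        nlinarith [sq_nonneg r]
      · nlinarith
    have hWq := hW (NN x b)
    calc WN G (NN x b) x * (r * dist x b) = r * (WN G (NN x b) x * dist x b) := by ring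
      _ ≤ _ := mul_le_mul_of_nonneg_right h1 (by positivity)
  · obtain ⟨k, hk⟩ := Nat.exists_eq_add_of_lt h
    have hq : dist x a < 1 := by
      by_contra hc
      have := NN_zero (not_lt.1 hc)
      omega
    have h1 := NN_lt hq
    have h2 := NN_le hxb
    set q := NN x b with hq'
    have hk' : NN x a = q + (k + 1) := by omega
    rw [hk'] at h1 ⊢
    have hq8 : (0 : ℝ) < (1 / 8) ^ q := by positivity
    have h88 : (8 : ℝ) ^ (k + 1) * (1 / 8) ^ (k + 1) = 1 := by
      rw [← mul_pow]; norm_num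
    have h3 : r * (1 / 8 : ℝ) ≤ (1 / 8) ^ (k + 1) := by
      rw [hr, pow_add] at h1
      rw [pow_succ] at h2
      have : (1 / 8 : ℝ) ^ q * (r * (1 / 8)) ≤ (1 / 8) ^ q * (1 / 8) ^ (k + 1) := by
        calc (1 / 8 : ℝ) ^ q * (r * (1 / 8)) = r * ((1 / 8) ^ q * (1 / 8)) := by ring
          _ ≤ r * dist x b := mul_le_mul_of_nonneg_left h2 hr0.le
          _ ≤ _ := h1.le
      exact le_of_mul_le_mul_left this hq8
    have h4 : (8 : ℝ) ^ (k + 1) * r ≤ 8 := by
      have h8 : (0 : ℝ) < 8 ^ (k + 1) := by positivity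
      have := mul_le_mul_of_nonneg_left h3 h8.le
      rw [h88] at this
      linarith
    set u : ℝ := r ^ (1 / 3 : ℝ) with hu
    have hu0 : 0 < u := Real.rpow_pos_of_pos hr0 _
    have hu3 : u ^ 3 = r := by
      rw [hu, ← Real.rpow_natCast, ← Real.rpow_mul hr0.le]
      norm_num
    have hu2 : r ^ (2 / 3 : ℝ) = u ^ 2 := by
      rw [hu, ← Real.rpow_natCast, ← Real.rpow_mul hr0.le]
      norm_num
    have h5 : (2 : ℝ) ^ (k + 1) * u ≤ 2 := by
      have h6 : ((2 : ℝ) ^ (k + 1) * u) ^ 3 ≤ 2 ^ 3 := by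
        rw [mul_pow, hu3]
        have : ((2 : ℝ) ^ (k + 1)) ^ 3 = 8 ^ (k + 1) := by
          rw [← pow_mul, mul_comm, pow_mul]; norm_num
        rw [this]
        linarith
      exact le_of_pow_le_pow_left₀ (by norm_num) (by norm_num) h6
    have h7 : (2 : ℝ) ^ (k + 1) * r ≤ 2 * r ^ (2 / 3 : ℝ) := by
      rw [hu2]
      calc (2 : ℝ) ^ (k + 1) * r = ((2 : ℝ) ^ (k + 1) * u) * u ^ 2 := by rw [← hu3]; ring
        _ ≤ 2 * u ^ 2 := mul_le_mul_of_nonneg_right h5 (by positivity)
    have h6 := WN_up G q (k + 1) x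
    have hWq := hW q
    calc WN G (q + (k + 1)) x * (r * dist x b)
        ≤ (2 ^ (k + 1) * WN G q x) * (r * dist x b) :=
          mul_le_mul_of_nonneg_right h6 (by positivity)
      _ = (2 ^ (k + 1) * r) * (WN G q x * dist x b) := by ring
      _ ≤ (2 * r ^ (2 / 3 : ℝ)) * (WN G q x * dist x b) :=
          mul_le_mul_of_nonneg_right h7 (by positivity)
      _ ≤ 8 * (r ^ (2 / 3 : ℝ) + r ^ 2) * (WN G q x * dist x b) :=
          mul_le_mul_of_nonneg_right (by nlinarith [sq_nonneg r]) (by positivity)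

private theorem key2 {G : Set Idx} {x a b : Plane} {t : ℝ} (ht : 0 ≤ t)
    (h : dist x a ≤ t * dist x b) :
    dlt G x a ≤ 8 * (t ^ (2 / 3 : ℝ) + t ^ 2) * dlt G x b := by
  have ht2 : 0 ≤ t ^ (2 / 3 : ℝ) := Real.rpow_nonneg ht _
  rcases (dist_nonneg (x := x) (y := a)).eq_or_lt with ha | ha
  · have : dlt G x a = 0 := by unfold dlt; rw [← ha, mul_zero]
    rw [this]
    have := dlt_nonneg G x b
    positivity
  · have hb : 0 < dist x b := by
      by_contra hc
      have hb0 : dist x b = 0 := le_antisymm (not_lt.1 hc) dist_nonneg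
      rw [hb0, mul_zero] at h
      linarith
    have hr0 : 0 < dist x a / dist x b := div_pos ha hb
    have hr : dist x a = (dist x a / dist x b) * dist x b := by field_simp
    have hrt : dist x a / dist x b ≤ t := by rwa [div_le_iff₀ hb]
    refine (key ha hb hr hr0).trans ?_
    have h1 : (dist x a / dist x b) ^ (2 / 3 : ℝ) ≤ t ^ (2 / 3 : ℝ) :=
      Real.rpow_le_rpow hr0.le hrt (by norm_num)
    have h2 : (dist x a / dist x b) ^ 2 ≤ t ^ 2 := pow_le_pow_left₀ hr0.le hrt 2
    exact mul_le_mul_of_nonneg_right (by linarith) (dlt_nonneg G x b)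

private theorem dlt_small {G : Set Idx} {x y : Plane} {M : ℕ} (h : dist x y < (1 / 8 : ℝ) ^ M) :
    dlt G x y ≤ (1 / 4 : ℝ) ^ M := by
  rcases eq_or_ne x y with hxy | hxy
  · subst hxy
    unfold dlt
    rw [dist_self, mul_zero]
    positivity
  · have h1 : M ≤ NN x y := NN_ge hxy h
    have h2 : dist x y < 1 := h.trans_le (pow_le_one₀ (by norm_num) (by norm_num))
    have h3 := NN_lt h2
    have h4 := WN_up G 0 (NN x y) x
    rw [zero_add, WN_zero', mul_one] at h4
    unfold dlt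
    calc WN G (NN x y) x * dist x y ≤ 2 ^ NN x y * (1 / 8) ^ NN x y :=
          mul_le_mul h4 h3.le dist_nonneg (by positivity)
      _ = (1 / 4) ^ NN x y := by rw [← mul_pow]; norm_num
      _ ≤ (1 / 4) ^ M := pow_le_pow_of_le_one (by norm_num) (by norm_num) h1

private theorem dlt_big {G : Set Idx} {x y : Plane} : min (dist x y ^ 2) 1 ≤ dlt G x y := by
  have h4 := WN_low G 0 (NN x y) x
  rw [zero_add, WN_zero'] at h4
  unfold dlt
  rcases lt_or_ge (dist x y) 1 with h | h
  · have h3 := NN_lt h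
    refine (min_le_left _ _).trans ?_
    have h5 : (1 / 8 : ℝ) ^ NN x y ≤ WN G (NN x y) x := by
      have h8 : (0 : ℝ) < (1 / 8) ^ NN x y := by positivity
      have h88 : (1 / 8 : ℝ) ^ NN x y * 8 ^ NN x y = 1 := by
        rw [← mul_pow]; norm_num
      calc (1 / 8 : ℝ) ^ NN x y = (1 / 8) ^ NN x y * 1 := by ring
        _ ≤ (1 / 8) ^ NN x y * (8 ^ NN x y * WN G (NN x y) x) :=
            mul_le_mul_of_nonneg_left h4 h8.le
        _ = ((1 / 8) ^ NN x y * 8 ^ NN x y) * WN G (NN x y) x := by ring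
        _ = _ := by rw [h88, one_mul]
    have h6 : dist x y ≤ WN G (NN x y) x := h3.le.trans h5
    rw [pow_two]
    exact mul_le_mul_of_nonneg_right h6 dist_nonneg
  · refine (min_le_right _ _).trans ?_
    rw [NN_zero h, WN_zero', one_mul]
    exact h

/-- wrapper type of `X` carrying the new metric -/
private structure Wr (A : Type) where
  val : A

private noncomputable def etaF (t : ℝ≥0) : ℝ≥0 := 10 ^ 9 * (t ^ (2 / 3 : ℝ) + t ^ 2)

private theorem etaF_mono : StrictMono etaF := by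
  intro a b h
  unfold etaF
  have h1 : a ^ (2 / 3 : ℝ) < b ^ (2 / 3 : ℝ) := NNReal.rpow_lt_rpow h (by norm_num)
  have h2 : a ^ 2 < b ^ 2 := pow_lt_pow_left₀ h zero_le (by norm_num)
  have h3 : (0 : ℝ≥0) < 10 ^ 9 := by positivity
  exact mul_lt_mul_of_pos_left (add_lt_add h1 h2) h3

private theorem etaF_cont : Continuous etaF := by
  unfold etaF
  have h1 : Continuous fun t : ℝ≥0 => t ^ (2 / 3 : ℝ) :=
    NNReal.continuous_rpow_const (by norm_num)
  exact continuous_const.mul (h1.add (continuous_pow 2))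

private theorem etaF_surj : Function.Surjective etaF := by
  intro c
  have h : c ∈ range etaF := by
    refine mem_range_of_exists_le_of_exists_ge etaF_cont ⟨0, ?_⟩ ⟨c + 1, ?_⟩
    · unfold etaF
      rw [NNReal.zero_rpow (by norm_num)]
      simp
    · unfold etaF
      have h1 : c ≤ (c + 1) ^ 2 := by
        have : c + 1 ≤ (c + 1) ^ 2 := by
          calc c + 1 = (c + 1) * 1 := by ring
            _ ≤ (c + 1) * (c + 1) := by gcongr; simp
            _ = _ := by ring
        exact le_self_add.trans this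
      calc c ≤ (c + 1) ^ 2 := h1
        _ ≤ (c + 1) ^ (2 / 3 : ℝ) + (c + 1) ^ 2 := le_add_self
        _ = 1 * ((c + 1) ^ (2 / 3 : ℝ) + (c + 1) ^ 2) := by ring
        _ ≤ _ := by gcongr; norm_num
  exact h

private noncomputable def etaH : ℝ≥0 ≃ₜ ℝ≥0 :=
  (etaF_mono.orderIsoOfSurjective etaF etaF_surj).toHomeomorph

private theorem etaH_apply (t : ℝ≥0) : etaH t = etaF t := rfl

theorem qs_exists {X : Set Plane} {G : Set Idx} (hG : Avoids X G)
    (hX : ∀ x ∈ X, ∀ y ∈ X, dist x y ≤ 2) :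
    ∃ (Y : Type) (_ : MetricSpace Y) (f : X → Y), IsQS f ∧
      (∀ (N : ℕ) (x y : X), qq N x = qq N y →
        dist (f x) (f y) ≤ 16 * WN G N x * (1 / 8) ^ N) ∧
      (∀ x y : X, (∀ m, qq m (x : Plane) ∉ G) → (∀ m, qq m (y : Plane) ∉ G) →
        dist (f x) (f y) ≤ dist x y) := by
  have hD0 : ∀ x y : X, 0 ≤ DD G X x y := by
    intro x y
    have h1 := le_DD hG hX x.2 y.2
    have h2 := dlt_nonneg G (x : Plane) y
    linarith
  let M : MetricSpace (Wr X) :=
    { dist := fun a b => DD G X a.val b.val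
      dist_self := by
        intro a
        refine le_antisymm ?_ (hD0 _ _)
        have h1 := DD_le hG a.val.2 a.val.2
        have h2 : dlt G (a.val : Plane) a.val = 0 := by unfold dlt; rw [dist_self, mul_zero]
        rw [h2, mul_zero] at h1
        exact h1
      dist_comm := fun a b => DD_comm G X _ _
      dist_triangle := fun a b c => DD_triangle a.val.2 b.val.2 c.val.2
      eq_of_dist_eq_zero := by
        rintro ⟨a⟩ ⟨b⟩ h
        have h0 : DD G X (a : Plane) b = 0 := h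
        have h1 := le_DD hG hX a.2 b.2
        rw [h0, mul_zero] at h1
        have h2 : dist (a : Plane) b = 0 := by
          by_contra hc
          have h3 : 0 < dist (a : Plane) b := lt_of_le_of_ne dist_nonneg (Ne.symm hc)
          have h4 := WN_pos G (NN (a : Plane) b) a
          have h5 : 0 < dlt G (a : Plane) b := mul_pos h4 h3
          linarith
        have h3 : a = b := Subtype.ext (dist_eq_zero.1 h2)
        rw [h3] }
  have hdist : ∀ a b : Wr X, dist a b = DD G X a.val b.val := fun a b => rfl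
  let e : X ≃ Wr X :=
    { toFun := fun x => ⟨x⟩
      invFun := fun y => y.val
      left_inv := fun x => rfl
      right_inv := fun y => rfl }
  have he : ∀ x : X, (e x).val = x := fun x => rfl
  have hc1 : Continuous e := by
    rw [Metric.continuous_iff]
    intro b ε hε
    obtain ⟨m, hm⟩ := exists_pow_lt_of_lt_one (show (0 : ℝ) < ε / 16 by positivity)
      (show (1 / 4 : ℝ) < 1 by norm_num)
    refine ⟨(1 / 8) ^ m, by positivity, fun a hab => ?_⟩
    have h1 : dist (a : Plane) b < (1 / 8) ^ m := hab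
    have h2 := dlt_small (G := G) h1
    have h3 := DD_le hG a.2 b.2
    rw [hdist, he, he]
    linarith
  have hc2 : Continuous e.symm := by
    rw [Metric.continuous_iff]
    intro b ε hε
    have hm : 0 < min (ε ^ 2) 1 := lt_min (by positivity) one_pos
    refine ⟨min (ε ^ 2) 1 / 10 ^ 6, by positivity, fun a hab => ?_⟩
    rw [hdist] at hab
    have h1 := le_DD hG hX a.val.2 b.val.2
    have h2 := dlt_big (G := G) (x := (a.val : Plane)) (y := b.val)
    have h3 : min (dist (a.val : Plane) b.val ^ 2) 1 < min (ε ^ 2) 1 := by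
      rw [lt_div_iff₀ (by positivity)] at hab
      linarith
    have h4 : dist (a.val : Plane) b.val < ε := by
      by_contra hc
      have h5 : ε ≤ dist (a.val : Plane) b.val := not_lt.1 hc
      have h6 : ε ^ 2 ≤ dist (a.val : Plane) b.val ^ 2 := pow_le_pow_left₀ hε.le h5 2
      have h7 : min (ε ^ 2) 1 ≤ min (dist (a.val : Plane) b.val ^ 2) 1 := min_le_min_right _ h6
      linarith
    exact h4
  refine ⟨Wr X, M, e, ⟨?_, etaH, ?_⟩, ?_, ?_⟩
  · exact (Homeomorph.mk e hc1 hc2).isHomeomorph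
  · intro x a b t h
    have h1 : dist (x : Plane) a ≤ (t : ℝ) * dist (x : Plane) b := by
      have := NNReal.coe_le_coe.2 h
      rw [NNReal.coe_mul, coe_nndist, coe_nndist] at this
      exact this
    have h2 := key2 (G := G) t.2 h1
    have h3 := DD_le hG x.2 a.2
    have h4 := le_DD hG hX x.2 b.2
    have ht : (0 : ℝ) ≤ (t : ℝ) ^ (2 / 3 : ℝ) + (t : ℝ) ^ 2 :=
      add_nonneg (Real.rpow_nonneg t.2 _) (sq_nonneg _)
    rw [← NNReal.coe_le_coe, NNReal.coe_mul, coe_nndist, coe_nndist, hdist, hdist, he, he, he,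
      etaH_apply]
    have h5 : ((etaF t : ℝ≥0) : ℝ) = 10 ^ 9 * ((t : ℝ) ^ (2 / 3 : ℝ) + (t : ℝ) ^ 2) := by
      unfold etaF
      push_cast
      ring
    rw [h5]
    have h6 := hD0 x b
    set T : ℝ := (t : ℝ) ^ (2 / 3 : ℝ) + (t : ℝ) ^ 2 with hT
    calc DD G X x a ≤ 16 * dlt G x a := h3
      _ ≤ 16 * (8 * T * dlt G x b) := by
          have := t.2
          exact mul_le_mul_of_nonneg_left h2 (by norm_num)
      _ = 128 * T * dlt G x b := by ring
      _ ≤ 128 * T * (10 ^ 6 * DD G X x b) :=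
          mul_le_mul_of_nonneg_left h4 (by positivity)
      _ = (128 * 10 ^ 6) * (T * DD G X x b) := by ring
      _ ≤ 10 ^ 9 * (T * DD G X x b) :=
          mul_le_mul_of_nonneg_right (by norm_num) (by positivity)
      _ = _ := by ring
  · intro N x y h
    rw [hdist, he, he]
    exact DD_small hG x.2 y.2 h
  · intro x y h h'
    rw [hdist, he, he]
    exact DD_flat x.2 y.2 h h'

end Pool.Agent.Helper16.CD
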