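import Pool.Agent.Helper16.CD.KDefs
import Pool.Agent.Helper16.CD.QA6
import Pool.Agent.Helper16.CD.Avoid

/-!
# CD: the abstract theorem from the interface statements
-/

set_option autoImplicit false

namespace Pool.Agent.Helper16.CD

open MeasureTheory ProbabilityTheory Metric Set
open scoped ENNReal NNReal
open Pool.Agent.Helper3.CD

/-- the abstract theorem -/
def MainAbs : Prop :=
  ∀ (E : Type) [MeasurableSpace E] (ν : Measure E) (sh : E → Set Plane), IsShape ν sh →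
    ∃ r₀ : ℝ≥0, 0 < r₀ ∧ ∀ r : ℝ≥0, 0 < r → r < r₀ →
      ∃ A : Set (Conf E), MeasurableSet A ∧ 0 < law r ν A ∧
        ∀ w ∈ A, ∃ (Y : Type) (_ : MetricSpace Y) (f : Xs sh w → Y),
          IsQS f ∧ dimH (univ : Set Y) < dimH (Xs sh w)

/-- numeric step: choice of the two exponents -/
theorem exponents {n : ℕ} (hn : 1 ≤ n) {a1 a2 : ℝ} (h1 : (8 : ℝ) ^ ((n : ℝ) * (3 / 2)) ≤ a1)
    (h12 : a1 < a2) (h2 : a2 ≤ 64 ^ n) :
    ∃ s1 s2 : ℝ, 3 / 2 ≤ s1 ∧ s1 < s2 ∧ s2 ≤ 2 ∧ (8 : ℝ) ^ ((n : ℝ) * s1) = a1 ∧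
      (8 : ℝ) ^ ((n : ℝ) * s2) = a2 := by
  have hn0 : (0 : ℝ) < n := by exact_mod_cast hn
  have h8 : (0 : ℝ) < Real.log 8 := Real.log_pos (by norm_num)
  have ha1 : 0 < a1 := lt_of_lt_of_le (Real.rpow_pos_of_pos (by norm_num) _) h1
  have ha2 : 0 < a2 := ha1.trans h12
  have key : ∀ a : ℝ, 0 < a → (8 : ℝ) ^ ((n : ℝ) * (Real.logb 8 a / n)) = a := by
    intro a ha
    rw [mul_div_cancel₀ _ hn0.ne']
    exact Real.rpow_logb (by norm_num) (by norm_num) ha
  refine ⟨Real.logb 8 a1 / n, Real.logb 8 a2 / n, ?_, ?_, ?_, key a1 ha1, key a2 ha2⟩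
  · rw [le_div_iff₀ hn0, Real.le_logb_iff_rpow_le (by norm_num) ha1]
    rwa [mul_comm]
  · exact div_lt_div_of_pos_right (Real.logb_lt_logb (by norm_num) ha1 h12) hn0
  · rw [div_le_iff₀ hn0, Real.logb_le_iff_le_rpow (by norm_num) ha2]
    refine h2.trans (le_of_eq ?_)
    rw [mul_comm (2:ℝ) (n:ℝ), mul_comm (n:ℝ) 2, Real.rpow_mul (by norm_num)]
    norm_num [Real.rpow_natCast]

theorem mainAbs (hB : Iface.BadProb) (hH : Iface.HsSmall) (hG : Iface.GProb)
    (hR : Iface.RootProb) (hP : Iface.PsiExpand) (hGa : Iface.GainSum) (hU : Iface.Upper)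
    (hL : Iface.Lower) : MainAbs := by
  intro E _ ν sh hS
  have := hS.prob
  set L : ℝ := (ν (Lset sh)).toReal with hLdef
  have hLpos : 0 < L := ENNReal.toReal_pos hS.good.ne' (measure_ne_top _ _)
  obtain ⟨C, hC⟩ := hB E ν sh hS
  obtain ⟨n₀, hn₀⟩ := hH E ν sh hS (L / 160) (by positivity)
  obtain ⟨m, hm⟩ := exists_nat_gt (160 * (C + 1) / L)
  set n : ℕ := max (max 2 n₀) m with hn
  have hn2 : 2 ≤ n := le_max_of_le_left (le_max_left _ _)
  have hn1 : 1 ≤ n := by omega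
  have hnn : hs ν sh n ≤ L / 160 * n := hn₀ n (le_max_of_le_left (le_max_right _ _))
  have hnm : 160 * (C + 1) / L ≤ n := hm.le.trans (by exact_mod_cast le_max_right _ _)
  have hnC : C + 1 ≤ n * L / 160 := by
    rw [div_le_iff₀ hLpos] at hnm
    linarith
  obtain ⟨τ, hτ0, hτ1, Cn, r1, hr1, hbad⟩ := hC n hn1
  obtain ⟨r2, hr2, hG2⟩ := hG E ν sh hS n τ hτ0
  obtain ⟨r3, hr3, hR3⟩ := hR E ν sh hS n
  obtain ⟨Cp, r4, hr4, hPs⟩ := hP E ν sh hS n hn1
  set B : ℝ := (64 : ℝ) ^ n with hBdef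
  have hBpos : 0 < B := by positivity
  have hcard : ((Finset.univ : Finset (J n)).card : ℝ) = B := by
    simp only [Finset.card_univ, Fintype.card_prod, Fintype.card_fin, hBdef]
    push_cast
    rw [← mul_pow]
    norm_num
  set Kp : ℝ := ∑ j : J n, kap ν sh n j with hKp
  have hkap0 : ∀ j : J n, 0 ≤ kap ν sh n j := fun j => ENNReal.toReal_nonneg
  have hKp0 : 0 ≤ Kp := Finset.sum_nonneg fun j _ => hkap0 j
  have hKpj : ∀ j : J n, kap ν sh n j ≤ Kp := fun j =>
    Finset.single_le_sum (f := fun j => kap ν sh n j) (fun j _ => hkap0 j) (Finset.mem_univ j)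
  -- bound of the gain
  have hgain : ∀ s : ℝ, 3 / 2 ≤ s → s ≤ 2 → ∀ j : J n, gain ν sh n s j ≤ n := by
    intro s hs1 hs2 j
    have : ∀ t ∈ Finset.range n, (1 - wt (dig (up^[t] (child n V0 j))) ^ s) *
        (ν {e | e ∈ Lset sh ∧
          ¬ Singr sh V0 (child n V0 j) [(up^[t + 1] (child n V0 j), e)]}).toReal ≤ 1 := by
      intro t _
      have hw : 0 ≤ wt (dig (up^[t] (child n V0 j))) ^ s := by
        apply Real.rpow_nonneg
        unfold wt
        split_ifs <;> norm_num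
      have hm1 : (ν {e | e ∈ Lset sh ∧
          ¬ Singr sh V0 (child n V0 j) [(up^[t + 1] (child n V0 j), e)]}).toReal ≤ 1 := by
        have := prob_le_one (μ := ν) (s := {e | e ∈ Lset sh ∧
          ¬ Singr sh V0 (child n V0 j) [(up^[t + 1] (child n V0 j), e)]})
        exact ENNReal.toReal_le_of_le_ofReal zero_le_one (by simpa using this)
      have hm0 : 0 ≤ (ν {e | e ∈ Lset sh ∧
          ¬ Singr sh V0 (child n V0 j) [(up^[t + 1] (child n V0 j), e)]}).toReal :=
        ENNReal.toReal_nonneg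
      nlinarith
    calc gain ν sh n s j ≤ ∑ t ∈ Finset.range n, (1 : ℝ) := Finset.sum_le_sum this
      _ = n := by simp
  -- the small parameter
  set Cb : ℝ := |Cn| with hCb
  set Cq : ℝ := |Cp| with hCq
  set M : ℝ := Kp + n + B * (|C| + |hs ν sh n|) + B * Cb + B * Cq + Cb + Cq + B + 1 with hM
  have hMpos : 0 < M := by positivity
  have hB4 : 0 < B / (4 * M) := by positivity
  obtain ⟨r5, hr5pos, hr5⟩ : ∃ r5 : ℝ≥0, 0 < r5 ∧ (r5 : ℝ) ≤ 1 / (4 * M) := by
    have hp : (0:ℝ) < 1 / (4 * M) := by positivity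
    exact ⟨Real.toNNReal (1 / (4 * M)), Real.toNNReal_pos.2 hp, (Real.coe_toNNReal _ hp.le).le⟩
  refine ⟨min (min (min r1 r2) (min r3 r4)) r5, by simp [hr1, hr2, hr3, hr4, hr5pos], ?_⟩
  intro r hr0 hr
  have hrr1 : r < r1 := hr.trans_le ((min_le_left _ _).trans ((min_le_left _ _).trans
    (min_le_left _ _)))
  have hrr2 : r < r2 := hr.trans_le ((min_le_left _ _).trans ((min_le_left _ _).trans
    (min_le_right _ _)))
  have hrr3 : r < r3 := hr.trans_le ((min_le_left _ _).trans ((min_le_right _ _).trans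
    (min_le_left _ _)))
  have hrr4 : r < r4 := hr.trans_le ((min_le_left _ _).trans ((min_le_right _ _).trans
    (min_le_right _ _)))
  have hrr5 : r < r5 := hr.trans_le (min_le_right _ _)
  have hrM : (r : ℝ) * M ≤ 1 / 4 := by
    have h1 : (r : ℝ) ≤ 1 / (4 * M) := le_trans (by exact_mod_cast hrr5.le) hr5
    calc (r : ℝ) * M ≤ 1 / (4 * M) * M := mul_le_mul_of_nonneg_right h1 hMpos.le
      _ = 1 / 4 := by field_simp
  have hrpos : (0 : ℝ) < r := by exact_mod_cast hr0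
  have hM1 : 1 ≤ M := by
    have h0 : 0 ≤ Kp + n + B * (|C| + |hs ν sh n|) + B * Cb + B * Cq + Cb + Cq + B := by
      positivity
    linarith
  have hr14 : (r : ℝ) ≤ 1 / 4 := by nlinarith
  have hr1' : (r : ℝ) ^ 2 ≤ r := by nlinarith
  -- lower sum
  set A : ℝ := ∑ j : J n, (law r ν).real (Ev univ (bad sh τ V0 (child n V0 j))) with hA
  have hAle : A ≤ B := by
    calc A ≤ ∑ j : J n, (1 : ℝ) := Finset.sum_le_sum fun j _ => measureReal_le_one
      _ = B := by rw [Finset.sum_const, nsmul_eq_mul, mul_one, hcard]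
  have hAge : B - r * (Kp + B * (C + hs ν sh n)) - B * (Cb * r ^ 2) ≤ A := by
    have h1 : ∑ j : J n, (1 - (law r ν).real (Ev univ (bad sh τ V0 (child n V0 j)))) ≤
        ∑ j : J n, (r * (kap ν sh n j + C + hs ν sh n) + Cb * r ^ 2) := by
      refine Finset.sum_le_sum fun j _ => (hbad r hrr1 j).trans ?_
      have : Cn * (r : ℝ) ^ 2 ≤ Cb * r ^ 2 :=
        mul_le_mul_of_nonneg_right (le_abs_self _) (by positivity)
      linarith
    have h2 : ∑ j : J n, (1 - (law r ν).real (Ev univ (bad sh τ V0 (child n V0 j)))) = B - A := by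
      rw [Finset.sum_sub_distrib, Finset.sum_const, nsmul_eq_mul, mul_one, hcard]
    have h3 : ∑ j : J n, (r * (kap ν sh n j + C + hs ν sh n) + Cb * r ^ 2) =
        r * (Kp + B * (C + hs ν sh n)) + B * (Cb * r ^ 2) := by
      rw [Finset.sum_add_distrib, ← Finset.mul_sum, Finset.sum_add_distrib,
        Finset.sum_add_distrib, Finset.sum_const, Finset.sum_const, Finset.sum_const,
        nsmul_eq_mul, nsmul_eq_mul, nsmul_eq_mul, hcard]
      ring
    rw [h2, h3] at h1
    linarith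
  -- upper sum
  have hup : ∀ s : ℝ, 3 / 2 ≤ s → s ≤ 2 →
      ∑ j : J n, ∫⁻ w, Psi sh n s (child n V0 j) w ∂(law r ν) ≤
        ENNReal.ofReal (B - r * (Kp + n * B * L / 80) + B * (Cq * r ^ 2)) := by
    intro s hs1 hs2
    have hnonneg : ∀ j : J n, 0 ≤ 1 - r * (kap ν sh n j + gain ν sh n s j) + Cq * (r : ℝ) ^ 2 := by
      intro j
      have h1 := hgain s hs1 hs2 j
      have h2 := hKpj j
      have h3 : kap ν sh n j + gain ν sh n s j ≤ M := by
        have h0 : 0 ≤ B * (|C| + |hs ν sh n|) + B * Cb + B * Cq + Cb + Cq + B + 1 := by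
          positivity
        linarith
      have h4 : (r : ℝ) * (kap ν sh n j + gain ν sh n s j) ≤ r * M :=
        mul_le_mul_of_nonneg_left h3 hrpos.le
      have h5 : 0 ≤ Cq * (r : ℝ) ^ 2 := by positivity
      linarith
    calc ∑ j : J n, ∫⁻ w, Psi sh n s (child n V0 j) w ∂(law r ν)
        ≤ ∑ j : J n, ENNReal.ofReal
            (1 - r * (kap ν sh n j + gain ν sh n s j) + Cq * (r : ℝ) ^ 2) := by
          refine Finset.sum_le_sum fun j _ => (hPs r hrr4 j s hs1 hs2).trans ?_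
          apply ENNReal.ofReal_le_ofReal
          have : Cp * (r : ℝ) ^ 2 ≤ Cq * r ^ 2 :=
            mul_le_mul_of_nonneg_right (le_abs_self _) (by positivity)
          linarith
      _ = ENNReal.ofReal (∑ j : J n,
            (1 - r * (kap ν sh n j + gain ν sh n s j) + Cq * (r : ℝ) ^ 2)) := by
          rw [ENNReal.ofReal_sum_of_nonneg fun j _ => hnonneg j]
      _ ≤ _ := by
          apply ENNReal.ofReal_le_ofReal
          rw [Finset.sum_add_distrib, Finset.sum_sub_distrib, Finset.sum_const, Finset.sum_const,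
            ← Finset.mul_sum, Finset.sum_add_distrib, nsmul_eq_mul, nsmul_eq_mul, mul_one, hcard]
          have h6 := hGa E ν sh hS n hn1 s hs1 hs2
          have h7 : (r : ℝ) * (n * B * L / 80) ≤ r * ∑ j : J n, gain ν sh n s j :=
            mul_le_mul_of_nonneg_left h6 hrpos.le
          have h8 : (r : ℝ) * (∑ j : J n, kap ν sh n j + ∑ j : J n, gain ν sh n s j) =
            r * Kp + r * ∑ j : J n, gain ν sh n s j := by rw [hKp]; ring
          rw [h8]
          linarith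
  set u : ℝ := B - r * (Kp + n * B * L / 80) + B * (Cq * r ^ 2) with hu
  have huA : u ≤ A - r * B / 2 := by
    have h1 : 1 ≤ n * L / 80 - C - hs ν sh n := by
      have : n * L / 80 = n * L / 160 + L / 160 * n := by ring
      linarith
    have h2 : (r : ℝ) * B * 1 ≤ r * B * (n * L / 80 - C - hs ν sh n) :=
      mul_le_mul_of_nonneg_left h1 (by positivity)
    have h3 : (Cb + Cq) * (r : ℝ) ≤ 1 / 2 := by
      have h4 : Cb + Cq ≤ M := by
        have h0 : 0 ≤ Kp + n + B * (|C| + |hs ν sh n|) + B * Cb + B * Cq + B + 1 := by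
          positivity
        linarith
      have h5 : (r : ℝ) * (Cb + Cq) ≤ r * M := mul_le_mul_of_nonneg_left h4 hrpos.le
      linarith
    have h6 : B * ((Cb + Cq) * (r : ℝ)) * r ≤ B * (1 / 2) * r := by
      have := mul_le_mul_of_nonneg_left h3 hBpos.le
      exact mul_le_mul_of_nonneg_right this hrpos.le
    have h7 : r * B * (n * L / 80 - C - hs ν sh n) - B * ((Cb + Cq) * r) * r ≤ A - u := by
      have h71 : r * B * (n * L / 80 - C - hs ν sh n) - B * ((Cb + Cq) * r) * r =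
        (B - r * (Kp + B * (C + hs ν sh n)) - B * (Cb * r ^ 2)) -
          (B - r * (Kp + n * B * L / 80) + B * (Cq * r ^ 2)) := by ring
      rw [h71, hu]
      linarith
    linarith
  have h32 : (8 : ℝ) ^ ((n : ℝ) * (3 / 2)) ≤ B / 2 := by
    have e1 : (8 : ℝ) ^ ((n : ℝ) * (3 / 2)) * (8 : ℝ) ^ ((n : ℝ) * (1 / 2)) = B := by
      rw [← Real.rpow_add (by norm_num), hBdef]
      rw [show (n : ℝ) * (3 / 2) + n * (1 / 2) = 2 * n by ring, Real.rpow_mul (by norm_num)]
      norm_num [Real.rpow_natCast]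
    have e2 : (2 : ℝ) ≤ (8 : ℝ) ^ ((n : ℝ) * (1 / 2)) := by
      have : (8 : ℝ) ^ (1 : ℝ) ≤ (8 : ℝ) ^ ((n : ℝ) * (1 / 2)) := by
        apply Real.rpow_le_rpow_of_exponent_le (by norm_num)
        have : (2 : ℝ) ≤ n := by exact_mod_cast hn2
        linarith
      rw [Real.rpow_one] at this
      linarith
    have e3 : 0 < (8 : ℝ) ^ ((n : ℝ) * (3 / 2)) := Real.rpow_pos_of_pos (by norm_num) _
    nlinarith
  have ha1 : (8 : ℝ) ^ ((n : ℝ) * (3 / 2)) ≤ A - r * B / 4 := by
    refine h32.trans ?_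
    have h1 : (r : ℝ) * (Kp + B * (C + hs ν sh n)) + B * (Cb * r ^ 2) + r * B / 4 ≤ r * M := by
      have h2 : B * (C + hs ν sh n) ≤ B * (|C| + |hs ν sh n|) :=
        mul_le_mul_of_nonneg_left (add_le_add (le_abs_self _) (le_abs_self _)) hBpos.le
      have h3 : B * (Cb * (r : ℝ) ^ 2) ≤ r * (B * Cb) := by
        have h31 := mul_le_mul_of_nonneg_left hr1' (by positivity : (0:ℝ) ≤ B * Cb)
        calc B * (Cb * (r : ℝ) ^ 2) = B * Cb * r ^ 2 := by ring
          _ ≤ B * Cb * r := h31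
          _ = _ := by ring
      have h4 : (r : ℝ) * (Kp + B * (C + hs ν sh n)) ≤ r * (Kp + B * (|C| + |hs ν sh n|)) :=
        mul_le_mul_of_nonneg_left (by linarith) hrpos.le
      have h5 : (r : ℝ) * (Kp + B * (|C| + |hs ν sh n|)) + r * (B * Cb) + r * B / 4 ≤ r * M := by
        have h0 : 0 ≤ (n : ℝ) + B * Cq + Cb + Cq + 1 + 3 * B / 4 := by positivity
        have h01 := mul_nonneg hrpos.le h0
        have h02 : (r : ℝ) * M = r * (Kp + B * (|C| + |hs ν sh n|)) + r * (B * Cb) + r * B / 4 +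
          r * ((n : ℝ) + B * Cq + Cb + Cq + 1 + 3 * B / 4) := by rw [hM]; ring
        linarith
      linarith
    have h2 : (1 : ℝ) / 4 ≤ B / 2 := by
      have : (1 : ℝ) ≤ B := by
        rw [hBdef]
        exact one_le_pow₀ (by norm_num)
      linarith
    linarith
  obtain ⟨s1, s2, hs1, hs12, hs2, he1, he2⟩ := exponents hn1 ha1
    (show A - r * B / 4 < A - r * B / 8 by have := mul_pos hrpos hBpos; linarith)
    (show A - r * B / 8 ≤ 64 ^ n by have := mul_pos hrpos hBpos; linarith)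
  -- lower bound
  obtain ⟨A0, hA0m, hA0p, hA0⟩ := hL E ν sh hS n hn2 τ hτ0 hτ1 r s2 (by linarith)
    (by rw [he2]; have := mul_pos hrpos hBpos; linarith) (hG2 r hrr2) (hR3 r hrr3)
  -- upper bound
  have hup1 : ∑ j : J n, ∫⁻ w, Psi sh n s1 (child n V0 j) w ∂(law r ν) <
      ENNReal.ofReal ((8 : ℝ) ^ ((n : ℝ) * s1)) := by
    refine (hup s1 hs1 (by linarith)).trans_lt ?_
    rw [he1]
    have hrB : 0 < (r : ℝ) * B := mul_pos hrpos hBpos
    have ha1p : 0 < A - r * B / 4 := lt_of_lt_of_le (Real.rpow_pos_of_pos (by norm_num) _) ha1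
    rw [ENNReal.ofReal_lt_ofReal_iff ha1p]
    linarith
  have hae := hU E ν sh hS n hn1 s1 (by linarith) r hup1
  obtain ⟨Nl, hNsub, hNm, hN0⟩ := exists_measurable_superset_of_null hae
  refine ⟨A0 \ Nl, hA0m.diff hNm, ?_, ?_⟩
  · rw [measure_diff_null hN0]
    exact hA0p
  · intro w hw
    obtain ⟨Y, hY, f, hf, hfa, hfb⟩ := qs_exists (avoids_GD hS w) (Xs_dist sh w)
    refine ⟨Y, hY, f, hf, ?_⟩
    have h1 : dimH (univ : Set Y) ≤ ENNReal.ofReal s1 := by
      by_contra hcon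
      apply hw.2
      apply hNsub
      intro hall
      exact hcon (hall Y f hf.1.surjective hfa hfb)
    have h2 := hA0 w hw.1
    refine h1.trans_lt (lt_of_lt_of_le ?_ h2)
    rw [ENNReal.ofReal_lt_ofReal_iff (by linarith)]
    exact hs12

end Pool.Agent.Helper16.CD
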