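import Pool.Agent.Helper16.CD.QDefs

/-!
# CD-QA1: scales and the comparison of weights

`NN`: for `x ≠ y`, `t = logb 8 (1/dist)`; `dist < 1` iff `t > 0`, and then `NN = ⌈t⌉ - 1`, so
`NN < t ≤ NN + 1`, i.e. `8^-(NN+1) ≤ dist < 8^-NN`.  If `dist ≥ 1` then `t ≤ 0`, `⌈t⌉₊ = 0`, `NN = 0`.

`wgt_bounds`: values of `wt` are `1/8, 1, 2`.

`up_qq`: `up (qq (m+1) z) = qq m z` because `⌊8 a⌋ / 8 = ⌊a⌋` (integer division rounds down).
So `qq (m+1) x = qq (m+1) y → qq m x = qq m y`, and `wgt G (qq (m+1) z)` is the weight of the position of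
`qq (m+1) z` in `qq m z` if that square is good.

`qq_pos`: `z = pos (qq m z) y` with `y ∈ sq (dig (qq (m+1) z))`: `y = 8^m z - ⌊8^m z⌋` coordinatewise and
`⌊8^(m+1) z⌋ = 8 ⌊8^m z⌋ + digit`.  `side (qq m z) = (1/8)^m`.

`not_isR`: `sq d ⊆ Hset` if `isR d`, and `qq_pos`.

`outer_of_ne`: some coordinate has `⌊8^m x⌋ ≠ ⌊8^m y⌋`, while `|8^m x - 8^m y| < 1/8`; so there is an
integer between them, `8^m x` is within `1/8` of it: the digit of `x` is `0` or `7` in that coordinate.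
`outer` positions have weight `1` (`isI` needs digits `2..5`, the channel is `(1,3)`).

`dig_near`: same parent and `|8^(m+1) x - 8^(m+1) y| < 1`, so the floors differ by at most `1`.

`wn_ratio`: let `k` be the largest `k ≤ N` with `qq k x = qq k y` (if there is one).
(1) `WN_congr` for the factors below `k`.
(2) Level `k < N`: if `Q = qq k x ∉ G` both factors are `1`.  If `Q ∈ G` use `not_isR`, `dig_near`.
Two non-removed positions at sup distance `≤ 1`: inner-inner (`1/8, 1/8`), inner-channel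
(`1/8, 2`), channel-channel, channel-outer (`2, 1`), outer-outer (`1, 1`); inner-outer is
impossible (coordinates `2..5` versus `0` or `7`), a position that is not removed, not inner, not the channel is
outer.  So the ratio is `≤ 16`.
(3) Levels `k < m < N` (all levels `m < N` if there is no `k`): `qq m x ≠ qq m y`, both outer, factors `1`.
-/

set_option autoImplicit false

namespace Pool.Agent.Helper16.CD

open MeasureTheory ProbabilityTheory Metric Set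
open scoped ENNReal NNReal

private theorem QA1_inv_pow (n : ℕ) : ((1 : ℝ) / 8) ^ n = 1 / (8 : ℝ) ^ (n : ℝ) := by
  rw [Real.rpow_natCast, one_div_pow]

private theorem QA1_rpow {d : ℝ} (hd : 0 < d) :
    (8 : ℝ) ^ (Real.logb 8 (1 / d)) = 1 / d :=
  Real.rpow_logb (by norm_num) (by norm_num) (by positivity)

theorem NN_le {x y : Plane} (h : x ≠ y) : (1 / 8 : ℝ) ^ (NN x y + 1) ≤ dist x y := by
  have hd : 0 < dist x y := dist_pos.2 h
  have h1 : Real.logb 8 (1 / dist x y) ≤ ((NN x y + 1 : ℕ) : ℝ) := by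
    refine (Nat.le_ceil _).trans ?_
    have h2 : ⌈Real.logb 8 (1 / dist x y)⌉₊ ≤ NN x y + 1 := by
      unfold NN
      omega
    exact_mod_cast h2
  have h3 : 1 / dist x y ≤ (8 : ℝ) ^ ((NN x y + 1 : ℕ) : ℝ) := by
    rw [← QA1_rpow hd]
    exact Real.rpow_le_rpow_of_exponent_le (by norm_num) h1
  rw [QA1_inv_pow]
  rw [div_le_iff₀ hd] at h3
  rw [div_le_iff₀ (by positivity), mul_comm]
  exact h3

theorem NN_lt {x y : Plane} (h : dist x y < 1) : dist x y < (1 / 8 : ℝ) ^ NN x y := by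
  rcases (dist_nonneg (x := x) (y := y)).eq_or_lt with hd | hd
  · rw [← hd]
    positivity
  · have ht : 0 < Real.logb 8 (1 / dist x y) := by
      apply Real.logb_pos (by norm_num)
      rw [lt_div_iff₀ hd]
      linarith
    have h1 : (⌈Real.logb 8 (1 / dist x y)⌉₊ : ℝ) < Real.logb 8 (1 / dist x y) + 1 :=
      Nat.ceil_lt_add_one ht.le
    have h2 : 0 < ⌈Real.logb 8 (1 / dist x y)⌉₊ := Nat.ceil_pos.2 ht
    have h3 : ((NN x y : ℕ) : ℝ) < Real.logb 8 (1 / dist x y) := by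
      have h4 : NN x y + 1 = ⌈Real.logb 8 (1 / dist x y)⌉₊ := by
        unfold NN
        omega
      have h5 : ((NN x y : ℕ) : ℝ) + 1 = (⌈Real.logb 8 (1 / dist x y)⌉₊ : ℝ) := by
        exact_mod_cast h4
      linarith
    have h6 : (8 : ℝ) ^ ((NN x y : ℕ) : ℝ) < 1 / dist x y := by
      rw [← QA1_rpow hd]
      exact Real.rpow_lt_rpow_of_exponent_lt (by norm_num) h3
    rw [QA1_inv_pow, lt_div_iff₀ (by positivity)]
    rw [lt_div_iff₀ hd] at h6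
    linarith

theorem NN_zero {x y : Plane} (h : 1 ≤ dist x y) : NN x y = 0 := by
  have hd : 0 < dist x y := by linarith
  have h1 : Real.logb 8 (1 / dist x y) ≤ 0 := by
    apply Real.logb_nonpos (by norm_num) (by positivity)
    rw [div_le_iff₀ hd]
    linarith
  have h2 : ⌈Real.logb 8 (1 / dist x y)⌉₊ = 0 := Nat.ceil_eq_zero.2 h1
  unfold NN
  omega

theorem NN_comm (x y : Plane) : NN x y = NN y x := by
  unfold NN
  rw [dist_comm]

theorem NN_ge {x y : Plane} (h : x ≠ y) {N : ℕ} (hN : dist x y < (1 / 8 : ℝ) ^ N) : N ≤ NN x y := by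
  have hd : 0 < dist x y := dist_pos.2 h
  rw [QA1_inv_pow, lt_div_iff₀ (by positivity)] at hN
  have h1 : (8 : ℝ) ^ (N : ℝ) < 1 / dist x y := by
    rw [lt_div_iff₀ hd]
    linarith
  have h2 : (N : ℝ) < Real.logb 8 (1 / dist x y) := by
    rw [Real.lt_logb_iff_rpow_lt (by norm_num) (by positivity)]
    exact h1
  have h3 : N < ⌈Real.logb 8 (1 / dist x y)⌉₊ := Nat.lt_ceil.2 h2
  unfold NN
  omega

private theorem QA1_floor_div (x : ℝ) : ⌊8 * x⌋ / 8 = ⌊x⌋ := by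
  symm
  rw [Int.floor_eq_iff]
  have h1 := Int.floor_le (8 * x)
  have h2 := Int.lt_floor_add_one (8 * x)
  have h3 := Int.emod_nonneg ⌊8 * x⌋ (by norm_num : (8 : ℤ) ≠ 0)
  have h4 := Int.emod_lt_of_pos ⌊8 * x⌋ (by norm_num : (0 : ℤ) < 8)
  have h5 := Int.mul_ediv_add_emod ⌊8 * x⌋ 8
  have h6 : (8 : ℝ) * ((⌊8 * x⌋ / 8 : ℤ) : ℝ) + ((⌊8 * x⌋ % 8 : ℤ) : ℝ) = (⌊8 * x⌋ : ℝ) := by
    exact_mod_cast h5
  have h7 : (0 : ℝ) ≤ ((⌊8 * x⌋ % 8 : ℤ) : ℝ) := by exact_mod_cast h3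
  have h8 : ((⌊8 * x⌋ % 8 : ℤ) : ℝ) ≤ 7 := by exact_mod_cast Int.le_of_lt_add_one h4
  constructor <;> linarith

private theorem QA1_fl (m : ℕ) (a : ℝ) :
    ⌊(8 : ℝ) ^ (m + 1) * a⌋ / 8 = ⌊(8 : ℝ) ^ m * a⌋ := by
  have h : (8 : ℝ) ^ (m + 1) * a = 8 * ((8 : ℝ) ^ m * a) := by ring
  rw [h, QA1_floor_div]

private theorem QA1_fl_succ (m : ℕ) (a : ℝ) :
    ⌊(8 : ℝ) ^ (m + 1) * a⌋ = 8 * ⌊(8 : ℝ) ^ m * a⌋ + ⌊(8 : ℝ) ^ (m + 1) * a⌋ % 8 := by
  rw [← QA1_fl m a]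
  exact (Int.mul_ediv_add_emod _ 8).symm

theorem up_qq (m : ℕ) (z : Plane) : up (qq (m + 1) z) = qq m z := by
  unfold up qq
  simp only
  rw [QA1_fl, QA1_fl]
  have h : 3 * (m + 1) - 3 = 3 * m := by omega
  rw [h]

theorem isD_dig (i : Idx) : isD (dig i) := by
  have h1 := Int.emod_nonneg i.2.1 (by norm_num : (8 : ℤ) ≠ 0)
  have h2 := Int.emod_lt_of_pos i.2.1 (by norm_num : (0 : ℤ) < 8)
  have h3 := Int.emod_nonneg i.2.2 (by norm_num : (8 : ℤ) ≠ 0)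
  have h4 := Int.emod_lt_of_pos i.2.2 (by norm_num : (0 : ℤ) < 8)
  unfold isD dig
  refine ⟨h1, ?_, h3, ?_⟩ <;> simp only <;> omega

private theorem QA1_side (m : ℕ) (z : Plane) : side (qq m z) = (1 / 8 : ℝ) ^ m := by
  unfold side qq
  simp only
  rw [pow_mul]
  norm_num

private theorem QA1_sq (m : ℕ) (a : ℝ) :
    (((⌊(8 : ℝ) ^ (m + 1) * a⌋ % 8 : ℤ) : ℝ)) / 8 ≤ (8 : ℝ) ^ m * a - ⌊(8 : ℝ) ^ m * a⌋ ∧
      (8 : ℝ) ^ m * a - ⌊(8 : ℝ) ^ m * a⌋ ≤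
        ((((⌊(8 : ℝ) ^ (m + 1) * a⌋ % 8 : ℤ) : ℝ)) + 1) / 8 := by
  have h1 := QA1_fl_succ m a
  have h2 := Int.floor_le ((8 : ℝ) ^ (m + 1) * a)
  have h3 := Int.lt_floor_add_one ((8 : ℝ) ^ (m + 1) * a)
  have h4 : ((⌊(8 : ℝ) ^ (m + 1) * a⌋ : ℤ) : ℝ) =
      8 * ((⌊(8 : ℝ) ^ m * a⌋ : ℤ) : ℝ) + ((⌊(8 : ℝ) ^ (m + 1) * a⌋ % 8 : ℤ) : ℝ) := by
    exact_mod_cast h1
  have h5 : (8 : ℝ) ^ (m + 1) * a = 8 * ((8 : ℝ) ^ m * a) := by ring
  rw [h5] at h2 h3 h4 ⊢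
  constructor
  · rw [div_le_iff₀ (by norm_num)]
    linarith
  · rw [le_div_iff₀ (by norm_num)]
    linarith

theorem qq_pos (m : ℕ) (z : Plane) :
    ∃ y ∈ sq (dig (qq (m + 1) z)), z = pos (qq m z) y := by
  refine ⟨((8 : ℝ) ^ m * z.1 - ⌊(8 : ℝ) ^ m * z.1⌋, (8 : ℝ) ^ m * z.2 - ⌊(8 : ℝ) ^ m * z.2⌋),
    ?_, ?_⟩
  · obtain ⟨h1, h2⟩ := QA1_sq m z.1
    obtain ⟨h3, h4⟩ := QA1_sq m z.2
    exact ⟨h1, h2, h3, h4⟩
  · have hp : ((1 : ℝ) / 8) ^ m * 8 ^ m = 1 := by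
      rw [← mul_pow]
      norm_num
    unfold pos
    rw [QA1_side]
    apply Prod.ext
    · simp only [qq]
      rw [add_sub_cancel, ← mul_assoc, hp, one_mul]
    · simp only [qq]
      rw [add_sub_cancel, ← mul_assoc, hp, one_mul]

theorem not_isR {X : Set Plane} {G : Set Idx} (hG : Avoids X G) {x : Plane} (hx : x ∈ X) {m : ℕ}
    (hm : qq m x ∈ G) : ¬ isR (dig (qq (m + 1) x)) := by
  intro hR
  obtain ⟨y, hy, hxy⟩ := qq_pos m x
  have h1 : y ∈ Hset := ⟨_, hR, hy⟩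
  apply hG _ hm y h1
  rw [← hxy]
  exact hx

private theorem QA1_scale {m : ℕ} {a b : ℝ} (h : |a - b| < (1 / 8 : ℝ) ^ (m + 1)) :
    |(8 : ℝ) ^ (m + 1) * a - 8 ^ (m + 1) * b| < 1 := by
  have hp : (0 : ℝ) < 8 ^ (m + 1) := by positivity
  have hpp : ((1 : ℝ) / 8) ^ (m + 1) * 8 ^ (m + 1) = 1 := by
    rw [← mul_pow]
    norm_num
  rw [← mul_sub, abs_mul, abs_of_pos hp]
  calc (8 : ℝ) ^ (m + 1) * |a - b| < 8 ^ (m + 1) * (1 / 8) ^ (m + 1) := by gcongr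
    _ = 1 := by rw [mul_comm]; exact hpp

private theorem QA1_floor {a b : ℝ} (hab : |a - b| < 1) : ⌊a⌋ ≤ ⌊b⌋ + 1 ∧ ⌊b⌋ ≤ ⌊a⌋ + 1 := by
  have h1 := abs_lt.1 hab
  have ha1 := Int.floor_le a
  have ha2 := Int.lt_floor_add_one a
  have hb1 := Int.floor_le b
  have hb2 := Int.lt_floor_add_one b
  constructor
  · have : (⌊a⌋ : ℝ) < ⌊b⌋ + 2 := by linarith
    have : ⌊a⌋ < ⌊b⌋ + 2 := by exact_mod_cast this
    omega
  · have : (⌊b⌋ : ℝ) < ⌊a⌋ + 2 := by linarith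
    have : ⌊b⌋ < ⌊a⌋ + 2 := by exact_mod_cast this
    omega

private theorem QA1_coord {x y : Plane} {t : ℝ} (h : dist x y < t) :
    |x.1 - y.1| < t ∧ |x.2 - y.2| < t := by
  have h1 := le_max_left (dist x.1 y.1) (dist x.2 y.2)
  have h2 := le_max_right (dist x.1 y.1) (dist x.2 y.2)
  rw [← Prod.dist_eq] at h1 h2
  rw [← Real.dist_eq, ← Real.dist_eq]
  constructor <;> linarith

theorem outer_of_ne {x y : Plane} {m : ℕ} (hne : qq m x ≠ qq m y)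
    (h : dist x y < (1 / 8 : ℝ) ^ (m + 1)) : isOut (dig (qq (m + 1) x)) := by
  obtain ⟨hd1, hd2⟩ := QA1_coord h
  have key : ∀ a b : ℝ, |a - b| < (1 / 8 : ℝ) ^ (m + 1) →
      ⌊(8 : ℝ) ^ m * a⌋ ≠ ⌊(8 : ℝ) ^ m * b⌋ →
      ⌊(8 : ℝ) ^ (m + 1) * a⌋ % 8 = 0 ∨ ⌊(8 : ℝ) ^ (m + 1) * a⌋ % 8 = 7 := by
    intro a b hab hn
    obtain ⟨h2, h3⟩ := QA1_floor (QA1_scale hab)
    rw [← QA1_fl m a, ← QA1_fl m b] at hn
    omega
  have h1 : ⌊(8 : ℝ) ^ m * x.1⌋ ≠ ⌊(8 : ℝ) ^ m * y.1⌋ ∨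
      ⌊(8 : ℝ) ^ m * x.2⌋ ≠ ⌊(8 : ℝ) ^ m * y.2⌋ := by
    by_contra hcon
    push Not at hcon
    apply hne
    unfold qq
    rw [hcon.1, hcon.2]
  rcases h1 with h1 | h1
  · rcases key _ _ hd1 h1 with h2 | h2
    · exact Or.inl h2
    · exact Or.inr (Or.inl h2)
  · rcases key _ _ hd2 h1 with h2 | h2
    · exact Or.inr (Or.inr (Or.inl h2))
    · exact Or.inr (Or.inr (Or.inr h2))

theorem wt_outer {d : ℤ × ℤ} (h : isOut d) : wt d = 1 := by
  unfold wt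
  have h1 : d ≠ (1, 3) := by
    rintro rfl
    rcases h with h | h | h | h <;> simp at h
  have h2 : ¬ isI d := by
    intro h3
    obtain ⟨a, b, c, e⟩ := h3
    rcases h with h | h | h | h <;> omega
  rw [if_neg h2, if_neg h1]

theorem dig_near {x y : Plane} {m : ℕ} (he : qq m x = qq m y)
    (h : dist x y < (1 / 8 : ℝ) ^ (m + 1)) :
    |(dig (qq (m + 1) x)).1 - (dig (qq (m + 1) y)).1| ≤ 1 ∧
      |(dig (qq (m + 1) x)).2 - (dig (qq (m + 1) y)).2| ≤ 1 := by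
  obtain ⟨hd1, hd2⟩ := QA1_coord h
  have key : ∀ a b : ℝ, |a - b| < (1 / 8 : ℝ) ^ (m + 1) →
      ⌊(8 : ℝ) ^ m * a⌋ = ⌊(8 : ℝ) ^ m * b⌋ →
      |⌊(8 : ℝ) ^ (m + 1) * a⌋ % 8 - ⌊(8 : ℝ) ^ (m + 1) * b⌋ % 8| ≤ 1 := by
    intro a b hab hn
    obtain ⟨h2, h3⟩ := QA1_floor (QA1_scale hab)
    have h4 := QA1_fl_succ m a
    have h5 := QA1_fl_succ m b
    rw [hn] at h4
    rw [abs_le]
    omega
  have h1 : ⌊(8 : ℝ) ^ m * x.1⌋ = ⌊(8 : ℝ) ^ m * y.1⌋ :=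
    congrArg (fun i : Idx => i.2.1) he
  have h2 : ⌊(8 : ℝ) ^ m * x.2⌋ = ⌊(8 : ℝ) ^ m * y.2⌋ :=
    congrArg (fun i : Idx => i.2.2) he
  exact ⟨key _ _ hd1 h1, key _ _ hd2 h2⟩

theorem wgt_bounds (G : Set Idx) (i : Idx) : 1 / 8 ≤ wgt G i ∧ wgt G i ≤ 2 := by
  unfold wgt wt
  split_ifs <;> norm_num

theorem WN_pos (G : Set Idx) (N : ℕ) (z : Plane) : 0 < WN G N z := by
  unfold WN
  exact Finset.prod_pos fun m _ => lt_of_lt_of_le (by norm_num) (wgt_bounds G _).1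

private theorem QA1_qq_of_le {m N : ℕ} {x y : Plane} (hm : m ≤ N) (h : qq N x = qq N y) :
    qq m x = qq m y := by
  induction N, hm using Nat.le_induction with
  | base => exact h
  | succ n _ ih =>
    apply ih
    rw [← up_qq n x, ← up_qq n y, h]

theorem WN_congr (G : Set Idx) {N : ℕ} {x y : Plane} (h : qq N x = qq N y) :
    WN G N x = WN G N y := by
  unfold WN
  refine Finset.prod_congr rfl fun m hm => ?_
  rw [QA1_qq_of_le (Finset.mem_range.1 hm) h]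

private theorem QA1_WN_succ (G : Set Idx) (N : ℕ) (z : Plane) :
    WN G (N + 1) z = WN G N z * wgt G (qq (N + 1) z) := by
  unfold WN
  rw [Finset.prod_range_succ]

private theorem QA1_one {G : Set Idx} {m : ℕ} {x y : Plane} (hne : qq m x ≠ qq m y)
    (h : dist x y < (1 / 8 : ℝ) ^ (m + 1)) : wgt G (qq (m + 1) x) = 1 := by
  unfold wgt
  rw [wt_outer (outer_of_ne hne h), ite_self]

theorem wn_ratio {X : Set Plane} {G : Set Idx} (hG : Avoids X G) {x y : Plane} (hx : x ∈ X)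
    (hy : y ∈ X) {N : ℕ} (h : dist x y < (1 / 8 : ℝ) ^ N) : WN G N x ≤ 16 * WN G N y := by
  clear hG hx hy
  induction N with
  | zero => simp [WN]
  | succ M ih =>
    by_cases hM : qq M x = qq M y
    · rw [QA1_WN_succ, QA1_WN_succ, WN_congr G hM]
      have h1 := (wgt_bounds G (qq (M + 1) x)).2
      have h2 := (wgt_bounds G (qq (M + 1) y)).1
      have h3 := WN_pos G M y
      calc WN G M y * wgt G (qq (M + 1) x) ≤ WN G M y * 2 := by gcongr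
        _ = 16 * (WN G M y * (1 / 8)) := by ring
        _ ≤ 16 * (WN G M y * wgt G (qq (M + 1) y)) := by gcongr
    · have h1 : wgt G (qq (M + 1) x) = 1 := QA1_one hM h
      have h2 : wgt G (qq (M + 1) y) = 1 := by
        apply QA1_one (Ne.symm hM)
        rw [dist_comm]
        exact h
      rw [QA1_WN_succ, QA1_WN_succ, h1, h2, mul_one, mul_one]
      apply ih
      refine h.trans_le ?_
      exact pow_le_pow_of_le_one (by norm_num) (by norm_num) (Nat.le_succ M)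

end Pool.Agent.Helper16.CD
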