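import Pool.Agent.Helper16.CD.QDefs

/-!
# CD-QA2: the collapse of one square

`col d`: identity unless `d` is inner or the channel; constant `e0 = (1/8, 7/16)` for inner positions;
for the channel `(1, 3)`, `col z = e0 + (1 - θ) (z - e0)` with `1 - θ = 2 - 8 z.1 ∈ [0, 1]` on `sq (1,3)`.

`col_same`: same position, `z, z' ∈ sq d`: outer or other: identity, weight 1; inner: constant; channel:
`|col z - col z'| ≤ (1-θ)|z-z'| + 8 |z.1-z'.1| |z'-e0| ≤ 2 |z-z'|` as `|z'-e0| ≤ 1/8`; weight 2.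
`col_lip`, non-removed positions `d, d'` with coordinates differing by at most 1,
`z ∈ sq d`, `z' ∈ sq d'`.  A position that is not removed, not inner, not the channel is outer.
outer-outer: identity, weight 1.  inner-inner: distance 0.  channel-channel: `col_same`.
channel `z` - outer `z'`: the outer position must be `(0, 2), (0,3), (0,4)` so `z'.1 ≤ 1/8 ≤ z.1`; put
`w = (1/8, z.2)` (in `sq (1,3)`): `|z-w| ≤ |z-z'|`, `|w-z'| ≤ |z-z'|`, `col w = w` and
`|col z - z'| ≤ 2|z-w| + |w-z'| ≤ 3|z-z'|`.  Both orders (weights 1 and 2).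
channel `z` - inner `z'`: the inner position is `(2, 2), (2,3), (2,4)` so `z.1 ≤ 1/4 ≤ z'.1`;
`w = (1/4, z.2)`, `col w = e0`: `|col z - e0| ≤ 2|z-w| ≤ 2|z-z'|`; weights `2` and `1/8`, so `2 ≤ 32 * 1/8`.
inner-outer: impossible (digits `2..5` versus `0, 7`).
`col_mem`: `col d` maps `sq d` into the unit square `[0,1]²`.
All numbers are explicit; work with the two coordinates and `Prod.dist_eq`, `Real.dist_eq`.
-/

set_option autoImplicit false

namespace Pool.Agent.Helper16.CD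

open MeasureTheory ProbabilityTheory Metric Set
open scoped ENNReal NNReal

private theorem QA2_chan {z : Plane} (hz : z ∈ sq (1, 3)) :
    1 / 8 ≤ z.1 ∧ z.1 ≤ 1 / 4 ∧ 3 / 8 ≤ z.2 ∧ z.2 ≤ 1 / 2 := by
  obtain ⟨h1, h2, h3, h4⟩ := hz
  norm_num at h1 h2 h3 h4
  exact ⟨h1, h2, h3, h4⟩

private theorem QA2_inner {d : ℤ × ℤ} (h : isI d) (z : Plane) : col d z = (1 / 8, 7 / 16) := by
  unfold col
  rw [if_pos h]
  rfl

private theorem QA2_col_chan (z : Plane) : col (1, 3) z =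
    (1 / 8 + (2 - 8 * z.1) * (z.1 - 1 / 8), 7 / 16 + (2 - 8 * z.1) * (z.2 - 7 / 16)) := by
  unfold col
  have h : ¬ isI (1, 3) := by
    unfold isI
    norm_num
  rw [if_neg h, if_pos rfl]

theorem col_mem {d : ℤ × ℤ} (hd : isD d) {z : Plane} (hz : z ∈ sq d) :
    0 ≤ (col d z).1 ∧ (col d z).1 ≤ 1 ∧ 0 ≤ (col d z).2 ∧ (col d z).2 ≤ 1 := by
  by_cases hI : isI d
  · rw [QA2_inner hI]
    norm_num
  by_cases hC : d = (1, 3)
  · subst hC
    obtain ⟨h1, h2, h3, h4⟩ := QA2_chan hz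
    rw [QA2_col_chan]
    have ha : 0 ≤ 2 - 8 * z.1 := by linarith
    have hb : 2 - 8 * z.1 ≤ 1 := by linarith
    refine ⟨?_, ?_, ?_, ?_⟩ <;> dsimp only <;> nlinarith
  · unfold col
    rw [if_neg hI, if_neg hC]
    obtain ⟨h1, h2, h3, h4⟩ := hz
    obtain ⟨g1, g2, g3, g4⟩ := hd
    have g1' : (0 : ℝ) ≤ d.1 := by exact_mod_cast g1
    have g2' : (d.1 : ℝ) ≤ 7 := by exact_mod_cast g2
    have g3' : (0 : ℝ) ≤ d.2 := by exact_mod_cast g3
    have g4' : (d.2 : ℝ) ≤ 7 := by exact_mod_cast g4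
    refine ⟨?_, ?_, ?_, ?_⟩ <;> linarith

theorem col_outer {d : ℤ × ℤ} (hd : isOut d) (z : Plane) : col d z = z := by
  unfold col
  have h1 : ¬ isI d := by
    unfold isI
    unfold isOut at hd
    omega
  have h2 : d ≠ (1, 3) := by
    rintro rfl
    unfold isOut at hd
    norm_num at hd
  rw [if_neg h1, if_neg h2]

private theorem QA2_wt_inner {d : ℤ × ℤ} (h : isI d) : wt d = 1 / 8 := by
  unfold wt
  rw [if_pos h]

private theorem QA2_wt_chan : wt (1, 3) = 2 := by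
  unfold wt
  have h : ¬ isI (1, 3) := by
    unfold isI
    norm_num
  rw [if_neg h, if_pos rfl]

private theorem QA2_wt_out {d : ℤ × ℤ} (hd : isOut d) : wt d = 1 := by
  unfold wt
  have h1 : ¬ isI d := by
    unfold isI
    unfold isOut at hd
    omega
  have h2 : d ≠ (1, 3) := by
    rintro rfl
    unfold isOut at hd
    norm_num at hd
  rw [if_neg h1, if_neg h2]

private theorem QA2_d1 (z z' : Plane) : |z.1 - z'.1| ≤ dist z z' := by
  rw [Prod.dist_eq, Real.dist_eq, Real.dist_eq]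
  exact le_max_left _ _

private theorem QA2_d2 (z z' : Plane) : |z.2 - z'.2| ≤ dist z z' := by
  rw [Prod.dist_eq, Real.dist_eq, Real.dist_eq]
  exact le_max_right _ _

private theorem QA2_same_chan {z z' : Plane} (hz : z ∈ sq (1, 3)) (hz' : z' ∈ sq (1, 3)) :
    dist (col (1, 3) z) (col (1, 3) z') ≤ 2 * dist z z' := by
  obtain ⟨h1, h2, h3, h4⟩ := QA2_chan hz
  obtain ⟨h1', h2', h3', h4'⟩ := QA2_chan hz'
  have hD1 := QA2_d1 z z'
  have hD2 := QA2_d2 z z'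
  have hD0 : 0 ≤ dist z z' := dist_nonneg
  rw [QA2_col_chan, QA2_col_chan, Prod.dist_eq, Real.dist_eq, Real.dist_eq]
  refine max_le ?_ ?_
  · have e : 1 / 8 + (2 - 8 * z.1) * (z.1 - 1 / 8) - (1 / 8 + (2 - 8 * z'.1) * (z'.1 - 1 / 8)) =
        (z.1 - z'.1) * (3 - 8 * (z.1 + z'.1)) := by ring
    show |1 / 8 + (2 - 8 * z.1) * (z.1 - 1 / 8) - (1 / 8 + (2 - 8 * z'.1) * (z'.1 - 1 / 8))| ≤ _
    rw [e, abs_mul]
    have h5 : |3 - 8 * (z.1 + z'.1)| ≤ 1 := abs_le.2 ⟨by linarith, by linarith⟩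
    calc |z.1 - z'.1| * |3 - 8 * (z.1 + z'.1)| ≤ dist z z' * 1 :=
          mul_le_mul hD1 h5 (abs_nonneg _) hD0
      _ ≤ 2 * dist z z' := by linarith
  · have e : 7 / 16 + (2 - 8 * z.1) * (z.2 - 7 / 16) - (7 / 16 + (2 - 8 * z'.1) * (z'.2 - 7 / 16)) =
        (2 - 8 * z.1) * (z.2 - z'.2) + (z.1 - z'.1) * (8 * (7 / 16 - z'.2)) := by ring
    show |7 / 16 + (2 - 8 * z.1) * (z.2 - 7 / 16) -
      (7 / 16 + (2 - 8 * z'.1) * (z'.2 - 7 / 16))| ≤ _
    rw [e]
    refine (abs_add_le _ _).trans ?_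
    rw [abs_mul, abs_mul]
    have h5 : |2 - 8 * z.1| ≤ 1 := abs_le.2 ⟨by linarith, by linarith⟩
    have h6 : |8 * (7 / 16 - z'.2)| ≤ 1 := abs_le.2 ⟨by linarith, by linarith⟩
    have h7 : |2 - 8 * z.1| * |z.2 - z'.2| ≤ 1 * dist z z' :=
      mul_le_mul h5 hD2 (abs_nonneg _) zero_le_one
    have h8 : |z.1 - z'.1| * |8 * (7 / 16 - z'.2)| ≤ dist z z' * 1 :=
      mul_le_mul hD1 h6 (abs_nonneg _) hD0
    linarith

theorem col_same {d : ℤ × ℤ} (hd : isD d) {z z' : Plane} (hz : z ∈ sq d) (hz' : z' ∈ sq d) :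
    dist (col d z) (col d z') ≤ wt d * dist z z' := by
  by_cases hI : isI d
  · rw [QA2_inner hI, QA2_inner hI, dist_self, QA2_wt_inner hI]
    positivity
  by_cases hC : d = (1, 3)
  · subst hC
    rw [QA2_wt_chan]
    exact QA2_same_chan hz hz'
  · unfold col wt
    rw [if_neg hI, if_neg hC, if_neg hI, if_neg hC, if_neg hI, if_neg hC, one_mul]

private theorem QA2_class {d : ℤ × ℤ} (hd : isD d) (hR : ¬ isR d) :
    isI d ∨ d = (1, 3) ∨ isOut d := by
  obtain ⟨a, b⟩ := d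
  simp only [isD, isR, isI, isOut, ne_eq, Prod.mk.injEq] at *
  omega

private theorem QA2_chan_out {d' : ℤ × ℤ} (hO : isOut d')
    (h1 : |1 - d'.1| ≤ 1) (h2 : |3 - d'.2| ≤ 1) {z z' : Plane} (hz : z ∈ sq (1, 3))
    (hz' : z' ∈ sq d') : dist (col (1, 3) z) (col d' z') ≤ 2 * dist z z' := by
  rw [abs_le] at h1 h2
  have hd0 : d'.1 = 0 := by
    unfold isOut at hO
    omega
  have hx : z'.1 ≤ 1 / 8 := by
    have := hz'.2.1
    rw [hd0] at this
    norm_num at this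
    exact this
  obtain ⟨g1, g2, g3, g4⟩ := QA2_chan hz
  have hD1 := QA2_d1 z z'
  have hD2 := QA2_d2 z z'
  have hD0 : 0 ≤ dist z z' := dist_nonneg
  rw [abs_le] at hD1 hD2
  rw [QA2_col_chan, col_outer hO, Prod.dist_eq, Real.dist_eq, Real.dist_eq]
  refine max_le (abs_le.2 ⟨?_, ?_⟩) (abs_le.2 ⟨?_, ?_⟩) <;> dsimp only
  · nlinarith [mul_nonneg (by linarith : (0 : ℝ) ≤ 2 - 8 * z.1) (by linarith : 0 ≤ z.1 - 1 / 8)]
  · nlinarith [mul_nonneg (by linarith : (0 : ℝ) ≤ z.1 - 1 / 8) (by linarith : 0 ≤ z.1 - 1 / 8)]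
  · nlinarith [mul_nonneg (by linarith : (0 : ℝ) ≤ z.1 - 1 / 8)
      (by linarith : (0 : ℝ) ≤ z.2 - 3 / 8), mul_nonneg (by linarith : (0 : ℝ) ≤ z.1 - 1 / 8)
      (by linarith : (0 : ℝ) ≤ 1 / 2 - z.2)]
  · nlinarith [mul_nonneg (by linarith : (0 : ℝ) ≤ z.1 - 1 / 8)
      (by linarith : (0 : ℝ) ≤ z.2 - 3 / 8), mul_nonneg (by linarith : (0 : ℝ) ≤ z.1 - 1 / 8)
      (by linarith : (0 : ℝ) ≤ 1 / 2 - z.2)]

private theorem QA2_chan_in {d' : ℤ × ℤ} (hI : isI d') {z z' : Plane} (hz : z ∈ sq (1, 3))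
    (hz' : z' ∈ sq d') : dist (col (1, 3) z) (col d' z') ≤ 2 * dist z z' := by
  have hd0 : (2 : ℝ) ≤ d'.1 := by exact_mod_cast hI.1
  have hx : 1 / 4 ≤ z'.1 := by
    have := hz'.1
    linarith
  obtain ⟨g1, g2, g3, g4⟩ := QA2_chan hz
  have hD1 := QA2_d1 z z'
  have hD0 : 0 ≤ dist z z' := dist_nonneg
  rw [abs_le] at hD1
  rw [QA2_col_chan, QA2_inner hI, Prod.dist_eq, Real.dist_eq, Real.dist_eq]
  have ha : 0 ≤ 2 - 8 * z.1 := by linarith
  have hb : 2 - 8 * z.1 ≤ 8 * dist z z' := by linarith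
  refine max_le (abs_le.2 ⟨?_, ?_⟩) (abs_le.2 ⟨?_, ?_⟩) <;> dsimp only
  · nlinarith
  · nlinarith [mul_nonneg ha (by linarith : (0 : ℝ) ≤ 1 / 4 - z.1)]
  · nlinarith
  · nlinarith [mul_nonneg ha (by linarith : (0 : ℝ) ≤ 1 / 2 - z.2)]

theorem col_lip {d d' : ℤ × ℤ} (hd : isD d) (hd' : isD d') (hR : ¬ isR d) (hR' : ¬ isR d')
    (h1 : |d.1 - d'.1| ≤ 1) (h2 : |d.2 - d'.2| ≤ 1) {z z' : Plane} (hz : z ∈ sq d)
    (hz' : z' ∈ sq d') : dist (col d z) (col d' z') ≤ 32 * wt d * dist z z' := by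
  have hD0 : 0 ≤ dist z z' := dist_nonneg
  rcases QA2_class hd hR with hI | rfl | hO
  · rcases QA2_class hd' hR' with hI' | rfl | hO'
    · rw [QA2_inner hI, QA2_inner hI', dist_self, QA2_wt_inner hI]
      positivity
    · rw [dist_comm (col d z), dist_comm z, QA2_wt_inner hI]
      have := QA2_chan_in hI hz' hz
      have h0 : 0 ≤ dist z' z := dist_nonneg
      linarith
    · exfalso
      rw [abs_le] at h1 h2
      unfold isI at hI
      unfold isOut at hO'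
      omega
  · rw [QA2_wt_chan]
    rcases QA2_class hd' hR' with hI' | rfl | hO'
    · have := QA2_chan_in hI' hz hz'
      linarith
    · have := QA2_same_chan hz hz'
      linarith
    · have := QA2_chan_out hO' h1 h2 hz hz'
      linarith
  · rw [QA2_wt_out hO]
    rcases QA2_class hd' hR' with hI' | rfl | hO'
    · exfalso
      rw [abs_le] at h1 h2
      unfold isI at hI'
      unfold isOut at hO
      omega
    · rw [dist_comm (col d z), dist_comm z]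
      rw [abs_sub_comm] at h1 h2
      have := QA2_chan_out hO h1 h2 hz' hz
      have h0 : 0 ≤ dist z' z := dist_nonneg
      linarith
    · rw [col_outer hO, col_outer hO']
      linarith

end Pool.Agent.Helper16.CD
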