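import Pool.Agent.Helper16.CD.QA1
import Pool.Agent.Helper16.CD.QA2

/-!
# CD-QA3: the collapse maps

Fix `L`.  Define `PP t z` for `t ≤ L` (level `m = L - t`) by recursion on `t`: `PP 0 z = z` (level `L`);
level `m`: if `qq m z ∈ G`, `pos (qq m z) (col (dig (qq (m+1) z)) y)` where `y` is the unit coordinate of the level `m+1`
value (`y = 8^m • value - ⌊8^m z⌋`), otherwise the level `m+1` value.
By `col_mem` the level `m` value lies in the closed square `qq m z` (`pos (qq m z) '' [0,1]²`), which contains `z` (`qq_pos`)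
and has side `(1/8)^m`; so `dist (P z) z ≤ (1/8)^m`.  The level `m+1` value in unit coordinates of `qq m z` lies in
`sq (dig (qq (m+1) z))`.
Let `a ≠ b` in `X`, `N' = NN a b`, `n ≤ N' ≤ L`.  Level `N'`: distance of the values `≤ |a-b| + 2 * 8^-N' ≤ 17 |a-b|`
(`NN_le`).  If `N' > n` then `N' ≥ 1`, so `dist a b < 1` (`NN_zero`) and `dist a b < 8^-N'` (`NN_lt`), hence `< 8^-(m+1)` for `m < N'`.
Go down from `N'` to `n`.  While `qq m a ≠ qq m b` both positions are outer (`outer_of_ne`), the values do not change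
(`col_outer`) and the factors are `1` (`wt_outer`).  At the first (largest) `m < N'` with `qq m a = qq m b`: if not good
nothing changes and the factor is `1`; if good: `not_isR`, `dig_near`, `col_lip` (scaled by the side): factor `32 * wgt`.  For the lower
levels `m`: `qq (m+1) a = qq (m+1) b`, `col_same`: factor `wgt G (qq (m+1) a)`.
(If `qq N' a = qq N' b` only the last case occurs.)  Total `17 * 32 * ∏ = 544 ∏`.
Suggestion: prove by downward induction on `m` the statement: if `qq m a = qq m b` then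
`dist ≤ 544 * ∏_{m ≤ k < N'} wgt * dist a b`, if `qq m a ≠ qq m b` then `dist ≤ 17 dist a b` and the product is `1`.
-/

set_option autoImplicit false

namespace Pool.Agent.Helper16.CD

open MeasureTheory ProbabilityTheory Metric Set
open scoped ENNReal NNReal

/-- unit coordinates -/
private noncomputable def uc (i : Idx) (v : Plane) : Plane :=
  (v.1 / side i - i.2.1, v.2 / side i - i.2.2)

private theorem sd_pos (i : Idx) : 0 < side i := by
  unfold side
  positivity

private theorem pos_uc (i : Idx) (v : Plane) : pos i (uc i v) = v := by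
  have h := (sd_pos i).ne'
  unfold pos uc
  apply Prod.ext
  · show side i * (i.2.1 + (v.1 / side i - i.2.1)) = v.1
    field_simp
    ring
  · show side i * (i.2.2 + (v.2 / side i - i.2.2)) = v.2
    field_simp
    ring

private theorem uc_pos (i : Idx) (y : Plane) : uc i (pos i y) = y := by
  have h := (sd_pos i).ne'
  unfold pos uc
  apply Prod.ext
  · show side i * (i.2.1 + y.1) / side i - i.2.1 = y.1
    field_simp
    ring
  · show side i * (i.2.2 + y.2) / side i - i.2.2 = y.2
    field_simp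
    ring

private theorem side_qq (m : ℕ) (z : Plane) : side (qq m z) = (1 / 8 : ℝ) ^ m := by
  show (1 / 2 : ℝ) ^ (3 * m) = _
  rw [pow_mul]
  norm_num

private theorem dist_pos' (i : Idx) (y y' : Plane) :
    dist (pos i y) (pos i y') = side i * dist y y' := by
  have h := (sd_pos i).le
  rw [Prod.dist_eq, Prod.dist_eq, mul_max_of_nonneg _ _ h]
  unfold pos
  simp only [Real.dist_eq]
  congr 1
  · rw [← mul_sub, abs_mul, abs_of_nonneg h]
    congr 2
    ring
  · rw [← mul_sub, abs_mul, abs_of_nonneg h]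
    congr 2
    ring

private theorem dist_uc (i : Idx) (v v' : Plane) :
    dist v v' = side i * dist (uc i v) (uc i v') := by
  rw [← dist_pos', pos_uc, pos_uc]

/-- the closed unit square -/
private def US : Set Plane := {z | 0 ≤ z.1 ∧ z.1 ≤ 1 ∧ 0 ≤ z.2 ∧ z.2 ≤ 1}

private theorem sq_sub {d : ℤ × ℤ} (hd : isD d) {z : Plane} (hz : z ∈ sq d) : z ∈ US := by
  obtain ⟨h1, h2, h3, h4⟩ := hd
  obtain ⟨k1, k2, k3, k4⟩ := hz
  have h1' : (0 : ℝ) ≤ d.1 := by exact_mod_cast h1
  have h2' : (d.1 : ℝ) ≤ 7 := by exact_mod_cast h2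
  have h3' : (0 : ℝ) ≤ d.2 := by exact_mod_cast h3
  have h4' : (d.2 : ℝ) ≤ 7 := by exact_mod_cast h4
  refine ⟨?_, ?_, ?_, ?_⟩ <;> linarith

private theorem coord (n : ℕ) (z : Plane) :
    (qq (n + 1) z).2.1 = 8 * (qq n z).2.1 + (dig (qq (n + 1) z)).1 ∧
      (qq (n + 1) z).2.2 = 8 * (qq n z).2.2 + (dig (qq (n + 1) z)).2 := by
  have h := up_qq n z
  have h1 : (qq (n + 1) z).2.1 / 8 = (qq n z).2.1 := by rw [← h]; rfl
  have h2 : (qq (n + 1) z).2.2 / 8 = (qq n z).2.2 := by rw [← h]; rfl
  have h3 : (dig (qq (n + 1) z)).1 = (qq (n + 1) z).2.1 % 8 := rfl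
  have h4 : (dig (qq (n + 1) z)).2 = (qq (n + 1) z).2.2 % 8 := rfl
  constructor <;> omega

private theorem uc_child (n : ℕ) (z : Plane) {u : Plane} (hu : u ∈ US) :
    uc (qq n z) (pos (qq (n + 1) z) u) ∈ sq (dig (qq (n + 1) z)) := by
  obtain ⟨h1, h2, h3, h4⟩ := hu
  obtain ⟨c1, c2⟩ := coord n z
  have c1' : ((qq (n + 1) z).2.1 : ℝ) = 8 * ((qq n z).2.1 : ℝ) + ((dig (qq (n + 1) z)).1 : ℝ) := by
    exact_mod_cast c1
  have c2' : ((qq (n + 1) z).2.2 : ℝ) = 8 * ((qq n z).2.2 : ℝ) + ((dig (qq (n + 1) z)).2 : ℝ) := by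
    exact_mod_cast c2
  have e1 : (uc (qq n z) (pos (qq (n + 1) z) u)).1 = ((dig (qq (n + 1) z)).1 + u.1) / 8 := by
    show side (qq (n + 1) z) * ((qq (n + 1) z).2.1 + u.1) / side (qq n z) - (qq n z).2.1 = _
    rw [side_qq, side_qq, c1', pow_succ]
    field_simp
    ring
  have e2 : (uc (qq n z) (pos (qq (n + 1) z) u)).2 = ((dig (qq (n + 1) z)).2 + u.2) / 8 := by
    show side (qq (n + 1) z) * ((qq (n + 1) z).2.2 + u.2) / side (qq n z) - (qq n z).2.2 = _
    rw [side_qq, side_qq, c2', pow_succ]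
    field_simp
    ring
  refine ⟨?_, ?_, ?_, ?_⟩
  · rw [e1]; linarith
  · rw [e1]; linarith
  · rw [e2]; linarith
  · rw [e2]; linarith

open Classical in
/-- one collapse -/
private noncomputable def stp (G : Set Idx) (n : ℕ) (z v : Plane) : Plane :=
  if qq n z ∈ G then pos (qq n z) (col (dig (qq (n + 1) z)) (uc (qq n z) v)) else v

/-- the map with `k` levels of collapses, starting at level `n` -/
private noncomputable def Pc (G : Set Idx) : ℕ → ℕ → Plane → Plane
  | 0, _, z => z
  | k + 1, n, z => stp G n z (Pc G k (n + 1) z)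

private theorem Pc_mem (G : Set Idx) (k : ℕ) : ∀ (n : ℕ) (z : Plane),
    ∃ u ∈ US, Pc G k n z = pos (qq n z) u := by
  induction k with
  | zero =>
    intro n z
    obtain ⟨y, hy, h⟩ := qq_pos n z
    exact ⟨y, sq_sub (isD_dig _) hy, h⟩
  | succ k ih =>
    intro n z
    obtain ⟨u, hu, h⟩ := ih (n + 1) z
    have h1 := uc_child n z hu
    show ∃ u ∈ US, stp G n z (Pc G k (n + 1) z) = pos (qq n z) u
    rw [h]
    unfold stp
    split_ifs with hG
    · exact ⟨_, col_mem (isD_dig _) h1, rfl⟩
    · exact ⟨_, sq_sub (isD_dig _) h1, (pos_uc _ _).symm⟩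

private theorem Pc_sq (G : Set Idx) (k n : ℕ) (z : Plane) :
    uc (qq n z) (Pc G k (n + 1) z) ∈ sq (dig (qq (n + 1) z)) := by
  obtain ⟨u, hu, h⟩ := Pc_mem G k (n + 1) z
  rw [h]
  exact uc_child n z hu

private theorem Pc_near (G : Set Idx) (k n : ℕ) (z : Plane) :
    dist (Pc G k n z) z ≤ (1 / 8 : ℝ) ^ n := by
  obtain ⟨u, hu, h⟩ := Pc_mem G k n z
  obtain ⟨y, hy, h'⟩ := Pc_mem G 0 n z
  have h'' : z = pos (qq n z) y := h'
  have h3 : dist (Pc G k n z) z = side (qq n z) * dist u y := by
    rw [h, ← dist_pos', ← h'']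
  rw [h3, side_qq]
  have h4 : dist u y ≤ 1 := by
    obtain ⟨a1, a2, a3, a4⟩ := hu
    obtain ⟨b1, b2, b3, b4⟩ := hy
    rw [Prod.dist_eq, Real.dist_eq, Real.dist_eq]
    apply max_le <;> rw [abs_le] <;> constructor <;> linarith
  calc (1 / 8 : ℝ) ^ n * dist u y ≤ (1 / 8 : ℝ) ^ n * 1 :=
        mul_le_mul_of_nonneg_left h4 (by positivity)
    _ = _ := mul_one _

private theorem stp_out {G : Set Idx} {n : ℕ} {z : Plane} (h : isOut (dig (qq (n + 1) z)))
    (v : Plane) : stp G n z v = v := by
  unfold stp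
  split_ifs
  · rw [col_outer h, pos_uc]
  · rfl

private theorem stp_not {G : Set Idx} {n : ℕ} {z : Plane} (h : qq n z ∉ G)
    (v : Plane) : stp G n z v = v := by
  unfold stp
  rw [if_neg h]

private theorem stp_in {G : Set Idx} {n : ℕ} {z : Plane} (h : qq n z ∈ G)
    (v : Plane) : stp G n z v = pos (qq n z) (col (dig (qq (n + 1) z)) (uc (qq n z) v)) := by
  unfold stp
  rw [if_pos h]

private theorem wgt_in {G : Set Idx} {n : ℕ} {z : Plane} (h : qq n z ∈ G) :
    wgt G (qq (n + 1) z) = wt (dig (qq (n + 1) z)) := by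
  unfold wgt
  rw [up_qq, if_pos h]

private theorem wgt_not {G : Set Idx} {n : ℕ} {z : Plane} (h : qq n z ∉ G) :
    wgt G (qq (n + 1) z) = 1 := by
  unfold wgt
  rw [up_qq, if_neg h]

private theorem wgt_out {G : Set Idx} {n : ℕ} {z : Plane} (h : isOut (dig (qq (n + 1) z))) :
    wgt G (qq (n + 1) z) = 1 := by
  unfold wgt
  split_ifs
  · exact wt_outer h
  · rfl

private theorem prod_nn (G : Set Idx) (a : Plane) (s : Finset ℕ) :
    0 ≤ ∏ k ∈ s, wgt G (qq (k + 1) a) :=
  Finset.prod_nonneg fun k _ => by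
    have := (wgt_bounds G (qq (k + 1) a)).1
    linarith

private theorem main_ind {X : Set Plane} {G : Set Idx} (hG : Avoids X G) {a b : Plane}
    (ha : a ∈ X) (hb : b ∈ X) (hab : a ≠ b) : ∀ (j n k : ℕ), n + j = NN a b → j ≤ k →
    dist (Pc G k n a) (Pc G k n b) ≤
        544 * (∏ m ∈ Finset.Ico n (NN a b), wgt G (qq (m + 1) a)) * dist a b ∧
      (qq n a ≠ qq n b → dist (Pc G k n a) (Pc G k n b) ≤ 17 * dist a b ∧
        ∏ m ∈ Finset.Ico n (NN a b), wgt G (qq (m + 1) a) = 1) := by
  intro j
  induction j with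
  | zero =>
    intro n k hn _
    have hn' : n = NN a b := by omega
    subst hn'
    have h0 : dist (Pc G k (NN a b) a) (Pc G k (NN a b) b) ≤ 17 * dist a b := by
      have h1 := Pc_near G k (NN a b) a
      have h2 := Pc_near G k (NN a b) b
      have h3 := NN_le hab
      rw [pow_succ] at h3
      have h4 : dist (Pc G k (NN a b) a) (Pc G k (NN a b) b) ≤
          dist (Pc G k (NN a b) a) a + dist a b + dist b (Pc G k (NN a b) b) :=
        dist_triangle4 _ _ _ _
      rw [dist_comm b] at h4
      linarith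
    rw [Finset.Ico_self, Finset.prod_empty]
    refine ⟨?_, fun _ => ⟨h0, rfl⟩⟩
    have := dist_nonneg (x := a) (y := b)
    linarith
  | succ j ih =>
    intro n k hn hk
    obtain ⟨k, rfl⟩ : ∃ k', k = k' + 1 := ⟨k - 1, by omega⟩
    obtain ⟨i1, i2⟩ := ih (n + 1) k (by omega) (by omega)
    have hlt : n < NN a b := by omega
    have hd0 := dist_nonneg (x := a) (y := b)
    have hd1 : dist a b < 1 := by
      by_contra hcon
      have := NN_zero (not_lt.1 hcon)
      omega
    have hd2 : dist a b < (1 / 8 : ℝ) ^ (n + 1) := by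
      refine lt_of_lt_of_le (NN_lt hd1) ?_
      exact pow_le_pow_of_le_one (by norm_num) (by norm_num) (by omega)
    rw [Finset.prod_eq_prod_Ico_succ_bot hlt]
    show dist (stp G n a (Pc G k (n + 1) a)) (stp G n b (Pc G k (n + 1) b)) ≤ _ ∧
      (_ → dist (stp G n a (Pc G k (n + 1) a)) (stp G n b (Pc G k (n + 1) b)) ≤ _ ∧ _)
    by_cases he : qq n a = qq n b
    · refine ⟨?_, fun h => absurd he h⟩
      by_cases hg : qq n a ∈ G
      · have hg' : qq n b ∈ G := he ▸ hg
        rw [stp_in hg, stp_in hg', ← he, dist_pos', wgt_in hg]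
        have hs := (sd_pos (qq n a)).le
        by_cases he' : qq (n + 1) a = qq (n + 1) b
        · have hb' := Pc_sq G k n b
          rw [← he, ← he'] at hb'
          have h1 := col_same (isD_dig _) (Pc_sq G k n a) hb'
          rw [← he']
          have h2 := mul_le_mul_of_nonneg_left h1 hs
          have hwt : 0 ≤ wt (dig (qq (n + 1) a)) := by
            have := (wgt_bounds G (qq (n + 1) a)).1
            rw [wgt_in hg] at this
            linarith
          calc side (qq n a) * dist (col (dig (qq (n + 1) a)) (uc (qq n a) (Pc G k (n + 1) a)))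
                (col (dig (qq (n + 1) a)) (uc (qq n a) (Pc G k (n + 1) b)))
              ≤ side (qq n a) * (wt (dig (qq (n + 1) a)) *
                dist (uc (qq n a) (Pc G k (n + 1) a)) (uc (qq n a) (Pc G k (n + 1) b))) := h2
            _ = wt (dig (qq (n + 1) a)) * dist (Pc G k (n + 1) a) (Pc G k (n + 1) b) := by
                rw [dist_uc (qq n a) (Pc G k (n + 1) a) (Pc G k (n + 1) b)]
                ring
            _ ≤ wt (dig (qq (n + 1) a)) *
                (544 * (∏ m ∈ Finset.Ico (n + 1) (NN a b), wgt G (qq (m + 1) a)) * dist a b) :=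
                mul_le_mul_of_nonneg_left i1 hwt
            _ = _ := by ring
        · obtain ⟨i3, i4⟩ := i2 he'
          have hb' := Pc_sq G k n b
          rw [← he] at hb'
          have hn1 := dig_near he hd2
          have h1 := col_lip (isD_dig _) (isD_dig _) (not_isR hG ha hg) (not_isR hG hb hg')
            hn1.1 hn1.2 (Pc_sq G k n a) hb'
          have h2 := mul_le_mul_of_nonneg_left h1 hs
          have hwt : 0 ≤ wt (dig (qq (n + 1) a)) := by
            have := (wgt_bounds G (qq (n + 1) a)).1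
            rw [wgt_in hg] at this
            linarith
          rw [i4]
          calc side (qq n a) * dist (col (dig (qq (n + 1) a)) (uc (qq n a) (Pc G k (n + 1) a)))
                (col (dig (qq (n + 1) b)) (uc (qq n a) (Pc G k (n + 1) b)))
              ≤ side (qq n a) * (32 * wt (dig (qq (n + 1) a)) *
                dist (uc (qq n a) (Pc G k (n + 1) a)) (uc (qq n a) (Pc G k (n + 1) b))) := h2
            _ = 32 * wt (dig (qq (n + 1) a)) * dist (Pc G k (n + 1) a) (Pc G k (n + 1) b) := by
                rw [dist_uc (qq n a) (Pc G k (n + 1) a) (Pc G k (n + 1) b)]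
                ring
            _ ≤ 32 * wt (dig (qq (n + 1) a)) * (17 * dist a b) :=
                mul_le_mul_of_nonneg_left i3 (by positivity)
            _ = _ := by ring
      · have hg' : qq n b ∉ G := he ▸ hg
        rw [stp_not hg, stp_not hg', wgt_not hg, one_mul]
        exact i1
    · have he' : qq (n + 1) a ≠ qq (n + 1) b := by
        intro h
        apply he
        rw [← up_qq n a, ← up_qq n b, h]
      have hd2' : dist b a < (1 / 8 : ℝ) ^ (n + 1) := by rwa [dist_comm]
      have ho := outer_of_ne he hd2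
      have ho' := outer_of_ne (Ne.symm he) hd2'
      obtain ⟨i3, i4⟩ := i2 he'
      rw [stp_out ho, stp_out ho', wgt_out ho, i4, one_mul]
      refine ⟨?_, fun _ => ⟨i3, rfl⟩⟩
      linarith

theorem collapse_maps {X : Set Plane} {G : Set Idx} (hG : Avoids X G) (n L : ℕ) (hnL : n ≤ L) :
    ∃ P : Plane → Plane, (∀ z, dist (P z) z ≤ (1 / 8 : ℝ) ^ n) ∧
      ∀ a ∈ X, ∀ b ∈ X, a ≠ b → n ≤ NN a b → NN a b ≤ L →
        dist (P a) (P b) ≤
          544 * (∏ k ∈ Finset.Ico n (NN a b), wgt G (qq (k + 1) a)) * dist a b := by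
  refine ⟨Pc G (L - n) n, fun z => Pc_near G _ _ z, ?_⟩
  intro a ha b hb hab hn hL
  exact (main_ind hG ha hb hab (NN a b - n) n (L - n) (by omega) (by omega)).1

end Pool.Agent.Helper16.CD
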