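import Pool.Agent.Helper16.CD.QA1
import Pool.Agent.Helper16.CD.QA2
import Pool.Agent.Helper16.CD.QA3

/-!
# CD-QA4: chains are not short

Let `x = c 0`, `y = c n`, `x ≠ y`, `N = NN x y`, so `8^-(N+1) ≤ |x-y|` and (`|x-y| < 8^-N` or `N = 0`, `|x-y| ≤ 2`); in
all cases `|x-y| ≤ 2 * 8^-N`.  Let `i*` be the first index with `|c i* - x| ≥ |x-y|` (exists, `≤ n`).  For `i < i*`,
`|c i - x| < |x-y|`, so `WN N x ≤ 16 WN N (c i)` (`wn_ratio`; trivial when `N = 0`).
Case 1: some `i < i*` with `c i ≠ c (i+1)` and `N' = NN (c i) (c (i+1)) ≤ N + 1`.  The term is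
`≥ dlt = WN N' (c i) |step|`, `|step| ≥ 8^-(N'+1)`.  If `N' ≥ N`: `WN N' ≥ WN N / 8`, `|step| ≥ 8^-(N+2) ≥ |x-y|/128`, so the term is
`≥ WN N x |x-y| / (16*8*128)`.  If `N' < N`: `WN N (c i) ≤ 2^(N-N') WN N' (c i)`, so the term is
`≥ WN N (c i) 2^-(N-N') 8^-(N'+1) = WN N (c i) 4^(N-N') 8^-(N+1) ≥ (WN N x / 16) * 4 * |x-y| / 16`.
Case 2: all steps `i < i*` have `c i = c (i+1)` or `NN ≥ n0 := N + 2`.  Take `L ≥ n0` and `≥ NN` of all these steps and `P` from
`collapse_maps` (levels `n0, L`).  `|P(c i) - P(c (i+1))| ≤ 544 ∏_{n0 ≤ k < N'} wgt |step|`, so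
`dlt (c i) (c (i+1)) = WN n0 (c i) ∏_{n0 ≤ k < N'} wgt |step| ≥ (WN n0 (c i)/544) |ΔP| ≥ WN N x / (544 * 64 * 16) |ΔP|`
(`WN n0 = WN N * two factors ≥ 1/8`).  Sum: `∑ |ΔP| ≥ |P x - P (c i*)| ≥ |x - c i*| - 2 * 8^-(N+2) ≥ (3/4) |x-y|`.
`544 * 64 * 16 * 4/3 < 10^6`, `16*8*128 < 10^6`.
-/

set_option autoImplicit false

namespace Pool.Agent.Helper16.CD

open MeasureTheory ProbabilityTheory Metric Set
open scoped ENNReal NNReal

private theorem wgt_nn (G : Set Idx) (i : Idx) : 0 ≤ wgt G i := by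
  have := (wgt_bounds G i).1
  linarith

private theorem dlt_nn (G : Set Idx) (x y : Plane) : 0 ≤ dlt G x y :=
  mul_nonneg (WN_pos G _ _).le dist_nonneg

private theorem dls_nn (G : Set Idx) (x y : Plane) : 0 ≤ dls G x y :=
  le_max_of_le_left (dlt_nn G x y)

private theorem WN_split (G : Set Idx) (z : Plane) {A B : ℕ} (h : A ≤ B) :
    WN G B z = WN G A z * ∏ m ∈ Finset.Ico A B, wgt G (qq (m + 1) z) := by
  unfold WN
  rw [Finset.prod_range_mul_prod_Ico _ h]

private theorem WN_succ (G : Set Idx) (z : Plane) (A : ℕ) :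
    WN G (A + 1) z = WN G A z * wgt G (qq (A + 1) z) := by
  unfold WN
  rw [Finset.prod_range_succ]

private theorem WN_up (G : Set Idx) (z : Plane) (A : ℕ) : ∀ k : ℕ,
    WN G (A + k) z * (1 / 8 : ℝ) ^ (A + k) ≤ WN G A z * (1 / 8 : ℝ) ^ A := by
  intro k
  induction k with
  | zero => exact le_rfl
  | succ k ih =>
    refine le_trans ?_ ih
    rw [← add_assoc, WN_succ, pow_succ]
    have h1 := (wgt_bounds G (qq (A + k + 1) z)).2
    have h2 := WN_pos G (A + k) z
    have h3 : (0 : ℝ) < (1 / 8 : ℝ) ^ (A + k) := by positivity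
    have h4 : WN G (A + k) z * wgt G (qq (A + k + 1) z) * ((1 / 8 : ℝ) ^ (A + k) * (1 / 8)) =
        (WN G (A + k) z * (1 / 8 : ℝ) ^ (A + k)) * (wgt G (qq (A + k + 1) z) / 8) := by ring
    rw [h4]
    have h5 : wgt G (qq (A + k + 1) z) / 8 ≤ 1 := by linarith
    exact mul_le_of_le_one_right (by positivity) h5

private theorem WN_succ_ge (G : Set Idx) (z : Plane) (A : ℕ) :
    WN G A z ≤ 8 * WN G (A + 1) z := by
  rw [WN_succ]
  have h1 := (wgt_bounds G (qq (A + 1) z)).1
  have h2 := WN_pos G A z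
  nlinarith

private theorem near_le {x y : Plane} (h2 : dist x y ≤ 2) :
    dist x y ≤ 2 * (1 / 8 : ℝ) ^ NN x y := by
  by_cases h : dist x y < 1
  · have := NN_lt h
    have h0 : (0 : ℝ) < (1 / 8 : ℝ) ^ NN x y := by positivity
    linarith
  · rw [NN_zero (not_lt.1 h)]
    simpa using h2

theorem chain_lower {X : Set Plane} {G : Set Idx} (hG : Avoids X G)
    (hX : ∀ x ∈ X, ∀ y ∈ X, dist x y ≤ 2) (n : ℕ) (c : ℕ → Plane) (hc : ∀ i, c i ∈ X) :
    dlt G (c 0) (c n) ≤ 10 ^ 6 * ∑ i ∈ Finset.range n, dls G (c i) (c (i + 1)) := by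
  have hsum0 : 0 ≤ ∑ i ∈ Finset.range n, dls G (c i) (c (i + 1)) :=
    Finset.sum_nonneg fun i _ => dls_nn G _ _
  by_cases hxy : c 0 = c n
  · have h0 : dlt G (c 0) (c n) = 0 := by
      unfold dlt
      rw [← hxy, dist_self, mul_zero]
    rw [h0]
    positivity
  set x := c 0 with hx
  set y := c n with hy
  set N := NN x y with hN
  have hxX : x ∈ X := hc 0
  have hyX : y ∈ X := hc n
  have hd0 : 0 < dist x y := dist_pos.2 hxy
  have hd1 : (1 / 8 : ℝ) ^ (N + 1) ≤ dist x y := NN_le hxy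
  have hd2 : dist x y ≤ 2 * (1 / 8 : ℝ) ^ N := near_le (hX x hxX y hyX)
  have hex : ∃ i, dist x y ≤ dist x (c i) := ⟨n, le_rfl⟩
  classical
  set I := Nat.find hex with hI
  have hI1 : dist x y ≤ dist x (c I) := Nat.find_spec hex
  have hIn : I ≤ n := Nat.find_min' hex le_rfl
  have hlt : ∀ i, i < I → dist x (c i) < dist x y := fun i hi => not_le.1 (Nat.find_min hex hi)
  have hW : ∀ i, i < I → WN G N x ≤ 16 * WN G N (c i) := by
    intro i hi
    by_cases h1 : dist x y < 1
    · exact wn_ratio hG hxX (hc i) ((hlt i hi).trans (NN_lt h1))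
    · have h0 : N = 0 := NN_zero (not_lt.1 h1)
      rw [h0]
      unfold WN
      rw [Finset.range_zero, Finset.prod_empty, Finset.prod_empty]
      norm_num
  have hWx := WN_pos G N x
  have hdlt : dlt G x y = WN G N x * dist x y := rfl
  by_cases hcase : ∃ i, i < I ∧ c i ≠ c (i + 1) ∧ NN (c i) (c (i + 1)) ≤ N + 1
  · obtain ⟨i, hi, hne, hN'⟩ := hcase
    set N' := NN (c i) (c (i + 1)) with hN'def
    have hs1 : (1 / 8 : ℝ) ^ (N' + 1) ≤ dist (c i) (c (i + 1)) := NN_le hne
    have hterm : dls G (c i) (c (i + 1)) ≤ ∑ i ∈ Finset.range n, dls G (c i) (c (i + 1)) :=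
      Finset.single_le_sum (f := fun i => dls G (c i) (c (i + 1))) (fun i _ => dls_nn G _ _)
        (Finset.mem_range.2 (lt_of_lt_of_le hi hIn))
    have hterm2 : WN G N' (c i) * dist (c i) (c (i + 1)) ≤ dls G (c i) (c (i + 1)) :=
      le_max_left _ _
    have hWp := WN_pos G N' (c i)
    have h3 : WN G N' (c i) * (1 / 8 : ℝ) ^ (N' + 1) ≤ WN G N' (c i) * dist (c i) (c (i + 1)) :=
      mul_le_mul_of_nonneg_left hs1 hWp.le
    have h4 := hW i hi
    have hWi := WN_pos G N (c i)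
    have hpN : (0 : ℝ) < (1 / 8 : ℝ) ^ N := by positivity
    have key : WN G N (c i) * (1 / 8 : ℝ) ^ N ≤ 64 * 8 * (WN G N' (c i) * (1 / 8 : ℝ) ^ (N' + 1)) := by
      rcases lt_trichotomy N' N with h | h | h
      · obtain ⟨k, hk⟩ := Nat.exists_eq_add_of_le h.le
        have h5 := WN_up G (c i) N' k
        rw [← hk] at h5
        have h6 : WN G N' (c i) * (1 / 8 : ℝ) ^ (N' + 1) =
            WN G N' (c i) * (1 / 8 : ℝ) ^ N' / 8 := by
          rw [pow_succ]; ring
        have h7 : 0 < WN G N' (c i) * (1 / 8 : ℝ) ^ N' := by positivity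
        rw [h6]
        linarith
      · rw [h]
        have h6 : WN G N (c i) * (1 / 8 : ℝ) ^ (N + 1) =
            WN G N (c i) * (1 / 8 : ℝ) ^ N / 8 := by
          rw [pow_succ]; ring
        have h7 : 0 < WN G N (c i) * (1 / 8 : ℝ) ^ N := by positivity
        rw [h6]
        linarith
      · have h8 : N' = N + 1 := by omega
        rw [h8]
        have h5 := WN_succ_ge G (c i) N
        have h6 : WN G (N + 1) (c i) * (1 / 8 : ℝ) ^ (N + 1 + 1) =
            WN G (N + 1) (c i) * (1 / 8 : ℝ) ^ N / 64 := by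
          rw [pow_succ, pow_succ]; ring
        rw [h6]
        have h7 := mul_le_mul_of_nonneg_right h5 hpN.le
        linarith
    have h9 : WN G N x * dist x y ≤ 16 * WN G N (c i) * (2 * (1 / 8 : ℝ) ^ N) :=
      mul_le_mul h4 hd2 hd0.le (by positivity)
    rw [hdlt]
    have h10 : (0 : ℝ) ≤ dls G (c i) (c (i + 1)) := dls_nn G _ _
    nlinarith
  · push Not at hcase
    have hcase' : ∀ i, i < I → c i ≠ c (i + 1) → N + 2 ≤ NN (c i) (c (i + 1)) :=
      fun i hi hne => by have := hcase i hi hne; omega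
    set L := max (N + 2) ((Finset.range I).sup fun i => NN (c i) (c (i + 1))) with hL
    obtain ⟨P, hP1, hP2⟩ := collapse_maps hG (N + 2) L (le_max_left _ _)
    have hstep : ∀ i, i < I → WN G N x * dist (P (c i)) (P (c (i + 1))) ≤
        (544 * 64 * 16) * dls G (c i) (c (i + 1)) := by
      intro i hi
      by_cases hne : c i = c (i + 1)
      · rw [← hne, dist_self, mul_zero]
        have := dls_nn G (c i) (c i)
        positivity
      · have hNN := hcase' i hi hne
        have hLN : NN (c i) (c (i + 1)) ≤ L :=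
          (Finset.le_sup (f := fun i => NN (c i) (c (i + 1))) (Finset.mem_range.2 hi)).trans
            (le_max_right _ _)
        have h1 := hP2 (c i) (hc i) (c (i + 1)) (hc (i + 1)) hne hNN hLN
        have h2 : WN G (NN (c i) (c (i + 1))) (c i) * dist (c i) (c (i + 1)) ≤
            dls G (c i) (c (i + 1)) := le_max_left _ _
        rw [WN_split G (c i) hNN] at h2
        set Q := ∏ k ∈ Finset.Ico (N + 2) (NN (c i) (c (i + 1))), wgt G (qq (k + 1) (c i)) with hQ
        have hQ0 : 0 ≤ Q := Finset.prod_nonneg fun k _ => wgt_nn G _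
        have h3 : WN G N x ≤ 16 * 64 * WN G (N + 2) (c i) := by
          have a1 := hW i hi
          have a2 := WN_succ_ge G (c i) N
          have a3 := WN_succ_ge G (c i) (N + 1)
          linarith
        have hW2 := WN_pos G (N + 2) (c i)
        calc WN G N x * dist (P (c i)) (P (c (i + 1)))
            ≤ (16 * 64 * WN G (N + 2) (c i)) * (544 * Q * dist (c i) (c (i + 1))) :=
              mul_le_mul h3 h1 dist_nonneg (by positivity)
          _ = (544 * 64 * 16) * (WN G (N + 2) (c i) * Q * dist (c i) (c (i + 1))) := by ring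
          _ ≤ _ := mul_le_mul_of_nonneg_left h2 (by norm_num)
    have hsumP : WN G N x * dist (P (c 0)) (P (c I)) ≤
        (544 * 64 * 16) * ∑ i ∈ Finset.range I, dls G (c i) (c (i + 1)) := by
      have h1 := dist_le_range_sum_dist (fun i => P (c i)) I
      calc WN G N x * dist (P (c 0)) (P (c I))
          ≤ WN G N x * ∑ i ∈ Finset.range I, dist (P (c i)) (P (c (i + 1))) :=
            mul_le_mul_of_nonneg_left h1 hWx.le
        _ = ∑ i ∈ Finset.range I, WN G N x * dist (P (c i)) (P (c (i + 1))) := by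
            rw [Finset.mul_sum]
        _ ≤ ∑ i ∈ Finset.range I, (544 * 64 * 16) * dls G (c i) (c (i + 1)) :=
            Finset.sum_le_sum fun i hi => hstep i (Finset.mem_range.1 hi)
        _ = _ := by rw [Finset.mul_sum]
    have hsub : ∑ i ∈ Finset.range I, dls G (c i) (c (i + 1)) ≤
        ∑ i ∈ Finset.range n, dls G (c i) (c (i + 1)) := by
      apply Finset.sum_le_sum_of_subset_of_nonneg
      · intro j hj
        rw [Finset.mem_range] at hj ⊢
        omega
      · intro j _ _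
        exact dls_nn G _ _
    have hfar : 3 / 4 * dist x y ≤ dist (P (c 0)) (P (c I)) := by
      have h1 := hP1 (c 0)
      have h2 := hP1 (c I)
      have h3 : dist (c 0) (c I) ≤ dist (c 0) (P (c 0)) + dist (P (c 0)) (P (c I)) +
          dist (P (c I)) (c I) := dist_triangle4 _ _ _ _
      rw [dist_comm (c 0) (P (c 0))] at h3
      have h4 : (1 / 8 : ℝ) ^ (N + 2) = (1 / 8 : ℝ) ^ (N + 1) / 8 := by
        rw [pow_succ _ (N + 1)]; ring
      rw [h4] at h1 h2
      have h5 : dist x y ≤ dist (c 0) (c I) := hI1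
      linarith
    have h6 : WN G N x * (3 / 4 * dist x y) ≤ WN G N x * dist (P (c 0)) (P (c I)) :=
      mul_le_mul_of_nonneg_left hfar hWx.le
    rw [hdlt]
    have h7 : 0 ≤ ∑ i ∈ Finset.range I, dls G (c i) (c (i + 1)) :=
      Finset.sum_nonneg fun i _ => dls_nn G _ _
    nlinarith

end Pool.Agent.Helper16.CD
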