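import Pool.Agent.Helper16.CD.QA4

/-!
# CD-QA5: the chain distance

`DD G X x y` is the infimum over chains in `X`; the set of sums is nonempty (the chain `x, y, y, ...`) and bounded below
by `0`.  `DD ≤ dls ≤ 16 dlt` (one step; `wn_ratio` with `N = NN x y = NN y x` if `dist < 1`, trivial if `NN = 0`).
`dlt ≤ 10^6 DD`: `chain_lower` and `le_csInf`.  Symmetry: reverse the chain (`c' i = c (n - i)`), `dls` is symmetric.
Triangle inequality: concatenate (`c'' i = if i ≤ n then c i else c' (i - n)`).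
`DD_small`: if `qq N x = qq N y` then `dist x y < 8^-N` (same half open square), so `N' = NN x y ≥ N` (for `x ≠ y`),
`WN N' x ≤ WN N x 2^(N'-N)`, `dist < 8^-N'`, so `dlt ≤ WN N x 8^-N (1/4)^(N'-N) ≤ WN N x 8^-N`.
`DD_flat`: if no square `qq m x` is good then `WN G N x = 1` for all `N`, so `dls G x y = dist x y`.
-/

set_option autoImplicit false

namespace Pool.Agent.Helper16.CD

open MeasureTheory ProbabilityTheory Metric Set
open scoped ENNReal NNReal

variable {X : Set Plane} {G : Set Idx}

theorem dlt_nonneg (G : Set Idx) (x y : Plane) : 0 ≤ dlt G x y :=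
  mul_nonneg (WN_pos G _ x).le dist_nonneg

private theorem dls_nonneg (G : Set Idx) (x y : Plane) : 0 ≤ dls G x y :=
  (dlt_nonneg G x y).trans (le_max_left _ _)

private theorem dls_comm (G : Set Idx) (x y : Plane) : dls G x y = dls G y x := max_comm _ _

/-- the sums of the chains from `x` to `y` -/
private def QA5set (G : Set Idx) (X : Set Plane) (x y : Plane) : Set ℝ :=
  {s : ℝ | ∃ (n : ℕ) (c : ℕ → Plane), (∀ i, c i ∈ X) ∧ c 0 = x ∧ c n = y ∧
    s = ∑ i ∈ Finset.range n, dls G (c i) (c (i + 1))}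

private theorem QA5_bdd (G : Set Idx) (X : Set Plane) (x y : Plane) :
    BddBelow (QA5set G X x y) := by
  refine ⟨0, ?_⟩
  rintro s ⟨n, c, -, -, -, rfl⟩
  exact Finset.sum_nonneg fun i _ => dls_nonneg G _ _

private theorem QA5_one {x y : Plane} (hx : x ∈ X) (hy : y ∈ X) :
    dls G x y ∈ QA5set G X x y := by
  refine ⟨1, fun i => if i = 0 then x else y, fun i => ?_, by simp, by simp, by simp⟩
  by_cases h : i = 0
  · simp only [h, if_pos]
    exact hx
  · simp only [h, if_false]
    exact hy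

private theorem QA5_nonempty {x y : Plane} (hx : x ∈ X) (hy : y ∈ X) :
    (QA5set G X x y).Nonempty := ⟨_, QA5_one hx hy⟩

private theorem DD_le_dls {x y : Plane} (hx : x ∈ X) (hy : y ∈ X) : DD G X x y ≤ dls G x y :=
  csInf_le (QA5_bdd G X x y) (QA5_one hx hy)

private theorem WN_zero (z : Plane) : WN G 0 z = 1 := by simp [WN]

private theorem dls_le (hG : Avoids X G) {x y : Plane} (hx : x ∈ X) (hy : y ∈ X) :
    dls G x y ≤ 16 * dlt G x y := by
  have h0 := dlt_nonneg G x y
  refine max_le (by linarith) ?_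
  unfold dlt
  rw [NN_comm y x, dist_comm y x, ← mul_assoc]
  refine mul_le_mul_of_nonneg_right ?_ dist_nonneg
  rcases lt_or_ge (dist x y) 1 with h | h
  · refine wn_ratio hG hy hx ?_
    rw [dist_comm]
    exact NN_lt h
  · rw [NN_zero h, WN_zero, WN_zero]
    norm_num

theorem DD_le (hG : Avoids X G) {x y : Plane} (hx : x ∈ X) (hy : y ∈ X) :
    DD G X x y ≤ 16 * dlt G x y :=
  (DD_le_dls hx hy).trans (dls_le hG hx hy)

theorem le_DD (hG : Avoids X G) (hX : ∀ x ∈ X, ∀ y ∈ X, dist x y ≤ 2) {x y : Plane} (hx : x ∈ X)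
    (hy : y ∈ X) : dlt G x y ≤ 10 ^ 6 * DD G X x y := by
  have h1 : dlt G x y / 10 ^ 6 ≤ DD G X x y := by
    refine le_csInf (QA5_nonempty hx hy) ?_
    rintro s ⟨n, c, hc, h0, hn, rfl⟩
    have h2 := chain_lower hG hX n c hc
    rw [h0, hn] at h2
    rw [div_le_iff₀ (by norm_num)]
    linarith
  rw [div_le_iff₀ (by norm_num)] at h1
  linarith

private theorem QA5_comm (G : Set Idx) (X : Set Plane) (x y : Plane) :
    QA5set G X x y ⊆ QA5set G X y x := by
  rintro s ⟨n, c, hc, h0, hn, rfl⟩
  refine ⟨n, fun i => c (n - i), fun i => hc _, by simpa using hn, by simpa using h0, ?_⟩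
  rw [← Finset.sum_range_reflect]
  refine Finset.sum_congr rfl fun i hi => ?_
  have hi' := Finset.mem_range.1 hi
  rw [dls_comm]
  congr 2 <;> omega

theorem DD_comm (G : Set Idx) (X : Set Plane) (x y : Plane) : DD G X x y = DD G X y x :=
  congrArg sInf ((QA5_comm G X x y).antisymm (QA5_comm G X y x))

private theorem QA5_add {x y z : Plane} {s t : ℝ} (hs : s ∈ QA5set G X x y)
    (ht : t ∈ QA5set G X y z) : s + t ∈ QA5set G X x z := by
  obtain ⟨n, c, hc, h0, hn, rfl⟩ := hs
  obtain ⟨m, c', hc', h0', hm, rfl⟩ := ht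
  refine ⟨n + m, fun i => if i ≤ n then c i else c' (i - n), fun i => ?_, by simpa using h0, ?_,
    ?_⟩
  · by_cases h : i ≤ n
    · simp only [h, if_true]
      exact hc i
    · simp only [h, if_false]
      exact hc' _
  · rcases Nat.eq_zero_or_pos m with rfl | hm0
    · simp only [add_zero, le_refl, if_true]
      rw [hn, ← h0', hm]
    · have h1 : ¬ n + m ≤ n := by omega
      simp only [h1, if_false, Nat.add_sub_cancel_left]
      exact hm
  · rw [Finset.sum_range_add]
    congr 1
    · refine Finset.sum_congr rfl fun i hi => ?_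
      have hi' := Finset.mem_range.1 hi
      have h1 : i ≤ n := by omega
      have h2 : i + 1 ≤ n := by omega
      simp only [h1, h2, if_true]
    · refine Finset.sum_congr rfl fun i hi => ?_
      rcases Nat.eq_zero_or_pos i with rfl | hi0
      · have h1 : n + 0 + 1 - n = 0 + 1 := by omega
        have h2 : ¬ n + 0 + 1 ≤ n := by omega
        have h3 : n + 0 ≤ n := by omega
        simp only [h2, h3, if_true, if_false, h1]
        rw [add_zero, hn, h0']
      · have h1 : n + i + 1 - n = i + 1 := by omega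
        have h2 : n + i - n = i := by omega
        have h3 : ¬ n + i + 1 ≤ n := by omega
        have h4 : ¬ n + i ≤ n := by omega
        simp only [h3, h4, if_false, h1, h2]

theorem DD_triangle {x y z : Plane} (hx : x ∈ X) (hy : y ∈ X) (hz : z ∈ X) :
    DD G X x z ≤ DD G X x y + DD G X y z := by
  have h1 : DD G X x z - DD G X y z ≤ DD G X x y := by
    refine le_csInf (QA5_nonempty hx hy) fun s hs => ?_
    have h2 : DD G X x z - s ≤ DD G X y z := by
      refine le_csInf (QA5_nonempty hy hz) fun t ht => ?_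
      have h3 : DD G X x z ≤ s + t := csInf_le (QA5_bdd G X x z) (QA5_add hs ht)
      linarith
    linarith
  linarith

private theorem QA5_dist {x y : Plane} {N : ℕ} (h : qq N x = qq N y) :
    dist x y < (1 / 8 : ℝ) ^ N := by
  have h8 : (0 : ℝ) < 8 ^ N := by positivity
  have key : ∀ a b : ℝ, ⌊(8 : ℝ) ^ N * a⌋ = ⌊(8 : ℝ) ^ N * b⌋ → |a - b| < (1 / 8 : ℝ) ^ N := by
    intro a b hab
    have h1 := Int.abs_sub_lt_one_of_floor_eq_floor hab
    rw [← mul_sub, abs_mul, abs_of_pos h8] at h1
    rw [one_div_pow, lt_div_iff₀ h8, mul_comm]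
    exact h1
  unfold qq at h
  simp only [Prod.mk.injEq, true_and] at h
  rw [Prod.dist_eq, Real.dist_eq, Real.dist_eq]
  exact max_lt (key _ _ h.1) (key _ _ h.2)

theorem DD_small (hG : Avoids X G) {x y : Plane} (hx : x ∈ X) (hy : y ∈ X) {N : ℕ}
    (h : qq N x = qq N y) : DD G X x y ≤ 16 * WN G N x * (1 / 8) ^ N := by
  refine (DD_le hG hx hy).trans ?_
  rw [mul_assoc]
  refine mul_le_mul_of_nonneg_left ?_ (by norm_num)
  have hW := WN_pos G N x
  unfold dlt
  rcases eq_or_ne x y with rfl | hne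
  · rw [dist_self, mul_zero]
    positivity
  have hd := QA5_dist h
  have hN := NN_ge hne hd
  have h1 : dist x y < 1 := hd.trans_le (pow_le_one₀ (by norm_num) (by norm_num))
  obtain ⟨k, hk⟩ := Nat.exists_eq_add_of_le hN
  have hW' : WN G (NN x y) x ≤ WN G N x * 2 ^ k := by
    rw [hk]
    unfold WN
    rw [Finset.prod_range_add]
    refine mul_le_mul_of_nonneg_left ?_ hW.le
    have h2 : ∏ i ∈ Finset.range k, wgt G (qq (N + i + 1) x) ≤ ∏ _i ∈ Finset.range k, (2 : ℝ) :=
      Finset.prod_le_prod (fun i _ => le_trans (by norm_num) (wgt_bounds G _).1)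
        fun i _ => (wgt_bounds G _).2
    simpa using h2
  calc WN G (NN x y) x * dist x y ≤ (WN G N x * 2 ^ k) * (1 / 8) ^ (NN x y) :=
        mul_le_mul hW' (NN_lt h1).le dist_nonneg (by positivity)
    _ = WN G N x * (1 / 8) ^ N * (1 / 4) ^ k := by
        rw [hk, pow_add]
        have : (2 : ℝ) ^ k * (1 / 8) ^ k = (1 / 4) ^ k := by
          rw [← mul_pow]
          norm_num
        rw [← this]
        ring
    _ ≤ WN G N x * (1 / 8) ^ N * 1 := by
        refine mul_le_mul_of_nonneg_left (pow_le_one₀ (by norm_num) (by norm_num)) (by positivity)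
    _ = WN G N x * (1 / 8) ^ N := mul_one _

private theorem QA5_flat {x : Plane} (h : ∀ m, qq m x ∉ G) (N : ℕ) : WN G N x = 1 := by
  unfold WN
  refine Finset.prod_eq_one fun m _ => ?_
  unfold wgt
  rw [up_qq, if_neg (h m)]

theorem DD_flat {x y : Plane} (hx : x ∈ X) (hy : y ∈ X) (h : ∀ m, qq m x ∉ G)
    (h' : ∀ m, qq m y ∉ G) : DD G X x y ≤ dist x y := by
  refine (DD_le_dls hx hy).trans ?_
  unfold dls dlt
  rw [QA5_flat h, QA5_flat h', one_mul, one_mul, dist_comm y x, max_self]

end Pool.Agent.Helper16.CD
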