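import Pool.Agent.Helper16.CD.TDefs

/-!
# CD-T1: masses of the parts

`part Ω (inl (k, v)) = sqC (k, v) ×ˢ (Ico a (4a) ×ˢ univ)`, `a = (1/4)^k`.  `lam P` is a product measure, so the mass is
`volume (sqC (k,v)) * ∫_a^{4a} dt / (2 π t²) * P univ`.  `volume (sqC (k, v)) = side² = (1/4)^k` (the measure preserving equivalence
`Complex.measurableEquivRealProd` and a product of two intervals `Ico`), the integral is `(1/(2π)) (1/a - 1/(4a)) = 3/(8 π a)`.
For `inr v`: `1 * ∫_4^∞ dt / (2 π t²) = 1/(8π)` (`integral_Ioi_rpow_of_lt` or monotone limit, or the antiderivative `-1/(2πt)`).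
-/

set_option autoImplicit false

namespace Pool.Agent.Helper16.CD

open MeasureTheory ProbabilityTheory Metric Set
open scoped ENNReal NNReal unitInterval
open Pool.Agent.Helper3.CD

variable {Ω : Type} [MeasurableSpace Ω] (P : Measure Ω) [IsProbabilityMeasure P]

theorem measurableSet_sqC (i : Idx) : MeasurableSet (sqC i) := by
  unfold sqC
  exact (measurableSet_le measurable_const Complex.measurable_re).inter
    ((measurableSet_lt Complex.measurable_re measurable_const).inter
      ((measurableSet_le measurable_const Complex.measurable_im).inter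
        (measurableSet_lt Complex.measurable_im measurable_const)))

theorem volume_sqC (i : Idx) : volume (sqC i) = ENNReal.ofReal ((1 / 4) ^ i.1) := by
  have h1 : sqC i = Complex.measurableEquivRealProd ⁻¹'
      (Ico (side i * i.2.1) (side i * (i.2.1 + 1)) ×ˢ
        Ico (side i * i.2.2) (side i * (i.2.2 + 1))) := by
    ext z
    simp only [sqC, mem_preimage, mem_prod, mem_Ico, Complex.measurableEquivRealProd_apply]
    constructor
    · rintro ⟨a, b, c, d⟩
      exact ⟨⟨a, b⟩, c, d⟩
    · rintro ⟨⟨a, b⟩, c, d⟩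
      exact ⟨a, b, c, d⟩
  have hm : MeasurableSet (Ico (side i * i.2.1) (side i * (i.2.1 + 1)) ×ˢ
      Ico (side i * i.2.2) (side i * ((i.2.2 : ℝ) + 1))) := measurableSet_Ico.prod measurableSet_Ico
  have hs : 0 ≤ side i := by unfold side; positivity
  rw [h1, Complex.volume_preserving_equiv_real_prod.measure_preimage hm.nullMeasurableSet,
    Measure.volume_eq_prod, Measure.prod_prod, Real.volume_Ico, Real.volume_Ico]
  have h2 : ∀ x : ℝ, side i * (x + 1) - side i * x = side i := fun x => by ring
  rw [h2, h2, ← ENNReal.ofReal_mul hs]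
  congr 1
  unfold side
  rw [← mul_pow]
  norm_num

theorem measurableSet_part (i : Idx ⊕ (ℤ × ℤ)) : MeasurableSet (part Ω i) := by
  rcases i with i | v
  · exact (measurableSet_sqC i).prod (measurableSet_Ico.prod MeasurableSet.univ)
  · exact (measurableSet_sqC (0, v)).prod (measurableSet_Ici.prod MeasurableSet.univ)

/-- the duration measure -/
private noncomputable def durM : Measure ℝ :=
  (volume.restrict (Ioi (0 : ℝ))).withDensity
    fun t => ENNReal.ofReal (1 / (2 * Real.pi * t ^ 2))

private theorem durM_Ici {a : ℝ} (ha : 0 < a) :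
    durM (Ici a) = ENNReal.ofReal (1 / (2 * Real.pi * a)) := by
  unfold durM
  rw [withDensity_apply _ measurableSet_Ici, Measure.restrict_restrict measurableSet_Ici,
    inter_eq_left.2 (Ici_subset_Ioi.2 ha), setLIntegral_congr (Ioi_ae_eq_Ici (a := a)).symm]
  have h1 : ∫⁻ t in Ioi a, ENNReal.ofReal (1 / (2 * Real.pi * t ^ 2)) =
      ∫⁻ t in Ioi a, ENNReal.ofReal (1 / (2 * Real.pi) * t ^ (-2 : ℝ)) := by
    refine setLIntegral_congr_fun measurableSet_Ioi fun t ht => ?_
    have ht0 : 0 < t := ha.trans ht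
    have h2 : t ^ (-2 : ℝ) = (t ^ 2)⁻¹ := by
      rw [Real.rpow_neg ht0.le, Real.rpow_two]
    show ENNReal.ofReal (1 / (2 * Real.pi * t ^ 2)) = ENNReal.ofReal (1 / (2 * Real.pi) * t ^ (-2 : ℝ))
    rw [h2]
    congr 1
    field_simp
  have hint : IntegrableOn (fun t : ℝ => 1 / (2 * Real.pi) * t ^ (-2 : ℝ)) (Ioi a) :=
    (integrableOn_Ioi_rpow_of_lt (by norm_num) ha).const_mul _
  have hnn : 0 ≤ᵐ[volume.restrict (Ioi a)] fun t : ℝ => 1 / (2 * Real.pi) * t ^ (-2 : ℝ) := by
    refine (ae_restrict_iff' measurableSet_Ioi).2 (Filter.Eventually.of_forall fun t ht => ?_)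
    have ht0 : 0 < t := ha.trans ht
    have := Real.pi_pos
    simp only [Pi.zero_apply]
    positivity
  rw [h1, ← ofReal_integral_eq_lintegral_ofReal hint hnn, integral_const_mul,
    integral_Ioi_rpow_of_lt (by norm_num) ha]
  congr 1
  have h3 : (-2 : ℝ) + 1 = -1 := by norm_num
  rw [h3, Real.rpow_neg_one]
  have := Real.pi_pos
  field_simp

private theorem durM_Ico {a : ℝ} (ha : 0 < a) :
    durM (Ico a (4 * a)) = ENNReal.ofReal (3 / (8 * Real.pi * a)) := by
  have h1 : Ico a (4 * a) = Ici a \ Ici (4 * a) := by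
    ext t
    simp
  have hpi := Real.pi_pos
  have h2 : durM (Ici (4 * a)) ≠ ⊤ := by
    rw [durM_Ici (by positivity)]
    exact ENNReal.ofReal_ne_top
  rw [h1, measure_sdiff (Ici_subset_Ici.2 (by linarith)) measurableSet_Ici.nullMeasurableSet h2,
    durM_Ici ha, durM_Ici (by positivity), ← ENNReal.ofReal_sub _ (by positivity)]
  congr 1
  field_simp
  ring

omit [IsProbabilityMeasure P] in
private theorem lam_eq : lam P = volume.prod (durM.prod P) := rfl

theorem lam_part_inl (i : Idx) :
    lam P (part Ω (Sum.inl i)) = ENNReal.ofReal (3 / (8 * Real.pi)) := by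
  have hpi := Real.pi_pos
  have ha : (0 : ℝ) < (1 / 4) ^ i.1 := by positivity
  have : SFinite durM := by unfold durM; infer_instance
  rw [lam_eq]
  unfold part
  rw [Measure.prod_prod, Measure.prod_prod, measure_univ, mul_one, volume_sqC, durM_Ico ha,
    ← ENNReal.ofReal_mul ha.le]
  congr 1
  field_simp

theorem lam_part_inr (v : ℤ × ℤ) :
    lam P (part Ω (Sum.inr v)) = ENNReal.ofReal (1 / (8 * Real.pi)) := by
  have hpi := Real.pi_pos
  have : SFinite durM := by unfold durM; infer_instance
  rw [lam_eq]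
  unfold part
  rw [Measure.prod_prod, Measure.prod_prod, measure_univ, mul_one, volume_sqC,
    durM_Ici (by norm_num)]
  simp only [pow_zero, ENNReal.ofReal_one, one_mul]
  congr 1
  field_simp
  norm_num

end Pool.Agent.Helper16.CD
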