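import Pool.Agent.Helper16.CD.TDefs

/-!
# CD-T2: one dimensional laws

`unif_law`: `x ↦ projIcc 0 1 (x / s - v)` maps Lebesgue measure on `[s v, s (v+1))` to `s` times the uniform measure of `I = [0,1]`.
Proof: translation and scaling of Lebesgue measure give `s` times Lebesgue measure on `[0,1)` (`Real.map_volume_mul_left`,
`map_add_right_eq_self`, restrictions), and `projIcc` on `[0,1)` is the inclusion; `volume` on `I` is the comap (subtype) measure.
Alternatively check both finite measures on the sets `Iic b`, `b : I` (`Measure.ext_of_Iic`).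
`dur_law`: `t ↦ projIcc 0 1 (4/3 (1 - a/t))` maps the measure with density `1/(2πt²)` on `[a, 4a)`, `a > 0`, to `3/(8πa)` times the uniform
measure of `I`.  Check on `Iic b`, `b ∈ [0,1]`: `{t ∈ [a,4a) : 4/3 (1 - a/t) ≤ b} = {t ∈ [a, 4a) : t ≤ a / (1 - 3b/4)}`, the mass is
`(1/(2π)) (1/a - (1 - 3b/4)/a) = 3 b / (8 π a)`  (for `b = 1` the whole interval, mass `3/(8πa)`).
-/

set_option autoImplicit false

namespace Pool.Agent.Helper16.CD

open MeasureTheory ProbabilityTheory Metric Set
open scoped ENNReal NNReal unitInterval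

private theorem T2_proj {y : ℝ} (hy : y ∈ Icc (0 : ℝ) 1) (b : I) :
    projIcc (0 : ℝ) 1 zero_le_one y ≤ b ↔ y ≤ b := by
  rw [projIcc_of_mem _ hy]
  exact Iff.rfl

theorem unif_law {s : ℝ} (hs : 0 < s) (v : ℤ) :
    (volume.restrict (Ico (s * v) (s * (v + 1)))).map
      (fun x : ℝ => projIcc (0 : ℝ) 1 zero_le_one (x / s - v)) =
        ENNReal.ofReal s • (volume : Measure I) := by
  have hfin : IsFiniteMeasure (ENNReal.ofReal s • (volume : Measure I)) :=
    (volume : Measure I).smul_finite ENNReal.ofReal_ne_top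
  have hmeas : Measurable (fun x : ℝ => projIcc (0 : ℝ) 1 zero_le_one (x / s - v)) :=
    continuous_projIcc.measurable.comp (by fun_prop)
  refine (Measure.ext_of_Iic _ _ fun b => ?_).symm
  have hb0 : (0 : ℝ) ≤ b := b.2.1
  have hb1 : (b : ℝ) ≤ 1 := b.2.2
  rw [Measure.map_apply hmeas measurableSet_Iic, Measure.restrict_apply (hmeas measurableSet_Iic),
    Measure.smul_apply, unitInterval.volume_Iic, smul_eq_mul, ← ENNReal.ofReal_mul hs.le]
  have hmem : ∀ x ∈ Ico (s * v) (s * (v + 1)), x / s - v ∈ Icc (0 : ℝ) 1 := by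
    intro x hx
    constructor
    · rw [sub_nonneg, le_div_iff₀ hs, mul_comm]
      exact hx.1
    · rw [sub_le_iff_le_add, div_le_iff₀ hs]
      have := hx.2.le
      linarith
  have hset : ∀ x ∈ Ico (s * v) (s * (v + 1)), (projIcc (0 : ℝ) 1 zero_le_one (x / s - v) ≤ b ↔
      x ≤ s * (v + b)) := by
    intro x hx
    rw [T2_proj (hmem x hx), sub_le_iff_le_add, div_le_iff₀ hs]
    constructor <;> intro h <;> linarith
  have hv : ENNReal.ofReal (s * b) = volume (Ico (s * v) (s * (v + b))) := by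
    rw [Real.volume_Ico]
    congr 1
    ring
  have hv' : ENNReal.ofReal (s * b) = volume (Icc (s * v) (s * (v + b))) := by
    rw [Real.volume_Icc]
    congr 1
    ring
  apply le_antisymm
  · rw [hv]
    apply measure_mono
    intro x hx
    have hx' : x ∈ Ico (s * v) (s * (v + 1)) := ⟨hx.1, hx.2.trans_le (by nlinarith)⟩
    exact ⟨(hset x hx').2 hx.2.le, hx'⟩
  · rw [hv']
    apply measure_mono
    rintro x ⟨hx1, hx2⟩
    exact ⟨hx2.1, (hset x hx2).1 hx1⟩

/-- the density `1/(2πt²)` -/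
private theorem T2_dens {a c : ℝ} (ha : 0 < a) (hac : a ≤ c) :
    ∫⁻ t in Ioc a c, ENNReal.ofReal (1 / (2 * Real.pi * t ^ 2)) =
      ENNReal.ofReal ((1 / a - 1 / c) / (2 * Real.pi)) := by
  have hpi := Real.pi_pos
  have hc : 0 < c := ha.trans_le hac
  have hder : ∀ t ∈ uIcc a c, HasDerivAt (fun t : ℝ => -(1 / (2 * Real.pi)) * t⁻¹)
      (1 / (2 * Real.pi * t ^ 2)) t := by
    intro t ht
    rw [uIcc_of_le hac] at ht
    have ht0 : t ≠ 0 := (ha.trans_le ht.1).ne'
    have h1 := (hasDerivAt_inv ht0).const_mul (-(1 / (2 * Real.pi)))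
    have e : -(1 / (2 * Real.pi)) * -(t ^ 2)⁻¹ = 1 / (2 * Real.pi * t ^ 2) := by
      field_simp
    rwa [e] at h1
  have hcont : ContinuousOn (fun t : ℝ => 1 / (2 * Real.pi * t ^ 2)) (Icc a c) := by
    apply ContinuousOn.div continuousOn_const (by fun_prop)
    intro t ht
    have ht0 : 0 < t := ha.trans_le ht.1
    positivity
  have hint : IntervalIntegrable (fun t : ℝ => 1 / (2 * Real.pi * t ^ 2)) volume a c := by
    apply ContinuousOn.intervalIntegrable
    rwa [uIcc_of_le hac]
  have h1 := intervalIntegral.integral_eq_sub_of_hasDerivAt hder hint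
  rw [intervalIntegral.integral_of_le hac] at h1
  rw [← ofReal_integral_eq_lintegral_ofReal]
  · rw [h1]
    congr 1
    field_simp
    ring
  · exact (hcont.integrableOn_Icc).mono_set Ioc_subset_Icc_self
  · refine Filter.Eventually.of_forall fun t => ?_
    positivity

theorem dur_law {a : ℝ} (ha : 0 < a) :
    (((volume.restrict (Ioi (0 : ℝ))).withDensity
      fun t => ENNReal.ofReal (1 / (2 * Real.pi * t ^ 2))).restrict (Ico a (4 * a))).map
      (fun t : ℝ => projIcc (0 : ℝ) 1 zero_le_one (4 / 3 * (1 - a / t))) =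
        ENNReal.ofReal (3 / (8 * Real.pi * a)) • (volume : Measure I) := by
  have hpi := Real.pi_pos
  have hfin : IsFiniteMeasure (ENNReal.ofReal (3 / (8 * Real.pi * a)) • (volume : Measure I)) :=
    (volume : Measure I).smul_finite ENNReal.ofReal_ne_top
  have hmeas : Measurable (fun t : ℝ => projIcc (0 : ℝ) 1 zero_le_one (4 / 3 * (1 - a / t))) :=
    continuous_projIcc.measurable.comp (by fun_prop)
  refine (Measure.ext_of_Iic _ _ fun b => ?_).symm
  have hb0 : (0 : ℝ) ≤ b := b.2.1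
  have hb1 : (b : ℝ) ≤ 1 := b.2.2
  have hd : 0 < 1 - 3 / 4 * (b : ℝ) := by linarith
  set c : ℝ := a / (1 - 3 / 4 * (b : ℝ)) with hc
  have hac : a ≤ c := by
    rw [hc, le_div_iff₀ hd]
    nlinarith
  have hc4 : c ≤ 4 * a := by
    rw [hc, div_le_iff₀ hd]
    nlinarith
  have hc0 : 0 < c := ha.trans_le hac
  rw [Measure.map_apply hmeas measurableSet_Iic, Measure.restrict_apply (hmeas measurableSet_Iic),
    withDensity_apply _ ((hmeas measurableSet_Iic).inter measurableSet_Ico),
    Measure.restrict_restrict ((hmeas measurableSet_Iic).inter measurableSet_Ico),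
    Measure.smul_apply, unitInterval.volume_Iic, smul_eq_mul,
    ← ENNReal.ofReal_mul (by positivity)]
  have hmem : ∀ t ∈ Ico a (4 * a), 4 / 3 * (1 - a / t) ∈ Icc (0 : ℝ) 1 := by
    intro t ht
    have ht0 : 0 < t := ha.trans_le ht.1
    have h1 : a / t ≤ 1 := (div_le_one ht0).2 ht.1
    have h2 : 1 / 4 ≤ a / t := by
      rw [le_div_iff₀ ht0]
      have := ht.2
      linarith
    constructor <;> linarith
  have hset : ∀ t ∈ Ico a (4 * a),
      (projIcc (0 : ℝ) 1 zero_le_one (4 / 3 * (1 - a / t)) ≤ b ↔ t ≤ c) := by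
    intro t ht
    have ht0 : 0 < t := ha.trans_le ht.1
    rw [T2_proj (hmem t ht), hc, le_div_iff₀ hd]
    have e : a / t * t = a := div_mul_cancel₀ a ht0.ne'
    constructor
    · intro h
      have h1 : 1 - 3 / 4 * (b : ℝ) ≤ a / t := by linarith
      calc t * (1 - 3 / 4 * (b : ℝ)) ≤ t * (a / t) := mul_le_mul_of_nonneg_left h1 ht0.le
        _ = a := by rw [mul_comm, e]
    · intro h
      have h1 : 1 - 3 / 4 * (b : ℝ) ≤ a / t := by
        rw [le_div_iff₀ ht0]
        linarith
      linarith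
  have hval : ENNReal.ofReal (3 / (8 * Real.pi * a) * (b : ℝ)) =
      ∫⁻ t in Ioc a c, ENNReal.ofReal (1 / (2 * Real.pi * t ^ 2)) := by
    rw [T2_dens ha hac]
    congr 1
    have e : 1 / c = (1 - 3 / 4 * (b : ℝ)) / a := by
      rw [hc, one_div_div]
    rw [e]
    field_simp
    ring
  rw [hval]
  apply le_antisymm
  · rw [← setLIntegral_congr (Ioo_ae_eq_Ioc (μ := volume) (a := a) (b := c))]
    apply lintegral_mono_set
    intro t ht
    have ht' : t ∈ Ico a (4 * a) := ⟨ht.1.le, ht.2.trans_le hc4⟩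
    exact ⟨⟨(hset t ht').2 ht.2.le, ht'⟩, ha.trans ht.1⟩
  · rw [setLIntegral_congr (Ioc_ae_eq_Icc (μ := volume) (a := a) (b := c))]
    apply lintegral_mono_set
    rintro t ⟨⟨ht1, ht2⟩, -⟩
    exact ⟨ht2.1, (hset t ht2).1 ht1⟩

end Pool.Agent.Helper16.CD
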