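import Pool.Agent.Helper16.CD.T1
import Pool.Agent.Helper16.CD.T2

/-!
# CD-T3: the law of the standard mark of a rooted loop

`(lam P)[|part Ω (inl i)] = (lam P (part ..))⁻¹ • (lam P).restrict (part ..)`, and the restriction of the product measure `lam P` to the product set
is the product of the restrictions.  `unmark i` acts coordinatewise: `re, im` of the root (`volume` on `ℂ` corresponds to the product
measure by `Complex.volume_preserving_equiv_real_prod`), the duration, the sample point.  By `unif_law` (`s = side i`, `2^k x = x / s`) and
`dur_law` (`a = (1/4)^k`, `1/(4^k t) = a/t`) the image of the restricted measure is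
`(side² * 3/(8 π a)) • volume.prod P = 3/(8π) • volume.prod P` (`Measure.map_prod_map`, reassociate with `MeasurableEquiv.prodAssoc`),
and `lam_part_inl` normalises it.
-/

set_option autoImplicit false

namespace Pool.Agent.Helper16.CD

open MeasureTheory ProbabilityTheory Metric Set
open scoped ENNReal NNReal unitInterval
open Pool.Agent.Helper3.CD

variable {Ω : Type} [MeasurableSpace Ω] (P : Measure Ω) [IsProbabilityMeasure P]

theorem measurable_unmark (i : Idx) : Measurable (unmark (Ω := Ω) i) := by
  sorry

theorem map_unmark (i : Idx) :
    ((lam P)[|part Ω (Sum.inl i)]).map (unmark i) = (volume : Measure (I × I × I)).prod P := by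
  sorry

end Pool.Agent.Helper16.CD
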