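import Pool.Agent.Helper16.CD.T3
import Pool.Agent.Helper3.CD.Shift
import Pool.Agent.Helper3.CD.Indep
import Pool.Agent.Helper3.CD.Empty

/-!
# CD-T4: positive probability is transferred

`r i = c * (lam P (part Ω i)).toNNReal` is `rate c` for `i = inl _` (`lam_part_inl`).
(1) The law of `w ↦ (fun i => w (inl i))` under `loopSoup c P` is `soup (fun _ => rate c) (fun i => (lam P)[|part Ω (inl i)])`
(`map_comp_inj`, `Sum.inl_injective`).  Applying cellwise `(N, m) ↦ (N, fun j => unmark i (m j))` (`Measure.infinitePi_map_pi`, twice: cells and marks)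
gives `law (rate c) (volume.prod P)` by `map_unmark`.  So `(loopSoup c P).map std = law (rate c) (volume.prod P)`.
(2) Almost surely every mark is in its part: for fixed `i, m` the law of `(w i).2 m` is `(lam P)[|part Ω i]`, which is carried by `part Ω i`
(the mass of `part Ω i` is positive and finite); countably many `i, m`.
(3) The event `Z` that the four cells `inr v`, `v ∈ {-1,0}²`, are empty has positive probability (`prob_empty_pos`), it depends on
the cells `inr _` only, and `std ⁻¹' A` depends on the cells `inl _` only: `indep_sets`.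
`A' = std ⁻¹' A ∩ Z ∩ {w | ∀ i m, (w i).2 m ∈ part Ω i}` is measurable with probability `law (rate c) _ A * P(Z) > 0`.
-/

set_option autoImplicit false

namespace Pool.Agent.Helper16.CD

open MeasureTheory ProbabilityTheory Metric Set
open scoped ENNReal NNReal unitInterval
open Pool.Agent.Helper3.CD

variable {Ω : Type} [MeasurableSpace Ω] (P : Measure Ω) [IsProbabilityMeasure P]

private theorem T4_prob (i : Idx ⊕ (ℤ × ℤ)) : IsProbabilityMeasure ((lam P)[|part Ω i]) := by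
  have hpi := Real.pi_pos
  have h : ∃ x : ℝ, 0 < x ∧ lam P (part Ω i) = ENNReal.ofReal x := by
    rcases i with i | v
    · exact ⟨_, by positivity, lam_part_inl P i⟩
    · exact ⟨_, by positivity, lam_part_inr P v⟩
  obtain ⟨x, hx, h⟩ := h
  apply cond_isProbabilityMeasure_of_finite
  · rw [h]
    exact (ENNReal.ofReal_pos.2 hx).ne'
  · rw [h]
    exact ENNReal.ofReal_ne_top

/-- the cellwise map -/
private noncomputable def T4_cell (i : Idx) (c : Cell (ℂ × ℝ × Ω)) : Cell (Mark Ω) :=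
  (c.1, fun m => unmark i (c.2 m))

private theorem T4_cell_meas (i : Idx) : Measurable (T4_cell (Ω := Ω) i) := by
  refine measurable_fst.prodMk (measurable_pi_iff.2 fun m => ?_)
  exact (measurable_unmark i).comp ((measurable_pi_apply m).comp measurable_snd)

private theorem T4_std_meas : Measurable (std (Ω := Ω)) := by
  refine measurable_pi_iff.2 fun i => ?_
  exact (T4_cell_meas i).comp (measurable_pi_apply (Sum.inl i))

private theorem T4_cellLaw (i : Idx) (r : ℝ≥0) :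
    (cellLaw r ((lam P)[|part Ω (Sum.inl i)])).map (T4_cell i) =
      cellLaw r ((volume : Measure (I × I × I)).prod P) := by
  have := T4_prob P (Sum.inl i)
  unfold cellLaw
  have h1 : (T4_cell i : Cell (ℂ × ℝ × Ω) → Cell (Mark Ω)) =
      Prod.map id (fun (m : ℕ → ℂ × ℝ × Ω) (j : ℕ) => unmark i (m j)) := by
    funext c
    rfl
  have hm : Measurable (fun (m : ℕ → ℂ × ℝ × Ω) (j : ℕ) => unmark i (m j)) :=
    measurable_pi_iff.2 fun m => (measurable_unmark i).comp (measurable_pi_apply m)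
  rw [h1, ← Measure.map_prod_map _ _ measurable_id hm, Measure.map_id,
    Measure.infinitePi_map_pi (fun _ : ℕ => (lam P)[|part Ω (Sum.inl i)])
      (fun _ => measurable_unmark i)]
  simp only [map_unmark]

private theorem T4_map_std (c : ℝ≥0) :
    (loopSoup c P).map std = law (rate c) ((volume : Measure (I × I × I)).prod P) := by
  have hp := T4_prob P
  unfold loopSoup law
  have h1 := map_comp_inj (fun i => c * (lam P (part Ω i)).toNNReal)
    (fun i => (lam P)[|part Ω i]) (Sum.inl : Idx → Idx ⊕ (ℤ × ℤ)) Sum.inl_injective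
  have hm1 : Measurable fun (w : Cfg (Idx ⊕ (ℤ × ℤ)) (ℂ × ℝ × Ω)) (i : Idx) =>
      w (Sum.inl i) := measurable_pi_iff.2 fun i => measurable_pi_apply (Sum.inl i)
  have hm2 : Measurable (fun v : Cfg Idx (ℂ × ℝ × Ω) => fun i => T4_cell i (v i)) :=
    measurable_pi_iff.2 fun i => (T4_cell_meas i).comp (measurable_pi_apply i)
  have h2 : (std : Cfg (Idx ⊕ (ℤ × ℤ)) (ℂ × ℝ × Ω) → Conf (Mark Ω)) =
      (fun v : Cfg Idx (ℂ × ℝ × Ω) => fun i => T4_cell i (v i)) ∘
        (fun (w : Cfg (Idx ⊕ (ℤ × ℤ)) (ℂ × ℝ × Ω)) (i : Idx) => w (Sum.inl i)) := rfl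
  rw [h2, ← Measure.map_map hm2 hm1, h1]
  unfold soup
  rw [Measure.infinitePi_map_pi (fun i : Idx => cellLaw (c * (lam P (part Ω (Sum.inl i))).toNNReal)
    ((lam P)[|part Ω (Sum.inl i)])) T4_cell_meas]
  simp only [T4_cellLaw]
  congr 1
  funext i
  rw [lam_part_inl]
  rfl

private theorem T4_ae (c : ℝ≥0) : ∀ᵐ w ∂(loopSoup c P), ∀ i m, (w i).2 m ∈ part Ω i := by
  have hp := T4_prob P
  rw [ae_all_iff]
  intro i
  rw [ae_all_iff]
  intro m
  have h1 : ((loopSoup c P).map fun w => w i) =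
      cellLaw (c * (lam P (part Ω i)).toNNReal) ((lam P)[|part Ω i]) :=
    Measure.infinitePi_map_eval
      (fun i => cellLaw (c * (lam P (part Ω i)).toNNReal) ((lam P)[|part Ω i])) i
  have h2 : ((loopSoup c P).map fun w => (w i).2 m) = (lam P)[|part Ω i] := by
    have e1 : (fun w : Cfg (Idx ⊕ (ℤ × ℤ)) (ℂ × ℝ × Ω) => (w i).2 m) =
        (fun q : ℕ → ℂ × ℝ × Ω => q m) ∘ (Prod.snd ∘ fun w => w i) := rfl
    rw [e1, ← Measure.map_map (measurable_pi_apply m)
      (measurable_snd.comp (measurable_pi_apply i)),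
      ← Measure.map_map measurable_snd (measurable_pi_apply i), h1]
    unfold cellLaw
    have h3 : (((poissonMeasure (c * (lam P (part Ω i)).toNNReal)).prod
        (Measure.infinitePi fun _ : ℕ => (lam P)[|part Ω i])).map Prod.snd) =
        Measure.infinitePi fun _ : ℕ => (lam P)[|part Ω i] := by
      rw [Measure.map_snd_prod, measure_univ, one_smul]
    rw [h3]
    exact Measure.infinitePi_map_eval (fun _ : ℕ => (lam P)[|part Ω i]) m
  have h4 : ∀ᵐ x ∂((lam P)[|part Ω i]), x ∈ part Ω i := ae_cond_mem (measurableSet_part i)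
  rw [← h2] at h4
  exact ae_of_ae_map
    ((measurable_pi_apply m).comp (measurable_snd.comp (measurable_pi_apply i))).aemeasurable h4

/-- the cells of the long loops near the disc -/
private noncomputable def T4_cells : Finset (Idx ⊕ (ℤ × ℤ)) := by
  classical
  exact ((Finset.Icc (-1 : ℤ) 0) ×ˢ (Finset.Icc (-1 : ℤ) 0)).image Sum.inr

private theorem T4_mem_cells {i : Idx ⊕ (ℤ × ℤ)} : i ∈ T4_cells ↔
    ∃ v : ℤ × ℤ, (-1 ≤ v.1 ∧ v.1 ≤ 0 ∧ -1 ≤ v.2 ∧ v.2 ≤ 0) ∧ i = Sum.inr v := by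
  classical
  unfold T4_cells
  rw [Finset.mem_image]
  constructor
  · rintro ⟨v, hv, rfl⟩
    rw [Finset.mem_product, Finset.mem_Icc, Finset.mem_Icc] at hv
    exact ⟨v, ⟨hv.1.1, hv.1.2, hv.2.1, hv.2.2⟩, rfl⟩
  · rintro ⟨v, ⟨h1, h2, h3, h4⟩, rfl⟩
    refine ⟨v, ?_, rfl⟩
    rw [Finset.mem_product, Finset.mem_Icc, Finset.mem_Icc]
    exact ⟨⟨h1, h2⟩, h3, h4⟩

theorem positive_transfer (c : ℝ≥0) (A : Set (Conf (Mark Ω))) (hA : MeasurableSet A)
    (hpos : 0 < law (rate c) ((volume : Measure (I × I × I)).prod P) A) :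
    ∃ A' : Set (Cfg (Idx ⊕ (ℤ × ℤ)) (ℂ × ℝ × Ω)), MeasurableSet A' ∧ 0 < loopSoup c P A' ∧
      ∀ w ∈ A', std w ∈ A ∧ Proper w := by
  have hp := T4_prob P
  set Z : Set (Cfg (Idx ⊕ (ℤ × ℤ)) (ℂ × ℝ × Ω)) := {w | ∀ i ∈ T4_cells, (w i).1 = 0} with hZ
  set T : Set (Cfg (Idx ⊕ (ℤ × ℤ)) (ℂ × ℝ × Ω)) := {w | ∀ i m, (w i).2 m ∈ part Ω i} with hT
  have hSm : MeasurableSet (std ⁻¹' A) := T4_std_meas hA
  have hZm : MeasurableSet Z := by
    have e1 : Z = ⋂ i ∈ T4_cells, (fun w : Cfg (Idx ⊕ (ℤ × ℤ)) (ℂ × ℝ × Ω) => (w i).1) ⁻¹' {0} := by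
      ext w
      simp [hZ]
    rw [e1]
    refine Finset.measurableSet_biInter _ fun i _ => ?_
    exact (measurable_fst.comp (measurable_pi_apply i)) (measurableSet_singleton 0)
  have hTm : MeasurableSet T := by
    have e1 : T = ⋂ i, ⋂ m, (fun w : Cfg (Idx ⊕ (ℤ × ℤ)) (ℂ × ℝ × Ω) => (w i).2 m) ⁻¹'
        part Ω i := by
      ext w
      simp [hT]
    rw [e1]
    refine MeasurableSet.iInter fun i => MeasurableSet.iInter fun m => ?_
    exact ((measurable_pi_apply m).comp (measurable_snd.comp (measurable_pi_apply i)))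
      (measurableSet_part i)
  have hQS : 0 < loopSoup c P (std ⁻¹' A) := by
    rw [← Measure.map_apply T4_std_meas hA, T4_map_std]
    exact hpos
  have hQZ : 0 < loopSoup c P Z := prob_empty_pos _ _ T4_cells
  have hdS : DepOn (range (Sum.inl : Idx → Idx ⊕ (ℤ × ℤ)))
      (std ⁻¹' A : Set (Cfg (Idx ⊕ (ℤ × ℤ)) (ℂ × ℝ × Ω))) := by
    intro w w' h
    have h1 : std w = std w' := by
      funext i
      have h2 := h (Sum.inl i) ⟨i, rfl⟩
      unfold std
      rw [h2]
    rw [mem_preimage, mem_preimage, h1]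
  have hdZ : DepOn (range (Sum.inr : ℤ × ℤ → Idx ⊕ (ℤ × ℤ))) Z := by
    intro w w' h
    refine forall_congr' fun i => forall_congr' fun hi => ?_
    obtain ⟨v, -, rfl⟩ := T4_mem_cells.1 hi
    rw [h (Sum.inr v) ⟨v, rfl⟩]
  have hdisj : Disjoint (range (Sum.inl : Idx → Idx ⊕ (ℤ × ℤ)))
      (range (Sum.inr : ℤ × ℤ → Idx ⊕ (ℤ × ℤ))) := by
    rw [Set.disjoint_left]
    rintro _ ⟨i, rfl⟩ ⟨v, hv⟩
    exact Sum.inr_ne_inl hv
  have hind : loopSoup c P (std ⁻¹' A ∩ Z) = loopSoup c P (std ⁻¹' A) * loopSoup c P Z :=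
    indep_sets _ _ _ _ hdisj _ _ hSm hZm hdS hdZ
  have hae : (std ⁻¹' A ∩ Z ∩ T : Set _) =ᵐ[loopSoup c P] (std ⁻¹' A ∩ Z : Set _) := by
    filter_upwards [T4_ae P c] with w hw
    apply propext
    exact ⟨fun h => h.1, fun h => ⟨h, hw⟩⟩
  refine ⟨std ⁻¹' A ∩ Z ∩ T, (hSm.inter hZm).inter hTm, ?_, ?_⟩
  · rw [measure_congr hae, hind]
    exact ENNReal.mul_pos hQS.ne' hQZ.ne'
  · rintro w ⟨⟨h1, h2⟩, h3⟩
    refine ⟨h1, h3, fun v a b c d => ?_⟩
    exact h2 (Sum.inr v) (T4_mem_cells.2 ⟨v, ⟨a, b, c, d⟩, rfl⟩)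

end Pool.Agent.Helper16.CD
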