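import Pool.Agent.Helper16.CD.TDefs

/-!
# CD-T5: the carpet in `ℂ` and the abstract carpet

`toC` is a homeomorphism `Plane ≃ₜ ℂ` (`Complex.equivRealProdCLM.symm`), bounded sets correspond, `toC '' cD = closedBall 0 1`,
`toC '' oD = ball 0 1`.
`loop_eq`: `q ∈ part Ω (inl i)`, `q = (z, t, ω)`, `k = i.1`: `2^k z.re - v.1 ∈ [0,1)`, so `projIcc` is the identity there and
`side i * (v.1 + (2^k z.re - v.1)) = z.re`, the same for `im`; `4^k t ∈ [1,4)`, `x = 4/3 (1 - 1/(4^k t)) ∈ [0, 1)`, `dur x = 4^k t`,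
`side i * √(4^k t) = √t`.  So `lp (shapeB B₁ B₂) (i, unmark i q)` is the loop `{z + √t β}`.
`loops_eq`: for `Proper w` the loops of `loopsC` come from `inl` cells: a point `p ∈ Sp w` with `p.1 = inr v` has its root `z ∈ sqC (0, v)`
on the loop (`bridge` is `0` at time `0`), inside `ball 0 1`, so `v ∈ {-1, 0}²` and the cell is empty.  For `inl` cells use `loop_eq` and
`(i, unmark i q) ∈ Sp (std w)`; conversely a point of `Sp (std w)` is `(i, unmark i q)` with `(inl i, q) ∈ Sp w`.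
`carpet_eq`: `Linked`, `cluster`, `closure`, `fillIn`, `interior` commute with the homeomorphism `toC`
(`Homeomorph.image_connectedComponentIn`, `Homeomorph.image_closure`, ...).
-/

set_option autoImplicit false

namespace Pool.Agent.Helper16.CD

open MeasureTheory ProbabilityTheory Metric Set
open scoped ENNReal NNReal unitInterval
open Pool.Agent.Helper3.CD

variable {Ω : Type}

private theorem T5_param {k : ℕ} {t : ℝ} (h1 : (1 / 4 : ℝ) ^ k ≤ t) (h2 : t < 4 * (1 / 4 : ℝ) ^ k) :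
    4 / 3 * (1 - 1 / (4 ^ k * t)) ∈ Icc (0 : ℝ) 1 ∧ 1 ≤ 4 ^ k * t := by
  have h4 : (0 : ℝ) < 4 ^ k := by positivity
  have h5 : (4 : ℝ) ^ k * (1 / 4) ^ k = 1 := by rw [← mul_pow]; norm_num
  have h6 : 1 ≤ 4 ^ k * t := by
    calc (1 : ℝ) = 4 ^ k * (1 / 4) ^ k := h5.symm
      _ ≤ 4 ^ k * t := by gcongr
  have h7 : 4 ^ k * t < 4 := by
    calc 4 ^ k * t < 4 ^ k * (4 * (1 / 4) ^ k) := by gcongr
      _ = 4 := by rw [mul_left_comm, h5, mul_one]
  refine ⟨⟨?_, ?_⟩, h6⟩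
  · have : 1 / (4 ^ k * t) ≤ 1 := by
      rw [div_le_one (by linarith)]
      exact h6
    linarith
  · have : 1 / 4 ≤ 1 / (4 ^ k * t) := one_div_le_one_div_of_le (by linarith) h7.le
    linarith

private theorem T5_coord {k : ℕ} {a : ℝ} {v : ℤ} (h1 : (1 / 2 : ℝ) ^ k * v ≤ a)
    (h2 : a < (1 / 2 : ℝ) ^ k * (v + 1)) : 2 ^ k * a - v ∈ Icc (0 : ℝ) 1 := by
  have h4 : (0 : ℝ) < 2 ^ k := by positivity
  have h5 : (2 : ℝ) ^ k * (1 / 2) ^ k = 1 := by rw [← mul_pow]; norm_num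
  constructor
  · have : 2 ^ k * ((1 / 2 : ℝ) ^ k * v) ≤ 2 ^ k * a := by gcongr
    rw [← mul_assoc, h5, one_mul] at this
    linarith
  · have : 2 ^ k * a < 2 ^ k * ((1 / 2 : ℝ) ^ k * (v + 1)) := by gcongr
    rw [← mul_assoc, h5, one_mul] at this
    linarith

theorem loop_eq (B₁ B₂ : ℝ≥0 → Ω → ℝ) (i : Idx) {q : ℂ × ℝ × Ω} (hq : q ∈ part Ω (Sum.inl i)) :
    brownLoop B₁ B₂ q = toC '' lp (shapeB B₁ B₂) (i, unmark i q) := by
  obtain ⟨z, t, ω⟩ := q
  obtain ⟨k, v⟩ := i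
  obtain ⟨⟨hz1, hz2, hz3, hz4⟩, ⟨ht1, ht2⟩, -⟩ := hq
  obtain ⟨hx, ht3⟩ := T5_param ht1 ht2
  have hre := T5_coord hz1 hz2
  have him := T5_coord hz3 hz4
  have h5 : (1 / 2 : ℝ) ^ k * 2 ^ k = 1 := by rw [← mul_pow]; norm_num
  have ht0 : 0 < (4 : ℝ) ^ k * t := by linarith
  have hdur : dur (projIcc 0 1 zero_le_one (4 / 3 * (1 - 1 / (4 ^ k * t)))) = 4 ^ k * t := by
    rw [projIcc_of_mem _ hx]
    unfold dur
    have h6 : 1 - 3 / 4 * (4 / 3 * (1 - 1 / (4 ^ k * t))) = 1 / (4 ^ k * t) := by ring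
    change 1 / (1 - 3 / 4 * (4 / 3 * (1 - 1 / (4 ^ k * t)))) = _
    rw [h6, one_div_one_div]
  have hsq : (1 / 2 : ℝ) ^ k * √(4 ^ k * t) = √t := by
    rw [Real.sqrt_mul (by positivity), show (4 : ℝ) ^ k = (2 ^ k) ^ 2 by
      rw [← pow_mul, mul_comm k 2, pow_mul]; norm_num, Real.sqrt_sq (by positivity), ← mul_assoc,
      h5, one_mul]
  unfold brownLoop lp shapeB
  rw [← range_comp, ← range_comp]
  congr 1
  funext s
  simp only [Function.comp_apply]
  unfold toC pos unmark side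
  simp only
  rw [hdur, projIcc_of_mem _ hre, projIcc_of_mem _ him]
  apply Complex.ext
  · simp only [Complex.add_re, Complex.mul_re, Complex.ofReal_re, Complex.ofReal_im, zero_mul,
      sub_zero]
    rw [← hsq]
    linear_combination (-z.re) * h5
  · simp only [Complex.add_im, Complex.mul_im, Complex.ofReal_re, Complex.ofReal_im, zero_mul,
      add_zero]
    rw [← hsq]
    linear_combination (-z.im) * h5

private theorem T5_toC_ball (z : Plane) : toC z ∈ ball (0 : ℂ) 1 ↔ z ∈ oD := by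
  rw [mem_ball_zero_iff]
  change ‖toC z‖ < 1 ↔ z.1 ^ 2 + z.2 ^ 2 < 1
  have h1 : ‖toC z‖ ^ 2 = z.1 ^ 2 + z.2 ^ 2 := by
    rw [← Complex.normSq_eq_norm_sq, Complex.normSq_apply]
    unfold toC
    ring
  rw [← h1]
  exact (sq_lt_one_iff₀ (norm_nonneg _)).symm

private theorem T5_toC_closedBall (z : Plane) : toC z ∈ closedBall (0 : ℂ) 1 ↔ z ∈ cD := by
  rw [mem_closedBall_zero_iff]
  change ‖toC z‖ ≤ 1 ↔ z.1 ^ 2 + z.2 ^ 2 ≤ 1
  have h1 : ‖toC z‖ ^ 2 = z.1 ^ 2 + z.2 ^ 2 := by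
    rw [← Complex.normSq_eq_norm_sq, Complex.normSq_apply]
    unfold toC
    ring
  rw [← h1]
  exact (sq_le_one_iff₀ (norm_nonneg _)).symm

private theorem T5_image_sub (A : Set Plane) : toC '' A ⊆ ball (0 : ℂ) 1 ↔ A ⊆ oD := by
  rw [image_subset_iff]
  exact forall_congr' fun z => imp_congr_right fun _ => T5_toC_ball z

private theorem T5_root (B₁ B₂ : ℝ≥0 → Ω → ℝ) (q : ℂ × ℝ × Ω) : q.1 ∈ brownLoop B₁ B₂ q := by
  refine ⟨0, ?_⟩
  have h1 : ∀ B : ℝ≥0 → Ω → ℝ, bridge B q.2.2 0 = 0 := by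
    intro B
    unfold bridge
    simp
  simp only [h1]
  have h2 : (⟨0, 0⟩ : ℂ) = 0 := rfl
  rw [h2, mul_zero, add_zero]

theorem loops_eq (B₁ B₂ : ℝ≥0 → Ω → ℝ) {w : Cfg (Idx ⊕ (ℤ × ℤ)) (ℂ × ℝ × Ω)} (hw : Proper w) :
    loopsC B₁ B₂ w = (fun K => toC '' K) '' loopsIn (shapeB B₁ B₂) (std w) := by
  ext K
  constructor
  · rintro ⟨⟨i, q⟩, ⟨j, hj, hjq⟩, rfl, hK⟩
    change j < (w i).1 at hj
    change (w i).2 j = q at hjq
    have hq : q ∈ part Ω i := hjq ▸ hw.1 i j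
    rcases i with i | v
    · change brownLoop B₁ B₂ q ⊆ ball 0 1 at hK
      rw [loop_eq B₁ B₂ i hq, T5_image_sub] at hK
      refine ⟨lp (shapeB B₁ B₂) (i, unmark i q), ⟨(i, unmark i q), ⟨j, hj, ?_⟩, rfl, hK⟩,
        (loop_eq B₁ B₂ i hq).symm⟩
      change unmark i ((w (Sum.inl i)).2 j) = unmark i q
      rw [hjq]
    · exfalso
      obtain ⟨⟨h1, h2, h3, h4⟩, -⟩ := hq
      have h5 : ‖q.1‖ < 1 := mem_ball_zero_iff.1 (hK (T5_root B₁ B₂ q))
      have h6 := (Complex.abs_re_le_norm q.1).trans_lt h5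
      have h7 := (Complex.abs_im_le_norm q.1).trans_lt h5
      rw [abs_lt] at h6 h7
      change side (0, v) * (v.1 : ℝ) ≤ q.1.re at h1
      change q.1.re < side (0, v) * ((v.1 : ℝ) + 1) at h2
      change side (0, v) * (v.2 : ℝ) ≤ q.1.im at h3
      change q.1.im < side (0, v) * ((v.2 : ℝ) + 1) at h4
      have h8 : side (0, v) = 1 := by unfold side; simp
      rw [h8, one_mul] at h1 h2 h3 h4
      have h9 : (w (Sum.inr v)).1 = 0 := by
        apply hw.2 v
        · have : (-2 : ℝ) < v.1 := by linarith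
          have h10 : (-2 : ℤ) < v.1 := by exact_mod_cast this
          omega
        · have : (v.1 : ℝ) < 1 := by linarith
          have h10 : v.1 < 1 := by exact_mod_cast this
          omega
        · have : (-2 : ℝ) < v.2 := by linarith
          have h10 : (-2 : ℤ) < v.2 := by exact_mod_cast this
          omega
        · have : (v.2 : ℝ) < 1 := by linarith
          have h10 : v.2 < 1 := by exact_mod_cast this
          omega
      omega
  · rintro ⟨_, ⟨⟨i, e⟩, ⟨j, hj, hje⟩, rfl, hK⟩, rfl⟩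
    change j < (w (Sum.inl i)).1 at hj
    change unmark i ((w (Sum.inl i)).2 j) = e at hje
    have hq : (w (Sum.inl i)).2 j ∈ part Ω (Sum.inl i) := hw.1 (Sum.inl i) j
    have h1 := loop_eq B₁ B₂ i hq
    rw [hje] at h1
    exact ⟨(Sum.inl i, (w (Sum.inl i)).2 j), ⟨j, hj, rfl⟩, h1.symm, (T5_image_sub _).2 hK⟩

/-! ### the carpet under a homeomorphism -/

section homeo

variable {P Q : Type*} [PseudoMetricSpace P] [PseudoMetricSpace Q]

private theorem T5_linked (h : P ≃ₜ Q) {S : Set (Set P)} {A A' : Set P} (hA : Linked S A A') :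
    Linked ((fun K => h '' K) '' S) (h '' A) (h '' A') := by
  refine Relation.ReflTransGen.lift (fun K => h '' K) ?_ _ _ hA
  rintro X Y ⟨hX, hY, z, hzX, hzY⟩
  exact ⟨⟨X, hX, rfl⟩, ⟨Y, hY, rfl⟩, h z, ⟨z, hzX, rfl⟩, ⟨z, hzY, rfl⟩⟩

private theorem T5_linked_iff (h : P ≃ₜ Q) {S : Set (Set P)} {A A' : Set P} :
    Linked ((fun K => h '' K) '' S) (h '' A) (h '' A') ↔ Linked S A A' := by
  refine ⟨fun hA => ?_, T5_linked h⟩
  have h1 := T5_linked h.symm hA
  have h2 : ∀ B : Set P, h.symm '' (h '' B) = B := fun B => h.symm_image_image B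
  rw [h2, h2, image_image] at h1
  simp only [h2, image_id'] at h1
  exact h1

private theorem T5_cluster (h : P ≃ₜ Q) (S : Set (Set P)) (A : Set P) :
    cluster ((fun K => h '' K) '' S) (h '' A) = h '' cluster S A := by
  unfold cluster
  rw [image_sUnion]
  congr 1
  ext K
  constructor
  · rintro ⟨⟨A', hA', rfl⟩, hL⟩
    exact ⟨A', ⟨hA', (T5_linked_iff h).1 hL⟩, rfl⟩
  · rintro ⟨A', ⟨hA', hL⟩, rfl⟩
    exact ⟨⟨A', hA', rfl⟩, T5_linked h hL⟩

private theorem T5_fill (h : P ≃ₜ Q)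
    (hb : ∀ B : Set P, Bornology.IsBounded (h '' B) ↔ Bornology.IsBounded B) (A : Set P) :
    fillIn (h '' A) = h '' fillIn A := by
  ext y
  obtain ⟨x, rfl⟩ := h.surjective y
  rw [h.injective.mem_set_image]
  change Bornology.IsBounded (connectedComponentIn (h '' A)ᶜ (h x)) ↔
    Bornology.IsBounded (connectedComponentIn Aᶜ x)
  rw [← image_compl_eq h.bijective]
  by_cases hx : x ∈ Aᶜ
  · rw [← h.image_connectedComponentIn hx, hb]
  · have hx' : h x ∉ h '' Aᶜ := by rwa [h.injective.mem_set_image]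
    rw [connectedComponentIn_eq_empty hx, connectedComponentIn_eq_empty hx']
    exact ⟨fun _ => Bornology.isBounded_empty, fun _ => Bornology.isBounded_empty⟩

private theorem T5_carpet (h : P ≃ₜ Q)
    (hb : ∀ B : Set P, Bornology.IsBounded (h '' B) ↔ Bornology.IsBounded B) (D : Set P)
    (S : Set (Set P)) :
    carpet (h '' D) ((fun K => h '' K) '' S) = h '' carpet D S := by
  ext y
  obtain ⟨x, rfl⟩ := h.surjective y
  rw [h.injective.mem_set_image]
  unfold carpet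
  change (h x ∈ h '' D ∧ ∀ K ∈ (fun K => h '' K) '' S, _) ↔ (x ∈ D ∧ ∀ K ∈ S, _)
  rw [h.injective.mem_set_image, forall_mem_image]
  refine and_congr_right fun _ => forall_congr' fun K => imp_congr_right fun _ => ?_
  rw [T5_cluster, ← h.image_closure, T5_fill h hb, ← h.image_interior, h.injective.mem_set_image]

end homeo

theorem carpet_eq (B₁ B₂ : ℝ≥0 → Ω → ℝ) {w : Cfg (Idx ⊕ (ℤ × ℤ)) (ℂ × ℝ × Ω)} (hw : Proper w) :
    carpetC B₁ B₂ w = toC '' Xs (shapeB B₁ B₂) (std w) := by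
  let e : Plane ≃L[ℝ] ℂ := Complex.equivRealProdCLM.symm
  have he : ∀ z, e z = toC z := fun z => rfl
  have he' : ∀ A : Set Plane, (e.toHomeomorph : Plane → ℂ) '' A = toC '' A := fun A => rfl
  have hb : ∀ B : Set Plane, Bornology.IsBounded (e.toHomeomorph '' B) ↔
      Bornology.IsBounded B := by
    intro B
    constructor
    · intro h
      have h1 := (e.symm : ℂ →L[ℝ] Plane).lipschitz.isBounded_image h
      have h2 : (e.symm : ℂ →L[ℝ] Plane) '' (e.toHomeomorph '' B) = B := by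
        rw [image_image]
        have h3 : ∀ x, (e.symm : ℂ →L[ℝ] Plane) (e.toHomeomorph x) = x := fun x =>
          e.symm_apply_apply x
        simp only [h3, image_id']
      rwa [h2] at h1
    · intro h
      exact (e : Plane →L[ℝ] ℂ).lipschitz.isBounded_image h
  have h1 := T5_carpet e.toHomeomorph hb cD (loopsIn (shapeB B₁ B₂) (std w))
  simp only [he'] at h1
  unfold carpetC Xs
  rw [loops_eq B₁ B₂ hw, ← h1]
  congr 1
  ext y
  constructor
  · intro hy
    refine ⟨(y.re, y.im), ?_, rfl⟩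
    exact (T5_toC_closedBall (y.re, y.im)).1 hy
  · rintro ⟨z, hz, rfl⟩
    exact (T5_toC_closedBall z).2 hz

end Pool.Agent.Helper16.CD
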