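import Pool.Agent.Helper16.CD.TDefs

/-!
# CD-T6: dimension and quasisymmetry under the identification `Plane ≃ ℂ`

`dimH_toC`: `toC` is a continuous linear equivalence (`Complex.equivRealProdCLM.symm`); `ContinuousLinearEquiv.dimH_image`.
`qs_toC`: for `f : X → Y` quasisymmetric with `η`, `g : toC '' X → X` the inverse of `toC`.  `dist z z' ≤ dist (toC z) (toC z') ≤ 2 dist z z'`
(sup norm and Euclidean norm), so `|x-a| ≤ t |x-b|` in `ℂ` implies `|x-a| ≤ 2 t |x-b|` in the plane, and `f ∘ g` is quasisymmetric with
`t ↦ η (2 t)`, again a homeomorphism of `ℝ≥0`.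
-/

set_option autoImplicit false

namespace Pool.Agent.Helper16.CD

open MeasureTheory ProbabilityTheory Metric Set
open scoped ENNReal NNReal unitInterval

private theorem T6_toC_eq : toC = fun z : Plane => Complex.equivRealProdCLM.symm z := by
  funext z
  apply Complex.ext <;> simp [toC]

private theorem T6_toC_dist_le (z z' : Plane) : dist z z' ≤ dist (toC z) (toC z') := by
  rw [Prod.dist_eq, Complex.dist_eq]
  refine max_le ?_ ?_
  · have := Complex.abs_re_le_norm (toC z - toC z')
    simpa [toC, Real.dist_eq] using this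
  · have := Complex.abs_im_le_norm (toC z - toC z')
    simpa [toC, Real.dist_eq] using this

private theorem T6_toC_le_dist (z z' : Plane) : dist (toC z) (toC z') ≤ 2 * dist z z' := by
  have h := Complex.norm_le_abs_re_add_abs_im (toC z - toC z')
  have h1 : |(toC z - toC z').re| ≤ dist z z' := by
    rw [Prod.dist_eq]
    refine le_trans ?_ (le_max_left _ _)
    simp [toC, Real.dist_eq]
  have h2 : |(toC z - toC z').im| ≤ dist z z' := by
    rw [Prod.dist_eq]
    refine le_trans ?_ (le_max_right _ _)
    simp [toC, Real.dist_eq]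
  rw [Complex.dist_eq]
  linarith

theorem dimH_toC (X : Set Plane) : dimH (toC '' X) = dimH X := by
  rw [T6_toC_eq]
  exact ContinuousLinearEquiv.dimH_image Complex.equivRealProdCLM.symm X

theorem qs_toC {X : Set Plane} {Y : Type} [MetricSpace Y] (f : X → Y) (hf : IsQS f) :
    ∃ f' : (toC '' X) → Y, IsQS f' := by
  obtain ⟨hh, η, hη⟩ := hf
  have himg : toC '' X = Complex.equivRealProdCLM.symm.toHomeomorph '' X := by
    rw [T6_toC_eq]; rfl
  set H : X ≃ₜ (Complex.equivRealProdCLM.symm.toHomeomorph '' X) :=
    Complex.equivRealProdCLM.symm.toHomeomorph.image X with hH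
  set K : X ≃ₜ (toC '' X) := H.trans (Homeomorph.setCongr himg.symm) with hK
  have hKv : ∀ x : X, ((K x : toC '' X) : ℂ) = toC x := by
    intro x
    have h : toC (x : Plane) = Complex.equivRealProdCLM.symm (x : Plane) :=
      congrFun T6_toC_eq x
    rw [h]
    rfl
  have hlow : ∀ w w' : toC '' X, nndist (K.symm w) (K.symm w') ≤ nndist w w' := by
    intro w w'
    have h := T6_toC_dist_le (K.symm w : Plane) (K.symm w' : Plane)
    rw [← hKv, ← hKv, K.apply_symm_apply, K.apply_symm_apply] at h
    exact_mod_cast h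
  have hup : ∀ w w' : toC '' X, nndist w w' ≤ 2 * nndist (K.symm w) (K.symm w') := by
    intro w w'
    have h := T6_toC_le_dist (K.symm w : Plane) (K.symm w' : Plane)
    rw [← hKv, ← hKv, K.apply_symm_apply, K.apply_symm_apply] at h
    exact_mod_cast h
  refine ⟨fun w => f (K.symm w), hh.comp K.symm.isHomeomorph,
    (Homeomorph.mulLeft₀ (2 : ℝ≥0) two_ne_zero).trans η, ?_⟩
  intro x a b t hxt
  have h1 : nndist (K.symm x) (K.symm a) ≤ (2 * t) * nndist (K.symm x) (K.symm b) := by
    calc nndist (K.symm x) (K.symm a) ≤ nndist x a := hlow x a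
      _ ≤ t * nndist x b := hxt
      _ ≤ t * (2 * nndist (K.symm x) (K.symm b)) := by gcongr; exact hup x b
      _ = (2 * t) * nndist (K.symm x) (K.symm b) := by ring
  exact hη _ _ _ _ h1

end Pool.Agent.Helper16.CD
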