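import Pool.Agent.Helper16.CD.Stmt

/-!
# CD-T: definitions for the transfer from the Brownian loop soup in `ℂ` to the abstract soup
-/

set_option autoImplicit false

namespace Pool.Agent.Helper16.CD

open MeasureTheory ProbabilityTheory Metric Set
open scoped ENNReal NNReal unitInterval
open Pool.Agent.Helper3.CD

/-- the plane as `ℂ` -/
noncomputable def toC (z : Plane) : ℂ := ⟨z.1, z.2⟩

/-- standard mark of a rooted loop in the part `(k, v)` -/
noncomputable def unmark {Ω : Type} (i : Idx) (q : ℂ × ℝ × Ω) : Mark Ω :=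
  ((projIcc 0 1 zero_le_one (2 ^ i.1 * q.1.re - i.2.1),
    projIcc 0 1 zero_le_one (2 ^ i.1 * q.1.im - i.2.2),
    projIcc 0 1 zero_le_one (4 / 3 * (1 - 1 / (4 ^ i.1 * q.2.1)))), q.2.2)

/-- the standard configuration of a configuration of rooted loops (short loops only) -/
noncomputable def std {Ω : Type} (w : Cfg (Idx ⊕ (ℤ × ℤ)) (ℂ × ℝ × Ω)) : Conf (Mark Ω) :=
  fun i => ((w (Sum.inl i)).1, fun m => unmark i ((w (Sum.inl i)).2 m))

/-- all marks lie in their part and there is no long loop with root near the disc -/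
def Proper {Ω : Type} (w : Cfg (Idx ⊕ (ℤ × ℤ)) (ℂ × ℝ × Ω)) : Prop :=
  (∀ i m, (w i).2 m ∈ part Ω i) ∧
    ∀ v : ℤ × ℤ, -1 ≤ v.1 → v.1 ≤ 0 → -1 ≤ v.2 → v.2 ≤ 0 → (w (Sum.inr v)).1 = 0

/-- mean number of points in a cell -/
noncomputable def rate (c : ℝ≥0) : ℝ≥0 := c * Real.toNNReal (3 / (8 * Real.pi))

end Pool.Agent.Helper16.CD
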