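import Pool.Agent.Helper16.CD.Main
import Pool.Agent.Helper16.CD.T4
import Pool.Agent.Helper16.CD.T5
import Pool.Agent.Helper16.CD.T6

/-!
# CD: the final statement from the abstract theorem
-/

set_option autoImplicit false

namespace Pool.Agent.Helper16.CD

open MeasureTheory ProbabilityTheory Metric Set
open scoped ENNReal NNReal unitInterval
open Pool.Agent.Helper3.CD

/-- the interface statement of frame F -/
def Iface.ShapeB : Prop :=
  ∀ (Ω : Type) [MeasurableSpace Ω] (P : Measure Ω) [IsProbabilityMeasure P]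
    (B₁ B₂ : ℝ≥0 → Ω → ℝ), IsPlanarBM P B₁ B₂ →
      IsShape ((volume : Measure (I × I × I)).prod P) (shapeB B₁ B₂)

theorem final_of (hM : MainAbs) (hS : Iface.ShapeB) : Final := by
  intro Ω _ P _ B₁ B₂ hB
  obtain ⟨r₀, hr₀, hr⟩ := hM (Mark Ω) _ (shapeB B₁ B₂) (hS Ω P B₁ B₂ hB)
  have hk : 0 < Real.toNNReal (3 / (8 * Real.pi)) := by
    rw [Real.toNNReal_pos]
    positivity
  refine ⟨r₀ / Real.toNNReal (3 / (8 * Real.pi)), div_pos hr₀ hk, ?_⟩
  intro c hc hc0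
  have h1 : 0 < rate c := mul_pos hc hk
  have h2 : rate c < r₀ := by
    unfold rate
    exact (lt_div_iff₀ hk).1 hc0
  obtain ⟨A, hAm, hA0, hA⟩ := hr (rate c) h1 h2
  obtain ⟨A', hA'm, hA'0, hA'⟩ := positive_transfer P c A hAm hA0
  refine ⟨A', hA'm, hA'0, ?_⟩
  intro w hw
  obtain ⟨hwA, hwp⟩ := hA' w hw
  obtain ⟨Y, hY, f, hf, hd⟩ := hA (std w) hwA
  have he := carpet_eq B₁ B₂ hwp
  rw [he]
  obtain ⟨f', hf'⟩ := qs_toC f hf
  exact ⟨Y, hY, f', hf', by rw [dimH_toC]; exact hd⟩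

end Pool.Agent.Helper16.CD
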